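import Pool.Agent.TRH.T1

/-!
# Trap in dimension at least three: AGREE
-/

set_option autoImplicit false

open MeasureTheory Pool.Agent.TRP

noncomputable section

namespace Pool.Agent.TRH

namespace AGREE_

theorem adj_le {d : ℕ} {x y : Site d} (h : (lattice d).Adj x y) (i : Fin d) :
    |y i - x i| ≤ 1 := by
  have h1 : ∑ i, |x i - y i| = 1 := h
  have h2 : |x i - y i| ≤ ∑ i, |x i - y i| :=
    Finset.single_le_sum (f := fun i => |x i - y i|) (fun j _ => abs_nonneg _)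
      (Finset.mem_univ i)
  rw [abs_sub_comm]
  omega

theorem agr {d : ℕ} {S R : Finset (Site d)} {O : Set (Site d)} {u y : Site d} (hu : u ∈ R)
    {k k' : ℤ} (hk : k + 1 ≤ k') (hy : (lattice d).Adj u y)
    (h : ∀ z, (∀ i, |z i - u i| ≤ k') → z ≠ u → (z ∈ S ↔ z ∈ O ∧ z ∉ R)) :
    ∀ z, (∀ i, |z i - y i| ≤ k) → z ≠ y → (z ∈ S.erase u ↔ z ∈ O ∧ z ∉ insert y R) := by
  intro z hz hzy
  by_cases hzu : z = u
  · subst hzu
    constructor
    · intro h1
      exact absurd rfl (Finset.ne_of_mem_erase h1)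
    · intro h1
      exact absurd (Finset.mem_insert_of_mem hu) h1.2
  · have h1 : ∀ i, |z i - u i| ≤ k' := by
      intro i
      have h2 := hz i
      have h3 := adj_le hy i
      have h4 : z i - u i = (z i - y i) + (y i - u i) := by ring
      rw [h4]
      exact (abs_add_le _ _).trans (by linarith)
    have h5 := h z h1 hzu
    rw [Finset.mem_erase, h5, Finset.mem_insert]
    tauto

/-- the part for `Win n` -/
def WP (d n : ℕ) (O : Set (Site d)) : Prop :=
  ∀ (S R : Finset (Site d)) (u : Site d), u ∈ S → u ∈ R → u ∈ O →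
    (∀ z, (∀ i, |z i - u i| ≤ 2 * n) → z ≠ u → (z ∈ S ↔ z ∈ O ∧ z ∉ R)) →
      Win (brd (lattice d) O) n R u → Ess (lattice d) S u

/-- the part for `Lose n` -/
def LP (d n : ℕ) (O : Set (Site d)) : Prop :=
  ∀ (S R : Finset (Site d)) (u : Site d), u ∈ S → u ∈ R → u ∈ O →
    (∀ z, (∀ i, |z i - u i| ≤ 2 * n + 1) → z ≠ u → (z ∈ S ↔ z ∈ O ∧ z ∉ R)) →
      Lose (brd (lattice d) O) n R u → ¬ Ess (lattice d) S u

theorem lp_of_wp (hR : T_REC) (hL : T_LATB) {d n : ℕ} {O : Set (Site d)} (h : WP d n O) :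
    LP d n O := by
  intro S R u hS hu hO ha hl he
  obtain ⟨y, hy, hadj, hne⟩ := (hR (Site d) (lattice d) (par true) ((hL d).2.1 true) S u hS).1 he
  apply hne
  have hyu : y ≠ u := Finset.ne_of_mem_erase hy
  have hyS : y ∈ S := Finset.mem_of_mem_erase hy
  have h1 : ∀ i, |y i - u i| ≤ 2 * (n : ℤ) + 1 := by
    intro i
    have := adj_le hadj i
    have h0 : (0 : ℤ) ≤ n := Int.natCast_nonneg n
    linarith
  have h2 := (ha y h1 hyu).1 hyS
  have hleg : Legal (brd (lattice d) O) R u y := ⟨⟨hadj, hO, h2.1⟩, h2.2⟩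
  exact h (S.erase u) (insert y R) y hy (Finset.mem_insert_self _ _) h2.1
    (agr hu (by linarith) hadj ha) (hl y hleg)

theorem wp_succ (hR : T_REC) (hL : T_LATB) {d n : ℕ} {O : Set (Site d)} (h : LP d n O) :
    WP d (n + 1) O := by
  intro S R u hS hu hO ha hw
  obtain ⟨y, hy, hlose⟩ := hw
  have hadj : (lattice d).Adj u y := hy.1.1
  have hyO : y ∈ O := hy.1.2.2
  have hyu : y ≠ u := fun h1 => (lattice d).irrefl (h1 ▸ hadj)
  have h1 : ∀ i, |y i - u i| ≤ 2 * ((n + 1 : ℕ) : ℤ) := by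
    intro i
    have := adj_le hadj i
    have h0 : (0 : ℤ) ≤ n := Int.natCast_nonneg n
    push_cast
    linarith
  have hyS : y ∈ S := (ha y h1 hyu).2 ⟨hyO, hy.2⟩
  have hyE : y ∈ S.erase u := Finset.mem_erase.2 ⟨hyu, hyS⟩
  refine (hR (Site d) (lattice d) (par true) ((hL d).2.1 true) S u hS).2 ⟨y, hyE, hadj, ?_⟩
  exact h (S.erase u) (insert y R) y hyE (Finset.mem_insert_self _ _) hyO
    (agr hu (by push_cast; linarith) hadj ha) hlose

theorem wp (hR : T_REC) (hL : T_LATB) {d : ℕ} {O : Set (Site d)} : ∀ n, WP d n O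
  | 0 => by
    intro S R u _ _ _ _ hw
    exact absurd hw id
  | n + 1 => wp_succ hR hL (lp_of_wp hR hL (wp hR hL n))

end AGREE_

theorem p_AGREE : T_REC → T_LATB → T_AGREE := by
  intro hR hL d n S R O u hS hu hO
  exact ⟨fun ha hw => AGREE_.wp hR hL n S R u hS hu hO ha hw,
    fun ha hl => AGREE_.lp_of_wp hR hL (AGREE_.wp hR hL n) S R u hS hu hO ha hl⟩

end Pool.Agent.TRH
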