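import Pool.Agent.TRH.T3

/-!
# Trap in dimension at least three: number of king-connected sets (helper65)
-/

set_option autoImplicit false

open MeasureTheory Pool.Agent.TRP

noncomputable section

namespace Pool.Agent.TRH

namespace ANIM_

variable {d : ℕ}

/-- the king steps -/
def box (d : ℕ) : Finset (Site d) := Fintype.piFinset fun _ => Finset.Icc (-1 : ℤ) 1

theorem card_box : (box d).card = 3 ^ d := by
  unfold box
  rw [Fintype.card_piFinset]
  simp

/-- The vertex sets of the walks with `m` steps from `a`. -/
def S : ℕ → Site d → Finset (Finset (Site d))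
  | 0, a => {{a}}
  | m + 1, a => (box d).biUnion fun s => (S m (a + s)).image (insert a)

theorem card_S : ∀ (m : ℕ) (a : Site d), (S m a).card ≤ (3 ^ d) ^ m
  | 0, a => by simp [S]
  | m + 1, a => by
    unfold S
    calc ((box d).biUnion fun s => (S m (a + s)).image (insert a)).card
        ≤ ∑ s ∈ box d, ((S m (a + s)).image (insert a)).card := Finset.card_biUnion_le
      _ ≤ ∑ _s ∈ box d, (3 ^ d) ^ m :=
          Finset.sum_le_sum fun s _ => Finset.card_image_le.trans (card_S m (a + s))
      _ = (3 ^ d) ^ (m + 1) := by
          rw [Finset.sum_const, card_box, smul_eq_mul, pow_succ, mul_comm]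

/-- the step relation -/
def R (u v : Site d) : Prop := ∀ i, |u i - v i| ≤ 1

theorem R_symm {u v : Site d} (h : R u v) : R v u := by
  intro i
  rw [abs_sub_comm]
  exact h i

theorem mem_box {u v : Site d} (h : R u v) : v - u ∈ box d := by
  unfold box
  rw [Fintype.mem_piFinset]
  intro i
  have := abs_le.1 (h i)
  rw [Finset.mem_Icc, Pi.sub_apply]
  constructor <;> linarith [this.1, this.2]

theorem mem_S : ∀ (m : ℕ) (a : Site d) (l : List (Site d)), List.IsChain R (a :: l) →
    l.length ≤ m → (a :: l).toFinset ∈ S m a
  | 0, a, l, _, hl => by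
    have : l = [] := List.length_eq_zero_iff.1 (Nat.le_zero.1 hl)
    subst this
    simp [S]
  | m + 1, a, [], _, _ => by
    unfold S
    rw [Finset.mem_biUnion]
    refine ⟨0, ?_, ?_⟩
    · have : R a a := fun i => by simp
      simpa using mem_box this
    · rw [Finset.mem_image]
      refine ⟨_, mem_S m (a + 0) [] (List.isChain_singleton _) (Nat.zero_le _), ?_⟩
      simp
  | m + 1, a, b :: l, hc, hl => by
    rw [List.isChain_cons_cons] at hc
    unfold S
    rw [Finset.mem_biUnion]
    refine ⟨b - a, mem_box hc.1, ?_⟩
    rw [Finset.mem_image]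
    have hb : a + (b - a) = b := by abel
    rw [hb]
    refine ⟨_, mem_S m b l hc.2 (by simpa using hl), ?_⟩
    simp

/-- leaving a set -/
theorem exit {V : Type} {r : V → V → Prop} {T : V → Prop} {a b : V}
    (h : Relation.ReflTransGen r a b) (ha : T a) (hb : ¬ T b) :
    ∃ u v, r u v ∧ T u ∧ ¬ T v := by
  induction h with
  | refl => exact absurd ha hb
  | @tail c b' h1 h2 ih =>
    by_cases hc : T c
    · exact ⟨c, b', h2, hc, hb⟩
    · exact ih hc

theorem insert_chain {p q : List (Site d)} {u v : Site d}
    (h : List.IsChain R (p ++ u :: q)) (huv : R u v) :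
    List.IsChain R (p ++ u :: v :: u :: q) := by
  rw [List.isChain_split] at h ⊢
  refine ⟨h.1, ?_⟩
  rw [List.isChain_cons_cons, List.isChain_cons_cons]
  exact ⟨huv, R_symm huv, h.2⟩

theorem walk {W : Finset (Site d)} (hW : KConn W) {a : Site d} (ha : a ∈ W) :
    ∀ k, k + 1 ≤ W.card → ∃ l : List (Site d), List.IsChain R (a :: l) ∧ l.length ≤ 2 * k ∧
      (∀ x ∈ a :: l, x ∈ W) ∧ k + 1 ≤ (a :: l).toFinset.card
  | 0, _ => by
    refine ⟨[], List.isChain_singleton _, by simp, ?_, by simp⟩
    intro x hx
    rw [List.mem_singleton] at hx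
    rw [hx]
    exact ha
  | k + 1, hk => by
    obtain ⟨l, hc, hl, hm, hcard⟩ := walk hW ha k (by omega)
    rcases Nat.lt_or_ge (k + 1) (a :: l).toFinset.card with h | h
    · exact ⟨l, hc, by omega, hm, h⟩
    · have hsub : (a :: l).toFinset ⊆ W := fun x hx => hm x (List.mem_toFinset.1 hx)
      have hne : ∃ v ∈ W, v ∉ (a :: l).toFinset := by
        by_contra hcon
        push Not at hcon
        have : W.card ≤ (a :: l).toFinset.card := Finset.card_le_card fun x hx => hcon x hx
        omega
      obtain ⟨v₀, hv₀, hv₀'⟩ := hne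
      obtain ⟨u, v, ⟨hvW, huv⟩, hu, hv⟩ := exit (T := fun x => x ∈ a :: l) (hW a ha v₀ hv₀)
        (by simp) (fun h => hv₀' (List.mem_toFinset.2 h))
      obtain ⟨p, q, hpq⟩ := List.append_of_mem hu
      have hch : List.IsChain R (p ++ u :: v :: u :: q) :=
        insert_chain (by rw [← hpq]; exact hc) huv
      have hlen : (p ++ u :: q).length = l.length + 1 := by rw [← hpq]; simp
      obtain ⟨l', hl'⟩ : ∃ l', p ++ u :: v :: u :: q = a :: l' := by
        cases p with
        | nil =>
          simp only [List.nil_append, List.cons.injEq] at hpq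
          exact ⟨v :: u :: q, by rw [hpq.1]; rfl⟩
        | cons x p =>
          simp only [List.cons_append, List.cons.injEq] at hpq
          exact ⟨p ++ u :: v :: u :: q, by rw [hpq.1]; rfl⟩
      have hmem : ∀ x, x ∈ a :: l' ↔ x = v ∨ x ∈ a :: l := by
        intro x
        rw [← hl', hpq]
        simp only [List.mem_append, List.mem_cons]
        tauto
      refine ⟨l', by rw [← hl']; exact hch, ?_, ?_, ?_⟩
      · have : (p ++ u :: v :: u :: q).length = l'.length + 1 := by rw [hl']; simp
        simp only [List.length_append, List.length_cons] at this hlen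
        omega
      · intro x hx
        rcases (hmem x).1 hx with rfl | hx
        · exact hvW
        · exact hm x hx
      · have hins : insert v (a :: l).toFinset ⊆ (a :: l').toFinset := by
          intro x hx
          rw [List.mem_toFinset, hmem]
          rw [Finset.mem_insert, List.mem_toFinset] at hx
          exact hx
        have h1 := Finset.card_le_card hins
        rw [Finset.card_insert_of_notMem (fun h => hv (List.mem_toFinset.1 h))] at h1
        omega

end ANIM_

open ANIM_ in
theorem p_ANIM : T_ANIM := by
  intro d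
  refine ⟨(3 ^ d) ^ 2, Nat.one_le_pow _ _ (by positivity), ?_⟩
  intro n a
  refine ⟨S (2 * n) a, ?_, ?_⟩
  · rw [← pow_mul]
    exact card_S _ _
  · intro W hW ha hn
    have hpos : 0 < W.card := Finset.card_pos.2 ⟨a, ha⟩
    obtain ⟨l, hc, hl, hm, hcard⟩ := walk hW ha (W.card - 1) (by omega)
    have hsub : (a :: l).toFinset ⊆ W := fun x hx => hm x (List.mem_toFinset.1 hx)
    have heq : (a :: l).toFinset = W := Finset.eq_of_subset_of_card_le hsub (by omega)
    rw [← heq]
    exact mem_S _ _ _ hc (by omega)

end Pool.Agent.TRH
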