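import Pool.Agent.TRH.T3

/-!
# TRH: the boundary of a good set is connected
-/

set_option autoImplicit false

open MeasureTheory Pool.Agent.TRP

noncomputable section

namespace Pool.Agent.TRH

namespace BCONN_

variable {d : ℕ}

/-- unit vector -/
def u (i : Fin d) : Site d := Pi.single i 1

lemma dvt (i : Fin d) : dv (i, true) = u i := by simp [dv, u]

lemma dvf (i : Fin d) : dv (i, false) = - u i := by simp [dv, u]

lemma u_same (i : Fin d) : u i i = 1 := by simp [u]

lemma u_ne {i k : Fin d} (h : k ≠ i) : u i k = 0 := by simp [u, h]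

lemma mem_bdry {R : Finset (Site d)} {q : Site d × (Fin d × Bool)} :
    q ∈ bdry R ↔ q.1 ∈ R ∧ q.1 + dv q.2 ∉ R := by
  simp [bdry]

/-- The boundary element of the edge between `x` and `x + e_i`, if this is a boundary edge. -/
def el (R : Finset (Site d)) (i : Fin d) (x : Site d) : Site d × (Fin d × Bool) :=
  if x ∈ R then (x, (i, true)) else (x + u i, (i, false))

lemma el_mem {R : Finset (Site d)} {i : Fin d} {x : Site d} :
    el R i x ∈ bdry R ↔ ¬ (x ∈ R ↔ x + u i ∈ R) := by
  unfold el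
  split_ifs with h
  · rw [mem_bdry]
    simp only [dvt]
    tauto
  · rw [mem_bdry]
    simp only [dvf, add_neg_cancel_right]
    tauto

open Classical in
/-- The indicator of `E` as a function on the edges. -/
def g (R : Finset (Site d)) (E : Set (Site d × (Fin d × Bool))) (i : Fin d) (x : Site d) :
    ZMod 2 := if el R i x ∈ E then 1 else 0

/-- The indicator of `R`. -/
def ch (R : Finset (Site d)) (x : Site d) : ZMod 2 := if x ∈ R then 1 else 0

/-- `z` is in the unit cube at `x`. -/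
def Nr (x z : Site d) : Prop := ∀ k, x k ≤ z k ∧ z k ≤ x k + 1

lemma Nr.abs {x z z' : Site d} (h : Nr x z) (h' : Nr x z') (k : Fin d) : |z k - z' k| ≤ 1 := by
  have h1 := h k
  have h2 := h' k
  rw [abs_le]
  omega

lemma el_fst (R : Finset (Site d)) (i : Fin d) (x : Site d) :
    (el R i x).1 = x ∨ (el R i x).1 = x + u i := by
  unfold el
  split_ifs
  · left; rfl
  · right; rfl

lemma Nr.self (x : Site d) : Nr x x := fun k => by omega

lemma Nr.one (x : Site d) (i : Fin d) : Nr x (x + u i) := by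
  intro k
  rw [Pi.add_apply]
  by_cases h : k = i
  · subst h
    rw [u_same]
    omega
  · rw [u_ne h]
    omega

lemma Nr.two (x : Site d) {i j : Fin d} (hij : i ≠ j) : Nr x (x + u i + u j) := by
  intro k
  rw [Pi.add_apply, Pi.add_apply]
  by_cases h : k = i
  · subst h
    rw [u_same, u_ne hij]
    omega
  · rw [u_ne h]
    by_cases h' : k = j
    · subst h'
      rw [u_same]
      omega
    · rw [u_ne h']
      omega

lemma near1 (R : Finset (Site d)) (i : Fin d) (x : Site d) : Nr x (el R i x).1 := by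
  rcases el_fst R i x with h | h <;> rw [h]
  · exact Nr.self x
  · exact Nr.one x i

lemma near2 (R : Finset (Site d)) {i j : Fin d} (hij : i ≠ j) (x : Site d) :
    Nr x (el R j (x + u i)).1 := by
  rcases el_fst R j (x + u i) with h | h <;> rw [h]
  · exact Nr.one x i
  · exact Nr.two x hij

section

variable {R : Finset (Site d)} {E : Set (Site d × (Fin d × Bool))}

lemma g_eq_ch {i : Fin d} {x : Site d} (h : el R i x ∈ E ↔ el R i x ∈ bdry R) :
    g R E i x = ch R x + ch R (x + u i) := by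
  unfold g ch
  rw [h, el_mem]
  by_cases h1 : x ∈ R <;> by_cases h2 : x + u i ∈ R <;> simp [h1, h2] <;> decide

lemma sq (hE : ∀ c ∈ E, c ∈ bdry R)
    (hcl : ∀ a ∈ E, ∀ c ∈ bdry R, (∀ i, |a.1 i - c.1 i| ≤ 1) → c ∈ E)
    {i j : Fin d} (hij : i ≠ j) (x : Site d) :
    g R E i x + g R E i (x + u j) = g R E j x + g R E j (x + u i) := by
  by_cases h : ∃ a ∈ E, Nr x a.1
  · obtain ⟨a, ha, hx⟩ := h
    have key : ∀ c : Site d × (Fin d × Bool), Nr x c.1 → (c ∈ E ↔ c ∈ bdry R) :=
      fun c hc => ⟨hE c, fun hb => hcl a ha c hb (hx.abs hc)⟩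
    rw [g_eq_ch (key _ (near1 R i x)), g_eq_ch (key _ (near2 R hij.symm x)),
      g_eq_ch (key _ (near1 R j x)), g_eq_ch (key _ (near2 R hij x)), add_right_comm x (u j) (u i)]
    have : ∀ a b c e : ZMod 2, (a + b) + (e + c) = (a + e) + (b + c) := by decide
    exact this _ _ _ _
  · have key : ∀ c : Site d × (Fin d × Bool), Nr x c.1 → c ∉ E :=
      fun c hc hcE => h ⟨c, hcE, hc⟩
    unfold g
    rw [if_neg (key _ (near1 R i x)), if_neg (key _ (near2 R hij.symm x)),
      if_neg (key _ (near1 R j x)), if_neg (key _ (near2 R hij x))]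

/-- The potential. -/
def f (R : Finset (Site d)) (E : Set (Site d × (Fin d × Bool))) (i0 : Fin d) (M : ℤ)
    (x : Site d) : ZMod 2 := ∑ t ∈ Finset.Icc (x i0) M, g R E i0 (Function.update x i0 t)

lemma g_big {i0 : Fin d} {M : ℤ} (hM : ∀ c ∈ E, c.1 i0 ≤ M) (i : Fin d) {x : Site d}
    (hx : M < x i0) : g R E i x = 0 := by
  unfold g
  rw [if_neg]
  intro h
  have h1 := hM _ h
  have h2 := (near1 R i x) i0
  omega

lemma Icc_ins {a M : ℤ} (h : a ≤ M) :
    Finset.Icc a M = insert a (Finset.Icc (a + 1) M) := by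
  ext t
  simp only [Finset.mem_Icc, Finset.mem_insert]
  omega

lemma Icc_emp {a M : ℤ} (h : M < a) : Finset.Icc a M = ∅ := Finset.Icc_eq_empty (by omega)

lemma two_add (a b : ZMod 2) : a + b + b = a := by revert a b; decide

lemma tel (h : ℤ → ZMod 2) (M : ℤ) (n : ℕ) : ∀ a : ℤ, M + 1 - a = n →
    ∑ t ∈ Finset.Icc a M, (h t + h (t + 1)) = h a + h (M + 1) := by
  induction n with
  | zero =>
    intro a ha
    have h1 : a = M + 1 := by push_cast at ha; omega
    subst h1
    rw [Icc_emp (by omega), Finset.sum_empty]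
    have : ∀ b : ZMod 2, 0 = b + b := by decide
    exact this _
  | succ n ih =>
    intro a ha
    push_cast at ha
    rw [Icc_ins (by omega), Finset.sum_insert (by simp), ih (a + 1) (by omega)]
    have : ∀ b c e : ZMod 2, b + c + (c + e) = b + e := by decide
    exact this _ _ _

lemma f_zero {i0 : Fin d} {M : ℤ} (hM : ∀ c ∈ E, c.1 i0 ≤ M) (x : Site d) :
    f R E i0 M x + f R E i0 M (x + u i0) = g R E i0 x := by
  have h1 : (x + u i0) i0 = x i0 + 1 := by rw [Pi.add_apply, u_same]
  have h2 : ∀ t, Function.update (x + u i0) i0 t = Function.update x i0 t := by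
    intro t
    funext k
    by_cases hk : k = i0
    · subst hk
      simp
    · rw [Function.update_of_ne hk, Function.update_of_ne hk, Pi.add_apply, u_ne hk, add_zero]
  unfold f
  simp only [h1, h2]
  rcases le_or_gt (x i0) M with h | h
  · rw [Icc_ins h, Finset.sum_insert (by simp), Function.update_eq_self]
    exact two_add _ _
  · rw [Icc_emp h, Icc_emp (by omega), g_big hM i0 h]
    simp

lemma f_ne (hE : ∀ c ∈ E, c ∈ bdry R)
    (hcl : ∀ a ∈ E, ∀ c ∈ bdry R, (∀ i, |a.1 i - c.1 i| ≤ 1) → c ∈ E)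
    {i0 : Fin d} {M : ℤ} (hM : ∀ c ∈ E, c.1 i0 ≤ M) {j : Fin d} (hj : j ≠ i0) (x : Site d) :
    f R E i0 M x + f R E i0 M (x + u j) = g R E j x := by
  have h1 : (x + u j) i0 = x i0 := by rw [Pi.add_apply, u_ne hj.symm, add_zero]
  have h2 : ∀ t, Function.update (x + u j) i0 t = Function.update x i0 t + u j := by
    intro t
    funext k
    by_cases hk : k = i0
    · subst hk
      rw [Function.update_self, Pi.add_apply, Function.update_self, u_ne hj.symm, add_zero]
    · rw [Function.update_of_ne hk, Pi.add_apply, Pi.add_apply, Function.update_of_ne hk]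
  have h3 : ∀ t, Function.update x i0 t + u i0 = Function.update x i0 (t + 1) := by
    intro t
    funext k
    by_cases hk : k = i0
    · subst hk
      rw [Pi.add_apply, Function.update_self, Function.update_self, u_same]
    · rw [Pi.add_apply, Function.update_of_ne hk, Function.update_of_ne hk, u_ne hk, add_zero]
  unfold f
  simp only [h1, h2]
  rw [← Finset.sum_add_distrib]
  rcases le_or_gt (x i0) M with h | h
  · have h4 : ∀ t, g R E i0 (Function.update x i0 t) + g R E i0 (Function.update x i0 t + u j) =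
        g R E j (Function.update x i0 t) + g R E j (Function.update x i0 (t + 1)) := by
      intro t
      rw [← h3 t]
      exact sq hE hcl hj.symm _
    simp only [h4]
    have h5 : M + 1 - x i0 = ((M + 1 - x i0).toNat : ℤ) := by omega
    rw [tel (fun t => g R E j (Function.update x i0 t)) M _ (x i0) h5]
    simp only [Function.update_eq_self]
    rw [g_big (x := Function.update x i0 (M + 1)) hM j (by rw [Function.update_self]; omega),
      add_zero]
  · rw [Icc_emp h, Finset.sum_empty, g_big hM j h]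

lemma f_add (hE : ∀ c ∈ E, c ∈ bdry R)
    (hcl : ∀ a ∈ E, ∀ c ∈ bdry R, (∀ i, |a.1 i - c.1 i| ≤ 1) → c ∈ E)
    {i0 : Fin d} {M : ℤ} (hM : ∀ c ∈ E, c.1 i0 ≤ M) (j : Fin d) (x : Site d) :
    f R E i0 M x + f R E i0 M (x + u j) = g R E j x := by
  by_cases hj : j = i0
  · subst hj
    exact f_zero hM x
  · exact f_ne hE hcl hM hj x

lemma eq_of_add {a b : ZMod 2} (h : a + b = 0) : a = b := by revert a b; decide

/-- `f` does not change along an edge which is no boundary edge. -/
lemma f_step (hE : ∀ c ∈ E, c ∈ bdry R)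
    (hcl : ∀ a ∈ E, ∀ c ∈ bdry R, (∀ i, |a.1 i - c.1 i| ≤ 1) → c ∈ E)
    {i0 : Fin d} {M : ℤ} (hM : ∀ c ∈ E, c.1 i0 ≤ M) (e : Fin d × Bool) (x : Site d)
    (hx : x ∈ R ↔ x + dv e ∈ R) : f R E i0 M x = f R E i0 M (x + dv e) := by
  obtain ⟨j, b⟩ := e
  cases b with
  | true =>
    rw [dvt] at hx ⊢
    apply eq_of_add
    rw [f_add hE hcl hM]
    unfold g
    rw [if_neg]
    intro h
    exact (el_mem.1 (hE _ h)) hx
  | false =>
    rw [dvf] at hx ⊢
    symm
    apply eq_of_add
    have h1 : x + -u j + u j = x := by abel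
    have h2 := f_add hE hcl hM j (x + -u j)
    rw [h1] at h2
    rw [h2]
    unfold g
    rw [if_neg]
    intro h
    have h3 := el_mem.1 (hE _ h)
    rw [h1] at h3
    exact h3 hx.symm

open Classical in
/-- The change of `f` along a boundary edge. -/
lemma f_bd (hE : ∀ c ∈ E, c ∈ bdry R)
    (hcl : ∀ a ∈ E, ∀ c ∈ bdry R, (∀ i, |a.1 i - c.1 i| ≤ 1) → c ∈ E)
    {i0 : Fin d} {M : ℤ} (hM : ∀ c ∈ E, c.1 i0 ≤ M) (c : Site d × (Fin d × Bool))
    (hc : c ∈ bdry R) :
    f R E i0 M c.1 + f R E i0 M (c.1 + dv c.2) = if c ∈ E then 1 else 0 := by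
  obtain ⟨x, j, b⟩ := c
  rw [mem_bdry] at hc
  obtain ⟨hx, hx'⟩ := hc
  simp only at hx hx' ⊢
  cases b with
  | true =>
    rw [dvt] at hx' ⊢
    rw [f_add hE hcl hM]
    unfold g
    have h1 : el R j x = (x, (j, true)) := by unfold el; rw [if_pos hx]
    rw [h1]
  | false =>
    rw [dvf] at hx' ⊢
    have h1 : x + -u j + u j = x := by abel
    have h2 := f_add hE hcl hM j (x + -u j)
    rw [h1] at h2
    rw [add_comm, h2]
    unfold g
    have h3 : el R j (x + -u j) = (x, (j, false)) := by unfold el; rw [if_neg hx', h1]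
    rw [h3]

lemma joins_const {X : Set (Site d)} {F : Site d → ZMod 2}
    (hF : ∀ x ∈ X, ∀ e, x + dv e ∈ X → F x = F (x + dv e)) {x y : Site d} (hx : x ∈ X)
    (h : Joins X x y) : y ∈ X ∧ F x = F y := by
  induction h with
  | refl => exact ⟨hx, rfl⟩
  | tail _ hbc ih =>
    obtain ⟨⟨e, he⟩, hc⟩ := hbc
    refine ⟨hc, ih.2.trans ?_⟩
    rw [he] at hc ⊢
    exact hF _ ih.1 e hc

end

end BCONN_

open BCONN_ in
theorem p_BCONN : T_BCONN := by
  intro d R hd hR q hq q' hq'
  obtain ⟨_, hc1, hc2⟩ := hR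
  set r : Site d × (Fin d × Bool) → Site d × (Fin d × Bool) → Prop :=
    fun a c => c ∈ bdry R ∧ ∀ i, |a.1 i - c.1 i| ≤ 1 with hr
  let E : Set (Site d × (Fin d × Bool)) := {c | Relation.ReflTransGen r q c}
  have hE : ∀ c ∈ E, c ∈ bdry R := by
    intro c hc
    rcases Relation.ReflTransGen.cases_tail (show Relation.ReflTransGen r q c from hc) with
      h | ⟨b, _, hb⟩
    · rw [h]; exact hq
    · exact hb.1
  have hcl : ∀ a ∈ E, ∀ c ∈ bdry R, (∀ i, |a.1 i - c.1 i| ≤ 1) → c ∈ E := by
    intro a ha c hc hac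
    exact Relation.ReflTransGen.tail ha ⟨hc, hac⟩
  have hqE : q ∈ E := Relation.ReflTransGen.refl
  let i0 : Fin d := ⟨0, by omega⟩
  obtain ⟨M, hM0⟩ : ∃ M : ℤ, ∀ c ∈ bdry R, c.1 i0 ≤ M := by
    obtain ⟨M, hM⟩ := ((bdry R).image fun c => c.1 i0).bddAbove
    exact ⟨M, fun c hc => hM (by
      rw [Finset.mem_coe]
      exact Finset.mem_image_of_mem _ hc)⟩
  have hM : ∀ c ∈ E, c.1 i0 ≤ M := fun c hc => hM0 c (hE c hc)
  have hb := mem_bdry.1 hq
  have hb' := mem_bdry.1 hq'
  have k1 := (joins_const (X := (R : Set (Site d))) (F := f R E i0 M)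
    (fun x hx e hxe => f_step hE hcl hM e x (by
      rw [Finset.mem_coe] at hx hxe
      exact ⟨fun _ => hxe, fun _ => hx⟩))
    (Finset.mem_coe.2 hb.1) (hc1 _ (Finset.mem_coe.2 hb.1) _ (Finset.mem_coe.2 hb'.1))).2
  have k2 := (joins_const (X := ((R : Set (Site d))ᶜ)) (F := f R E i0 M)
    (fun x hx e hxe => f_step hE hcl hM e x (by
      rw [Set.mem_compl_iff, Finset.mem_coe] at hx hxe
      exact ⟨fun h => absurd h hx, fun h => absurd h hxe⟩))
    (show q.1 + dv q.2 ∈ ((R : Set (Site d))ᶜ) from hb.2)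
    (hc2 _ (show q.1 + dv q.2 ∈ ((R : Set (Site d))ᶜ) from hb.2) _
      (show q'.1 + dv q'.2 ∈ ((R : Set (Site d))ᶜ) from hb'.2))).2
  have k3 := f_bd hE hcl hM q hq
  have k4 := f_bd hE hcl hM q' hq'
  rw [if_pos hqE] at k3
  rw [← k1, ← k2, k3] at k4
  by_contra hcon
  rw [if_neg (show q' ∉ E from hcon)] at k4
  exact one_ne_zero k4

end Pool.Agent.TRH
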