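import Pool.Agent.TRH.T3

/-!
# BINOM: the number of small subsets
-/

set_option autoImplicit false

open MeasureTheory Pool.Agent.TRP

noncomputable section

namespace Pool.Agent.TRH

theorem p_BINOM : T_BINOM := by
  intro T _ s n x h0 h1
  have h2 : (1 + x) ^ s.card = ∑ B ∈ s.powerset, x ^ B.card := by
    rw [add_comm, ← Finset.sum_pow_mul_eq_add_pow]
    exact Finset.sum_congr rfl fun B _ => by rw [one_pow, mul_one]
  rw [h2, ← nsmul_eq_mul, ← Finset.sum_const]
  calc ∑ _B ∈ s.powerset.filter (fun B => B.card ≤ n), x ^ n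
      ≤ ∑ B ∈ s.powerset.filter (fun B => B.card ≤ n), x ^ B.card :=
        Finset.sum_le_sum fun B hB => pow_le_pow_of_le_one h0.le h1 (Finset.mem_filter.1 hB).2
    _ ≤ ∑ B ∈ s.powerset, x ^ B.card :=
        Finset.sum_le_sum_of_subset_of_nonneg (Finset.filter_subset _ _)
          fun B _ _ => pow_nonneg h0.le _

end Pool.Agent.TRH
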