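import Pool.Agent.TRH.T3

/-!
# Trap in dimension at least three: the coarse boundary (target CBD)
-/

set_option autoImplicit false

open MeasureTheory Pool.Agent.TRP

noncomputable section

namespace Pool.Agent.TRH

namespace CBD_

lemma mem_bdry {d : ℕ} {R : Finset (Site d)} {q : Site d × (Fin d × Bool)} :
    q ∈ bdry R ↔ q.1 ∈ R ∧ q.1 + dv q.2 ∉ R := by
  simp [bdry]

lemma mem_cube {d : ℕ} {j : ℕ} {a x : Site d} :
    x ∈ cube j a ↔ ∀ i, 2 ^ j * a i ≤ x i ∧ x i < 2 ^ j * (a i + 1) := by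
  simp [cube, Fintype.mem_piFinset]

/-- the side lengths of the union of two neighbouring cubes -/
def len {d : ℕ} (j : ℕ) (i0 i : Fin d) : ℕ := if i = i0 then 2 ^ (j + 1) else 2 ^ j

lemma box {d : ℕ} (j : ℕ) (c : Site d) (i0 : Fin d) :
    cube j c ∪ cube j (c + Pi.single i0 1) = Fintype.piFinset
      (fun i => Finset.Ico ((fun i => 2 ^ j * c i) i) ((fun i => 2 ^ j * c i) i + len j i0 i)) := by
  have hP : (0 : ℤ) < 2 ^ j := by positivity
  have hS : (Pi.single i0 1 : Site d) i0 = 1 := by simp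
  have hN : ∀ i, i ≠ i0 → (Pi.single i0 1 : Site d) i = 0 := by
    intro i hi
    simp [hi]
  have hl0 : ((len j i0 i0 : ℕ) : ℤ) = 2 * 2 ^ j := by
    simp [len]
    ring
  have hl1 : ∀ i, i ≠ i0 → ((len j i0 i : ℕ) : ℤ) = 2 ^ j := by
    intro i hi
    simp [len, hi]
  ext x
  simp only [Finset.mem_union, mem_cube, Fintype.mem_piFinset, Finset.mem_Ico, Pi.add_apply]
  constructor
  · rintro (h | h) i
    · have h1 := h i
      by_cases hi : i = i0
      · subst hi
        rw [hl0]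
        constructor <;> linarith [h1.1, h1.2]
      · rw [hl1 i hi]
        constructor <;> linarith [h1.1, h1.2]
    · have h1 := h i
      by_cases hi : i = i0
      · subst hi
        rw [hS] at h1
        rw [hl0]
        constructor <;> linarith [h1.1, h1.2]
      · rw [hN i hi] at h1
        rw [hl1 i hi]
        constructor <;> linarith [h1.1, h1.2]
  · intro h
    by_cases hx : x i0 < 2 ^ j * (c i0 + 1)
    · left
      intro i
      have h1 := h i
      by_cases hi : i = i0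
      · subst hi
        exact ⟨h1.1, hx⟩
      · rw [hl1 i hi] at h1
        constructor <;> linarith [h1.1, h1.2]
    · right
      push Not at hx
      intro i
      have h1 := h i
      by_cases hi : i = i0
      · subst hi
        rw [hS]
        rw [hl0] at h1
        constructor <;> linarith [h1.1, h1.2]
      · rw [hN i hi]
        rw [hl1 i hi] at h1
        constructor <;> linarith [h1.1, h1.2]

lemma pair (h1 : T_CUBF) (h2 : T_ISO) {d : ℕ} (hd : 1 ≤ d) (R : Finset (Site d)) (j : ℕ)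
    (c : Site d) (i0 : Fin d) (s s' : Site d) (hss : s ≠ s')
    (hs : s = c ∧ s' = c + Pi.single i0 1 ∨ s' = c ∧ s = c + Pi.single i0 1)
    (ha : 2 ^ (j * d) ≤ 2 * (R ∩ cube j s).card) (hb : 2 * (R ∩ cube j s').card < 2 ^ (j * d)) :
    2 ^ (j * (d - 1)) ≤
      16 * ((bdry R).filter fun y => cub j y.1 = s ∨ cub j y.1 = s').card := by
  obtain ⟨c1, c2, -, -, -, -, -, -⟩ := h1 d
  have hX : cube j s ∪ cube j s' = Fintype.piFinset
      (fun i => Finset.Ico ((fun i => 2 ^ j * c i) i)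
        ((fun i => 2 ^ j * c i) i + len j i0 i)) := by
    rw [← box j c i0]
    rcases hs with ⟨e1, e2⟩ | ⟨e1, e2⟩
    · rw [e1, e2]
    · rw [e1, e2, Finset.union_comm]
  have hlen : ∀ i, len j i0 i ≤ 2 ^ (j + 1) := by
    intro i
    unfold len
    split_ifs
    · exact le_rfl
    · exact Nat.pow_le_pow_right (by norm_num) (by omega)
  have hiso := h2 d (2 ^ (j + 1)) (fun i => 2 ^ j * c i) (len j i0) hlen _ R hX
  have hcard : (cube j s ∪ cube j s').card ≤ 2 * 2 ^ (j * d) := by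
    refine (Finset.card_union_le _ _).trans ?_
    rw [c2, c2]
    omega
  have hin : (R ∩ cube j s).card ≤ ((cube j s ∪ cube j s') ∩ R).card := by
    apply Finset.card_le_card
    intro x hx
    rw [Finset.mem_inter] at hx ⊢
    exact ⟨Finset.mem_union_left _ hx.2, hx.1⟩
  have hout : (cube j s' \ R).card ≤ ((cube j s ∪ cube j s') \ R).card := by
    apply Finset.card_le_card
    intro x hx
    rw [Finset.mem_sdiff] at hx ⊢
    exact ⟨Finset.mem_union_right _ hx.1, hx.2⟩
  have hsplit : (cube j s' \ R).card + (R ∩ cube j s').card = 2 ^ (j * d) := by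
    rw [← c2 j s', Finset.inter_comm]
    exact Finset.card_sdiff_add_card_inter _ _
  have hN : ((bdry R).filter fun q => q.1 ∈ cube j s ∪ cube j s' ∧
      q.1 + dv q.2 ∈ cube j s ∪ cube j s').card ≤
      ((bdry R).filter fun y => cub j y.1 = s ∨ cub j y.1 = s').card := by
    apply Finset.card_le_card
    intro q hq
    rw [Finset.mem_filter] at hq ⊢
    refine ⟨hq.1, ?_⟩
    have h3 := hq.2.1
    rw [Finset.mem_union, c1, c1] at h3
    exact h3
  obtain ⟨P, hP⟩ : ∃ P : ℕ, P = 2 ^ (j * d) := ⟨_, rfl⟩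
  obtain ⟨p, hp⟩ : ∃ p : ℕ, p = 2 ^ j := ⟨_, rfl⟩
  obtain ⟨Q, hQ⟩ : ∃ Q : ℕ, Q = 2 ^ (j * (d - 1)) := ⟨_, rfl⟩
  have hPQ : P = Q * p := by
    rw [hP, hQ, hp, ← pow_add]
    congr 1
    obtain ⟨m, rfl⟩ : ∃ m, d = m + 1 := ⟨d - 1, by omega⟩
    simp
    ring
  have hpp : 2 ^ (j + 1) = 2 * p := by
    rw [hp]
    ring
  have hP0 : 0 < P := by
    rw [hP]
    positivity
  have hp0 : 0 < p := by
    rw [hp]
    positivity
  rw [← hP] at ha hb hcard hsplit
  rw [hpp] at hiso
  rw [← hQ]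
  obtain ⟨M, hM⟩ : ∃ M, M = ((bdry R).filter fun y => cub j y.1 = s ∨ cub j y.1 = s').card :=
    ⟨_, rfl⟩
  rw [← hM] at hN ⊢
  obtain ⟨A, hA⟩ : ∃ A, A = ((cube j s ∪ cube j s') ∩ R).card := ⟨_, rfl⟩
  obtain ⟨B, hB⟩ : ∃ B, B = ((cube j s ∪ cube j s') \ R).card := ⟨_, rfl⟩
  rw [← hA] at hin hiso
  rw [← hB] at hout hiso
  have hA2 : P ≤ 2 * A := by omega
  have hB2 : P ≤ 2 * B := by omega
  have h3 : P * P ≤ (2 * A) * (2 * B) := Nat.mul_le_mul hA2 hB2
  have h4 : A * B ≤ 2 * p * (2 * P) * M :=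
    hiso.trans (Nat.mul_le_mul (Nat.mul_le_mul_left _ hcard) hN)
  have h5 : P * P ≤ P * (16 * p * M) := by
    calc P * P ≤ 4 * (A * B) := h3.trans_eq (by ring)
      _ ≤ 4 * (2 * p * (2 * P) * M) := Nat.mul_le_mul_left _ h4
      _ = P * (16 * p * M) := by ring
  have h6 : P ≤ 16 * p * M := Nat.le_of_mul_le_mul_left h5 hP0
  rw [hPQ] at h6
  have h7 : p * Q ≤ p * (16 * M) := by
    calc p * Q = Q * p := by ring
      _ ≤ 16 * p * M := h6
      _ = p * (16 * M) := by ring
  exact Nat.le_of_mul_le_mul_left h7 hp0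

lemma one (h1 : T_CUBF) (h2 : T_ISO) {d : ℕ} (hd : 1 ≤ d) (R : Finset (Site d)) (j : ℕ)
    {q : Site d × (Fin d × Bool)} (hq : q ∈ bdry (maj j R)) :
    2 ^ (j * (d - 1)) ≤
      16 * ((bdry R).filter fun y => cub j y.1 = q.1 ∨ cub j y.1 = q.1 + dv q.2).card := by
  obtain ⟨-, -, -, -, -, c6, -, -⟩ := h1 d
  rw [mem_bdry] at hq
  have hne : q.1 ≠ q.1 + dv q.2 := by
    intro h
    apply hq.2
    rw [← h]
    exact hq.1
  have ha := (c6 j R q.1).1 hq.1
  have hb : 2 * (R ∩ cube j (q.1 + dv q.2)).card < 2 ^ (j * d) := by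
    by_contra h
    push Not at h
    exact hq.2 ((c6 j R _).2 h)
  rcases q with ⟨a, i0, b⟩
  simp only at hne ha hb ⊢
  rcases b with _ | _
  · refine pair h1 h2 hd R j (a - Pi.single i0 1) i0 a _ hne (Or.inr ⟨?_, ?_⟩) ha hb
    · simp [dv, sub_eq_add_neg]
    · simp
  · refine pair h1 h2 hd R j a i0 a _ hne (Or.inl ⟨rfl, ?_⟩) ha hb
    simp [dv]

lemma fibre {d : ℕ} (M : Finset (Site d × (Fin d × Bool))) (c : Site d) :
    (M.filter fun q => c = q.1 ∨ c = q.1 + dv q.2).card ≤ 4 * d := by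
  have hsub : (M.filter fun q => c = q.1 ∨ c = q.1 + dv q.2) ⊆
      (Finset.univ.image fun f : Fin d × Bool => ((c, f) : Site d × (Fin d × Bool))) ∪
      (Finset.univ.image fun f : Fin d × Bool => ((c - dv f, f) : Site d × (Fin d × Bool))) := by
    intro q hq
    rw [Finset.mem_filter] at hq
    rw [Finset.mem_union, Finset.mem_image, Finset.mem_image]
    rcases hq.2 with h | h
    · left
      exact ⟨q.2, Finset.mem_univ _, by rw [h]⟩
    · right
      exact ⟨q.2, Finset.mem_univ _, by rw [h, add_sub_cancel_right]⟩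
  refine (Finset.card_le_card hsub).trans ((Finset.card_union_le _ _).trans ?_)
  have h1 : Fintype.card (Fin d × Bool) = 2 * d := by
    rw [Fintype.card_prod, Fintype.card_fin, Fintype.card_bool]
    ring
  have h2 := Finset.card_image_le (s := (Finset.univ : Finset (Fin d × Bool)))
    (f := fun f => ((c, f) : Site d × (Fin d × Bool)))
  have h3 := Finset.card_image_le (s := (Finset.univ : Finset (Fin d × Bool)))
    (f := fun f => ((c - dv f, f) : Site d × (Fin d × Bool)))
  rw [Finset.card_univ, h1] at h2 h3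
  omega

lemma exists_bdry {d : ℕ} (hd : 1 ≤ d) {M : Finset (Site d)} (hM : M.Nonempty) :
    (bdry M).Nonempty := by
  obtain ⟨x, hx, hmax⟩ := Finset.exists_max_image M (fun x => x ⟨0, hd⟩) hM
  refine ⟨(x, (⟨0, hd⟩, true)), ?_⟩
  rw [mem_bdry]
  refine ⟨hx, fun h => ?_⟩
  have h1 := hmax _ h
  simp [dv] at h1

end CBD_

theorem p_CBD : T_CUBF → T_ISO → T_CBD := by
  intro h1 h2 d hd R j
  have hA : (bdry (maj j R)).card * 2 ^ (j * (d - 1)) ≤ 64 * d * (bdry R).card := by
    calc (bdry (maj j R)).card * 2 ^ (j * (d - 1))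
        = ∑ _q ∈ bdry (maj j R), 2 ^ (j * (d - 1)) := by rw [Finset.sum_const, smul_eq_mul]
      _ ≤ ∑ q ∈ bdry (maj j R), 16 *
          ((bdry R).filter fun y => cub j y.1 = q.1 ∨ cub j y.1 = q.1 + dv q.2).card :=
          Finset.sum_le_sum fun q hq => CBD_.one h1 h2 hd R j hq
      _ = 16 * ∑ q ∈ bdry (maj j R),
          ((bdry R).filter fun y => cub j y.1 = q.1 ∨ cub j y.1 = q.1 + dv q.2).card := by
          rw [Finset.mul_sum]
      _ = 16 * ∑ y ∈ bdry R, ((bdry (maj j R)).filter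
          fun q => cub j y.1 = q.1 ∨ cub j y.1 = q.1 + dv q.2).card := by
          congr 1
          exact Finset.sum_card_bipartiteAbove_eq_sum_card_bipartiteBelow
            (fun q y : Site d × (Fin d × Bool) => cub j y.1 = q.1 ∨ cub j y.1 = q.1 + dv q.2)
      _ ≤ 16 * ∑ _y ∈ bdry R, 4 * d := by
          apply Nat.mul_le_mul_left
          exact Finset.sum_le_sum fun y _ => CBD_.fibre _ _
      _ = 64 * d * (bdry R).card := by
          rw [Finset.sum_const, smul_eq_mul]
          ring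
  refine ⟨hA, ?_, ?_⟩
  · intro q hq
    have h3 := CBD_.one h1 h2 hd R j hq
    have h4 : 0 < 2 ^ (j * (d - 1)) := by positivity
    have h5 : 0 < ((bdry R).filter
        fun y => cub j y.1 = q.1 ∨ cub j y.1 = q.1 + dv q.2).card := by omega
    obtain ⟨y, hy⟩ := Finset.card_pos.1 h5
    rw [Finset.mem_filter] at hy
    exact ⟨y, hy.1, hy.2⟩
  · intro h
    by_contra hne
    have h3 := CBD_.exists_bdry hd (Finset.nonempty_iff_ne_empty.2 hne)
    have h4 := Finset.card_pos.2 h3
    have h5 : 1 * 2 ^ (j * (d - 1)) ≤ (bdry (maj j R)).card * 2 ^ (j * (d - 1)) :=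
      Nat.mul_le_mul_right _ h4
    omega

end Pool.Agent.TRH
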