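import Pool.Agent.TRH.Defs

/-!
# Trap in dimension at least three: targets, part 4 (probability and conclusion)
-/

set_option autoImplicit false

open MeasureTheory Pool.Agent.TRP

noncomputable section

namespace Pool.Agent.TRH

/-- PRB. Basic facts on `ev` and `pr`. First: total weight `(p + (1 - p)) ^ |F|`
(`Finset.sum_pow_mul_eq_add_pow`). Sixth (sites outside `F` do not matter) is the special case of
the fifth (`F'` is the disjoint union of `F' \ F` and `F`). Fifth: subsets of `S ∪ T` are unions of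
subsets, `wt (S ∪ T) p (B ∪ C) = wt T p B * wt S p C`. Seventh: `A ↦ A.image σ` is a bijection of
the subsets of `F` which preserves the size. -/
def T_PRB : Prop :=
  ∀ (V : Type) [DecidableEq V] (F : Finset V) (p : ℝ),
    (ev F p fun _ => 1) = 1 ∧
    (∀ E : Finset V → Prop, [DecidablePred E] → pr F p E = ev F p fun A => if E A then 1 else 0) ∧
    (0 ≤ p → p ≤ 1 → ∀ f g : Finset V → ℝ, (∀ A, A ⊆ F → f A ≤ g A) → ev F p f ≤ ev F p g) ∧
    (0 ≤ p → p ≤ 1 → ∀ E E' E'' : Finset V → Prop, (∀ A, A ⊆ F → E A → E' A ∨ E'' A) →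
      pr F p E ≤ pr F p E' + pr F p E'') ∧
    (∀ (S T : Finset V) (f : Finset V → ℝ), Disjoint S T →
      ev (S ∪ T) p f = ev T p fun B => ev S p fun C => f (B ∪ C)) ∧
    (∀ (F' : Finset V) (E E' : Finset V → Prop), F ⊆ F' →
      (∀ A, A ⊆ F' → (E' A ↔ E (A ∩ F))) → pr F' p E' = pr F p E) ∧
    (∀ (σ : Equiv.Perm V) (f : Finset V → ℝ), (∀ x, σ x ∈ F ↔ x ∈ F) →
      (ev F p fun A => f (A.image σ)) = ev F p f) ∧
    (0 ≤ p → p ≤ 1 → ∀ (T : Type) (I : Finset T) (E : Finset V → Prop) (E' : T → Finset V → Prop),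
      (∀ A, A ⊆ F → E A → ∃ t ∈ I, E' t A) → pr F p E ≤ ∑ t ∈ I, pr F p (E' t)) ∧
    (0 ≤ p → p ≤ 1 → ∀ E : Finset V → Prop, 0 ≤ pr F p E ∧ pr F p E ≤ 1)

/-- EXPM. Exponential moment of a function of independent sites. Induction on `S`. For
`S = insert x S'` (`x ∉ S'`) and `A ⊆ S'` let `h0 A = h A`, `h1 A = h (insert x A)`,
`k = (1 - p) h0 + p h1`; `k` satisfies the hypothesis for `S'` and `ev S' p k = ev S p h = c`
(`ev S p f = ev S' p (fun A => (1 - p) f A + p f (insert x A))`). With `u = z (h1 A - h0 A)`,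
`|u| ≤ 2 |z|`: `(1-p) exp (z (h0 - c)) + p exp (z (h1 - c))` is
`exp (z (k A - c)) ((1-p) exp (-p u) + p exp ((1-p) u))`, and
`(1-p) exp (-p u) + p exp ((1-p) u) = exp (-p u) (1 + p (exp u - 1)) ≤ exp (p (exp u - 1 - u))`,
`exp u - 1 - u ≤ (u² / 2) exp |u| ≤ 2 z² exp (2 |z|)`. -/
def T_EXPM : Prop :=
  ∀ (V : Type) [DecidableEq V] (S : Finset V) (h : Finset V → ℝ),
    (∀ A, A ⊆ S → ∀ x ∈ S, x ∉ A → |h (insert x A) - h A| ≤ 2) →
    ∀ p z : ℝ, 0 ≤ p → p ≤ 1 →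
      (ev S p fun A => Real.exp (z * (h A - ev S p h))) ≤
        Real.exp (2 * p * z ^ 2 * Real.exp (2 * |z|) * S.card)

/-- ROTP. Two rotated environments. Let `σ, σ'` be the permutations `rot U e`, `rot U' e`
(`T_ROT`), `τ = σ ∘ σ'⁻¹`; they map `F` to `F`. By Markov and invariance (`T_PRB`, seventh part,
`B = A.image σ'`) the probability is at most
`exp (-z t) ev F p (fun B => exp (z (alpha (L \ B.image τ) - alpha (L \ B))))`. Let
`S = F.filter (τ x ≠ x)`; `|S| ≤ 3 |symmDiff U U'|` by `T_SUPP` (`τ x ≠ x` iff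
`σ y ≠ σ' y` for `y = σ'⁻¹ x`). Split `B = B0 ∪ B1` with `B0 ⊆ F \ S`, `B1 ⊆ S` (`T_PRB`, fifth
part): `B.image τ = B0 ∪ B1.image τ`. For fixed `B0` the function
`h B1 = alpha (L \ (B0 ∪ B1.image τ)) - alpha (L \ (B0 ∪ B1))` has mean `0` (`T_PRB`, seventh part
on `S`; `τ` maps `S` to `S`) and changes by at most `2` when one site is added to `B1`
(`T_LATT`), so `T_EXPM` bounds the inner expectation by
`exp (2 p z² exp (2 z) · 3 |symmDiff U U'|)`. -/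
def T_ROTP : Prop :=
  ∀ (d : ℕ) (L F U U' : Finset (Site d)) (e : Fin d × Bool) (p z t : ℝ), U ⊆ F → U' ⊆ F →
    0 ≤ p → p ≤ 1 → 0 ≤ z →
    pr F p (fun A => t ≤ (alpha (lattice d) (L \ A.image (rot U e)) : ℝ) -
      alpha (lattice d) (L \ A.image (rot U' e))) ≤
      Real.exp (-z * t + 6 * p * z ^ 2 * Real.exp (2 * z) * (symmDiff U U').card)

/-- CHN. Chaining. Write `a U = alpha (L \ A.image (rot U e))`; `a ∅ = alpha (L \ A)` (`rot ∅ e` is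
the identity) and `fat 0 (maj 0 R) = R` (`T_CUBF`). For `R` as in the event with
`4 d (a R - a ∅) ≥ m` write `a R - a ∅` as the sum of `a (fat j (maj j R)) -
a (fat (j+1) (maj (j+1) R))`, `j < J`. As `∑_(j < J) 1 / (j+1)² < 2`, some `j < J` has difference
at least `m / (8 d (j+1)²)`. Union bound (`T_PRB`) over `j`, `e`, the pairs in `Q j`, and
`T_ROTP`. -/
def T_CHN : Prop :=
  ∀ (d : ℕ) (L F : Finset (Site d)) (p : ℝ) (m J : ℕ) (H : Finset (Site d) → Prop)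
    (Q : ℕ → Finset (Finset (Site d) × Finset (Site d))) (D z : ℕ → ℝ), 1 ≤ d → 1 ≤ m → 0 ≤ p →
    p ≤ 1 → (∀ j, 0 ≤ z j) →
    (∀ R, H R → fat J (maj J R) = ∅ ∧
      ∀ j < J, (fat j (maj j R), fat (j + 1) (maj (j + 1) R)) ∈ Q j) →
    (∀ j < J, ∀ u ∈ Q j, u.1 ⊆ F ∧ u.2 ⊆ F ∧ ((symmDiff u.1 u.2).card : ℝ) ≤ D j) →
    pr F p (fun A => ∃ R, H R ∧ ∃ e, (m : ℝ) ≤
      4 * d * ((alpha (lattice d) (L \ A.image (rot R e)) : ℝ) - alpha (lattice d) (L \ A))) ≤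
      ∑ j ∈ Finset.range J, 2 * d * (Q j).card *
        Real.exp (-z j * (m / (8 * d * (j + 1) ^ 2)) +
          6 * p * z j ^ 2 * Real.exp (2 * z j) * D j)

/-- NUM. The numbers. Let `Λ = log (1/p) / 4`, so `z = Λ / (2^j (j+1)²) ≤ Λ`,
`exp (2 z) ≤ p ^ (-1/2)`, and `h = m / (2^j (j+1)^4)`. The exponent is at most
`3 E (j+1) (m / 4^j + 1) - Λ h / (8 d) + 6 D √p Λ² h`. Now (a) `6 D √p Λ ≤ 1 / (16 d)` for small
`p`. (b) `4^j ≤ 2^(j (d-1)) ≤ B m`, so `m / 4^j + 1 ≤ (1 + B) m / 4^j`, and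
`(j+1) m / 4^j = h (j+1)^5 / 2^j ≤ K h`. (c) `(j+1)^8 ≤ K' 2^j`, so
`h² ≥ m² / (K' 8^j) ≥ m² / (K' (B m)^(3/2))`, i.e. `h ≥ c m^(1/4)`, `c > 0`. So the exponent is at
most `-(Λ / (16 d) - 3 E (1 + B) K) h ≤ -(Λ / (32 d)) h` for small `p`, and
`(Λ / (64 d)) h ≥ 2 log (1/p)` if `c m^(1/4) ≥ 512 d` (this fixes `m0`), and
`(Λ / (64 d)) h ≥ (d + 6) log m + log (4 d)` for `m ≥ m0` and `Λ` large (`log m ≤ K'' m^(1/4)`).
Each term is at most `2 d m² p² exp (-(d+6) log m - log (4 d)) ≤ p² / (2 m^(d+4))`, and there are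
`J ≤ m` of them if `m ≥ m0` (`2^(2 (J-1)) ≤ B m`). -/
def T_NUM : Prop :=
  ∀ (d : ℕ) (E D B : ℝ), 3 ≤ d → 1 ≤ E → 1 ≤ D → 1 ≤ B → ∃ (p0 : ℝ) (m0 : ℕ), 0 < p0 ∧
    p0 ≤ 1 / 2 ∧ 1 ≤ m0 ∧ ∀ (p : ℝ) (m J : ℕ), 0 < p → p ≤ p0 → m0 ≤ m →
      (∀ j < J, (2 : ℝ) ^ (j * (d - 1)) ≤ B * m) →
      ∑ j ∈ Finset.range J, 2 * d * ((m : ℝ) ^ 2 *
          Real.exp (3 * E * (j + 1) * ((m : ℝ) / 4 ^ j + 1))) *
        Real.exp (-(Real.log (1 / p) / 4 / (2 ^ j * (j + 1) ^ 2)) * (m / (8 * d * (j + 1) ^ 2)) +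
          6 * p * (Real.log (1 / p) / 4 / (2 ^ j * (j + 1) ^ 2)) ^ 2 *
            Real.exp (2 * (Real.log (1 / p) / 4 / (2 ^ j * (j + 1) ^ 2))) * (D * 2 ^ j * m)) ≤
        p ^ 2 / (2 * (m : ℝ) ^ (d + 3))

/-- HALF. Half of the boundary edges have a closed inner end. `T_COUNT` for `j = 0`
(`maj 0 R = R`, `T_CUBF`): at most `m exp (C (m + 1))` sets `R`. For one `R` let
`B = (bdry R).image Prod.fst`, `|B| ≤ m`; every site is the inner end of at most `2 d` elements, so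
`|A ∩ B| ≥ m / (4 d)`. The probability that `A` contains a given `T ⊆ F` is `p ^ |T|` (`T_PRB`,
split `F = (F \ T) ∪ T`), so the probability of `|A ∩ B| ≥ k` is at most `2 ^ m p ^ k`,
`k = ⌈m / (4 d)⌉`. For `m ≥ 16 d`, `k ≥ 2 + m / (8 d)`, and
`m exp (C (m + 1)) 2 ^ m p ^ (m / (8 d)) ≤ 1 / (2 m ^ (d+3))` for all `m ≥ 1` if `p ≤ p0` is
small. -/
def T_HALF : Prop :=
  ∀ d : ℕ, 3 ≤ d → ∃ (p0 : ℝ) (m0 : ℕ), 0 < p0 ∧ p0 ≤ 1 / 2 ∧ 1 ≤ m0 ∧
    ∀ (p : ℝ) (m : ℕ) (F : Finset (Site d)), 0 < p → p ≤ p0 → m0 ≤ m →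
      pr F p (fun A => ∃ R, R ⊆ F ∧ Good R ∧ (bdry R).card = m ∧
        m ≤ 2 * ((bdry R).filter fun q => q.1 ∈ A).card) ≤ p ^ 2 / (2 * (m : ℝ) ^ (d + 3))

/-- KEY. Large regions with a gain are improbable. Choose `J` least with
`64 d m < 2 ^ (J (d-1))` and `F = bx d (n + 2 ^ J)`. The event depends only on `A ∩ bx d n`
(`reg d n b ⊆ bx d n`, `rot R e` maps `bx d n` to itself for `R ⊆ bx d n`, `T_ROT`), so by `T_PRB`
(sixth part) its probability may be computed with `F`. For `R` in the event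
`∑_e |lastO R A e|` is the number of `q ∈ bdry R` with `q.1 ∉ A`. Either `m ≤ 2 |{q : q.1 ∈ A}|`
(`T_HALF`) or some `e` has `4 d |lastO R A e| ≥ m`, hence
`4 d (alpha (L \ A.image (rot R e)) - alpha (L \ A)) ≥ m` (`Gain`). For the latter apply `T_CHN`
with `H R = (R ⊆ bx d n ∧ Good R ∧ |bdry R| = m)`, `Q j` = the pairs
`(fat j M, fat (j+1) M')`, `M` in the family of `T_COUNT` for `j`, `M'` in the one for `j + 1`, both
sets in `F`, with symmetric difference at most `D j = 8 · 2^d 2^j m` (`T_MDIFF`, `T_CUBF`);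
`fat J (maj J R) = ∅` by `T_CBD`; `|Q j| ≤ m² exp (3 E (j+1) (m / 4^j + 1))` with `E` from
`T_COUNT` (`C (j+1) X + C (j+2) X' ≤ 3 C (j+1) X`). Then `T_NUM` (`B = 64 d`, `D = 8 · 2^d`). -/
def T_KEY : Prop :=
  ∀ d : ℕ, 3 ≤ d → ∃ (p0 : ℝ) (m0 : ℕ), 0 < p0 ∧ p0 ≤ 1 / 2 ∧ 1 ≤ m0 ∧
    ∀ (p : ℝ) (m n : ℕ) (b : Bool), 0 < p → p ≤ p0 → m0 ≤ m →
      pr (bx d n) p (fun A => ∃ R, R ⊆ reg d n b ∧ Good R ∧ (bdry R).card = m ∧
        Gain (reg d n b) A R) ≤ p ^ 2 / (m : ℝ) ^ (d + 3)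

/-- LIPD. Derivative of the probability of a finite event. `pr F t E` is a polynomial in `t`; for
`0 < t < 1` its derivative is `∑ (|A| / t - (|F| - |A|) / (1 - t)) wt F t A`, of absolute value at
most `|F| / (t (1 - t)) pr F t E ≤ 2 |F| B` for `t ≤ 1/2`. Mean value inequality on `[p, q]`
(continuous on `[p, q]`, differentiable inside). -/
def T_LIPD : Prop :=
  ∀ (V : Type) [DecidableEq V] (F : Finset V) (E : Finset V → Prop) (p q B : ℝ), 0 ≤ p → p ≤ q →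
    q ≤ 1 / 2 → 0 ≤ B → (∀ t, p < t → t < q → pr F t E ≤ B * t) →
    |pr F p E - pr F q E| ≤ 2 * F.card * B * (q - p)

/-- LOC2. An event which needs two closed sites has `pr F t E ≤ 2 ^ |F| t²`; apply `T_LIPD` with
`B = 2 ^ |F| q`. -/
def T_LOC2 : Prop :=
  ∀ (V : Type) [DecidableEq V] (F : Finset V) (E : Finset V → Prop),
    (∀ A, A ⊆ F → E A → 2 ≤ A.card) → ∃ C : ℝ, 0 ≤ C ∧
      ∀ p q : ℝ, 0 ≤ p → p ≤ q → q ≤ 1 / 2 → |pr F p E - pr F q E| ≤ C * q * (q - p)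

/-- LAW. The finite probabilities are those of the infinite product law `TRP.law`. For `A ⊆ F` the
probability that the set of closed sites in `F` is `A` is the product over `x ∈ F` of `p` or
`1 - p` (`Measure.infinitePi_pi` or a similar lemma on boxes; `TRP.bern`), which is `wt F p A`; the
event is a finite disjoint union of such events. -/
def T_LAW : Prop :=
  ∀ (V : Type) [DecidableEq V] (F : Finset V) (E : Finset V → Prop) (p : ℝ), 0 ≤ p → p ≤ 1 →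
    MeasurableSet {ω : V → Bool | E (F.filter fun x => ω x = true)} ∧
    (law fun _ : V => p).real {ω : V → Bool | E (F.filter fun x => ω x = true)} = pr F p E

/-- The probability that the origin is open and a win for the first player in `reg d n true`. -/
def wF (d n : ℕ) (p : ℝ) : ℝ :=
  pr (bx d n) p fun A => (0 : Site d) ∉ A ∧ Ess (lattice d) (reg d n true \ A) 0

/-- The probability that the origin is open and a win for the second player in `reg d n false`. -/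
def lF (d n : ℕ) (p : ℝ) : ℝ :=
  pr (bx d n) p fun A => (0 : Site d) ∉ A ∧ ¬ Ess (lattice d) (reg d n false \ A) 0

/-- DISJ. Both players cannot win: `T_WINE` for `O = ` complement of `A` and both regions gives
`Win (brd _ O) N {0} 0` and `Lose (brd _ O) N {0} 0`, which exclude each other (`TRP.T_MONO`,
proved as `TRP.p_MONO`). (`¬ Ess S 0` implies `0 ∈ S`.) -/
def T_DISJ : Prop :=
  ∀ (d n : ℕ) (A : Finset (Site d)), (0 : Site d) ∉ A →
    ¬ (Ess (lattice d) (reg d n true \ A) 0 ∧ ¬ Ess (lattice d) (reg d n false \ A) 0)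

/-- THETA. The events `W n = {ω 0 = false, Ess (reg d n true \ A_n(ω)) 0}` and
`L n = {ω 0 = false, ¬ Ess (reg d n false \ A_n(ω)) 0}`, `A_n(ω)` the closed sites in `bx d n`,
increase with `n` (`T_MONW` with `A = A_n'(ω)`; `reg d n b ⊆ bx d n`), `W n` and `L n` are disjoint
(`T_DISJ`), and `drawEvent d = {ω 0 = false} \ ⋃ (W n ∪ L n)` (`T_DRAWEQ`). So
`theta d p = (1 - p) - lim (P(W n) + P(L n))` (continuity from below), and `T_LAW`. -/
def T_THETA : Prop :=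
  ∀ (d : ℕ) (p : ℝ), 0 ≤ p → p ≤ 1 →
    Filter.Tendsto (fun n => 1 - p - wF d n p - lF d n p) Filter.atTop (nhds (theta d p))

/-- LIPW. `r j = m0 2 ^ j` with `m0` (and `p0`) from `T_KEY`. For `b = true` let `E j A` be:
`0 ∉ A`, `Ess (reg d (r (j+1)) true \ A) 0`, not `Ess (reg d (r j) true \ A) 0`. By `T_MONW` and
`T_PRB` (sixth part) `wF d (r (j+1)) p - wF d (r j) p = pr (bx d (r (j+1))) p (E j)`. By `T_STEP1`
a set `A` in `E j` has a good `R ⊆ reg d (r (j+1)) true` with `|bdry R| ≥ r j + 1` and `Gain`, so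
`pr _ t (E j) ≤ ∑_(m > r j) t² / m^(d+3) ≤ t² / (r j)^(d+2)` (the values of `|bdry R|` are bounded;
`T_KEY`, union bound). By `T_LIPD` with `B = q / (r j)^(d+2)` the difference at `p` and `q` is at
most `2 (2 r (j+1) + 1)^d q (q - p) / (r j)^(d+2) ≤ 2 · 5^d q (q - p) / (r j)²`, sum over `j` at
most `4 · 5^d q (q - p)`. For `wF d (r 0)`: its event needs two closed sites (`T_STEP0`, `T_ONE`),
so `T_LOC2`. The same for `lF`. Take `e0` with `(C + C' + 4 · 5^d) e0 ≤ 1/4`, `e0 ≤ p0`. Third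
part: for `p = 0` only `A = ∅` has positive weight, and it is not in the event (`T_STEP0`,
`T_ONE`). -/
def T_LIPW : Prop :=
  ∀ d : ℕ, 3 ≤ d → ∃ (e0 : ℝ) (r0 : ℕ), 0 < e0 ∧ e0 ≤ 1 / 2 ∧ 1 ≤ r0 ∧
    (∀ (J : ℕ) (p q : ℝ), 0 ≤ p → p ≤ q → q ≤ e0 →
      |wF d (r0 * 2 ^ J) p - wF d (r0 * 2 ^ J) q| ≤ (q - p) / 4 ∧
      |lF d (r0 * 2 ^ J) p - lF d (r0 * 2 ^ J) q| ≤ (q - p) / 4) ∧
    (∀ n, wF d n 0 = 0 ∧ lF d n 0 = 0)

/-- FINAL. Along `n = r0 2 ^ J` the sequence of `T_THETA` tends to `theta d p`, so by `T_LIPW`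
`theta d p - theta d q ≥ (q - p) - 2 (q - p) / 4 > 0` for `0 ≤ p < q ≤ e0`; `theta d 0 = 1` (third
part of `T_LIPW`) and `theta d p ≥ 1 - p - p / 2 > 0`. -/
def T_FINAL : Prop :=
  ∀ d : ℕ, 3 ≤ d → ∃ e0 : ℝ, 0 < e0 ∧ e0 ≤ 1 / 2 ∧ (∀ p, 0 ≤ p → p ≤ e0 → 0 < theta d p) ∧
    ∀ p q, 0 ≤ p → p < q → q ≤ e0 → theta d q < theta d p

end Pool.Agent.TRH
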