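import Pool.Agent.TRH.T3
import Pool.Agent.TRH.T4

/-!
# TRH: CHN (chaining)
-/

set_option autoImplicit false

open MeasureTheory Pool.Agent.TRP

noncomputable section

namespace Pool.Agent.TRH

namespace CHN_

theorem sum_aux (J : ℕ) :
    ∑ j ∈ Finset.range (J + 1), 1 / ((j : ℝ) + 1) ^ 2 ≤ 2 - 1 / ((J : ℝ) + 1) := by
  induction J with
  | zero => norm_num
  | succ J ih =>
    rw [Finset.sum_range_succ]
    have hJ : (0 : ℝ) ≤ J := Nat.cast_nonneg _
    have e : 1 / (((J + 1 : ℕ) : ℝ) + 1) ^ 2 ≤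
        1 / ((J : ℝ) + 1) - 1 / (((J + 1 : ℕ) : ℝ) + 1) := by
      push_cast
      rw [div_sub_div _ _ (by positivity) (by positivity),
        div_le_div_iff₀ (by positivity) (by positivity)]
      nlinarith
    linarith

theorem sum_lt (J : ℕ) : ∑ j ∈ Finset.range J, 1 / ((j : ℝ) + 1) ^ 2 < 2 := by
  cases J with
  | zero => norm_num
  | succ J =>
    have h1 := sum_aux J
    have hJ : (0 : ℝ) < 1 / ((J : ℝ) + 1) := by positivity
    linarith

theorem rot_empty {d : ℕ} (e : Fin d × Bool) (A : Finset (Site d)) :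
    A.image (rot ∅ e) = A := by
  have : rot (∅ : Finset (Site d)) e = id := by
    funext x
    simp [rot]
  rw [this, Finset.image_id]

/-- pigeonhole -/
theorem pig (g : ℕ → ℝ) (m J d : ℕ) (hd : 1 ≤ d) (hm : 1 ≤ m)
    (h : (m : ℝ) ≤ 4 * d * (g 0 - g J)) :
    ∃ j ∈ Finset.range J, (m : ℝ) / (8 * d * (j + 1) ^ 2) ≤ g j - g (j + 1) := by
  by_contra hcon
  push Not at hcon
  have hd0 : (0 : ℝ) < d := by exact_mod_cast hd
  have hm0 : (0 : ℝ) < m := by exact_mod_cast hm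
  have h1 : g 0 - g J = ∑ j ∈ Finset.range J, (g j - g (j + 1)) :=
    (Finset.sum_range_sub' g J).symm
  have h2 : ∑ j ∈ Finset.range J, (g j - g (j + 1)) ≤
      ∑ j ∈ Finset.range J, (m : ℝ) / (8 * d) * (1 / ((j : ℝ) + 1) ^ 2) := by
    refine Finset.sum_le_sum fun j hj => ?_
    refine (hcon j hj).le.trans (le_of_eq ?_)
    field_simp
  rw [← Finset.mul_sum] at h2
  have h3 : (m : ℝ) / (8 * d) * ∑ j ∈ Finset.range J, 1 / ((j : ℝ) + 1) ^ 2 <
      (m : ℝ) / (8 * d) * 2 := by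
    refine mul_lt_mul_of_pos_left (sum_lt J) (by positivity)
  have h4 : 4 * (d : ℝ) * (g 0 - g J) < 4 * d * ((m : ℝ) / (8 * d) * 2) := by
    refine mul_lt_mul_of_pos_left ?_ (by positivity)
    rw [h1]
    exact lt_of_le_of_lt h2 h3
  have h5 : 4 * (d : ℝ) * ((m : ℝ) / (8 * d) * 2) = m := by
    field_simp
    norm_num
  linarith

end CHN_

theorem p_CHN : T_CUBF → T_PRB → T_ROTP → T_CHN := by
  intro h1 h2 h3 d L F p m J H Q D z hd hm hp0 hp1 hz hH hQ
  obtain ⟨-, -, -, hmaj, -, -, -, -⟩ := h1 d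
  obtain ⟨-, -, -, -, -, -, -, hU, -⟩ := h2 (Site d) F p
  refine (hU hp0 hp1 (Σ _ : ℕ, (Fin d × Bool) × (Finset (Site d) × Finset (Site d)))
    ((Finset.range J).sigma fun j => Finset.univ ×ˢ Q j) _
    (fun s A => (m : ℝ) / (8 * d * (s.1 + 1) ^ 2) ≤
      (alpha (lattice d) (L \ A.image (rot s.2.2.1 s.2.1)) : ℝ) -
        alpha (lattice d) (L \ A.image (rot s.2.2.2 s.2.1))) ?_).trans ?_
  · rintro A - ⟨R, hR, e, hge⟩
    obtain ⟨hR1, hR2⟩ := hH R hR
    obtain ⟨j, hj, hj2⟩ := CHN_.pig (fun j => (alpha (lattice d)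
      (L \ A.image (rot (fat j (maj j R)) e)) : ℝ)) m J d hd hm (by
        show (m : ℝ) ≤ 4 * d * ((alpha (lattice d) (L \ A.image (rot (fat 0 (maj 0 R)) e)) : ℝ) -
          alpha (lattice d) (L \ A.image (rot (fat J (maj J R)) e)))
        rw [hR1, CHN_.rot_empty, (hmaj R).1, (hmaj R).2]
        exact hge)
    refine ⟨⟨j, e, fat j (maj j R), fat (j + 1) (maj (j + 1) R)⟩, ?_, hj2⟩
    rw [Finset.mem_sigma]
    refine ⟨hj, ?_⟩
    rw [Finset.mem_product]
    exact ⟨Finset.mem_univ _, hR2 j (Finset.mem_range.1 hj)⟩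
  · rw [Finset.sum_sigma]
    refine Finset.sum_le_sum fun j hj => ?_
    rw [Finset.mem_range] at hj
    have hb : ∀ t ∈ (Finset.univ : Finset (Fin d × Bool)) ×ˢ Q j,
        pr F p (fun A => (m : ℝ) / (8 * d * (j + 1) ^ 2) ≤
          (alpha (lattice d) (L \ A.image (rot t.2.1 t.1)) : ℝ) -
            alpha (lattice d) (L \ A.image (rot t.2.2 t.1))) ≤
          Real.exp (-z j * (m / (8 * d * (j + 1) ^ 2)) +
            6 * p * z j ^ 2 * Real.exp (2 * z j) * D j) := by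
      intro t ht
      rw [Finset.mem_product] at ht
      obtain ⟨a1, a2, a3⟩ := hQ j hj t.2 ht.2
      refine (h3 d L F t.2.1 t.2.2 t.1 p (z j) _ a1 a2 hp0 hp1 (hz j)).trans ?_
      refine Real.exp_le_exp.2 (add_le_add_right ?_ _)
      refine mul_le_mul_of_nonneg_left a3 ?_
      have := Real.exp_pos (2 * z j)
      positivity
    refine (Finset.sum_le_card_nsmul _ _ _ hb).trans (le_of_eq ?_)
    rw [Finset.card_product, nsmul_eq_mul, Finset.card_univ, Fintype.card_prod, Fintype.card_fin,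
      Fintype.card_bool]
    push_cast
    ring

end Pool.Agent.TRH
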