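import Pool.Agent.TRH.T1
import Pool.Agent.TRP.P_STRAT
import Pool.Agent.TRP.P_MONO

/-!
# CONVG: a winning strategy gives a truncated win (locally finite graphs)
-/

set_option autoImplicit false

open Pool.Agent.TRP

noncomputable section

namespace Pool.Agent.TRH

namespace CONVG_

variable {V : Type} [DecidableEq V] (G : SimpleGraph V)

/-- a common bound for finitely many forced wins -/
lemma bound (hfin : ∀ x, {y | G.Adj x y}.Finite) (T : Finset V) (y : V)
    (h : ∀ z, Legal G T y z → ∃ n, Win G n (insert z T) z) :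
    ∃ N, ∀ z, Legal G T y z → Win G N (insert z T) z := by
  classical
  have h' : ∀ z, ∃ n, Legal G T y z → Win G n (insert z T) z := by
    intro z
    by_cases hz : Legal G T y z
    · obtain ⟨n, hn⟩ := h z hz
      exact ⟨n, fun _ => hn⟩
    · exact ⟨0, fun h => absurd h hz⟩
  choose f hf using h'
  refine ⟨(hfin y).toFinset.sup f, fun z hz => ?_⟩
  have h1 : f z ≤ (hfin y).toFinset.sup f :=
    Finset.le_sup ((hfin y).mem_toFinset.2 hz.1)
  exact MONO_.win_mono G (f z) _ _ _ h1 (hf z hz)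

/-- from a hopeless position every move can be answered by a move to a hopeless position -/
lemma answer (hfin : ∀ x, {y | G.Adj x y}.Finite) (S : Finset V) (x : V)
    (hh : ∀ n, ¬ Win G n S x) (y : V) (hy : Legal G S x y) :
    ∃ z, Legal G (insert y S) y z ∧ ∀ n, ¬ Win G n (insert z (insert y S)) z := by
  by_contra hcon
  push Not at hcon
  obtain ⟨N, hN⟩ := bound G hfin (insert y S) y hcon
  exact hh (N + 1) ⟨y, hy, hN⟩

/-- the strategy which moves to hopeless positions -/
lemma strat : ∃ ρ : Strategy G, ∀ S y, (∃ z, Legal G S y z ∧ ∀ n, ¬ Win G n (insert z S) z) →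
    Legal G S y (ρ.move S y) ∧ ∀ n, ¬ Win G n (insert (ρ.move S y) S) (ρ.move S y) := by
  classical
  have h : ∀ (S : Finset V) (y : V), ∃ z, ((∃ z', Legal G S y z') → Legal G S y z) ∧
      ((∃ z, Legal G S y z ∧ ∀ n, ¬ Win G n (insert z S) z) →
        Legal G S y z ∧ ∀ n, ¬ Win G n (insert z S) z) := by
    intro S y
    by_cases h1 : ∃ z, Legal G S y z ∧ ∀ n, ¬ Win G n (insert z S) z
    · obtain ⟨z, hz, h2⟩ := h1
      exact ⟨z, fun _ => hz, fun _ => ⟨hz, h2⟩⟩
    · by_cases h2 : ∃ z', Legal G S y z'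
      · obtain ⟨z, hz⟩ := h2
        exact ⟨z, fun _ => hz, fun h3 => absurd h3 h1⟩
      · exact ⟨y, fun h3 => absurd h3 h2, fun h3 => absurd h3 h1⟩
  choose m hm using h
  exact ⟨⟨m, fun S y => (hm S y).1⟩, fun S y => (hm S y).2⟩

/-- the positions at the times of the opponent stay hopeless, and the play does not end with
a loss of the player who uses `ρ` -/
lemma claim (hfin : ∀ x, {y | G.Adj x y}.Finite) (ρ : Strategy G)
    (hρ : ∀ S y, (∃ z, Legal G S y z ∧ ∀ n, ¬ Win G n (insert z S) z) →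
      Legal G S y (ρ.move S y) ∧ ∀ n, ¬ Win G n (insert (ρ.move S y) S) (ρ.move S y))
    (q : ℕ → Finset V × V) (E : ℕ → Prop) (hE : ∀ n, E (n + 1) ↔ ¬ E n)
    (h1 : ∀ n, ¬ E n →
      q (n + 1) = (insert (ρ.move (q n).1 (q n).2) (q n).1, ρ.move (q n).1 (q n).2))
    (h2 : ∀ n, E n → ¬ Stuck G (q n) → ∃ z, Legal G (q n).1 (q n).2 z ∧
      q (n + 1) = (insert z (q n).1, z)) (n0 : ℕ) (hn0 : E n0)
    (hh0 : ∀ n, ¬ Win G n (q n0).1 (q n0).2) (m : ℕ) (hm : n0 ≤ m) (hmE : ¬ E m)
    (hns : ∀ j < m, ¬ Stuck G (q j)) : ¬ Stuck G (q m) := by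
  have key : ∀ k, n0 + 2 * k ≤ m → E (n0 + 2 * k) ∧
      ∀ n, ¬ Win G n (q (n0 + 2 * k)).1 (q (n0 + 2 * k)).2 := by
    intro k
    induction k with
    | zero => exact fun _ => ⟨hn0, hh0⟩
    | succ k ih =>
      intro hk
      obtain ⟨hEk, hhk⟩ := ih (by omega)
      have hE1 : ¬ E (n0 + 2 * k + 1) := fun h => (hE _).1 h hEk
      have hE2 : E (n0 + 2 * k + 1 + 1) := (hE _).2 hE1
      obtain ⟨z, hz, e⟩ := h2 _ hEk (hns _ (by omega))
      have h3 := answer G hfin _ _ hhk z hz
      have h4 := hρ _ _ h3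
      have e2 := h1 _ hE1
      rw [e] at e2
      refine ⟨hE2, ?_⟩
      have e3 : n0 + 2 * (k + 1) = n0 + 2 * k + 1 + 1 := by ring
      rw [e3, e2]
      exact h4.2
  -- `m = n0 + 2 k + 1`
  have hpar : ∀ k, E (n0 + 2 * k) := by
    intro k
    induction k with
    | zero => exact hn0
    | succ k ih =>
      have : n0 + 2 * (k + 1) = n0 + 2 * k + 1 + 1 := by ring
      rw [this]
      exact (hE _).2 fun h => (hE _).1 h ih
  obtain ⟨k, hk⟩ : ∃ k, m = n0 + 2 * k + 1 := by
    rcases Nat.even_or_odd' (m - n0) with ⟨k, hk | hk⟩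
    · exfalso
      apply hmE
      have : m = n0 + 2 * k := by omega
      rw [this]
      exact hpar k
    · exact ⟨k, by omega⟩
  obtain ⟨hEk, hhk⟩ := key k (by omega)
  obtain ⟨z, hz, e⟩ := h2 _ hEk (hns _ (by omega))
  obtain ⟨z', hz', -⟩ := answer G hfin _ _ hhk z hz
  intro hst
  rw [hk, e] at hst
  exact hst z' hz'

end CONVG_

open CONVG_ in
theorem p_CONVG : T_CONVG := by
  intro V _ G hfin v
  obtain ⟨ρ, hρ⟩ := strat G
  constructor
  · rintro ⟨σ, hσ⟩
    by_contra hcon
    push Not at hcon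
    obtain ⟨n, hn, hst, hns⟩ := hσ ρ
    exact claim G hfin ρ hρ (pos σ ρ v) (fun n => Even n) (fun n => by simp [Nat.even_add_one])
      (fun n hn => by
        show (insert (if Even n then _ else _) _, _) = _
        rw [if_neg hn])
      (fun n hn hst => ⟨σ.move (pos σ ρ v n).1 (pos σ ρ v n).2, STRAT_.move_legal G σ _ hst, by
        show (insert (if Even n then _ else _) _, _) = _
        rw [if_pos hn]⟩) 0 (by simp) hcon n (Nat.zero_le _) (Nat.not_even_iff_odd.2 hn) hns hst
  · rintro ⟨τ, hτ⟩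
    by_contra hcon
    push Not at hcon
    -- the first move
    have hfirst : ∃ z, Legal G {v} v z ∧ ∀ n, ¬ Win G n (insert z {v}) z := by
      by_contra h
      push Not at h
      obtain ⟨N, hN⟩ := bound G hfin {v} v h
      exact hcon N hN
    have h0 := hρ _ _ hfirst
    obtain ⟨n, hn, hst, hns⟩ := hτ ρ
    rcases Nat.eq_zero_or_pos n with hn0 | hn0
    · subst hn0
      exact hst _ h0.1
    · have e1 : pos ρ τ v 1 = (insert (ρ.move {v} v) {v}, ρ.move {v} v) := by
        show (insert (if Even 0 then _ else _) _, _) = _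
        rw [if_pos (by simp)]
        rfl
      exact claim G hfin ρ hρ (pos ρ τ v) (fun n => ¬ Even n)
        (fun n => by simp [Nat.even_add_one])
        (fun n hn => by
          show (insert (if Even n then _ else _) _, _) = _
          rw [if_pos (not_not.1 hn)])
        (fun n hn hst => ⟨τ.move (pos ρ τ v n).1 (pos ρ τ v n).2, STRAT_.move_legal G τ _ hst, by
          show (insert (if Even n then _ else _) _, _) = _
          rw [if_neg hn]⟩) 1 (by simp) (by rw [e1]; exact h0.2) n hn0 (not_not.2 hn) hns hst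

end Pool.Agent.TRH

end
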