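import Pool.Agent.TRH.Defs

/-!
# Trap in dimension at least three: targets, part 3 (contours and coarse graining)
-/

set_option autoImplicit false

open MeasureTheory Pool.Agent.TRP

noncomputable section

namespace Pool.Agent.TRH

/-- BCONN. The boundary of a good set is connected. Let `E` be the set of the elements of `bdry R`
which can be reached from `q`. For a site `x` and a coordinate `i` let `g i x ∈ ZMod 2` be `1` if
`(x, (i, true)) ∈ E` or `(x + e_i, (i, false)) ∈ E` (the edge between `x` and `x + e_i` is a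
boundary edge in `E`), otherwise `0`. For `i ≠ j`:
`g i x + g j (x + e_i) + g j x + g i (x + e_j) = 0`: the number of boundary edges of the square
`x, x + e_i, x + e_i + e_j, x + e_j` is even, their inner ends are in the square, hence at distance
at most `1` in every coordinate, so all of them are in `E` or none is. `E` is finite; put
`f x = ∑_(k ≥ 0) g 0 (x + k e_0)` (finitely many nonzero terms). Then `f x + f (x + e_0) = g 0 x`,
and for `j ≠ 0` by the square relation and telescoping `f x + f (x + e_j) = g j x`. So `f` is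
constant on `R` (an edge inside `R` is not a boundary edge, `R` is connected) and on the
complement. For `q = (y, e) ∈ E` we get `f y ≠ f (y + dv e)`. If `q' = (y', e')` were not in `E`
then `f y' = f (y' + dv e')`, a contradiction. -/
def T_BCONN : Prop :=
  ∀ (d : ℕ) (R : Finset (Site d)), 2 ≤ d → Good R → ∀ q ∈ bdry R, ∀ q' ∈ bdry R,
    Relation.ReflTransGen (fun a c => c ∈ bdry R ∧ ∀ i, |a.1 i - c.1 i| ≤ 1) q q'

/-- CUBF. Basic facts on cubes. `maj 0 R = R` because a cube of side `1` is one site. For the last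
part: if `x ∈ fat j (maj j R)`, the cube of `x` contains some `y ∈ R`, and `|x i - y i| < 2 ^ j`. -/
def T_CUBF : Prop :=
  ∀ d : ℕ, (∀ (j : ℕ) (x a : Site d), x ∈ cube j a ↔ cub j x = a) ∧
    (∀ (j : ℕ) (a : Site d), (cube j a).card = 2 ^ (j * d)) ∧
    (∀ (j : ℕ) (M : Finset (Site d)) (x : Site d), x ∈ fat j M ↔ cub j x ∈ M) ∧
    (∀ R : Finset (Site d), maj 0 R = R ∧ fat 0 R = R) ∧
    (∀ (j k : ℕ) (x : Site d), cub (j + k) x = cub k (cub j x)) ∧
    (∀ (j : ℕ) (R : Finset (Site d)) (a : Site d),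
      a ∈ maj j R ↔ 2 ^ (j * d) ≤ 2 * (R ∩ cube j a).card) ∧
    (∀ (j : ℕ) (x y : Site d) (i : Fin d), |x i - y i| ≤ 1 → |cub j x i - cub j y i| ≤ 1) ∧
    (∀ (j n : ℕ) (R : Finset (Site d)), R ⊆ bx d n → fat j (maj j R) ⊆ bx d (n + 2 ^ j))

/-- CUBES. A connected boundary with `m` elements meets few cubes. `W` is the set of the indices of
the cubes of side `2 ^ k` which contain inner ends. King-connected: along the chain of `T_BCONN`
the indices change by at most `1` in every coordinate (`T_CUBF`). Number: for `a ∈ W` let `T a` be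
the set of `q ∈ bdry R` with `|cub k q.1 i - a i| ≤ 1` for all `i`. Every `q` is in at most `3 ^ d`
of the sets `T a`. If `|W| ≤ 3 ^ d` we are done (`C = 3 ^ d`). Otherwise, for every `a ∈ W` some
`b ∈ W` has `|b i - a i| ≥ 2` for some `i`; take a chain of `T_BCONN` from an edge in the cube `a`
to an edge in the cube `b`. Up to the first time when it leaves the `3 ^ d` cubes around `a` all
its elements are in `T a`, and a coordinate `i` of the inner end, which changes by at most `1` in
every step, moves from `[2^k a_i, 2^k (a_i + 1))` to outside `[2^k (a_i - 1), 2^k (a_i + 2))`, so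
it takes at least `2 ^ k` different values on `T a`: `|T a| ≥ 2 ^ k`. Hence
`2 ^ k |W| ≤ 3 ^ d m`. -/
def T_CUBES : Prop :=
  ∀ d : ℕ, 2 ≤ d → ∀ (R : Finset (Site d)) (k : ℕ), Good R →
    (((bdry R).image fun q => cub k q.1).card : ℝ) ≤ 3 ^ d * ((bdry R).card / 2 ^ k + 1) ∧
    KConn ((bdry R).image fun q => cub k q.1)

/-- ANIM. Number of king-connected sets. For a king-connected `W ∋ a` with `|W| ≤ n` there is a
walk `w 0 = a, …, w (2 n)` with king steps (or standing still) which visits exactly the elements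
of `W`: by induction on `k ≤ |W|` there is a closed walk in `W` from `a` to `a` with at most
`2 (k - 1)` steps which visits at least `k` elements (if it does not visit all of `W`, some
unvisited `v ∈ W` is a neighbour of a visited `u`, since `W` is king-connected; insert `u, v, u`).
The number of walks with `2 n` steps from `a` is at most `(3 ^ d) ^ (2 n)`; take the images of all
of them. -/
def T_ANIM : Prop :=
  ∀ d : ℕ, ∃ K : ℕ, 1 ≤ K ∧ ∀ (n : ℕ) (a : Site d), ∃ F : Finset (Finset (Site d)),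
    F.card ≤ K ^ n ∧ ∀ W, KConn W → a ∈ W → W.card ≤ n → W ∈ F

/-- ISO. Isoperimetry in a box `X` by counting pairs. For `x, y ∈ X` let `h_i` be the site with
coordinates `y_k` for `k < i` and `x_k` for `k ≥ i` (`h_0 = x`, `h_d = y`), and `f = 1_U`. Then
`∑_(x,y) |f x - f y| = 2 |X ∩ U| |X \ U|` is at most `∑_i ∑_(x,y) |f h_i - f h_(i+1)|`. The map
`(x, y) ↦ (h_i(x,y), h_i(y,x))` is an involution of `X × X`; with `x' = h_i(x,y)`,
`y' = h_i(y,x)` the site `h_(i+1)` is `x'` with the coordinate `i` replaced by `y'_i`. So the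
`i`-th sum is `∑_(x',y') |f x' - f (x'[i := y'_i])|`, which is
`(|X| / ℓ_i) ∑_x' ∑_t |f x' - f (x'[i := t])| ≤ (|X| / ℓ_i) ∑_lines ℓ_i² c(line)`, where the line
runs over the lines of `X` of direction `i` and `c(line)` is the number of `s` with
`f (s) ≠ f (s+1)` on it (if `f` takes different values at two sites of a line there is a change
between them). This is at most `|X| L c_i`, `c_i` the number of boundary edges of `U` inside `X` of
direction `(i, true)` or `(i, false)`. (If some `ℓ_i = 0` then `X` is empty.) -/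
def T_ISO : Prop :=
  ∀ (d L : ℕ) (lo : Site d) (l : Fin d → ℕ), (∀ i, l i ≤ L) → ∀ X U : Finset (Site d),
    X = Fintype.piFinset (fun i => Finset.Ico (lo i) (lo i + l i)) →
    (X ∩ U).card * (X \ U).card ≤
      L * X.card * ((bdry U).filter fun q => q.1 ∈ X ∧ q.1 + dv q.2 ∈ X).card

/-- CBD. The coarse boundary. Let `q = (a, f) ∈ bdry (maj j R)`, `a' = a + dv f`, and `X` the union
of `cube j a` and `cube j a'`, a box with sides `2 ^ j` and one side `2 ^ (j+1)`. By `T_CUBF`
`2 |X ∩ R| ≥ 2 ^ (j d)` and `2 |X \ R| ≥ 2 ^ (j d)` (`a' ∉ maj j R`), so `T_ISO` with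
`L = 2 ^ (j+1)`, `|X| = 2 · 2 ^ (j d)` gives `2 ^ (j (d-1)) ≤ 16 N q`, `N q` the number of the
elements of `bdry R` inside `X`; in particular `N q ≥ 1`, which is the second part. An element
`y ∈ bdry R` is counted only for the `q` with `cub j y.1 ∈ {q.1, q.1 + dv q.2}`: at most `4 d` of
them. So the first part holds with `C = 64 d`. Third part: a nonempty finite set has a nonempty
boundary (`d ≥ 1`), so `maj j R ≠ ∅` gives `2 ^ (j (d-1)) ≤ C |bdry R|`. -/
def T_CBD : Prop :=
  ∀ d : ℕ, 1 ≤ d → ∀ (R : Finset (Site d)) (j : ℕ),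
    (bdry (maj j R)).card * 2 ^ (j * (d - 1)) ≤ 64 * d * (bdry R).card ∧
    (∀ q ∈ bdry (maj j R), ∃ y ∈ bdry R, cub j y.1 = q.1 ∨ cub j y.1 = q.1 + dv q.2) ∧
    (64 * d * (bdry R).card < 2 ^ (j * (d - 1)) → maj j R = ∅)

/-- MDIFF. Two consecutive levels. Let `B` be the set of the indices `b` of the cubes of side
`2 ^ (j+1)` which contain a site `x` in which the two sets differ; with `a = cub j x` exactly one
of `a ∈ maj j R`, `b ∈ maj (j+1) R` holds. If `a ∈ maj j R`, `b ∉ maj (j+1) R`, then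
`2 |R ∩ cube (j+1) b| ≥ 2 |R ∩ cube j a| ≥ 2 ^ (j d)` and
`2 |cube (j+1) b \ R| ≥ 2 ^ ((j+1) d)`; in the other case `2 |cube j a \ R| ≥ 2 ^ (j d)` and
`2 |R ∩ cube (j+1) b| ≥ 2 ^ ((j+1) d)`. `T_ISO` with `X = cube (j+1) b`, `L = 2 ^ (j+1)` gives in
both cases `2 ^ (j d) ≤ 8 · 2 ^ j N b`, `N b` the number of the elements of `bdry R` inside
`cube (j+1) b`; these are different for different `b`, so `|B| 2 ^ (j d) ≤ 8 · 2 ^ j |bdry R|`. The
symmetric difference has at most `|B| 2 ^ ((j+1) d)` elements. -/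
def T_MDIFF : Prop :=
  ∀ (d : ℕ) (R : Finset (Site d)) (j : ℕ),
    (symmDiff (fat j (maj j R)) (fat (j + 1) (maj (j + 1) R))).card ≤
      8 * 2 ^ d * 2 ^ j * (bdry R).card

/-- DET. A finite set is determined by its boundary. Suppose `x ∈ M`, `x ∉ M'`, `e` any direction
(`d ≥ 1`). Let `k` be least with `x + (k+1) • dv e ∉ M` (`M` is finite). Then
`(x + k • dv e, e) ∈ bdry M = bdry M'`, so `x + k • dv e ∈ M'`, and as `x ∉ M'` there is `i < k`
with `u = x + i • dv e ∉ M'`, `u + dv e ∈ M'`. So `(u + dv e, -e) ∈ bdry M' = bdry M`, hence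
`u ∉ M`, but `u ∈ M` since `i ≤ k`. -/
def T_DET : Prop :=
  ∀ (d : ℕ) (M M' : Finset (Site d)), 1 ≤ d → bdry M = bdry M' → M = M'

/-- BINOM. `∑_(B ⊆ s) x ^ |B| = (1 + x) ^ |s|` (`Finset.sum_pow_mul_eq_add_pow`)
and `x ^ n ≤ x ^ |B|` for `|B| ≤ n`. -/
def T_BINOM : Prop :=
  ∀ (T : Type) [DecidableEq T] (s : Finset T) (n : ℕ) (x : ℝ), 0 < x → x ≤ 1 →
    ((s.powerset.filter fun B => B.card ≤ n).card : ℝ) * x ^ n ≤ (1 + x) ^ s.card

/-- COUNT. Number of the sets `maj j R`, `R` good with `m` boundary elements. Let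
`W = (bdry R).image (cub (2 j) ·.1)`. By `T_CUBES` `W` is king-connected and has at most
`n = ⌊3 ^ d (m / 4 ^ j + 1)⌋` elements; by `T_EXIT` it contains `cub (2 j) (t • dv (0, true))` for
some `t < m`; by `T_ANIM` there are at most `m K ^ n` possibilities for `W`. Given `W`, the set
`bdry (maj j R)` is a subset of `E = {(a, f) : cub j a ∈ W or cub j (a + dv f) ∈ W}` by the second
part of `T_CBD` and `cub (2 j) y = cub j (cub j y)`; `E` is finite with at most
`4 d |W| 2 ^ (j d)` elements (`T_CUBF`, the number of `a` with a given `cub j a` is `2 ^ (j d)`).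
By the first part of `T_CBD` `|bdry (maj j R)| ≤ N = ⌊64 d m / 2 ^ (j (d-1))⌋ ≤ 64 d m / 4 ^ j`
(`d ≥ 3`). `T_BINOM` with `x = 2 ^ (-j d)`: at most
`(1 + x) ^ |E| x ^ (-N) ≤ exp (4 d n) exp (j d log 2 · 64 d m / 4 ^ j)` possibilities for
`bdry (maj j R)`, and `maj j R` is determined by it (`T_DET`; take the image of the family under a
choice of `M` with `bdry M = B`). Altogether `m exp (C (j+1) (m / 4 ^ j + 1))` with
`C = 3 ^ d (log K + 4 d) + 64 d²`, say. -/
def T_COUNT : Prop :=
  ∀ d : ℕ, 3 ≤ d → ∃ C : ℝ, 1 ≤ C ∧ ∀ j m : ℕ, 1 ≤ m → ∃ F : Finset (Finset (Site d)),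
    (F.card : ℝ) ≤ m * Real.exp (C * (j + 1) * ((m : ℝ) / 4 ^ j + 1)) ∧
    ∀ R, Good R → (bdry R).card = m → maj j R ∈ F

end Pool.Agent.TRH
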