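import Pool.Agent.TRH.T2
import Pool.Agent.TRH.T3

/-!
# COUNT: the number of coarse grained regions
-/

set_option autoImplicit false

open MeasureTheory Pool.Agent.TRP

noncomputable section

namespace Pool.Agent.TRH

namespace COUNT_

/-- the possible boundary edges of the coarse grained region, given the coarse contour `W` -/
def edg {d : ℕ} (j : ℕ) (W : Finset (Site d)) : Finset (Site d × (Fin d × Bool)) :=
  (fat j W ×ˢ Finset.univ) ∪ (fat j W ×ˢ Finset.univ).image fun q => (q.1 - dv q.2, q.2)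

lemma mem_edg (hF : T_CUBF) {d : ℕ} (j : ℕ) (W : Finset (Site d))
    (q : Site d × (Fin d × Bool)) (h : cub j q.1 ∈ W ∨ cub j (q.1 + dv q.2) ∈ W) :
    q ∈ edg j W := by
  obtain ⟨-, -, h3, -⟩ := hF d
  unfold edg
  rw [Finset.mem_union]
  rcases h with h | h
  · left
    rw [Finset.mem_product]
    exact ⟨(h3 _ _ _).2 h, Finset.mem_univ _⟩
  · right
    rw [Finset.mem_image]
    refine ⟨(q.1 + dv q.2, q.2), ?_, ?_⟩
    · rw [Finset.mem_product]
      exact ⟨(h3 _ _ _).2 h, Finset.mem_univ _⟩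
    · refine Prod.ext ?_ rfl
      exact add_sub_cancel_right _ _

lemma card_fat (hF : T_CUBF) {d : ℕ} (j : ℕ) (W : Finset (Site d)) :
    (fat j W).card ≤ W.card * 2 ^ (j * d) := by
  obtain ⟨-, h2, -⟩ := hF d
  unfold fat
  refine (Finset.card_biUnion_le).trans ?_
  rw [Finset.sum_congr rfl fun a _ => h2 j a, Finset.sum_const, smul_eq_mul]

lemma card_edg (hF : T_CUBF) {d : ℕ} (j : ℕ) (W : Finset (Site d)) :
    (edg j W).card ≤ 4 * d * W.card * 2 ^ (j * d) := by
  have h1 := card_fat hF j W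
  have h2 : (fat j W ×ˢ (Finset.univ : Finset (Fin d × Bool))).card =
      (fat j W).card * (d * 2) := by
    rw [Finset.card_product, Finset.card_univ, Fintype.card_prod, Fintype.card_fin,
      Fintype.card_bool]
  unfold edg
  refine (Finset.card_union_le _ _).trans ?_
  refine (Nat.add_le_add_left Finset.card_image_le _).trans ?_
  rw [h2]
  calc (fat j W).card * (d * 2) + (fat j W).card * (d * 2) = 4 * d * (fat j W).card := by ring
    _ ≤ 4 * d * (W.card * 2 ^ (j * d)) := Nat.mul_le_mul_left _ h1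
    _ = _ := by ring

/-- the number of small subsets -/
lemma card_small (hN : T_BINOM) {T : Type} [DecidableEq T] (s : Finset T) (N k : ℕ) (b : ℝ)
    (hs : (s.card : ℝ) ≤ b * 2 ^ k) :
    ((s.powerset.filter fun B => B.card ≤ N).card : ℝ) ≤ Real.exp (b + k * N) := by
  have hx : (0 : ℝ) < (1 / 2) ^ k := by positivity
  have hx1 : ((1 : ℝ) / 2) ^ k ≤ 1 := pow_le_one₀ (by norm_num) (by norm_num)
  have h1 := hN T s N ((1 / 2) ^ k) hx hx1
  have h2 : (1 + ((1 : ℝ) / 2) ^ k) ^ s.card ≤ Real.exp b := by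
    calc (1 + ((1 : ℝ) / 2) ^ k) ^ s.card ≤ Real.exp ((1 / 2) ^ k) ^ s.card := by
          apply pow_le_pow_left₀ (by positivity)
          have := Real.add_one_le_exp (((1 : ℝ) / 2) ^ k)
          linarith
      _ = Real.exp (s.card * (1 / 2) ^ k) := (Real.exp_nat_mul _ _).symm
      _ ≤ Real.exp b := by
          apply Real.exp_le_exp.2
          have h3 : (2 : ℝ) ^ k * (1 / 2) ^ k = 1 := by
            rw [← mul_pow]; norm_num
          calc (s.card : ℝ) * (1 / 2) ^ k ≤ b * 2 ^ k * (1 / 2) ^ k :=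
                mul_le_mul_of_nonneg_right hs hx.le
            _ = b := by rw [mul_assoc, h3, mul_one]
  have h3 : ((1 : ℝ) / 2) ^ k = Real.exp (-(k * Real.log 2)) := by
    rw [Real.exp_neg, mul_comm, Real.exp_mul, Real.exp_log (by norm_num), Real.rpow_natCast,
      one_div, inv_pow]
  have h4 : Real.exp (-(k * N : ℝ)) ≤ (((1 : ℝ) / 2) ^ k) ^ N := by
    rw [h3, ← Real.exp_nat_mul]
    apply Real.exp_le_exp.2
    have h5 : Real.log 2 ≤ 1 := by
      have := Real.log_two_lt_d9
      linarith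
    have h6 : (k : ℝ) * N * Real.log 2 ≤ k * N * 1 :=
      mul_le_mul_of_nonneg_left h5 (by positivity)
    linarith
  have h5 : ((s.powerset.filter fun B => B.card ≤ N).card : ℝ) * Real.exp (-(k * N : ℝ)) ≤
      Real.exp b :=
    (mul_le_mul_of_nonneg_left h4 (Nat.cast_nonneg _)).trans (h1.trans h2)
  have h6 : ((s.powerset.filter fun B => B.card ≤ N).card : ℝ) =
      ((s.powerset.filter fun B => B.card ≤ N).card : ℝ) * Real.exp (-(k * N : ℝ)) *
        Real.exp (k * N) := by
    rw [mul_assoc, ← Real.exp_add, neg_add_cancel, Real.exp_zero, mul_one]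
  rw [h6, Real.exp_add]
  exact mul_le_mul_of_nonneg_right h5 (Real.exp_pos _).le

end COUNT_

open COUNT_ in
theorem p_COUNT : T_EXIT → T_CUBF → T_CUBES → T_ANIM → T_CBD → T_DET → T_BINOM → T_COUNT := by
  intro hX hF hC hA hB hD hN d hd
  obtain ⟨K, hK1, hK⟩ := hA d
  have hd0 : 0 < d := by omega
  have hd1 : (1 : ℝ) ≤ d := by exact_mod_cast hd0
  have hlogK : 0 ≤ Real.log K := Real.log_natCast_nonneg K
  have hpos : 0 ≤ (3 : ℝ) ^ d * (Real.log K + 4 * d) := by positivity
  refine ⟨3 ^ d * (Real.log K + 4 * d) + 64 * d ^ 2, by nlinarith, fun j m hm => ?_⟩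
  classical
  choose A hA1 hA2 using hK
  obtain ⟨n, hn⟩ : ∃ n : ℕ, n = ⌊(3 : ℝ) ^ d * ((m : ℝ) / 4 ^ j + 1)⌋₊ := ⟨_, rfl⟩
  obtain ⟨N, hNd⟩ : ∃ N : ℕ, N = 64 * d * m / 2 ^ (j * (d - 1)) := ⟨_, rfl⟩
  have hg : ∀ B : Finset (Site d × (Fin d × Bool)), ∃ M : Finset (Site d),
      (∃ M', bdry M' = B) → bdry M = B := by
    intro B
    by_cases h : ∃ M', bdry M' = B
    · obtain ⟨M', h⟩ := h
      exact ⟨M', fun _ => h⟩
    · exact ⟨∅, fun h' => absurd h' h⟩
  choose g hg using hg
  have hY : 0 ≤ (m : ℝ) / 4 ^ j := by positivity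
  have hnle : (n : ℝ) ≤ 3 ^ d * ((m : ℝ) / 4 ^ j + 1) := by
    rw [hn]
    exact Nat.floor_le (by positivity)
  have hNle : (N : ℝ) ≤ 64 * d * ((m : ℝ) / 4 ^ j) := by
    rw [hNd]
    refine Nat.cast_div_le.trans ?_
    push_cast
    rw [← mul_div_assoc]
    apply div_le_div_of_nonneg_left (by positivity) (by positivity)
    have h1 : (4 : ℝ) ^ j = 2 ^ (j * 2) := by
      rw [mul_comm, pow_mul]; norm_num
    rw [h1]
    exact pow_le_pow_right₀ (by norm_num) (Nat.mul_le_mul_left _ (by omega))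
  refine ⟨(((Finset.range m).biUnion fun t => A n (cub (2 * j)
    (t • dv ((⟨0, hd0⟩ : Fin d), true)))).filter fun W => W.card ≤ n).biUnion fun W =>
      ((edg j W).powerset.filter fun B => B.card ≤ N).image g, ?_, ?_⟩
  · -- the number
    obtain ⟨WW, hWW⟩ : ∃ WW : Finset (Finset (Site d)), WW = ((Finset.range m).biUnion fun t =>
      A n (cub (2 * j) (t • dv ((⟨0, hd0⟩ : Fin d), true)))).filter fun W => W.card ≤ n :=
      ⟨_, rfl⟩
    rw [← hWW]
    have hcW : (WW.card : ℝ) ≤ m * (K : ℝ) ^ n := by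
      have h1 : WW.card ≤ m * K ^ n := by
        rw [hWW]
        refine (Finset.card_filter_le _ _).trans (Finset.card_biUnion_le.trans ?_)
        refine (Finset.sum_le_sum fun t _ => hA1 n _).trans ?_
        rw [Finset.sum_const, Finset.card_range, smul_eq_mul]
      exact_mod_cast h1
    have hW1 : ∀ W ∈ WW, ((((edg j W).powerset.filter fun B => B.card ≤ N).image g).card : ℝ) ≤
        Real.exp (4 * d * n + (j * d : ℕ) * N) := by
      intro W hW
      rw [hWW, Finset.mem_filter] at hW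
      have h1 : ((((edg j W).powerset.filter fun B => B.card ≤ N).image g).card : ℝ) ≤
          (((edg j W).powerset.filter fun B => B.card ≤ N).card : ℝ) := by
        exact_mod_cast Finset.card_image_le
      refine h1.trans (card_small hN (edg j W) N (j * d) (4 * d * n) ?_)
      have h2 := card_edg hF j W
      have h3 : ((edg j W).card : ℝ) ≤ 4 * d * W.card * 2 ^ (j * d) := by exact_mod_cast h2
      refine h3.trans ?_
      have h4 : (W.card : ℝ) ≤ n := by exact_mod_cast hW.2
      gcongr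
    have h1 : (((WW.biUnion fun W => ((edg j W).powerset.filter fun B =>
        B.card ≤ N).image g).card : ℕ) : ℝ) ≤
        WW.card * Real.exp (4 * d * n + (j * d : ℕ) * N) := by
      have h2 : (((WW.biUnion fun W => ((edg j W).powerset.filter fun B =>
          B.card ≤ N).image g).card : ℕ) : ℝ) ≤
          ∑ W ∈ WW, ((((edg j W).powerset.filter fun B => B.card ≤ N).image g).card : ℝ) := by
        exact_mod_cast Finset.card_biUnion_le
      refine h2.trans ((Finset.sum_le_sum hW1).trans ?_)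
      rw [Finset.sum_const, nsmul_eq_mul]
    refine h1.trans ?_
    have hKexp : (K : ℝ) ^ n = Real.exp (n * Real.log K) := by
      have hK0 : (0 : ℝ) < K := by exact_mod_cast hK1
      rw [Real.exp_nat_mul, Real.exp_log hK0]
    have h3 : (WW.card : ℝ) * Real.exp (4 * d * n + (j * d : ℕ) * N) ≤
        m * Real.exp (n * Real.log K) * Real.exp (4 * d * n + (j * d : ℕ) * N) := by
      apply mul_le_mul_of_nonneg_right _ (Real.exp_pos _).le
      rw [← hKexp]
      exact hcW
    refine h3.trans ?_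
    rw [mul_assoc, ← Real.exp_add]
    apply mul_le_mul_of_nonneg_left _ (Nat.cast_nonneg _)
    apply Real.exp_le_exp.2
    push_cast
    have e1 : (n : ℝ) * Real.log K + (4 * d * n + j * d * N) =
        n * (Real.log K + 4 * d) + j * d * N := by ring
    rw [e1]
    have h4 : (n : ℝ) * (Real.log K + 4 * d) ≤
        3 ^ d * ((m : ℝ) / 4 ^ j + 1) * (Real.log K + 4 * d) :=
      mul_le_mul_of_nonneg_right hnle (by positivity)
    have h5 : (j : ℝ) * d * N ≤ j * d * (64 * d * ((m : ℝ) / 4 ^ j)) :=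
      mul_le_mul_of_nonneg_left hNle (by positivity)
    obtain ⟨Y, hYd⟩ : ∃ Y : ℝ, Y = (m : ℝ) / 4 ^ j := ⟨_, rfl⟩
    obtain ⟨P, hP⟩ : ∃ P : ℝ, P = 3 ^ d * (Real.log K + 4 * d) := ⟨_, rfl⟩
    rw [← hYd] at h4 h5 hY ⊢
    rw [← hP] at hpos ⊢
    have h6 : (3 : ℝ) ^ d * (Y + 1) * (Real.log K + 4 * d) = P * (Y + 1) := by
      rw [hP]; ring
    rw [h6] at h4
    have hj : (0 : ℝ) ≤ j := Nat.cast_nonneg _
    have h7 : 0 ≤ P * (Y + 1) * j := by positivity
    have h8 : (j : ℝ) * d * (64 * d * Y) ≤ 64 * d ^ 2 * (j + 1) * (Y + 1) := by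
      have e2 : 64 * (d : ℝ) ^ 2 * (j + 1) * (Y + 1) - j * d * (64 * d * Y) =
          64 * d ^ 2 * (j + Y + 1) := by ring
      have : 0 ≤ 64 * (d : ℝ) ^ 2 * (j + Y + 1) := by positivity
      linarith
    have e3 : (P + 64 * (d : ℝ) ^ 2) * (j + 1) * (Y + 1) =
        P * (Y + 1) + P * (Y + 1) * j + 64 * d ^ 2 * (j + 1) * (Y + 1) := by ring
    rw [e3]
    linarith
  · -- membership
    intro R hR hRm
    rw [Finset.mem_biUnion]
    obtain ⟨hcard, hconn⟩ := hC d (by omega) R (2 * j) hR
    refine ⟨(bdry R).image fun q => cub (2 * j) q.1, ?_, ?_⟩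
    · have hcn : ((bdry R).image fun q => cub (2 * j) q.1).card ≤ n := by
        rw [hn]
        apply Nat.le_floor
        refine hcard.trans (le_of_eq ?_)
        rw [hRm, pow_mul]
        norm_num
      rw [Finset.mem_filter]
      refine ⟨?_, hcn⟩
      rw [Finset.mem_biUnion]
      obtain ⟨t, ht, htb⟩ := hX d hd0 R (by omega) hR.1
      refine ⟨t, Finset.mem_range.2 (by omega), ?_⟩
      refine hA2 n _ _ hconn ?_ hcn
      exact Finset.mem_image_of_mem (fun q : Site d × (Fin d × Bool) => cub (2 * j) q.1) htb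
    · rw [Finset.mem_image]
      obtain ⟨hb1, hb2, -⟩ := hB d (by omega) R j
      refine ⟨bdry (maj j R), ?_, ?_⟩
      · rw [Finset.mem_filter, Finset.mem_powerset]
        constructor
        · intro q hq
          obtain ⟨y, hy, hyq⟩ := hb2 q hq
          have h1 : cub (2 * j) y.1 ∈ (bdry R).image fun q => cub (2 * j) q.1 :=
            Finset.mem_image_of_mem (fun q : Site d × (Fin d × Bool) => cub (2 * j) q.1) hy
          have h2 : cub (2 * j) y.1 = cub j (cub j y.1) := by
            obtain ⟨-, -, -, -, h5, -⟩ := hF d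
            rw [two_mul]
            exact h5 j j y.1
          rw [h2] at h1
          apply mem_edg hF
          rcases hyq with h | h
          · left; rw [← h]; exact h1
          · right; rw [← h]; exact h1
        · rw [hNd, Nat.le_div_iff_mul_le (by positivity), ← hRm]
          exact hb1
      · exact hD d _ _ (by omega) (hg _ ⟨_, rfl⟩)

end Pool.Agent.TRH

end
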