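import Pool.Agent.TRH.T3

/-!
# CUBES: a connected boundary meets few cubes
-/

set_option autoImplicit false

open MeasureTheory Pool.Agent.TRP

noncomputable section

namespace Pool.Agent.TRH

namespace CUBES_

/-- First exit of a chain from a property. -/
theorem chainExit {α : Type*} (r : α → α → Prop) (P : α → Prop) {a b : α}
    (h : Relation.ReflTransGen r a b) (ha : P a) :
    (Relation.ReflTransGen (fun x y => r x y ∧ P y) a b ∧ P b) ∨
    ∃ u v, Relation.ReflTransGen (fun x y => r x y ∧ P y) a u ∧ r u v ∧ ¬ P v := by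
  induction h with
  | refl => exact Or.inl ⟨Relation.ReflTransGen.refl, ha⟩
  | @tail b c _ hbc ih =>
    rcases ih with ⟨h1, _⟩ | h1
    · by_cases hc : P c
      · exact Or.inl ⟨h1.tail ⟨hbc, hc⟩, hc⟩
      · exact Or.inr ⟨b, c, h1, hbc, hc⟩
    · exact Or.inr h1

/-- An integer function which changes by at most one in every step takes all values between the
first and the last one. -/
theorem values {α : Type*} (T : Finset α) (f : α → ℤ) {a u : α} (ha : a ∈ T)
    (h : Relation.ReflTransGen (fun x y => y ∈ T ∧ |f x - f y| ≤ 1) a u) :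
    ∀ z : ℤ, (f a ≤ z ∧ z ≤ f u) ∨ (f u ≤ z ∧ z ≤ f a) → z ∈ T.image f := by
  induction h with
  | refl =>
    intro z hz
    exact Finset.mem_image.2 ⟨a, ha, by omega⟩
  | @tail b c _ hbc ih =>
    intro z hz
    obtain ⟨hc, habs⟩ := hbc
    rw [abs_le] at habs
    by_cases hzc : f c = z
    · exact Finset.mem_image.2 ⟨c, hc, hzc⟩
    · apply ih
      omega

/-- Around a cube which is left by the chain there are many boundary elements. -/
theorem big {d : ℕ} (R : Finset (Site d)) (k : ℕ) (q0 q1 : Site d × (Fin d × Bool))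
    (h0 : q0 ∈ bdry R)
    (h : Relation.ReflTransGen (fun a c => c ∈ bdry R ∧ ∀ i, |a.1 i - c.1 i| ≤ 1) q0 q1)
    (hfar : ¬ ∀ i, |cub k q1.1 i - cub k q0.1 i| ≤ 1) :
    2 ^ k ≤ ((bdry R).filter fun q => ∀ i, |cub k q.1 i - cub k q0.1 i| ≤ 1).card := by
  classical
  have hP0 : ∀ i, |cub k q0.1 i - cub k q0.1 i| ≤ 1 := fun i => by simp
  rcases chainExit _ (fun q : Site d × (Fin d × Bool) => ∀ i, |cub k q.1 i - cub k q0.1 i| ≤ 1)
    h hP0 with h1 | ⟨u, v, huc, huv, hv⟩
  · exact absurd h1.2 hfar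
  · push Not at hv
    obtain ⟨i, hi⟩ := hv
    set T := (bdry R).filter fun q => ∀ i, |cub k q.1 i - cub k q0.1 i| ≤ 1 with hT
    have h0T : q0 ∈ T := Finset.mem_filter.2 ⟨h0, hP0⟩
    have hch : Relation.ReflTransGen (fun x y : Site d × (Fin d × Bool) =>
        y ∈ T ∧ |x.1 i - y.1 i| ≤ 1) q0 u := by
      refine Relation.ReflTransGen.mono ?_ _ _ huc
      rintro x y ⟨⟨hy, hxy⟩, hPy⟩
      exact ⟨Finset.mem_filter.2 ⟨hy, hPy⟩, hxy i⟩
    have hval := values T (fun q : Site d × (Fin d × Bool) => q.1 i) h0T hch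
    have hn : (0 : ℤ) < 2 ^ k := by positivity
    have huvi := huv.2 i
    rw [abs_le] at huvi
    simp only [cub] at hi
    have e0 := Int.mul_ediv_add_emod (q0.1 i) (2 ^ k)
    have l0 := Int.emod_nonneg (q0.1 i) hn.ne'
    have r0 := Int.emod_lt_of_pos (q0.1 i) hn
    have e1 := Int.mul_ediv_add_emod (v.1 i) (2 ^ k)
    have l1 := Int.emod_nonneg (v.1 i) hn.ne'
    have r1 := Int.emod_lt_of_pos (v.1 i) hn
    have hle : (T.image fun q : Site d × (Fin d × Bool) => q.1 i).card ≤ T.card :=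
      Finset.card_image_le
    rcases lt_abs.1 hi with hp | hp
    · have hm : (2 : ℤ) ^ k * (q0.1 i / 2 ^ k + 2) ≤ 2 ^ k * (v.1 i / 2 ^ k) :=
        mul_le_mul_of_nonneg_left (by omega) hn.le
      have hsub : Finset.Icc (q0.1 i) (u.1 i) ⊆
          T.image fun q : Site d × (Fin d × Bool) => q.1 i := by
        intro z hz
        rw [Finset.mem_Icc] at hz
        exact hval z (Or.inl hz)
      have hc := Finset.card_le_card hsub
      rw [Int.card_Icc] at hc
      have hz : ((2 ^ k : ℕ) : ℤ) ≤ u.1 i + 1 - q0.1 i := by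
        push_cast
        linarith
      have : 2 ^ k ≤ (u.1 i + 1 - q0.1 i).toNat := by
        exact (Int.le_toNat (by linarith)).2 hz
      omega
    · have hm : (2 : ℤ) ^ k * (v.1 i / 2 ^ k) ≤ 2 ^ k * (q0.1 i / 2 ^ k - 2) :=
        mul_le_mul_of_nonneg_left (by omega) hn.le
      have hsub : Finset.Icc (u.1 i) (q0.1 i) ⊆
          T.image fun q : Site d × (Fin d × Bool) => q.1 i := by
        intro z hz
        rw [Finset.mem_Icc] at hz
        exact hval z (Or.inr hz)
      have hc := Finset.card_le_card hsub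
      rw [Int.card_Icc] at hc
      have hz : ((2 ^ k : ℕ) : ℤ) ≤ q0.1 i + 1 - u.1 i := by
        push_cast
        linarith
      have : 2 ^ k ≤ (q0.1 i + 1 - u.1 i).toNat := by
        exact (Int.le_toNat (by linarith)).2 hz
      omega

/-- The indices near a given one. -/
theorem nearCard {d : ℕ} (W : Finset (Site d)) (c : Site d)
    (h : ∀ a ∈ W, ∀ i, |c i - a i| ≤ 1) : W.card ≤ 3 ^ d := by
  classical
  have hsub : W ⊆ Fintype.piFinset fun i => Finset.Icc (c i - 1) (c i + 1) := by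
    intro a ha
    rw [Fintype.mem_piFinset]
    intro i
    have := h a ha i
    rw [abs_le] at this
    rw [Finset.mem_Icc]
    omega
  refine (Finset.card_le_card hsub).trans ?_
  rw [Fintype.card_piFinset]
  have : ∀ i : Fin d, (Finset.Icc (c i - 1) (c i + 1)).card = 3 := by
    intro i
    rw [Int.card_Icc]
    omega
  simp [this]

/-- Double counting. -/
theorem dcount {d : ℕ} (R : Finset (Site d)) (k : ℕ)
    (h : ∀ a ∈ (bdry R).image fun q => cub k q.1,
      2 ^ k ≤ ((bdry R).filter fun q => ∀ i, |cub k q.1 i - a i| ≤ 1).card) :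
    2 ^ k * ((bdry R).image fun q => cub k q.1).card ≤ 3 ^ d * (bdry R).card := by
  classical
  set W := (bdry R).image fun q => cub k q.1 with hW
  have h1 : W.card * 2 ^ k ≤
      ∑ a ∈ W, ((bdry R).filter fun q => ∀ i, |cub k q.1 i - a i| ≤ 1).card := by
    rw [← smul_eq_mul, ← Finset.sum_const]
    exact Finset.sum_le_sum h
  have h2 : ∑ a ∈ W, ((bdry R).filter fun q => ∀ i, |cub k q.1 i - a i| ≤ 1).card =
      ∑ q ∈ bdry R, (W.filter fun a => ∀ i, |cub k q.1 i - a i| ≤ 1).card := by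
    simp only [Finset.card_filter]
    exact Finset.sum_comm
  have h3 : ∑ q ∈ bdry R, (W.filter fun a => ∀ i, |cub k q.1 i - a i| ≤ 1).card ≤
      (bdry R).card * 3 ^ d := by
    rw [← smul_eq_mul, ← Finset.sum_const]
    refine Finset.sum_le_sum fun q _ => ?_
    exact nearCard _ (cub k q.1) fun a ha => (Finset.mem_filter.1 ha).2
  calc 2 ^ k * W.card = W.card * 2 ^ k := Nat.mul_comm _ _
    _ ≤ (bdry R).card * 3 ^ d := h1.trans (h2.le.trans h3)
    _ = 3 ^ d * (bdry R).card := Nat.mul_comm _ _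

end CUBES_

open CUBES_ in
/-- The target CUBES. -/
theorem p_CUBES : T_BCONN → T_CUBF → T_CUBES := by
  classical
  intro hB hC d hd R k hR
  have hcub := (hC d).2.2.2.2.2.2.1
  refine ⟨?_, ?_⟩
  · set W := (bdry R).image fun q => cub k q.1 with hW
    have hmk : (0 : ℝ) ≤ ((bdry R).card : ℝ) / 2 ^ k := by positivity
    have h3 : (0 : ℝ) < 3 ^ d := by positivity
    by_cases hfar : ∃ a ∈ W, ∀ q ∈ bdry R, ∀ i, |cub k q.1 i - a i| ≤ 1
    · obtain ⟨a, _, ha⟩ := hfar
      have hle : W.card ≤ 3 ^ d := by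
        refine nearCard W a fun b hb i => ?_
        obtain ⟨q, hq, rfl⟩ := Finset.mem_image.1 hb
        rw [abs_sub_comm]
        exact ha q hq i
      have hle' : (W.card : ℝ) ≤ 3 ^ d := by exact_mod_cast hle
      nlinarith
    · push Not at hfar
      have hbig : ∀ a ∈ W,
          2 ^ k ≤ ((bdry R).filter fun q => ∀ i, |cub k q.1 i - a i| ≤ 1).card := by
        intro a ha
        obtain ⟨q1, hq1, i, hi⟩ := hfar a ha
        obtain ⟨q0, hq0, rfl⟩ := Finset.mem_image.1 ha
        refine big R k q0 q1 hq0 (hB d R hd hR q0 hq0 q1 hq1) ?_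
        intro hall
        exact absurd (hall i) (not_le.2 hi)
      have hcnt := dcount R k hbig
      have hcnt' : (2 : ℝ) ^ k * (W.card : ℝ) ≤ 3 ^ d * ((bdry R).card : ℝ) := by
        exact_mod_cast hcnt
      have h2 : (0 : ℝ) < 2 ^ k := by positivity
      have : (W.card : ℝ) ≤ 3 ^ d * (((bdry R).card : ℝ) / 2 ^ k) := by
        rw [← mul_div_assoc, le_div_iff₀ h2]
        linarith
      nlinarith
  · intro a ha b hb
    obtain ⟨q, hq, rfl⟩ := Finset.mem_image.1 ha
    obtain ⟨q', hq', rfl⟩ := Finset.mem_image.1 hb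
    refine Relation.ReflTransGen.lift (fun q : Site d × (Fin d × Bool) => cub k q.1) ?_ _ _
      (hB d R hd hR q hq q' hq')
    rintro x y ⟨hy, hxy⟩
    exact ⟨Finset.mem_image.2 ⟨y, hy, rfl⟩, fun i => hcub k x.1 y.1 i (hxy i)⟩

end Pool.Agent.TRH
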