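import Pool.Agent.TRH.T3

/-!
# Trap in dimension at least three: CUBF
-/

set_option autoImplicit false

open MeasureTheory Pool.Agent.TRP

noncomputable section

namespace Pool.Agent.TRH

namespace CUBF_

lemma ediv_eq_iff (x a b : ℤ) (hb : 0 < b) : x / b = a ↔ b * a ≤ x ∧ x < b * (a + 1) := by
  constructor
  · rintro rfl
    refine ⟨Int.mul_ediv_self_le hb.ne', ?_⟩
    have := Int.lt_ediv_add_one_mul_self x hb
    rwa [mul_comm] at this
  · rintro ⟨h1, h2⟩
    apply le_antisymm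
    · have : x / b < a + 1 := by
        rw [Int.ediv_lt_iff_lt_mul hb, mul_comm]
        exact h2
      omega
    · rw [Int.le_ediv_iff_mul_le hb, mul_comm]
      exact h1

lemma two_pos (j : ℕ) : (0 : ℤ) < 2 ^ j := by positivity

lemma mem_cube {d : ℕ} (j : ℕ) (x a : Site d) : x ∈ cube j a ↔ cub j x = a := by
  unfold cube cub
  rw [Fintype.mem_piFinset, funext_iff]
  refine forall_congr' fun i => ?_
  rw [Finset.mem_Ico, ediv_eq_iff _ _ _ (two_pos j)]

lemma card_cube {d : ℕ} (j : ℕ) (a : Site d) : (cube j a).card = 2 ^ (j * d) := by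
  unfold cube
  rw [Fintype.card_piFinset]
  have h : ∀ i : Fin d, (Finset.Ico (2 ^ j * a i) (2 ^ j * (a i + 1))).card = 2 ^ j := by
    intro i
    rw [Int.card_Ico]
    have : (2 ^ j * (a i + 1) - 2 ^ j * a i : ℤ) = ((2 ^ j : ℕ) : ℤ) := by
      push_cast
      ring
    rw [this, Int.toNat_natCast]
  simp only [h]
  rw [Finset.prod_const, Finset.card_univ, Fintype.card_fin, pow_mul]

lemma mem_fat {d : ℕ} (j : ℕ) (M : Finset (Site d)) (x : Site d) :
    x ∈ fat j M ↔ cub j x ∈ M := by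
  unfold fat
  rw [Finset.mem_biUnion]
  constructor
  · rintro ⟨a, ha, hx⟩
    rw [mem_cube] at hx
    rwa [hx]
  · intro h
    exact ⟨cub j x, h, (mem_cube j x _).2 rfl⟩

lemma cub_zero {d : ℕ} (x : Site d) : cub 0 x = x := by
  funext i
  simp [cub]

lemma cub_add {d : ℕ} (j k : ℕ) (x : Site d) : cub (j + k) x = cub k (cub j x) := by
  funext i
  show x i / 2 ^ (j + k) = x i / 2 ^ j / 2 ^ k
  rw [Int.ediv_ediv_of_nonneg (two_pos j).le, pow_add]

lemma mem_maj {d : ℕ} (j : ℕ) (R : Finset (Site d)) (a : Site d) :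
    a ∈ maj j R ↔ 2 ^ (j * d) ≤ 2 * (R ∩ cube j a).card := by
  unfold maj
  rw [Finset.mem_filter]
  constructor
  · exact fun h => h.2
  · intro h
    refine ⟨?_, h⟩
    have h1 : 0 < 2 ^ (j * d) := by positivity
    have h2 : 0 < (R ∩ cube j a).card := by omega
    obtain ⟨y, hy⟩ := Finset.card_pos.1 h2
    rw [Finset.mem_inter, mem_cube] at hy
    exact Finset.mem_image.2 ⟨y, hy.1, hy.2⟩

lemma maj_zero {d : ℕ} (R : Finset (Site d)) : maj 0 R = R := by
  ext a
  rw [mem_maj]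
  rw [zero_mul, pow_zero]
  constructor
  · intro h
    have h2 : 0 < (R ∩ cube 0 a).card := by omega
    obtain ⟨y, hy⟩ := Finset.card_pos.1 h2
    rw [Finset.mem_inter, mem_cube, cub_zero] at hy
    rw [← hy.2]
    exact hy.1
  · intro h
    have h2 : 0 < (R ∩ cube 0 a).card := by
      apply Finset.card_pos.2
      refine ⟨a, ?_⟩
      rw [Finset.mem_inter, mem_cube, cub_zero]
      exact ⟨h, rfl⟩
    omega

lemma fat_zero {d : ℕ} (R : Finset (Site d)) : fat 0 R = R := by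
  ext a
  rw [mem_fat, cub_zero]

lemma cub_near {d : ℕ} (j : ℕ) (x y : Site d) (i : Fin d) (h : |x i - y i| ≤ 1) :
    |cub j x i - cub j y i| ≤ 1 := by
  have hb := two_pos j
  have key : ∀ u v : ℤ, u ≤ v + 1 → u / 2 ^ j ≤ v / 2 ^ j + 1 := by
    intro u v huv
    have h1 : u ≤ v + 1 * 2 ^ j := by omega
    have h2 := Int.ediv_le_ediv hb h1
    rwa [Int.add_mul_ediv_right _ _ hb.ne'] at h2
  rw [abs_le] at h ⊢
  have h1 := key (x i) (y i) (by omega)
  have h2 := key (y i) (x i) (by omega)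
  constructor
  · show -1 ≤ x i / 2 ^ j - y i / 2 ^ j
    omega
  · show x i / 2 ^ j - y i / 2 ^ j ≤ 1
    omega

lemma fat_box {d : ℕ} (j n : ℕ) (R : Finset (Site d)) (hR : R ⊆ bx d n) :
    fat j (maj j R) ⊆ bx d (n + 2 ^ j) := by
  intro x hx
  rw [mem_fat] at hx
  unfold maj at hx
  rw [Finset.mem_filter, Finset.mem_image] at hx
  obtain ⟨⟨y, hy, hxy⟩, -⟩ := hx
  have h1 := hR hy
  unfold bx at h1 ⊢
  rw [Fintype.mem_piFinset] at h1 ⊢
  intro i
  have h2 := h1 i
  rw [Finset.mem_Icc] at h2 ⊢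
  have h3 : y i / 2 ^ j = x i / 2 ^ j := congrFun hxy i
  have h4 := (ediv_eq_iff (x i) _ _ (two_pos j)).1 rfl
  have h5 := (ediv_eq_iff (y i) _ _ (two_pos j)).1 h3
  rw [mul_add, mul_one] at h4 h5
  push_cast
  constructor <;> linarith [h4.1, h4.2, h5.1, h5.2, h2.1, h2.2]

end CUBF_

/-- Basic facts on cubes. -/
theorem p_CUBF : T_CUBF := by
  intro d
  exact ⟨CUBF_.mem_cube, CUBF_.card_cube, CUBF_.mem_fat,
    fun R => ⟨CUBF_.maj_zero R, CUBF_.fat_zero R⟩, CUBF_.cub_add, CUBF_.mem_maj, CUBF_.cub_near,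
    CUBF_.fat_box⟩

end Pool.Agent.TRH
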