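import Pool.Agent.TRH.T3

/-!
# TRH, block DET: a finite set is determined by its boundary
-/

set_option autoImplicit false

open MeasureTheory Pool.Agent.TRP

noncomputable section

namespace Pool.Agent.TRH

namespace DET_

theorem exists_out {d : ℕ} (M : Finset (Site d)) (x v : Site d) (hv : v ≠ 0) :
    ∃ n : ℕ, x + n • v ∉ M := by
  by_contra hcon
  push Not at hcon
  have hinj : Function.Injective fun n : ℕ => x + n • v := by
    intro a b h
    simp only [add_right_inj] at h
    obtain ⟨i, hi⟩ := Function.ne_iff.1 hv
    have h2 := congrFun h i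
    simp only [Pi.smul_apply, nsmul_eq_mul] at h2
    exact_mod_cast mul_right_cancel₀ hi h2
  exact (Set.infinite_of_injective_forall_mem (s := (M : Set (Site d))) hinj hcon)
    M.finite_toSet

theorem subset_of {d : ℕ} (M M' : Finset (Site d)) (hd : 1 ≤ d) (h : bdry M = bdry M') :
    M ⊆ M' := by
  intro x hx
  by_contra hx'
  set e : Fin d × Bool := (⟨0, hd⟩, true) with he
  set e' : Fin d × Bool := (⟨0, hd⟩, false) with he'
  have hee : dv e' = -dv e := by simp [dv, he, he']
  have hne : dv e ≠ 0 := by
    intro h0
    have := congrFun h0 ⟨0, hd⟩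
    simp [dv, he] at this
  have hex := exists_out M x (dv e) hne
  classical
  have hn := Nat.find_spec hex
  have hmin : ∀ i, i < Nat.find hex → x + i • dv e ∈ M := by
    intro i hi
    by_contra hc
    exact Nat.find_min hex hi hc
  set n := Nat.find hex with hndef
  have hn0 : n ≠ 0 := by
    intro h0
    rw [h0] at hn
    simp only [zero_smul, add_zero] at hn
    exact hn hx
  obtain ⟨k, hk⟩ := Nat.exists_eq_succ_of_ne_zero hn0
  have hlast : x + k • dv e ∈ M' := by
    have h1 : (x + k • dv e, e) ∈ bdry M := by
      unfold bdry
      rw [Finset.mem_filter, Finset.mem_product]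
      refine ⟨⟨hmin k (by omega), Finset.mem_univ _⟩, ?_⟩
      rw [hk, Nat.succ_eq_add_one, add_smul, one_smul, ← add_assoc] at hn
      exact hn
    rw [h] at h1
    unfold bdry at h1
    rw [Finset.mem_filter, Finset.mem_product] at h1
    exact h1.1.1
  have key : ∀ i, i ≤ k → x + i • dv e ∉ M' := by
    intro i
    induction i with
    | zero => intro _; simpa using hx'
    | succ i ih =>
      intro hi hc
      have hu := ih (by omega)
      have h1 : (x + (i + 1) • dv e, e') ∈ bdry M' := by
        unfold bdry
        rw [Finset.mem_filter, Finset.mem_product]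
        refine ⟨⟨hc, Finset.mem_univ _⟩, ?_⟩
        rw [hee, add_smul, one_smul]
        have : x + (i • dv e + dv e) + -dv e = x + i • dv e := by abel
        rw [this]
        exact hu
      rw [← h] at h1
      unfold bdry at h1
      rw [Finset.mem_filter] at h1
      apply h1.2
      rw [hee, add_smul, one_smul]
      have : x + (i • dv e + dv e) + -dv e = x + i • dv e := by abel
      rw [this]
      exact hmin i (by omega)
  exact key k le_rfl hlast

end DET_

theorem p_DET : T_DET := fun _ M M' hd h =>
  Finset.Subset.antisymm (DET_.subset_of M M' hd h) (DET_.subset_of M' M hd h.symm)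

end Pool.Agent.TRH
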