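import Pool.Agent.TRH.T1
import Pool.Agent.TRH.T4
import Pool.Agent.TRP.P_MONO

/-!
# DISJ: the two players cannot both win
-/

set_option autoImplicit false

open MeasureTheory Pool.Agent.TRP

noncomputable section

namespace Pool.Agent.TRH

/-- If the origin is not in `S`, it is trivially avoidable. -/
theorem DISJ_mem {V : Type} [DecidableEq V] (G : SimpleGraph V) (S : Finset V) (x : V)
    (h : ¬ Ess G S x) : x ∈ S := by
  by_contra hx
  exact h (by unfold Ess; rw [Finset.erase_eq_of_notMem hx])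

/-- Neighbours of the sites outside `par b` stay in the region. -/
theorem DISJ_nb (hB : T_LATB) (d n : ℕ) (b : Bool) :
    ∀ y ∈ reg d n b, ¬ par b y → ∀ z, (lattice d).Adj y z → z ∈ reg d n b := by
  obtain ⟨h1, -, -, -, -, -, -, -, h9, -⟩ := hB d
  intro y hy hp z hz
  obtain ⟨e, rfl⟩ := (h1 y z).1 hz
  exact h9 n b y hy hp e

theorem p_DISJ : T_WINE → T_LATB → T_DISJ := by
  intro hW hB d n A h0 ⟨hE, hN⟩
  obtain ⟨-, h2, -, -, h5, h6, -, -, -, h10, -⟩ := hB d
  have hmemT : (0 : Site d) ∈ reg d n true \ A := Finset.mem_sdiff.2 ⟨h10 n, h0⟩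
  have hmemF : (0 : Site d) ∈ reg d n false \ A := DISJ_mem _ _ _ hN
  have hpF : ¬ par false (0 : Site d) := by
    have := (h5 (0 : Site d) true).1 h6
    simpa using this
  have hopen : ∀ b : Bool, ∀ y : Site d, y ∈ reg d n b \ A ↔
      y ∈ reg d n b ∧ y ∈ {z : Site d | z ∉ A} := by
    intro b y
    rw [Finset.mem_sdiff]
    rfl
  have hw := (hW (Site d) (lattice d) (par true) (h2 true) (reg d n true) (reg d n true \ A)
    {z : Site d | z ∉ A} 0 (DISJ_nb hB d n true) (hopen true) hmemT
    ((reg d n true \ A).card) le_rfl).1 h6 hE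
  have hl := (hW (Site d) (lattice d) (par false) (h2 false) (reg d n false)
    (reg d n false \ A) {z : Site d | z ∉ A} 0 (DISJ_nb hB d n false) (hopen false) hmemF
    ((reg d n false \ A).card) le_rfl).2 hpF hN
  exact (p_MONO (Site d) (brd (lattice d) {z : Site d | z ∉ A})).2.2 _ _ _ _ ⟨hw, hl⟩

end Pool.Agent.TRH

end
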