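import Pool.Agent.TRH.T1
import Pool.Agent.TRP.P_STRAT

/-!
# Trap in dimension at least three: the target DRAWEQ
-/

set_option autoImplicit false

open MeasureTheory Pool.Agent.TRP

noncomputable section

namespace Pool.Agent.TRH

namespace DRAWEQ_

/-- A site of the region is in the difference iff it is open. -/
lemma mem_S {d : ℕ} {ω : Site d → Bool} {A : ℕ → Finset (Site d)}
    (hA : ∀ n x, x ∈ A n ↔ x ∈ bx d n ∧ ω x = true) {n : ℕ} {b : Bool}
    (hsub : reg d n b ⊆ bx d n) (y : Site d) :
    y ∈ reg d n b \ A n ↔ y ∈ reg d n b ∧ y ∈ {x : Site d | ω x = false} := by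
  rw [Finset.mem_sdiff, hA]
  constructor
  · rintro ⟨h1, h2⟩
    refine ⟨h1, ?_⟩
    by_contra h3
    exact h2 ⟨hsub h1, by simpa using h3⟩
  · rintro ⟨h1, h2⟩
    refine ⟨h1, fun h3 => ?_⟩
    have h4 : ω y = false := h2
    rw [h4] at h3
    exact Bool.noConfusion h3.2

end DRAWEQ_

theorem p_DRAWEQ : T_WINE → T_AGREE → T_CONVG → T_LATB → T_DRAWEQ := by
  intro hW hAg hC hL d ω h0 A hA
  obtain ⟨adj, bip, fin, -, par2, par0, -, mono, nbr, z1, z2, inn⟩ := hL d
  have hsub : ∀ n b, reg d n b ⊆ bx d n := fun n b => (mono n n b le_rfl).2.2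
  have hm : ∀ n b (y : Site d), y ∈ reg d n b \ A n ↔ y ∈ reg d n b ∧
      y ∈ {x : Site d | ω x = false} := fun n b y => DRAWEQ_.mem_S hA (hsub n b) y
  have hO : (0 : Site d) ∈ {x : Site d | ω x = false} := h0
  have hnb : ∀ n b, ∀ y ∈ reg d n b, ¬ par b y → ∀ z, (lattice d).Adj y z → z ∈ reg d n b := by
    intro n b y hy hp z hz
    obtain ⟨e, rfl⟩ := (adj y z).1 hz
    exact nbr n b y hy hp e
  have hfin : ∀ x, {y | (brd (lattice d) {x : Site d | ω x = false}).Adj x y}.Finite := by
    intro x
    exact (fin x).subset fun y hy => hy.1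
  obtain hstrat := fun n => p_STRAT (Site d) (brd (lattice d) {x : Site d | ω x = false}) n 0
  have hconv := hC (Site d) (brd (lattice d) {x : Site d | ω x = false}) hfin 0
  constructor
  · rintro ⟨hF, hS⟩ n
    constructor
    · intro hE
      refine hF ((hstrat _).1 (((hW (Site d) (lattice d) (par true) (bip true) (reg d n true)
        (reg d n true \ A n) {x : Site d | ω x = false} 0 (hnb n true) (hm n true)
        ((hm n true 0).2 ⟨z1 n, hO⟩) _ le_rfl).1) par0 hE))
    · by_contra hE
      have h1 : (0 : Site d) ∈ reg d n false \ A n := by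
        by_contra h2
        apply hE
        unfold Ess
        rw [Finset.erase_eq_of_notMem h2]
      have hp : ¬ par false (0 : Site d) := (par2 0 true).1 par0
      exact hS ((hstrat _).2 (((hW (Site d) (lattice d) (par false) (bip false) (reg d n false)
        (reg d n false \ A n) {x : Site d | ω x = false} 0 (hnb n false) (hm n false)
        h1 _ le_rfl).2) hp hE))
  · intro h
    constructor
    · intro hF
      obtain ⟨N, hN⟩ := hconv.1 hF
      have h1 : (0 : Site d) ∈ reg d (2 * N + 1) true \ A (2 * N + 1) :=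
        (hm _ true 0).2 ⟨z1 _, hO⟩
      refine (h (2 * N + 1)).1 (((hAg d N (reg d (2 * N + 1) true \ A (2 * N + 1)) {0}
        {x : Site d | ω x = false} 0 h1 (Finset.mem_singleton_self _) hO).1) ?_ hN)
      intro z hz hz0
      rw [hm]
      have h2 : z ∈ reg d (2 * N + 1) true := by
        refine inn (2 * N) true z fun i => ?_
        have h3 := hz i
        rw [Pi.zero_apply, sub_zero] at h3
        push_cast
        exact h3
      constructor
      · rintro ⟨-, h4⟩
        exact ⟨h4, by simpa using hz0⟩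
      · rintro ⟨h4, -⟩
        exact ⟨h2, h4⟩
    · intro hS
      obtain ⟨N, hN⟩ := hconv.2 hS
      have h1 : (0 : Site d) ∈ reg d (2 * N + 2) false \ A (2 * N + 2) :=
        (hm _ false 0).2 ⟨z2 _ (by omega), hO⟩
      refine ((hAg d N (reg d (2 * N + 2) false \ A (2 * N + 2)) {0}
        {x : Site d | ω x = false} 0 h1 (Finset.mem_singleton_self _) hO).2) ?_ hN
        (h (2 * N + 2)).2
      intro z hz hz0
      rw [hm]
      have h2 : z ∈ reg d (2 * N + 2) false := by
        refine inn (2 * N + 1) false z fun i => ?_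
        have h3 := hz i
        rw [Pi.zero_apply, sub_zero] at h3
        push_cast
        exact h3
      constructor
      · rintro ⟨-, h4⟩
        exact ⟨h4, by simpa using hz0⟩
      · rintro ⟨h4, -⟩
        exact ⟨h2, h4⟩

end Pool.Agent.TRH

end
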