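import Pool.Agent.TRH.T1
import Pool.Agent.TRP.P_NU1
import Pool.Agent.TRP.P_NU2

/-!
# ESSNU: essential for independent sets and essential for matchings
-/

set_option autoImplicit false

open Pool.Agent.TRP

namespace Pool.Agent.TRH

theorem ESSNU_.main (hrec : T_REC) (V : Type) [DecidableEq V] (G : SimpleGraph V)
    (P : V → Prop) (hB : Bip G P) : ∀ (n : ℕ) (S : Finset V), S.card = n → ∀ x ∈ S,
      (Ess G S x ↔ nu G P (S.erase x) < nu G P S) := by
  intro n
  induction n with
  | zero =>
    intro S hS x hx
    rw [Finset.card_eq_zero] at hS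
    subst hS
    simp at hx
  | succ n ih =>
    intro S hS x hx
    have hc : (S.erase x).card = n := by
      rw [Finset.card_erase_of_mem hx, hS]
      rfl
    rw [hrec V G P hB S x hx, p_NU2 V G P hB S x hx]
    refine exists_congr fun y => and_congr_right fun hy => and_congr_right fun _ => ?_
    rw [ih (S.erase x) hc y hy, not_lt]
    have hm := (p_NU1 V G P hB).1 ((S.erase x).erase y) (S.erase x) (Finset.erase_subset _ _)
    exact ⟨fun h => le_antisymm hm h, fun h => h.ge⟩

theorem p_ESSNU : T_LATT → T_REC → T_ESSNU := fun _ hrec V _ G P hB S x hx =>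
  ESSNU_.main hrec V G P hB S.card S rfl x hx

end Pool.Agent.TRH
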