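import Pool.Agent.TRH.Defs

/-!
# Trap in dimension at least three: targets, part 2 (regions, rotations, gain)
-/

set_option autoImplicit false

open MeasureTheory Pool.Agent.TRP

noncomputable section

namespace Pool.Agent.TRH

/-- OUT. The complement of `reg d n b` is connected for `d ≥ 2`. A site of the box which is not in
`reg d n b` has a neighbour outside the box, so it is enough to join every `x` outside the box to
`z = (n+1, …, n+1)` by a path outside the box (steps are reversible). Some `|x i| > n`. Change all
other coordinates one after the other to `n + 1` by unit steps (coordinate `i` keeps the path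
outside the box); as `d ≥ 2` some other coordinate is now `n + 1`; change coordinate `i` to
`n + 1`. -/
def T_OUT : Prop :=
  ∀ (d n : ℕ) (b : Bool), 2 ≤ d → Conn ((reg d n b : Set (Site d))ᶜ)

/-- REGION. The region of the other phase around the origin. Let `K = {y ∈ I : ¬ par b y}`,
`X0 = K ∪ N(K)` (`⊆ reg d n b` because all neighbours of sites of `reg` outside `par b` are in
`reg`), `0 ∈ X0`, `C` = the sites joined to `0` inside `X0` (connected), `z` any site outside
`reg d n b`, `D` = the sites joined to `z` outside `C` (connected, contains the complement of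
`reg d n b` by `T_OUT`, disjoint from `C`), `R` = the complement of `D`, a finite subset of
`reg d n b`. `R` is connected: a path of the lattice from `x ∈ R` to `z` meets `C` (otherwise
`x ∈ D`), and up to its first site in `C` it stays in `R` (its sites are joined to `x` outside
`C`); so every `x ∈ R` is joined in `R` to `C`, and `C ⊆ R` is connected. Boundary edge
`(y, e)`: `y ∉ D` and `y + dv e ∈ D` are adjacent, so `y ∈ C` (otherwise `y ∈ D`), and
`y + dv e ∉ C`. If `y ∈ K` then `y + dv e ∈ N(K)` would be in `C`; so `y ∉ K`, `y ∈ N(K)`, hence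
`par b y` and `y` has a neighbour in `I`, so `y ∉ I`. `y + dv e` is outside `par b`; if it were in
`I` it would be in `K` and adjacent to `y ∈ C`, so in `C`. Finally `0 ∈ K`, or a neighbour of `0`
is in `K ∩ C`: a site of `R` outside `par b`. -/
def T_REGION : Prop :=
  ∀ (d n : ℕ) (b : Bool), 2 ≤ d → ∀ I : Finset (Site d), I ⊆ reg d n b → Ind (lattice d) I →
    ((0 ∈ I ∧ ¬ par b (0 : Site d)) ∨
      (par b (0 : Site d) ∧ ∃ y ∈ I, (lattice d).Adj 0 y)) →
    ∃ R, R ⊆ reg d n b ∧ Good R ∧ (∃ z ∈ R, ¬ par b z) ∧
      ∀ q ∈ bdry R, par b q.1 ∧ q.1 ∉ I ∧ q.1 + dv q.2 ∉ I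

/-- ROT. `rot R e` is a permutation of the sites, the identity outside `R`. For `x ∈ R` the set
`{k | x - (k+1) • dv e ∉ R}` is nonempty (`R` is finite and the sites `x - k • dv e` are
different); for `k = back R e x` the sites `x - j • dv e`, `j ≤ k`, are in `R` and
`x - (k+1) • dv e` is not. It maps `R` to `R`, and onto: for `y ∈ R` with `y - dv e ∈ R` take
`y - dv e`; otherwise let `x = y + k • dv e` be the last site such that `y + j • dv e ∈ R` for
all `j ≤ k`, then `back R e x = k` and `rot R e x = y`. A surjection of the finite set `R` onto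
itself is injective. Last part: an image of a set of sites of `F ⊇ R` is in `F`. -/
def T_ROT : Prop :=
  ∀ (d : ℕ) (R : Finset (Site d)) (e : Fin d × Bool),
    (∃ σ : Equiv.Perm (Site d), ∀ x, σ x = rot R e x) ∧
    (∀ x, rot R e x ∈ R ↔ x ∈ R) ∧ (∀ x, x ∉ R → rot R e x = x) ∧
    (∀ x, x ∈ R → x + dv e ∈ R → rot R e x = x + dv e) ∧
    (∀ x, x ∈ R → x + dv e ∉ R → rot R e x - dv e ∉ R ∧ ∃ k : ℕ, rot R e x = x - k • dv e ∧
      ∀ j ≤ k, x - j • dv e ∈ R) ∧
    (∀ F A : Finset (Site d), R ⊆ F → A ⊆ F → A.image (rot R e) ⊆ F ∧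
      (A.image (rot R e)).card = A.card)

/-- SUPP. Two rotations differ in few sites. Let `rot R e x ≠ rot R' e x`. (a) `x` in the symmetric
difference `D`: at most `|D|` sites. Otherwise `x ∈ R ∩ R'`. (b) `x + dv e ∈ D`: at most `|D|`
sites. If `x + dv e ∈ R ∩ R'` both values are `x + dv e`. (c) `x + dv e` is in neither: both
values are first sites of the lines ending in `x`; as they differ there is a least `k ≥ 1` with
`x - k • dv e ∈ D` (as long as `x - j • dv e` is in both sets or in neither for all `j`, the two
values of `back` are equal), and for `0 ≤ j < k` the sites `x - j • dv e` are in `R ∩ R'` (if one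
of them were in neither set both values of `back` would be equal). The map `x ↦ x - k • dv e`
from the sites of type (c) to `D` is injective: if `z + k • dv e`, `z + k' • dv e`, `k < k'`, have
the same image `z`, then `z + (k+1) • dv e` is in neither set by the first one and in both by the
second one. -/
def T_SUPP : Prop :=
  ∀ (d : ℕ) (R R' F : Finset (Site d)) (e : Fin d × Bool),
    (F.filter fun x => rot R e x ≠ rot R' e x).card ≤ 3 * (symmDiff R R').card

/-- GAIN. `I` is a maximum independent set of `L \ A`. With `r = rot R e` (a permutation, `T_ROT`)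
let `I' = (I \ R) ∪ r(I ∩ R) ∪ r(lastO R A e)`; note `r(I ∩ R ∪ lastO) = ` image of a set of open
sites, so `I' ⊆ L \ A.image r` (`R ⊆ L`; `r` injective; `r` is the identity outside `R`). For
`x ∈ I ∩ R` the pair `(x, e)` is not in `bdry R`, so `r x = x + dv e`. `I'` is independent:
`u ∈ I \ R` and `v ∈ R` adjacent: `u = v + dv e'`, `(v, e') ∈ bdry R`, so `u ∉ I`, impossible;
`x + dv e`, `x' + dv e` with `x, x' ∈ I` adjacent: then `x, x'` are adjacent;
`u = x + dv e`, `x ∈ I ∩ R`, and `f = r y` a first site (`f - dv e ∉ R`) adjacent: then `x` and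
`f - dv e ∉ R` are adjacent, so `x` is the inner end of a boundary edge and `x ∉ I`, impossible;
two first sites `f, f'`: both are inner ends of boundary edges (direction `-e`), so both are in
`par b` and are not adjacent. The three parts are disjoint (`r` is injective, an element of
`I ∩ R` is not a last site), so `|I'| = |I| + |lastO R A e|`. -/
def T_GAIN : Prop :=
  ∀ (d : ℕ) (b : Bool) (L A R I : Finset (Site d)), MaxInd (lattice d) (L \ A) I → R ⊆ L →
    (∀ q ∈ bdry R, par b q.1 ∧ q.1 ∉ I ∧ q.1 + dv q.2 ∉ I) → Gain L A R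

/-- EXCH. Exchange inside `R`. `I' = (I \ R) ∪ (J ∩ R)` is independent: an edge between its two
parts joins `u ∈ J ∩ R` to `v ∈ I \ R`, but `v ∉ I` by hypothesis. `J' = (J \ R) ∪ (I ∩ R)` is
independent: an edge between its parts joins `u ∈ I ∩ R` to `v ∉ R`, but `u ∉ I`. They are subsets
of `S'` and `S`, `|I'| + |J'| = |I| + |J|`, so both are maximum. -/
def T_EXCH : Prop :=
  ∀ (V : Type) [DecidableEq V] (G : SimpleGraph V) (S S' R I J : Finset V), S ⊆ S' →
    S' ∩ R ⊆ S → MaxInd G S' I → MaxInd G S J →
    (∀ u ∈ R, ∀ v, v ∉ R → G.Adj u v → u ∉ I ∧ v ∉ I) →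
    MaxInd G S' ((I \ R) ∪ (J ∩ R)) ∧ MaxInd G S ((J \ R) ∪ (I ∩ R))

/-- STEP0. The origin decided for the scarce side gives a region with a gain. `b = true`: a maximum
independent set `I` of `(reg d n true \ A).erase 0` of size `alpha` is one of `reg d n true \ A`;
it avoids `0`; `0 ∉ A`, `0 ∈ reg d n true`, so `insert 0 I` is not independent and `0` has a
neighbour in `I`. `b = false`: `¬ Ess` means that every maximum independent set contains `0`
(one without `0` is an independent subset of the set with `0` erased), and `¬ par false 0`. Apply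
`T_REGION` and `T_GAIN`. -/
def T_STEP0 : Prop :=
  ∀ (d n : ℕ) (b : Bool) (A : Finset (Site d)), 2 ≤ d → (0 : Site d) ∉ A →
    ((b = true ∧ Ess (lattice d) (reg d n true \ A) 0) ∨
      (b = false ∧ ¬ Ess (lattice d) (reg d n false \ A) 0)) →
    ∃ R, R ⊆ reg d n b ∧ Good R ∧ (∃ z ∈ R, ¬ par b z) ∧ (∀ q ∈ bdry R, par b q.1) ∧
      Gain (reg d n b) A R

/-- STEP1. If moreover the origin is not decided in the smaller region, the region `R` is large.
As in `T_STEP0` take a maximum independent set `I` of `S' = reg d n' b \ A` and its region `R`.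
Suppose `R ⊆ reg d n b`, and let `J` be a maximum independent set of `S = reg d n b \ A`.
`b = true`: `T_EXCH` gives the maximum independent set `(J \ R) ∪ (I ∩ R)` of `S` without `0`
(`0 ∈ R`, `0 ∉ I`), so `Ess S 0`, contradiction. `b = false`: `Ess S 0` lets us take `J` without
`0`; `(I \ R) ∪ (J ∩ R)` is a maximum independent set of `S'` without `0`, contradiction with
`¬ Ess S' 0`. So `R` contains a site `x` outside `reg d n b`. If `x` is in the box `bx d n`, then
`¬ par b x`, so `x` is not the inner end of a boundary edge, all neighbours of `x` are in `R` and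
one of them is outside the box. So some `y ∈ R` has `|y i| ≥ n + 1` for some `i`, and `T_RADIUS`
gives `|bdry R| ≥ n + 2`. -/
def T_STEP1 : Prop :=
  ∀ (d n n' : ℕ) (b : Bool) (A : Finset (Site d)), 2 ≤ d → n ≤ n' → (0 : Site d) ∉ A →
    ((b = true ∧ Ess (lattice d) (reg d n' true \ A) 0 ∧
        ¬ Ess (lattice d) (reg d n true \ A) 0) ∨
      (b = false ∧ ¬ Ess (lattice d) (reg d n' false \ A) 0 ∧
        Ess (lattice d) (reg d n false \ A) 0)) →
    ∃ R, R ⊆ reg d n' b ∧ Good R ∧ n + 1 ≤ (bdry R).card ∧ Gain (reg d n' b) A R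

/-- ONE. With at most one closed site there is no gain. `z ∈ R`, `¬ par b z`, so all neighbours of
`z` are in `R` (otherwise `z` would be the inner end of a boundary edge). Fix `e = (i, true)`;
the three lines of direction `e` through `z`, `z + dv (k, true)`, `z - dv (k, true)` (`k ≠ i`)
are different and each contains a site of `R`, so each contains a last site (`x ∈ R`,
`x + dv e ∉ R`; `R` is finite); so there are at least 3 last sites and
`|lastO R A e| ≥ 3 - |A ∩ R| ≥ 3 - |A ∩ L|`. By `T_LATT`
`alpha (L \ A.image r) ≤ alpha L ≤ alpha (L \ A) + |L ∩ A|`, so `3 ≤ 2 |A ∩ L|`. -/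
def T_ONE : Prop :=
  ∀ (d : ℕ) (b : Bool) (L A R : Finset (Site d)), 2 ≤ d → R ⊆ L → (∃ z ∈ R, ¬ par b z) →
    (∀ q ∈ bdry R, par b q.1) → Gain L A R → 2 ≤ (A ∩ L).card

/-- RADIUS. `R` contains `0` and a site `x` with `|x i| ≥ r`; it is connected, and one step changes
the coordinate `i` by at most `1`, so for every integer `t` between `0` and `x i` the slice
`{y ∈ R : y i = t}` is not empty (discrete intermediate values along the chain of `Joins`); the
site of the slice with the largest coordinate `k` (`k ≠ i` fixed, `d ≥ 2`) gives a boundary edge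
in direction `(k, true)`. These are `r + 1` different boundary edges. -/
def T_RADIUS : Prop :=
  ∀ (d : ℕ) (R : Finset (Site d)) (i : Fin d) (r : ℕ), 2 ≤ d → (0 : Site d) ∈ R →
    Conn (R : Set (Site d)) → (∃ x ∈ R, (r : ℤ) ≤ |x i|) → r + 1 ≤ (bdry R).card

/-- EXIT. Boundary edge on the first axis. Let `t` be the least natural number with
`(t + 1) • dv (0, true) ∉ R` (`R` is finite). All `s • dv (0, true)`, `s ≤ t`, are in `R`, and by
the slice argument of `T_RADIUS` (slices `y 0 = s`, `0 ≤ s ≤ t`, each gives a boundary edge in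
direction `(1, true)`) `t + 1 ≤ |bdry R|`. -/
def T_EXIT : Prop :=
  ∀ (d : ℕ) (h : 0 < d) (R : Finset (Site d)), 2 ≤ d → (0 : Site d) ∈ R →
    ∃ t : ℕ, t + 1 ≤ (bdry R).card ∧ (t • dv (⟨0, h⟩, true), (⟨0, h⟩, true)) ∈ bdry R

end Pool.Agent.TRH
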