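import Pool.Agent.TRH.T1
import Pool.Agent.TRH.T2

/-! EXCH: exchange of two maximum independent sets inside a region. -/

set_option autoImplicit false

open MeasureTheory Pool.Agent.TRP

noncomputable section

namespace Pool.Agent.TRH

namespace EXCH_

theorem card_le_alpha {V : Type} {G : SimpleGraph V} {S I : Finset V} (h : I ⊆ S)
    (hI : Ind G I) : I.card ≤ alpha G S := by
  classical
  unfold alpha
  refine Finset.le_sup (f := Finset.card) ?_
  rw [Finset.mem_filter, Finset.mem_powerset]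
  exact ⟨h, hI⟩

end EXCH_

theorem p_EXCH : T_LATT → T_EXCH := by
  intro _ V _ G S S' R I J hS hR hI hJ h
  obtain ⟨hI1, hI2, hI3⟩ := hI
  obtain ⟨hJ1, hJ2, hJ3⟩ := hJ
  have s1 : (I \ R) ∪ (J ∩ R) ⊆ S' := by
    intro x hx
    rw [Finset.mem_union, Finset.mem_sdiff, Finset.mem_inter] at hx
    rcases hx with hx | hx
    · exact hI1 hx.1
    · exact hS (hJ1 hx.1)
  have s2 : (J \ R) ∪ (I ∩ R) ⊆ S := by
    intro x hx
    rw [Finset.mem_union, Finset.mem_sdiff, Finset.mem_inter] at hx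
    rcases hx with hx | hx
    · exact hJ1 hx.1
    · exact hR (Finset.mem_inter.2 ⟨hI1 hx.1, hx.2⟩)
  have i1 : Ind G ((I \ R) ∪ (J ∩ R)) := by
    intro x hx y hy hxy
    rw [Finset.mem_union, Finset.mem_sdiff, Finset.mem_inter] at hx hy
    rcases hx with hx | hx <;> rcases hy with hy | hy
    · exact hI2 x hx.1 y hy.1 hxy
    · exact (h y hy.2 x hx.2 hxy.symm).2 hx.1
    · exact (h x hx.2 y hy.2 hxy).2 hy.1
    · exact hJ2 x hx.1 y hy.1 hxy
  have i2 : Ind G ((J \ R) ∪ (I ∩ R)) := by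
    intro x hx y hy hxy
    rw [Finset.mem_union, Finset.mem_sdiff, Finset.mem_inter] at hx hy
    rcases hx with hx | hx <;> rcases hy with hy | hy
    · exact hJ2 x hx.1 y hy.1 hxy
    · exact (h y hy.2 x hx.2 hxy.symm).1 hy.1
    · exact (h x hx.2 y hy.2 hxy).1 hx.1
    · exact hI2 x hx.1 y hy.1 hxy
  have c1 : ((I \ R) ∪ (J ∩ R)).card = (I \ R).card + (J ∩ R).card := by
    refine Finset.card_union_of_disjoint ?_
    rw [Finset.disjoint_left]
    intro x hx hx'
    rw [Finset.mem_sdiff] at hx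
    rw [Finset.mem_inter] at hx'
    exact hx.2 hx'.2
  have c2 : ((J \ R) ∪ (I ∩ R)).card = (J \ R).card + (I ∩ R).card := by
    refine Finset.card_union_of_disjoint ?_
    rw [Finset.disjoint_left]
    intro x hx hx'
    rw [Finset.mem_sdiff] at hx
    rw [Finset.mem_inter] at hx'
    exact hx.2 hx'.2
  have c3 := Finset.card_sdiff_add_card_inter I R
  have c4 := Finset.card_sdiff_add_card_inter J R
  have a1 := EXCH_.card_le_alpha s1 i1
  have a2 := EXCH_.card_le_alpha s2 i2
  refine ⟨⟨s1, i1, ?_⟩, ⟨s2, i2, ?_⟩⟩ <;> omega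

end Pool.Agent.TRH
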