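import Pool.Agent.TRH.T4

/-!
# Trap in dimension at least three: the exponential moment of a function of independent sites
-/

set_option autoImplicit false

namespace Pool.Agent.TRH.EXPM_

/-- `exp u - 1 - u ≤ (u² / 2) exp u` for `u ≥ 0` -/
theorem exp_pos_bound (u : ℝ) (hu : 0 ≤ u) :
    Real.exp u - 1 - u ≤ u ^ 2 / 2 * Real.exp u := by
  have hd : ∀ x : ℝ, HasDerivAt
      (fun x : ℝ => x ^ 2 / 2 * Real.exp x - (Real.exp x - 1 - x))
      (x * Real.exp x + x ^ 2 / 2 * Real.exp x - (Real.exp x - 1)) x := by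
    intro x
    have h1 : HasDerivAt (fun x : ℝ => x ^ 2 / 2) x x := by
      have := (hasDerivAt_pow 2 x).div_const 2
      simpa using this
    have h2 : HasDerivAt (fun x : ℝ => Real.exp x) (Real.exp x) x := Real.hasDerivAt_exp x
    have h3 := h1.mul h2
    have h4 : HasDerivAt (fun x : ℝ => Real.exp x - 1 - x) (Real.exp x - 1) x :=
      (h2.sub_const 1).sub (hasDerivAt_id x)
    exact h3.sub h4
  have hm : MonotoneOn (fun x : ℝ => x ^ 2 / 2 * Real.exp x - (Real.exp x - 1 - x))
      (Set.Ici 0) := by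
    apply monotoneOn_of_deriv_nonneg (convex_Ici 0)
    · exact fun x _ => (hd x).continuousAt.continuousWithinAt
    · exact fun x _ => (hd x).differentiableAt.differentiableWithinAt
    · intro x hx
      rw [(hd x).deriv]
      have hx0 : 0 ≤ x := interior_subset hx
      have h5 : -x + 1 ≤ Real.exp (-x) := Real.add_one_le_exp (-x)
      have h6 : Real.exp (-x) * Real.exp x = 1 := by
        rw [← Real.exp_add]; simp
      have h7 := Real.exp_pos x
      have h8 : (-x + 1) * Real.exp x ≤ 1 := by
        calc (-x + 1) * Real.exp x ≤ Real.exp (-x) * Real.exp x := by gcongr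
          _ = 1 := h6
      have h9 : 0 ≤ x ^ 2 / 2 * Real.exp x := by positivity
      nlinarith
  have := hm (Set.mem_Ici.mpr le_rfl) (Set.mem_Ici.mpr hu) hu
  simp only [Real.exp_zero] at this
  norm_num at this
  linarith

/-- `exp u - 1 - u ≤ (u² / 2) exp |u|` -/
theorem exp_bound (u : ℝ) : Real.exp u - 1 - u ≤ u ^ 2 / 2 * Real.exp |u| := by
  rcases le_total 0 u with hu | hu
  · rw [abs_of_nonneg hu]; exact exp_pos_bound u hu
  · rw [abs_of_nonpos hu]
    have hv : 0 ≤ -u := by linarith
    have h1 := Real.quadratic_le_exp_of_nonneg hv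
    have h2 : Real.exp u * Real.exp (-u) = 1 := by rw [← Real.exp_add]; simp
    have h3 := Real.exp_pos u
    have h4 : Real.exp u ≤ 1 + u + u ^ 2 / 2 := by
      have h5 : Real.exp u * (1 + (-u) + (-u) ^ 2 / 2) ≤ 1 := by
        calc Real.exp u * (1 + (-u) + (-u) ^ 2 / 2) ≤ Real.exp u * Real.exp (-u) := by gcongr
          _ = 1 := h2
      have h6 : (1 : ℝ) ≤ (1 + u + u ^ 2 / 2) * (1 + (-u) + (-u) ^ 2 / 2) := by
        nlinarith [sq_nonneg (u ^ 2)]
      have h7 : 0 < 1 + (-u) + (-u) ^ 2 / 2 := by positivity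
      exact le_of_mul_le_mul_right (h5.trans h6) h7
    have h8 : 1 ≤ Real.exp (-u) := Real.one_le_exp hv
    nlinarith [sq_nonneg u]

/-- the inequality for one site -/
theorem one_site (p z a b c : ℝ) (hp0 : 0 ≤ p) (h : |b - a| ≤ 2) :
    (1 - p) * Real.exp (z * (a - c)) + p * Real.exp (z * (b - c)) ≤
      Real.exp (2 * p * z ^ 2 * Real.exp (2 * |z|)) *
        Real.exp (z * ((1 - p) * a + p * b - c)) := by
  set u := z * (b - a) with hu
  set w := z * ((1 - p) * a + p * b - c) with hw
  have h1 : z * (a - c) = w + -(p * u) := by rw [hw, hu]; ring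
  have h2 : z * (b - c) = w + -(p * u) + u := by rw [hw, hu]; ring
  rw [h2, h1, Real.exp_add (w + -(p * u)) u, Real.exp_add w]
  have h3 : |u| ≤ 2 * |z| := by
    rw [hu, abs_mul]
    nlinarith [abs_nonneg z]
  have h4 : u ^ 2 ≤ 4 * z ^ 2 := by
    have := pow_le_pow_left₀ (abs_nonneg u) h3 2
    have e1 : |u| ^ 2 = u ^ 2 := sq_abs u
    have e2 : (2 * |z|) ^ 2 = 4 * z ^ 2 := by rw [mul_pow, sq_abs]; norm_num
    linarith
  have h5 : Real.exp u - 1 - u ≤ 2 * z ^ 2 * Real.exp (2 * |z|) := by
    calc Real.exp u - 1 - u ≤ u ^ 2 / 2 * Real.exp |u| := exp_bound u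
      _ ≤ 2 * z ^ 2 * Real.exp (2 * |z|) := by
        apply mul_le_mul _ (Real.exp_le_exp.mpr h3) (Real.exp_pos _).le (by positivity)
        linarith
  have h6 : 1 + p * (Real.exp u - 1) ≤ Real.exp (p * (Real.exp u - 1)) := by
    have := Real.add_one_le_exp (p * (Real.exp u - 1))
    linarith
  have h7 : Real.exp (-(p * u)) * Real.exp (p * (Real.exp u - 1)) ≤
      Real.exp (2 * p * z ^ 2 * Real.exp (2 * |z|)) := by
    rw [← Real.exp_add]
    apply Real.exp_le_exp.mpr
    have := mul_le_mul_of_nonneg_left h5 hp0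
    nlinarith
  calc (1 - p) * (Real.exp w * Real.exp (-(p * u))) +
        p * (Real.exp w * Real.exp (-(p * u)) * Real.exp u)
      = Real.exp w * (Real.exp (-(p * u)) * (1 + p * (Real.exp u - 1))) := by ring
    _ ≤ Real.exp w * (Real.exp (-(p * u)) * Real.exp (p * (Real.exp u - 1))) := by gcongr
    _ ≤ Real.exp w * Real.exp (2 * p * z ^ 2 * Real.exp (2 * |z|)) := by gcongr
    _ = _ := by ring

variable {V : Type}

theorem wt_nonneg (F : Finset V) (p : ℝ) (hp0 : 0 ≤ p) (hp1 : p ≤ 1) (A : Finset V) :
    0 ≤ wt F p A := by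
  have : 0 ≤ 1 - p := by linarith
  unfold wt
  positivity

theorem ev_mono (F : Finset V) (p : ℝ) (hp0 : 0 ≤ p) (hp1 : p ≤ 1) (f g : Finset V → ℝ)
    (h : ∀ A, A ⊆ F → f A ≤ g A) : ev F p f ≤ ev F p g :=
  Finset.sum_le_sum fun A hA =>
    mul_le_mul_of_nonneg_left (h A (Finset.mem_powerset.mp hA)) (wt_nonneg F p hp0 hp1 A)

theorem ev_mul (F : Finset V) (p c : ℝ) (f : Finset V → ℝ) :
    (ev F p fun A => c * f A) = c * ev F p f := by
  unfold ev
  rw [Finset.mul_sum]
  exact Finset.sum_congr rfl fun A _ => by ring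

theorem ev_insert [DecidableEq V] (S : Finset V) (x : V) (hx : x ∉ S) (p : ℝ)
    (f : Finset V → ℝ) :
    ev (insert x S) p f = ev S p fun A => (1 - p) * f A + p * f (insert x A) := by
  unfold ev
  rw [Finset.sum_powerset_insert hx, ← Finset.sum_add_distrib]
  refine Finset.sum_congr rfl fun A hA => ?_
  have hA' : A ⊆ S := Finset.mem_powerset.mp hA
  have hxA : x ∉ A := fun h => hx (hA' h)
  have hc : A.card ≤ S.card := Finset.card_le_card hA'
  have h1 : wt (insert x S) p A = (1 - p) * wt S p A := by
    unfold wt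
    rw [Finset.card_insert_of_notMem hx, Nat.sub_add_comm hc, pow_succ]
    ring
  have h2 : wt (insert x S) p (insert x A) = p * wt S p A := by
    unfold wt
    rw [Finset.card_insert_of_notMem hx, Finset.card_insert_of_notMem hxA,
      Nat.add_sub_add_right, pow_succ]
    ring
  rw [h1, h2]
  ring

theorem main [DecidableEq V] (p z : ℝ) (hp0 : 0 ≤ p) (hp1 : p ≤ 1) (S : Finset V) :
    ∀ h : Finset V → ℝ, (∀ A, A ⊆ S → ∀ x ∈ S, x ∉ A → |h (insert x A) - h A| ≤ 2) →
      (ev S p fun A => Real.exp (z * (h A - ev S p h))) ≤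
        Real.exp (2 * p * z ^ 2 * Real.exp (2 * |z|) * S.card) := by
  induction S using Finset.induction_on with
  | empty =>
    intro h _
    simp [ev, wt]
  | insert x S hx ih =>
    intro h hh
    set k : Finset V → ℝ := fun A => (1 - p) * h A + p * h (insert x A) with hk
    have hkey : ∀ A, A ⊆ S → ∀ y ∈ S, y ∉ A → |k (insert y A) - k A| ≤ 2 := by
      intro A hA y hy hyA
      have hyx : y ≠ x := fun e => hx (e ▸ hy)
      have hxA : x ∉ A := fun e => hx (hA e)
      have h1 := hh A (hA.trans (Finset.subset_insert _ _)) y (Finset.mem_insert_of_mem hy) hyA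
      have h2 := hh (insert x A) (Finset.insert_subset_insert x hA) y
        (Finset.mem_insert_of_mem hy) (by simp [hyx, hyA])
      rw [Finset.insert_comm] at h2
      have h3 : k (insert y A) - k A =
          (1 - p) * (h (insert y A) - h A) +
            p * (h (insert x (insert y A)) - h (insert x A)) := by
        simp only [hk]; ring
      rw [h3]
      have hp2 : 0 ≤ 1 - p := by linarith
      calc |(1 - p) * (h (insert y A) - h A) +
            p * (h (insert x (insert y A)) - h (insert x A))|
          ≤ |(1 - p) * (h (insert y A) - h A)| +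
            |p * (h (insert x (insert y A)) - h (insert x A))| := abs_add_le _ _
        _ = (1 - p) * |h (insert y A) - h A| +
            p * |h (insert x (insert y A)) - h (insert x A)| := by
            rw [abs_mul, abs_mul, abs_of_nonneg hp2, abs_of_nonneg hp0]
        _ ≤ (1 - p) * 2 + p * 2 := by gcongr
        _ = 2 := by ring
    have hev : ev (insert x S) p h = ev S p k := ev_insert S x hx p h
    rw [hev, ev_insert S x hx p]
    calc (ev S p fun A => (1 - p) * Real.exp (z * (h A - ev S p k)) +
          p * Real.exp (z * (h (insert x A) - ev S p k)))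
        ≤ ev S p fun A => Real.exp (2 * p * z ^ 2 * Real.exp (2 * |z|)) *
            Real.exp (z * (k A - ev S p k)) := by
          apply ev_mono S p hp0 hp1
          intro A hA
          exact one_site p z (h A) (h (insert x A)) (ev S p k) hp0
            (hh A (hA.trans (Finset.subset_insert _ _)) x (Finset.mem_insert_self x S)
              fun e => hx (hA e))
      _ = Real.exp (2 * p * z ^ 2 * Real.exp (2 * |z|)) *
            ev S p fun A => Real.exp (z * (k A - ev S p k)) := ev_mul _ _ _ _
      _ ≤ Real.exp (2 * p * z ^ 2 * Real.exp (2 * |z|)) *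
            Real.exp (2 * p * z ^ 2 * Real.exp (2 * |z|) * S.card) := by
          gcongr
          exact ih k hkey
      _ = _ := by
          rw [← Real.exp_add, Finset.card_insert_of_notMem hx]
          congr 1
          push_cast
          ring

end Pool.Agent.TRH.EXPM_

namespace Pool.Agent.TRH

theorem p_EXPM : T_EXPM := by
  intro V _ S h hh p z hp0 hp1
  exact EXPM_.main p z hp0 hp1 S h hh

end Pool.Agent.TRH
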