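import Pool.Agent.TRH.T4

/-!
# Trap in dimension at least three: block FINAL
-/

set_option autoImplicit false

open MeasureTheory Pool.Agent.TRP

noncomputable section

namespace Pool.Agent.TRH

theorem FINAL_.seq {r0 : ℕ} (h : 1 ≤ r0) :
    Filter.Tendsto (fun J : ℕ => r0 * 2 ^ J) Filter.atTop Filter.atTop := by
  refine Filter.tendsto_atTop_mono (fun J => ?_) Filter.tendsto_id
  have h1 : J < 2 ^ J := Nat.lt_two_pow_self
  have h2 : 1 * 2 ^ J ≤ r0 * 2 ^ J := Nat.mul_le_mul_right _ h
  simp only [id]
  omega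

theorem p_FINAL : T_LIPW → T_THETA → T_FINAL := by
  intro hL hT d hd
  obtain ⟨e0, r0, he0, he1, hr0, h1, h2⟩ := hL d hd
  have hs := FINAL_.seq hr0
  have key : ∀ p q, 0 ≤ p → p ≤ q → q ≤ e0 →
      (q - p) / 2 ≤ theta d p - theta d q ∧ theta d p - theta d q ≤ 3 * (q - p) / 2 := by
    intro p q hp hpq hq
    have tp := (hT d p hp (by linarith)).comp hs
    have tq := (hT d q (by linarith) (by linarith)).comp hs
    have ts := tp.sub tq
    constructor
    · refine ge_of_tendsto' ts fun J => ?_
      obtain ⟨a, b⟩ := h1 J p q hp hpq hq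
      rw [abs_le] at a b
      simp only [Function.comp_apply]
      linarith [a.1, a.2, b.1, b.2]
    · refine le_of_tendsto' ts fun J => ?_
      obtain ⟨a, b⟩ := h1 J p q hp hpq hq
      rw [abs_le] at a b
      simp only [Function.comp_apply]
      linarith [a.1, a.2, b.1, b.2]
  have h0 : theta d 0 = 1 := by
    have t0 := hT d 0 le_rfl zero_le_one
    refine tendsto_nhds_unique t0 ?_
    have : (fun n => 1 - (0 : ℝ) - wF d n 0 - lF d n 0) = fun _ => (1 : ℝ) := by
      funext n
      rw [(h2 n).1, (h2 n).2]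
      ring
    rw [this]
    exact tendsto_const_nhds
  refine ⟨e0, he0, he1, fun p hp hpe => ?_, fun p q hp hpq hq => ?_⟩
  · have := (key 0 p le_rfl hp hpe).2
    rw [h0] at this
    linarith
  · have := (key p q hp hpq.le hq).1
    linarith

end Pool.Agent.TRH
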