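import Pool.Agent.TRH.T1
import Pool.Agent.TRH.T2

/-!
# Trap in dimension at least three: the gain of a rotation
-/

set_option autoImplicit false

open Pool.Agent.TRP

noncomputable section

namespace Pool.Agent.TRH

namespace GAIN_

lemma mem_bdry {d : ℕ} {R : Finset (Site d)} {x : Site d} {e : Fin d × Bool} (hx : x ∈ R)
    (h : x + dv e ∉ R) : (x, e) ∈ bdry R := by
  simp [bdry, hx, h]

end GAIN_

theorem p_GAIN : T_LATT → T_LATB → T_ROT → T_GAIN := by
  intro hLATT hLATB hROT d b L A R I hI hRL hB e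
  obtain ⟨hadj, hbip, -, hdv, -⟩ := hLATB d
  obtain ⟨-, hle, -⟩ := hLATT (Site d) (lattice d)
  obtain ⟨⟨σ, hσ⟩, hRR, hout, hin, hlast, -⟩ := hROT d R e
  have hinj : Function.Injective (rot R e) := fun x y h => by
    apply σ.injective
    rw [hσ, hσ, h]
  -- members of `I ∩ R` are moved by one step
  have hstep : ∀ x ∈ I, x ∈ R → x + dv e ∈ R := by
    intro x hx hxR
    by_contra h
    exact (hB _ (GAIN_.mem_bdry hxR h)).2.1 hx
  have hdisj : Disjoint I (lastO R A e) := by
    rw [Finset.disjoint_left]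
    intro x hx hx'
    simp only [lastO, Finset.mem_filter] at hx'
    exact hx'.2.1 (hstep x hx hx'.1)
  -- first sites
  have hfirst : ∀ u ∈ R, u - dv e ∉ R → par b u := by
    intro u hu h
    have h' : u + dv (e.1, !e.2) ∉ R := by
      rw [(hdv e).2, ← sub_eq_add_neg]
      exact h
    exact (hB _ (GAIN_.mem_bdry hu h')).1
  -- classification of the new sites
  have hcls : ∀ x ∈ I ∪ lastO R A e,
      (x ∈ I ∧ x ∉ R ∧ rot R e x = x) ∨
      (x ∈ I ∧ x ∈ R ∧ rot R e x = x + dv e ∧ rot R e x ∈ R) ∨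
      (rot R e x ∈ R ∧ rot R e x - dv e ∉ R) := by
    intro x hx
    rcases Finset.mem_union.mp hx with h | h
    · by_cases hxR : x ∈ R
      · exact Or.inr (Or.inl ⟨h, hxR, hin x hxR (hstep x h hxR), (hRR x).mpr hxR⟩)
      · exact Or.inl ⟨h, hxR, hout x hxR⟩
    · simp only [lastO, Finset.mem_filter] at h
      exact Or.inr (Or.inr ⟨(hRR x).mpr h.1, (hlast x h.1 h.2.1).1⟩)
  -- no edge between a site of `I \ R` and a site of `R`
  have h12 : ∀ u ∈ I, u ∉ R → ∀ v ∈ R, ¬ (lattice d).Adj v u := by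
    intro u hu huR v hv h
    obtain ⟨e', rfl⟩ := (hadj v u).mp h
    exact (hB _ (GAIN_.mem_bdry hv huR)).2.2 hu
  have h23 : ∀ x ∈ I, x ∈ R → ∀ v ∈ R, v - dv e ∉ R → ¬ (lattice d).Adj (x + dv e) v := by
    intro x hx hxR v hv hve h
    obtain ⟨e', rfl⟩ := (hadj _ _).mp h
    have h' : x + dv e' ∉ R := by
      intro h1
      apply hve
      have : x + dv e + dv e' - dv e = x + dv e' := by abel
      rwa [this]
    exact (hB _ (GAIN_.mem_bdry hxR h')).2.1 hx
  have hIndI := hI.2.1
  have hInd : Ind (lattice d) ((I ∪ lastO R A e).image (rot R e)) := by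
    intro u hu v hv huv
    obtain ⟨x, hx, rfl⟩ := Finset.mem_image.mp hu
    obtain ⟨y, hy, rfl⟩ := Finset.mem_image.mp hv
    rcases hcls x hx with ⟨hxI, hxR, hxe⟩ | ⟨hxI, hxR, hxe, hxr⟩ | ⟨hxr, hxe⟩
    · rcases hcls y hy with ⟨hyI, hyR, hye⟩ | ⟨hyI, hyR, hye, hyr⟩ | ⟨hyr, hye⟩
      · rw [hxe, hye] at huv
        exact hIndI x hxI y hyI huv
      · rw [hxe] at huv
        exact h12 x hxI hxR _ hyr huv.symm
      · rw [hxe] at huv
        exact h12 x hxI hxR _ hyr huv.symm
    · rcases hcls y hy with ⟨hyI, hyR, hye⟩ | ⟨hyI, hyR, hye, hyr⟩ | ⟨hyr, hye⟩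
      · rw [hye] at huv
        exact h12 y hyI hyR _ hxr huv
      · rw [hxe, hye] at huv
        obtain ⟨e', he'⟩ := (hadj _ _).mp huv
        apply hIndI x hxI y hyI
        rw [hadj]
        refine ⟨e', ?_⟩
        have h1 : y + dv e = (x + dv e') + dv e := by rw [he']; abel
        exact add_right_cancel h1
      · rw [hxe] at huv
        exact h23 x hxI hxR _ hyr hye huv
    · rcases hcls y hy with ⟨hyI, hyR, hye⟩ | ⟨hyI, hyR, hye, hyr⟩ | ⟨hyr, hye⟩
      · rw [hye] at huv
        exact h12 y hyI hyR _ hxr huv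
      · rw [hye] at huv
        exact h23 y hyI hyR _ hxr hxe huv.symm
      · have h1 := hfirst _ hxr hxe
        have h2 := hfirst _ hyr hye
        exact absurd h2 ((hbip b _ _ huv).mp h1)
  have hsub : (I ∪ lastO R A e).image (rot R e) ⊆ L \ A.image (rot R e) := by
    intro u hu
    obtain ⟨x, hx, rfl⟩ := Finset.mem_image.mp hu
    have hxLA : x ∈ L ∧ x ∉ A := by
      rcases Finset.mem_union.mp hx with h | h
      · exact Finset.mem_sdiff.mp (hI.1 h)
      · simp only [lastO, Finset.mem_filter] at h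
        exact ⟨hRL h.1, h.2.2⟩
    rw [Finset.mem_sdiff]
    refine ⟨?_, ?_⟩
    · by_cases hxR : x ∈ R
      · exact hRL ((hRR x).mpr hxR)
      · rw [hout x hxR]
        exact hxLA.1
    · intro h
      obtain ⟨a, ha, hax⟩ := Finset.mem_image.mp h
      rw [hinj hax] at ha
      exact hxLA.2 ha
  have hcard : ((I ∪ lastO R A e).image (rot R e)).card =
      alpha (lattice d) (L \ A) + (lastO R A e).card := by
    rw [Finset.card_image_of_injective _ hinj, Finset.card_union_of_disjoint hdisj, hI.2.2]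
  rw [← hcard]
  exact hle _ _ hsub hInd

end Pool.Agent.TRH
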