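import Pool.Agent.TRH.T3
import Pool.Agent.TRH.T4

/-!
# TRH, block HALF: half of the boundary edges have a closed inner end
-/

set_option autoImplicit false

open MeasureTheory Pool.Agent.TRP

noncomputable section

namespace Pool.Agent.TRH

namespace HALF_

theorem pr_sub (hP : T_PRB) {V : Type} [DecidableEq V] (F T : Finset V) (p : ℝ) (hT : T ⊆ F) :
    pr F p (fun A => T ⊆ A) = p ^ T.card := by
  obtain ⟨-, h2, -, -, h5, -⟩ := hP V F p
  have h0 : F \ T ∪ T = F := Finset.sdiff_union_of_subset hT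
  have h1 : (ev (F \ T) p fun _ => 1) = 1 := (hP V (F \ T) p).1
  rw [h2]
  have e1 : (ev F p fun A => if T ⊆ A then (1 : ℝ) else 0) =
      ev T p fun B => ev (F \ T) p fun C => if T ⊆ B ∪ C then (1 : ℝ) else 0 := by
    have := h5 (F \ T) T (fun A => if T ⊆ A then (1 : ℝ) else 0) Finset.sdiff_disjoint
    rw [h0] at this
    exact this
  rw [e1]
  have e2 : ∀ B ∈ T.powerset, (ev (F \ T) p fun C => if T ⊆ B ∪ C then (1 : ℝ) else 0) =
      if B = T then 1 else 0 := by
    intro B hB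
    rw [Finset.mem_powerset] at hB
    by_cases hBT : B = T
    · rw [if_pos hBT]
      refine Eq.trans ?_ h1
      unfold ev
      refine Finset.sum_congr rfl fun C _ => ?_
      have hs : T ⊆ B ∪ C := by
        rw [hBT]
        exact Finset.subset_union_left
      simp [hs]
    · rw [if_neg hBT]
      unfold ev
      refine Finset.sum_eq_zero fun C hC => ?_
      rw [Finset.mem_powerset] at hC
      have hs : ¬ T ⊆ B ∪ C := by
        intro hsub
        apply hBT
        refine Finset.Subset.antisymm hB fun x hx => ?_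
        rcases Finset.mem_union.1 (hsub hx) with h | h
        · exact h
        · exact absurd hx (Finset.mem_sdiff.1 (hC h)).2
      simp [hs]
  rw [ev, Finset.sum_congr rfl fun B hB => by rw [e2 B hB]]
  rw [Finset.sum_eq_single T]
  · simp [wt]
  · intro B _ hB
    rw [if_neg hB, mul_zero]
  · intro h
    exact absurd (Finset.mem_powerset.2 (Finset.Subset.refl T)) h

theorem card_fst {d : ℕ} (R A : Finset (Site d)) :
    ((bdry R).filter fun q => q.1 ∈ A).card ≤
      2 * d * (A ∩ (bdry R).image Prod.fst).card := by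
  have h1 : ((bdry R).filter fun q => q.1 ∈ A) ⊆
      (A ∩ (bdry R).image Prod.fst) ×ˢ (Finset.univ : Finset (Fin d × Bool)) := by
    intro q hq
    rw [Finset.mem_filter] at hq
    rw [Finset.mem_product, Finset.mem_inter]
    exact ⟨⟨hq.2, Finset.mem_image_of_mem _ hq.1⟩, Finset.mem_univ _⟩
  have h2 := Finset.card_le_card h1
  rw [Finset.card_product, Finset.card_univ, Fintype.card_prod, Fintype.card_fin,
    Fintype.card_bool] at h2
  nlinarith

theorem one_region (hP : T_PRB) {d : ℕ} (R F : Finset (Site d)) (p : ℝ) (m k : ℕ) (hR : R ⊆ F)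
    (hm : (bdry R).card = m) (hp0 : 0 ≤ p) (hp1 : p ≤ 1) (hk : 4 * d * k < m + 4 * d) :
    pr F p (fun A => m ≤ 2 * ((bdry R).filter fun q => q.1 ∈ A).card) ≤ 2 ^ m * p ^ k := by
  set B := (bdry R).image Prod.fst with hB
  have hBm : B.card ≤ m := hm ▸ Finset.card_image_le
  have hBF : B ⊆ F := by
    intro x hx
    rw [hB, Finset.mem_image] at hx
    obtain ⟨q, hq, rfl⟩ := hx
    unfold bdry at hq
    rw [Finset.mem_filter, Finset.mem_product] at hq
    exact hR hq.1.1
  obtain ⟨-, -, -, -, -, -, -, h8, -⟩ := hP (Site d) F p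
  refine (h8 hp0 hp1 (Finset (Site d)) (B.powersetCard k) _ (fun T A => T ⊆ A) ?_).trans ?_
  · intro A _ hA
    have h1 := card_fst R A
    rw [← hB] at h1
    have h2 : k ≤ (A ∩ B).card := by
      by_contra hc
      push Not at hc
      have h3 : (A ∩ B).card + 1 ≤ k := hc
      have h4 : 4 * d * ((A ∩ B).card + 1) ≤ 4 * d * k := Nat.mul_le_mul_left _ h3
      have h5 : m ≤ 2 * (2 * d * (A ∩ B).card) := hA.trans (Nat.mul_le_mul_left _ h1)
      nlinarith
    obtain ⟨T, hT, hTc⟩ := Finset.exists_subset_card_eq h2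
    exact ⟨T, Finset.mem_powersetCard.2 ⟨hT.trans Finset.inter_subset_right, hTc⟩,
      hT.trans Finset.inter_subset_left⟩
  · have h1 : ∀ T ∈ B.powersetCard k, pr F p (fun A => T ⊆ A) = p ^ k := by
      intro T hT
      rw [Finset.mem_powersetCard] at hT
      rw [pr_sub hP F T p (hT.1.trans hBF), hT.2]
    rw [Finset.sum_congr rfl h1, Finset.sum_const, Finset.card_powersetCard, nsmul_eq_mul]
    refine mul_le_mul_of_nonneg_right ?_ (by positivity)
    have h2 : B.card.choose k ≤ 2 ^ m :=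
      (Nat.choose_le_two_pow _ _).trans (Nat.pow_le_pow_right (by norm_num) hBm)
    exact_mod_cast h2

theorem num (d m : ℕ) (C : ℝ) (hm : 1 ≤ m) (hC : 1 ≤ C) :
    2 * (m : ℝ) ^ (d + 3) * (m * Real.exp (C * (m + 1)) * 2 ^ m *
      Real.exp (-((2 * (d + 4).factorial + 2 + 2 * C) * m))) ≤ 1 := by
  have hm' : (1 : ℝ) ≤ m := by exact_mod_cast hm
  have h1 : (m : ℝ) ^ (d + 4) ≤ (d + 4).factorial * Real.exp m := by
    have := Real.pow_div_factorial_le_exp (m : ℝ) (by positivity) (d + 4)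
    rw [div_le_iff₀ (by positivity)] at this
    linarith
  have h2 : (2 : ℝ) ^ m ≤ Real.exp m := by
    have h3 : (2 : ℝ) ≤ Real.exp 1 := by
      have := Real.add_one_le_exp (1 : ℝ)
      linarith
    calc (2 : ℝ) ^ m ≤ Real.exp 1 ^ m := pow_le_pow_left₀ (by norm_num) h3 m
      _ = Real.exp m := by rw [← Real.exp_nat_mul, mul_one]
  have h4 : (2 : ℝ) * (d + 4).factorial ≤ Real.exp (2 * (d + 4).factorial) := by
    have := Real.add_one_le_exp (2 * ((d + 4).factorial : ℝ))
    linarith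
  set f : ℝ := ((d + 4).factorial : ℝ) with hf
  have hf0 : 0 ≤ f := by positivity
  calc 2 * (m : ℝ) ^ (d + 3) * (m * Real.exp (C * (m + 1)) * 2 ^ m *
        Real.exp (-((2 * f + 2 + 2 * C) * m)))
      = 2 * (m : ℝ) ^ (d + 4) * (Real.exp (C * (m + 1)) * 2 ^ m *
        Real.exp (-((2 * f + 2 + 2 * C) * m))) := by ring
    _ ≤ 2 * (f * Real.exp m) * (Real.exp (C * (m + 1)) * Real.exp m *
        Real.exp (-((2 * f + 2 + 2 * C) * m))) := by gcongr
    _ = (2 * f) * (Real.exp m * Real.exp (C * (m + 1)) * Real.exp m *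
        Real.exp (-((2 * f + 2 + 2 * C) * m))) := by ring
    _ ≤ Real.exp (2 * f) * (Real.exp m * Real.exp (C * (m + 1)) * Real.exp m *
        Real.exp (-((2 * f + 2 + 2 * C) * m))) := by gcongr
    _ = Real.exp (2 * f + (m + C * (m + 1) + m + -((2 * f + 2 + 2 * C) * m))) := by
        rw [Real.exp_add, Real.exp_add, Real.exp_add, Real.exp_add]
    _ ≤ 1 := by
        rw [Real.exp_le_one_iff]
        nlinarith

end HALF_

theorem p_HALF : T_CUBF → T_COUNT → T_PRB → T_HALF := by
  intro hCU hCO hP d hd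
  obtain ⟨C, hC, hfam⟩ := hCO d hd
  set M : ℝ := 2 * (d + 4).factorial + 2 + 2 * C with hM
  have hM0 : 0 ≤ M := by positivity
  refine ⟨min (1 / 2) (Real.exp (-(8 * d * M))), 16 * d, lt_min (by norm_num) (Real.exp_pos _),
    min_le_left _ _, by omega, fun p m F hp0 hp hm => ?_⟩
  have hd0 : 0 < d := by omega
  have hm1 : 1 ≤ m := by omega
  have hp1 : p ≤ 1 := by
    have := hp.trans (min_le_left _ _)
    linarith
  have hpe : p ≤ Real.exp (-(8 * d * M)) := hp.trans (min_le_right _ _)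
  obtain ⟨Fam, hcard, hmem⟩ := hfam 0 m hm1
  obtain ⟨-, -, -, -, -, -, -, h8, -⟩ := hP (Site d) F p
  -- the number `k`
  obtain ⟨k, hk1, hk2⟩ : ∃ k : ℕ, m ≤ 4 * d * k ∧ 4 * d * k < m + 4 * d := by
    refine ⟨(m + 4 * d - 1) / (4 * d), ?_, ?_⟩
    · have h1 := Nat.lt_div_mul_add (a := m + 4 * d - 1) (b := 4 * d) (by omega)
      have h2 : (m + 4 * d - 1) / (4 * d) * (4 * d) = 4 * d * ((m + 4 * d - 1) / (4 * d)) :=
        Nat.mul_comm _ _
      omega
    · have h1 := Nat.div_mul_le_self (m + 4 * d - 1) (4 * d)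
      have h2 : (m + 4 * d - 1) / (4 * d) * (4 * d) = 4 * d * ((m + 4 * d - 1) / (4 * d)) :=
        Nat.mul_comm _ _
      omega
  have hk4 : 4 ≤ k := by
    by_contra hc
    push Not at hc
    have : 4 * d * k ≤ 4 * d * 3 := Nat.mul_le_mul_left _ (by omega)
    omega
  classical
  have hsum : pr F p (fun A => ∃ R, R ⊆ F ∧ Good R ∧ (bdry R).card = m ∧
      m ≤ 2 * ((bdry R).filter fun q => q.1 ∈ A).card) ≤ Fam.card * (2 ^ m * p ^ k) := by
    refine (h8 hp0.le hp1 (Finset (Site d)) (Fam.filter fun R => R ⊆ F ∧ (bdry R).card = m) _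
      (fun R A => m ≤ 2 * ((bdry R).filter fun q => q.1 ∈ A).card) ?_).trans ?_
    · rintro A _ ⟨R, hRF, hG, hRm, hA⟩
      refine ⟨R, Finset.mem_filter.2 ⟨?_, hRF, hRm⟩, hA⟩
      have h1 := hmem R hG hRm
      rwa [((hCU d).2.2.2.1 R).1] at h1
    · have h1 : ∀ R ∈ Fam.filter fun R => R ⊆ F ∧ (bdry R).card = m,
          pr F p (fun A => m ≤ 2 * ((bdry R).filter fun q => q.1 ∈ A).card) ≤
            2 ^ m * p ^ k := by
        intro R hR
        rw [Finset.mem_filter] at hR
        exact HALF_.one_region hP R F p m k hR.2.1 hR.2.2 hp0.le hp1 hk2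
      refine (Finset.sum_le_sum h1).trans ?_
      rw [Finset.sum_const, nsmul_eq_mul]
      refine mul_le_mul_of_nonneg_right ?_ (by positivity)
      exact_mod_cast Finset.card_filter_le _ _
  refine hsum.trans ?_
  -- powers of `p`
  have hpk : p ^ k ≤ p ^ 2 * Real.exp (-(M * m)) := by
    obtain ⟨l, rfl⟩ : ∃ l, k = 2 + l := ⟨k - 2, by omega⟩
    rw [pow_add]
    refine mul_le_mul_of_nonneg_left ?_ (by positivity)
    have h1 : m ≤ 8 * d * l := by nlinarith
    have h2 : (m : ℝ) ≤ 8 * d * l := by exact_mod_cast h1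
    calc p ^ l ≤ Real.exp (-(8 * d * M)) ^ l := pow_le_pow_left₀ hp0.le hpe l
      _ = Real.exp (-(M * (8 * d * l))) := by
          rw [← Real.exp_nat_mul]
          congr 1
          ring
      _ ≤ Real.exp (-(M * m)) := by
          rw [Real.exp_le_exp]
          nlinarith
  have hcard' : (Fam.card : ℝ) ≤ m * Real.exp (C * (m + 1)) := by
    simpa using hcard
  have hnum := HALF_.num d m C hm1 hC
  rw [← hM] at hnum
  have hm0 : (0 : ℝ) < m := by exact_mod_cast hm1
  rw [le_div_iff₀ (by positivity)]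
  calc (Fam.card : ℝ) * (2 ^ m * p ^ k) * (2 * (m : ℝ) ^ (d + 3))
      ≤ (m * Real.exp (C * (m + 1))) * (2 ^ m * (p ^ 2 * Real.exp (-(M * m)))) *
          (2 * (m : ℝ) ^ (d + 3)) := by gcongr
    _ = p ^ 2 * (2 * (m : ℝ) ^ (d + 3) * (m * Real.exp (C * (m + 1)) * 2 ^ m *
          Real.exp (-(M * m)))) := by ring
    _ ≤ p ^ 2 * 1 := by gcongr
    _ = p ^ 2 := mul_one _

end Pool.Agent.TRH
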