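import Pool.Agent.TRH.T3

/-! ISO: isoperimetry in a box, by canonical paths. -/

set_option autoImplicit false

open MeasureTheory Pool.Agent.TRP

noncomputable section

namespace Pool.Agent.TRH

namespace ISO_

theorem line_up (P : ℤ → Prop) (a : ℤ) (n : ℕ) (ha : P a) (hb : ¬ P (a + n)) :
    ∃ t, a ≤ t ∧ t + 1 ≤ a + n ∧ P t ∧ ¬ P (t + 1) := by
  induction n with
  | zero => exact absurd ha (by simpa using hb)
  | succ n ih =>
    by_cases h : P (a + n)
    · refine ⟨a + n, by omega, by push_cast; omega, h, ?_⟩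
      have : a + (n : ℤ) + 1 = a + ((n + 1 : ℕ) : ℤ) := by push_cast; ring
      rw [this]
      exact hb
    · obtain ⟨t, h1, h2, h3⟩ := ih h
      exact ⟨t, h1, by push_cast; omega, h3⟩

theorem line (P : ℤ → Prop) (a b : ℤ) (ha : P a) (hb : ¬ P b) :
    ∃ t s : ℤ, (s = 1 ∨ s = -1) ∧ min a b ≤ t ∧ t ≤ max a b ∧ min a b ≤ t + s ∧
      t + s ≤ max a b ∧ P t ∧ ¬ P (t + s) := by
  rcases le_total a b with h | h
  · obtain ⟨n, hn⟩ := Int.eq_ofNat_of_zero_le (sub_nonneg.2 h)
    have hb' : b = a + n := by omega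
    obtain ⟨t, h1, h2, h3, h4⟩ := line_up P a n ha (by rw [← hb']; exact hb)
    exact ⟨t, 1, Or.inl rfl, by omega, by omega, by omega, by omega, h3, h4⟩
  · obtain ⟨n, hn⟩ := Int.eq_ofNat_of_zero_le (sub_nonneg.2 h)
    have hb' : b = -(-a + n) := by omega
    obtain ⟨t, h1, h2, h3, h4⟩ := line_up (fun t => P (-t)) (-a) n (by simpa using ha)
      (by rw [← hb']; exact hb)
    have h5 : -(t + 1) = -t + -1 := by ring
    simp only [h5] at h4
    exact ⟨-t, -1, Or.inr rfl, by omega, by omega, by omega, by omega, h3, h4⟩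

/-- The path from `x` to `y`. -/
def hh {d : ℕ} (x y : Site d) (m : ℕ) : Site d := fun k => if (k : ℕ) < m then y k else x k

theorem step {d : ℕ} (x y : Site d) (U : Finset (Site d)) (hx : x ∈ U) :
    ∀ m, hh x y m ∉ U → ∃ j, j < m ∧ hh x y j ∈ U ∧ hh x y (j + 1) ∉ U := by
  intro m
  induction m with
  | zero =>
    intro h
    exfalso
    apply h
    have : hh x y 0 = x := by
      funext k
      simp [hh]
    rw [this]
    exact hx
  | succ m ih =>
    intro h
    by_cases h1 : hh x y m ∈ U
    · exact ⟨m, by omega, h1, h⟩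
    · obtain ⟨j, h2, h3⟩ := ih h1
      exact ⟨j, by omega, h3⟩

theorem cross {d : ℕ} {lo hi : Site d} {X U : Finset (Site d)}
    (hX : ∀ z, z ∈ X ↔ ∀ i, lo i ≤ z i ∧ z i < hi i) {x y : Site d} (hx : x ∈ X) (hy : y ∈ X)
    (hxU : x ∈ U) (hyU : y ∉ U) :
    ∃ q : Site d × (Fin d × Bool), q ∈ (bdry U).filter (fun q => q.1 ∈ X ∧ q.1 + dv q.2 ∈ X) ∧
      (∀ k, k < q.2.1 → q.1 k = y k) ∧ (∀ k, q.2.1 < k → q.1 k = x k) := by
  have hd : hh x y d = y := by
    funext k
    simp [hh, k.2]
  obtain ⟨j, hj, h1, h2⟩ := step x y U hxU d (by rw [hd]; exact hyU)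
  let i : Fin d := ⟨j, hj⟩
  have e1 : hh x y j = Function.update (hh x y j) i (x i) := by
    funext k
    by_cases hk : k = i
    · subst hk
      simp [hh, i]
    · rw [Function.update_of_ne hk]
  have e2 : hh x y (j + 1) = Function.update (hh x y j) i (y i) := by
    funext k
    by_cases hk : k = i
    · subst hk
      simp [hh, i]
    · rw [Function.update_of_ne hk]
      have hk' : (k : ℕ) ≠ j := fun h => hk (Fin.ext h)
      unfold hh
      by_cases h3 : (k : ℕ) < j
      · rw [if_pos (by omega), if_pos h3]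
      · rw [if_neg (by omega), if_neg h3]
  rw [e1] at h1
  rw [e2] at h2
  obtain ⟨t, s, hs, b1, b2, b3, b4, g1, g2⟩ :=
    line (fun t => Function.update (hh x y j) i t ∈ U) (x i) (y i) h1 h2
  have hin : ∀ t, min (x i) (y i) ≤ t → t ≤ max (x i) (y i) →
      Function.update (hh x y j) i t ∈ X := by
    intro t h3 h4
    rw [hX] at hx hy ⊢
    intro k
    by_cases hk : k = i
    · subst hk
      rw [Function.update_self]
      have h5 := hx i
      have h6 := hy i
      omega
    · rw [Function.update_of_ne hk]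
      unfold hh
      split_ifs
      · exact hy k
      · exact hx k
  have hdv : ∀ b : Bool, (b = true ∧ s = 1) ∨ (b = false ∧ s = -1) →
      Function.update (hh x y j) i t + dv (i, b) = Function.update (hh x y j) i (t + s) := by
    intro b hb
    funext k
    rcases hb with ⟨rfl, rfl⟩ | ⟨rfl, rfl⟩
    · by_cases hk : k = i
      · subst hk
        simp [dv]
      · simp [dv, hk]
    · by_cases hk : k = i
      · subst hk
        simp [dv]
      · simp [dv, hk]
  obtain ⟨b, hb⟩ : ∃ b : Bool, (b = true ∧ s = 1) ∨ (b = false ∧ s = -1) := by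
    rcases hs with h | h
    · exact ⟨true, Or.inl ⟨rfl, h⟩⟩
    · exact ⟨false, Or.inr ⟨rfl, h⟩⟩
  refine ⟨(Function.update (hh x y j) i t, (i, b)), ?_, ?_, ?_⟩
  · rw [Finset.mem_filter]
    unfold bdry
    rw [Finset.mem_filter, Finset.mem_product]
    simp only [hdv b hb]
    exact ⟨⟨⟨g1, Finset.mem_univ _⟩, g2⟩, hin _ b1 b2, hin _ b3 b4⟩
  · intro k hk
    simp only at hk ⊢
    rw [Function.update_of_ne hk.ne]
    unfold hh
    rw [if_pos (by exact hk)]
  · intro k hk
    simp only at hk ⊢
    rw [Function.update_of_ne hk.ne']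
    unfold hh
    have h3 : j < (k : ℕ) := hk
    rw [if_neg (by omega)]

end ISO_

open ISO_ in
theorem p_ISO : T_ISO := by
  classical
  intro d L lo l hl X U hX
  have hX' : ∀ z, z ∈ X ↔ ∀ i, lo i ≤ z i ∧ z i < lo i + l i := by
    intro z
    rw [hX, Fintype.mem_piFinset]
    simp only [Finset.mem_Ico]
  set Q := (bdry U).filter (fun q => q.1 ∈ X ∧ q.1 + dv q.2 ∈ X) with hQ
  let G : (Site d × (Fin d × Bool)) × (Site d × ℕ) → Site d × Site d := fun s =>
    (fun k => if k ≤ s.1.2.1 then s.2.1 k else s.1.1 k,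
     fun k => if k < s.1.2.1 then s.1.1 k else if k = s.1.2.1 then lo k + s.2.2 else s.2.1 k)
  have hsub : (X ∩ U) ×ˢ (X \ U) ⊆ (Q ×ˢ (X ×ˢ Finset.range L)).image G := by
    rintro ⟨x, y⟩ h
    rw [Finset.mem_product, Finset.mem_inter, Finset.mem_sdiff] at h
    obtain ⟨q, h1, h2, h3⟩ := cross (hi := fun i => lo i + l i) hX' h.1.1 h.2.1 h.1.2 h.2.2
    have hx := (hX' x).1 h.1.1
    have hy := (hX' y).1 h.2.1
    have hyi := hy q.2.1
    have hli := hl q.2.1
    rw [Finset.mem_image]
    refine ⟨(q, (fun k => if k ≤ q.2.1 then x k else y k, (y q.2.1 - lo q.2.1).toNat)), ?_, ?_⟩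
    · rw [Finset.mem_product, Finset.mem_product, Finset.mem_range]
      refine ⟨h1, ?_, ?_⟩
      · rw [hX']
        intro k
        simp only
        split_ifs
        · exact hx k
        · exact hy k
      · simp only
        omega
    · apply Prod.ext
      · funext k
        simp only [G]
        by_cases hk : k ≤ q.2.1
        · rw [if_pos hk, if_pos hk]
        · rw [if_neg hk]
          exact h3 k (not_le.1 hk)
      · funext k
        simp only [G]
        by_cases hk : k < q.2.1
        · rw [if_pos hk]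
          exact h2 k hk
        · rw [if_neg hk]
          by_cases hk' : k = q.2.1
          · rw [if_pos hk', hk']
            omega
          · rw [if_neg hk', if_neg fun h5 => hk (lt_of_le_of_ne h5 hk')]
  calc (X ∩ U).card * (X \ U).card = ((X ∩ U) ×ˢ (X \ U)).card := (Finset.card_product _ _).symm
    _ ≤ ((Q ×ˢ (X ×ˢ Finset.range L)).image G).card := Finset.card_le_card hsub
    _ ≤ (Q ×ˢ (X ×ˢ Finset.range L)).card := Finset.card_image_le
    _ = L * X.card * Q.card := by
        rw [Finset.card_product, Finset.card_product, Finset.card_range]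
        ring

end Pool.Agent.TRH
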