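import Pool.Agent.TRH.T2
import Pool.Agent.TRH.T3
import Pool.Agent.TRH.T4

/-!
# Trap in dimension at least three: the target KEY
-/

set_option autoImplicit false

open MeasureTheory Pool.Agent.TRP

noncomputable section

namespace Pool.Agent.TRH

namespace KEY_

/-- The open last sites of all directions are the boundary edges with an open inner end. -/
lemma sum_last {d : ℕ} (R A : Finset (Site d)) :
    ∑ e, (lastO R A e).card = ((bdry R).filter fun q => q.1 ∉ A).card := by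
  rw [Finset.card_eq_sum_card_fiberwise (f := Prod.snd) (t := Finset.univ) (by simp)]
  refine Finset.sum_congr rfl fun e _ => ?_
  refine Finset.card_bij (fun x _ => (x, e)) ?_ ?_ ?_
  · intro x hx
    unfold lastO at hx
    rw [Finset.mem_filter] at hx
    rw [Finset.mem_filter, Finset.mem_filter]
    unfold bdry
    rw [Finset.mem_filter, Finset.mem_product]
    exact ⟨⟨⟨⟨hx.1, Finset.mem_univ _⟩, hx.2.1⟩, hx.2.2⟩, rfl⟩
  · intro x _ y _ h
    exact (Prod.mk.inj h).1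
  · intro q hq
    rw [Finset.mem_filter, Finset.mem_filter] at hq
    unfold bdry at hq
    rw [Finset.mem_filter, Finset.mem_product] at hq
    obtain ⟨⟨⟨⟨h1, -⟩, h2⟩, h3⟩, h4⟩ := hq
    refine ⟨q.1, ?_, ?_⟩
    · unfold lastO
      rw [Finset.mem_filter]
      rw [h4] at h2
      exact ⟨h1, h2, h3⟩
    · rw [← h4]

/-- Some direction has many open last sites. -/
lemma exists_dir {d m : ℕ} (R A : Finset (Site d)) (hm : (bdry R).card = m)
    (hm1 : 1 ≤ m) (h : ¬ m ≤ 2 * ((bdry R).filter fun q => q.1 ∈ A).card) :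
    ∃ e, m ≤ 4 * d * (lastO R A e).card := by
  by_contra hcon
  push Not at hcon
  have h1 : ((bdry R).filter fun q => q.1 ∈ A).card +
      ((bdry R).filter fun q => q.1 ∉ A).card = m := by
    rw [← hm]
    exact Finset.card_filter_add_card_filter_not _
  have h2 : ∑ e : Fin d × Bool, 4 * d * (lastO R A e).card ≤ ∑ _e : Fin d × Bool, m :=
    Finset.sum_le_sum fun e _ => (hcon e).le
  rw [← Finset.mul_sum, sum_last, Finset.sum_const, Finset.card_univ, Fintype.card_prod,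
    Fintype.card_fin, Fintype.card_bool, smul_eq_mul] at h2
  rcases Nat.eq_zero_or_pos d with hd | hd
  · subst hd
    have h3 : (bdry R).card = 0 := by
      rw [Finset.card_eq_zero, Finset.eq_empty_iff_forall_notMem]
      intro q _
      exact q.2.1.elim0
    omega
  · have h4 : d * (4 * ((bdry R).filter fun q => q.1 ∉ A).card) ≤ d * (2 * m) := by
      calc d * (4 * ((bdry R).filter fun q => q.1 ∉ A).card)
          = 4 * d * ((bdry R).filter fun q => q.1 ∉ A).card := by ring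
        _ ≤ d * 2 * m := h2
        _ = d * (2 * m) := by ring
    have h5 := Nat.le_of_mul_le_mul_left h4 hd
    omega

/-- Closed sites outside the box do not matter. -/
lemma gain_res {d : ℕ} {L A B R : Finset (Site d)} (hR : R ⊆ B) (hL : L ⊆ B)
    (h : Gain L (A ∩ B) R) : Gain L A R := by
  intro e
  have h1 := h e
  have e1 : L \ (A ∩ B) = L \ A := by
    ext x
    rw [Finset.mem_sdiff, Finset.mem_sdiff, Finset.mem_inter]
    constructor
    · rintro ⟨a, b⟩
      exact ⟨a, fun c => b ⟨c, hL a⟩⟩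
    · rintro ⟨a, b⟩
      exact ⟨a, fun c => b c.1⟩
  have e2 : lastO R (A ∩ B) e = lastO R A e := by
    unfold lastO
    refine Finset.filter_congr fun x hx => ?_
    rw [Finset.mem_inter]
    constructor
    · rintro ⟨a, b⟩
      exact ⟨a, fun c => b ⟨c, hR hx⟩⟩
    · rintro ⟨a, b⟩
      exact ⟨a, fun c => b c.1⟩
  have e3 : L \ (A ∩ B).image (rot R e) = L \ A.image (rot R e) := by
    ext x
    rw [Finset.mem_sdiff, Finset.mem_sdiff, Finset.mem_image, Finset.mem_image]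
    constructor
    · rintro ⟨a, b⟩
      refine ⟨a, ?_⟩
      rintro ⟨y, hy, hyx⟩
      refine b ⟨y, Finset.mem_inter.2 ⟨hy, ?_⟩, hyx⟩
      by_contra hyB
      have h2 : y ∉ R := fun h3 => hyB (hR h3)
      have h3 : rot R e y = y := by
        unfold rot
        rw [if_neg h2]
      rw [h3] at hyx
      rw [hyx] at hyB
      exact hyB (hL a)
    · rintro ⟨a, b⟩
      refine ⟨a, ?_⟩
      rintro ⟨y, hy, hyx⟩
      exact b ⟨y, (Finset.mem_inter.1 hy).1, hyx⟩
  rw [e1, e2, e3] at h1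
  exact h1

lemma bx_mono {d n n' : ℕ} (h : n ≤ n') : bx d n ⊆ bx d n' := by
  intro x hx
  unfold bx at hx ⊢
  rw [Fintype.mem_piFinset] at hx ⊢
  intro i
  have := hx i
  rw [Finset.mem_Icc] at this ⊢
  have hn : (n : ℤ) ≤ n' := by exact_mod_cast h
  omega

lemma reg_sub (d n : ℕ) (b : Bool) : reg d n b ⊆ bx d n := by
  classical
  intro x hx
  unfold reg at hx
  exact (Finset.mem_filter.1 hx).1

/-- The number of pairs of consecutive levels. -/
lemma card_bound (E : ℝ) (hE : 1 ≤ E) (m j : ℕ) {a b : ℝ} (_ha : 0 ≤ a) (hb : 0 ≤ b)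
    (h1 : a ≤ m * Real.exp (E * (j + 1) * ((m : ℝ) / 4 ^ j + 1)))
    (h2 : b ≤ m * Real.exp (E * ((j + 1 : ℕ) + 1) * ((m : ℝ) / 4 ^ (j + 1) + 1))) :
    a * b ≤ (m : ℝ) ^ 2 * Real.exp (3 * E * (j + 1) * ((m : ℝ) / 4 ^ j + 1)) := by
  have h5 : a * b ≤ (m * Real.exp (E * (j + 1) * ((m : ℝ) / 4 ^ j + 1))) *
      (m * Real.exp (E * ((j + 1 : ℕ) + 1) * ((m : ℝ) / 4 ^ (j + 1) + 1))) :=
    mul_le_mul h1 h2 hb (mul_nonneg (Nat.cast_nonneg _) (Real.exp_nonneg _))
  refine h5.trans ?_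
  have h6 : (m * Real.exp (E * (j + 1) * ((m : ℝ) / 4 ^ j + 1))) *
      (m * Real.exp (E * ((j + 1 : ℕ) + 1) * ((m : ℝ) / 4 ^ (j + 1) + 1))) =
      (m : ℝ) ^ 2 * Real.exp (E * (j + 1) * ((m : ℝ) / 4 ^ j + 1) +
        E * ((j + 1 : ℕ) + 1) * ((m : ℝ) / 4 ^ (j + 1) + 1)) := by
    rw [Real.exp_add]
    ring
  rw [h6]
  refine mul_le_mul_of_nonneg_left (Real.exp_le_exp.2 ?_) (sq_nonneg _)
  have h7 : (m : ℝ) / 4 ^ (j + 1) ≤ (m : ℝ) / 4 ^ j := by
    refine div_le_div_of_nonneg_left (by positivity) (by positivity) ?_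
    exact pow_le_pow_right₀ (by norm_num) (Nat.le_succ j)
  have h8 : 0 ≤ (m : ℝ) / 4 ^ j := by positivity
  have h9 : 0 ≤ (m : ℝ) / 4 ^ (j + 1) := by positivity
  have h10 : (0 : ℝ) ≤ j := by positivity
  have h11 : E * ((j + 1 : ℕ) + 1) * ((m : ℝ) / 4 ^ (j + 1) + 1) ≤
      E * (2 * (j + 1)) * ((m : ℝ) / 4 ^ j + 1) := by
    push_cast
    refine mul_le_mul ?_ (by linarith) (by linarith) (by positivity)
    refine mul_le_mul_of_nonneg_left (by linarith) (by linarith)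
  calc E * (j + 1) * ((m : ℝ) / 4 ^ j + 1) +
        E * ((j + 1 : ℕ) + 1) * ((m : ℝ) / 4 ^ (j + 1) + 1)
      ≤ E * (j + 1) * ((m : ℝ) / 4 ^ j + 1) + E * (2 * (j + 1)) * ((m : ℝ) / 4 ^ j + 1) := by
        linarith
    _ = 3 * E * (j + 1) * ((m : ℝ) / 4 ^ j + 1) := by ring

end KEY_

theorem p_KEY : T_ROT → T_CUBF → T_CBD → T_MDIFF → T_COUNT → T_PRB → T_CHN → T_NUM → T_HALF →
    T_KEY := by
  intro _ hCU hCB hMD hCO hPR hCH hNU hHA d hd
  obtain ⟨E, hE1, hFam⟩ := hCO d hd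
  have hD1 : (1 : ℝ) ≤ 8 * 2 ^ d := by
    have : (1 : ℝ) ≤ 2 ^ d := one_le_pow₀ (by norm_num)
    linarith
  have hB1 : (1 : ℝ) ≤ 64 * d := by
    have : (3 : ℝ) ≤ d := by exact_mod_cast hd
    linarith
  obtain ⟨p1, m1, hp1, hp1', hm1, hnum⟩ := hNU d E (8 * 2 ^ d) (64 * d) hd hE1 hD1 hB1
  obtain ⟨p2, m2, hp2, hp2', hm2, hhalf⟩ := hHA d hd
  refine ⟨min p1 p2, max m1 m2, lt_min hp1 hp2, (min_le_left _ _).trans hp1',
    hm1.trans (le_max_left _ _), ?_⟩
  intro p m n b hp hpp hm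
  have hpa : p ≤ p1 := hpp.trans (min_le_left _ _)
  have hpb : p ≤ p2 := hpp.trans (min_le_right _ _)
  have hma : m1 ≤ m := (le_max_left _ _).trans hm
  have hmb : m2 ≤ m := (le_max_right _ _).trans hm
  have hm0 : 1 ≤ m := hm1.trans hma
  have hpone : p ≤ 1 := by linarith
  have hd1 : 1 ≤ d := by omega
  choose Fam hFc hFm using fun j => hFam j m hm0
  obtain ⟨-, -, cfat, czero, -, -, -, cbox⟩ := hCU d
  -- the number of scales
  have hJex : ∃ J : ℕ, 64 * d * m < 2 ^ (J * (d - 1)) := by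
    refine ⟨64 * d * m, ?_⟩
    calc 64 * d * m < 2 ^ (64 * d * m) := Nat.lt_two_pow_self
      _ ≤ 2 ^ (64 * d * m * (d - 1)) :=
        Nat.pow_le_pow_right (by norm_num) (Nat.le_mul_of_pos_right _ (by omega))
  classical
  obtain ⟨J, hJ, hJmin⟩ : ∃ J : ℕ, 64 * d * m < 2 ^ (J * (d - 1)) ∧
      ∀ j < J, 2 ^ (j * (d - 1)) ≤ 64 * d * m :=
    ⟨Nat.find hJex, Nat.find_spec hJex, fun j hj => not_lt.1 (Nat.find_min hJex hj)⟩
  set L : Finset (Site d) := reg d n b with hL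
  set F : Finset (Site d) := bx d (n + 2 ^ J) with hF
  have hLB : L ⊆ bx d n := KEY_.reg_sub d n b
  have hBF : bx d n ⊆ F := KEY_.bx_mono (Nat.le_add_right _ _)
  obtain ⟨-, -, -, pun, -, psup, -, -, -⟩ := hPR (Site d) F p
  obtain ⟨-, -, -, -, -, psup', -, -, -⟩ := hPR (Site d) (bx d n) p
  set E1 : Finset (Site d) → Prop := fun A => ∃ R, R ⊆ F ∧ Good R ∧ (bdry R).card = m ∧
        m ≤ 2 * ((bdry R).filter fun q => q.1 ∈ A).card with hE1d
  set H : Finset (Site d) → Prop := fun R => R ⊆ bx d n ∧ Good R ∧ (bdry R).card = m with hH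
  set E2 : Finset (Site d) → Prop := fun A => ∃ R, H R ∧ ∃ e, (m : ℝ) ≤
      4 * d * ((alpha (lattice d) (L \ A.image (rot R e)) : ℝ) - alpha (lattice d) (L \ A))
    with hE2d
  have step1 : pr (bx d n) p (fun A => ∃ R, R ⊆ L ∧ Good R ∧ (bdry R).card = m ∧ Gain L A R) =
      pr F p (fun A => ∃ R, R ⊆ L ∧ Good R ∧ (bdry R).card = m ∧ Gain L (A ∩ bx d n) R) :=
    (psup' F _ (fun A => ∃ R, R ⊆ L ∧ Good R ∧ (bdry R).card = m ∧ Gain L (A ∩ bx d n) R)
      hBF fun A _ => Iff.rfl).symm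
  have step2 : pr F p (fun A => ∃ R, R ⊆ L ∧ Good R ∧ (bdry R).card = m ∧
      Gain L (A ∩ bx d n) R) ≤ pr F p E1 + pr F p E2 := by
    refine pun hp.le hpone _ E1 E2 ?_
    rintro A - ⟨R, hRL, hRg, hRm, hG⟩
    have hG' : Gain L A R := KEY_.gain_res (hRL.trans hLB) hLB hG
    by_cases hc : m ≤ 2 * ((bdry R).filter fun q => q.1 ∈ A).card
    · exact Or.inl ⟨R, (hRL.trans hLB).trans hBF, hRg, hRm, hc⟩
    · right
      obtain ⟨e, he⟩ := KEY_.exists_dir R A hRm hm0 hc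
      refine ⟨R, ⟨hRL.trans hLB, hRg, hRm⟩, e, ?_⟩
      have h1 := hG' e
      have h2 : (alpha (lattice d) (L \ A) : ℝ) + (lastO R A e).card ≤
          alpha (lattice d) (L \ A.image (rot R e)) := by exact_mod_cast h1
      have h3 : (m : ℝ) ≤ 4 * d * (lastO R A e).card := by exact_mod_cast he
      refine h3.trans ?_
      refine mul_le_mul_of_nonneg_left ?_ (by positivity)
      linarith
  have step3 : pr F p E1 ≤ p ^ 2 / (2 * (m : ℝ) ^ (d + 3)) := hhalf p m F hp hpb hmb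
  -- the pairs
  set Q : ℕ → Finset (Finset (Site d) × Finset (Site d)) := fun j =>
    ((Fam j ×ˢ Fam (j + 1)).image fun u => (fat j u.1, fat (j + 1) u.2)).filter fun u =>
      u.1 ⊆ F ∧ u.2 ⊆ F ∧ (symmDiff u.1 u.2).card ≤ 8 * 2 ^ d * 2 ^ j * m with hQ
  set z : ℕ → ℝ := fun j => Real.log (1 / p) / 4 / (2 ^ j * ((j : ℝ) + 1) ^ 2) with hz
  have hlog : 0 ≤ Real.log (1 / p) := Real.log_nonneg (by
    rw [le_div_iff₀ hp]
    linarith)
  have hz0 : ∀ j, 0 ≤ z j := fun j => by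
    rw [hz]
    positivity
  have hHQ : ∀ R, H R → fat J (maj J R) = ∅ ∧
      ∀ j < J, (fat j (maj j R), fat (j + 1) (maj (j + 1) R)) ∈ Q j := by
    rintro R ⟨hR1, hR2, hR3⟩
    constructor
    · have h1 : maj J R = ∅ := (hCB d hd1 R J).2.2 (by rw [hR3]; exact hJ)
      rw [h1]
      rfl
    · intro j hj
      rw [hQ]
      simp only
      rw [Finset.mem_filter, Finset.mem_image]
      refine ⟨⟨(maj j R, maj (j + 1) R), ?_, rfl⟩, ?_, ?_, ?_⟩
      · rw [Finset.mem_product]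
        exact ⟨hFm j R hR2 hR3, hFm (j + 1) R hR2 hR3⟩
      · refine (cbox j n R hR1).trans (KEY_.bx_mono ?_)
        have : 2 ^ j ≤ 2 ^ J := Nat.pow_le_pow_right (by norm_num) hj.le
        omega
      · refine (cbox (j + 1) n R hR1).trans (KEY_.bx_mono ?_)
        have : 2 ^ (j + 1) ≤ 2 ^ J := Nat.pow_le_pow_right (by norm_num) hj
        omega
      · have := hMD d R j
        rw [hR3] at this
        exact this
  have step4 := hCH d L F p m J H Q (fun j => 8 * 2 ^ d * 2 ^ j * m) z hd1 hm0 hp.le hpone hz0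
    hHQ (fun j _ u hu => by
      rw [hQ] at hu
      simp only at hu
      rw [Finset.mem_filter] at hu
      refine ⟨hu.2.1, hu.2.2.1, ?_⟩
      exact_mod_cast hu.2.2.2)
  have hQc : ∀ j, ((Q j).card : ℝ) ≤
      (m : ℝ) ^ 2 * Real.exp (3 * E * (j + 1) * ((m : ℝ) / 4 ^ j + 1)) := by
    intro j
    have h1 : (Q j).card ≤ (Fam j).card * (Fam (j + 1)).card := by
      rw [hQ]
      refine (Finset.card_filter_le _ _).trans (Finset.card_image_le.trans ?_)
      rw [Finset.card_product]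
    have h2 : ((Q j).card : ℝ) ≤ (Fam j).card * (Fam (j + 1)).card := by exact_mod_cast h1
    exact h2.trans (KEY_.card_bound E hE1 m j (Nat.cast_nonneg _) (Nat.cast_nonneg _) (hFc j)
      (hFc (j + 1)))
  have step5 : ∑ j ∈ Finset.range J, 2 * d * (Q j).card *
        Real.exp (-z j * (m / (8 * d * (j + 1) ^ 2)) +
          6 * p * z j ^ 2 * Real.exp (2 * z j) * (8 * 2 ^ d * 2 ^ j * m)) ≤
      ∑ j ∈ Finset.range J, 2 * d * ((m : ℝ) ^ 2 *
          Real.exp (3 * E * (j + 1) * ((m : ℝ) / 4 ^ j + 1))) *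
        Real.exp (-(Real.log (1 / p) / 4 / (2 ^ j * (j + 1) ^ 2)) * (m / (8 * d * (j + 1) ^ 2)) +
          6 * p * (Real.log (1 / p) / 4 / (2 ^ j * (j + 1) ^ 2)) ^ 2 *
            Real.exp (2 * (Real.log (1 / p) / 4 / (2 ^ j * (j + 1) ^ 2))) *
              (8 * 2 ^ d * 2 ^ j * m)) := by
    refine Finset.sum_le_sum fun j _ => ?_
    refine mul_le_mul_of_nonneg_right ?_ (Real.exp_nonneg _)
    exact mul_le_mul_of_nonneg_left (hQc j) (by positivity)
  have step6 := hnum p m J hp hpa hma (fun j hj => by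
    have := hJmin j hj
    exact_mod_cast this)
  have hfin : pr (bx d n) p (fun A => ∃ R, R ⊆ L ∧ Good R ∧ (bdry R).card = m ∧ Gain L A R) ≤
      p ^ 2 / (2 * (m : ℝ) ^ (d + 3)) + p ^ 2 / (2 * (m : ℝ) ^ (d + 3)) := by
    rw [step1]
    refine step2.trans (add_le_add step3 ?_)
    exact step4.trans (step5.trans step6)
  refine hfin.trans (le_of_eq ?_)
  have hmpos : (0 : ℝ) < (m : ℝ) ^ (d + 3) := by
    have : (0 : ℝ) < m := by exact_mod_cast hm0
    positivity
  field_simp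
  ring

end Pool.Agent.TRH

end
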