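import Pool.Agent.TRH.T1

/-! Project TRH, target LATB: the lattice. -/

set_option autoImplicit false

open Pool.Agent.TRP

noncomputable section

namespace Pool.Agent.TRH

namespace LATB_

variable {d : ℕ}

theorem dv_apply (e : Fin d × Bool) (i : Fin d) :
    (dv e : Site d) i = if i = e.1 then (if e.2 then 1 else -1) else 0 := by
  unfold dv
  rcases e with ⟨j, b⟩
  by_cases h : i = j
  · subst h
    cases b <;> simp
  · cases b <;> simp [h]

theorem abs_dv (e : Fin d × Bool) (i : Fin d) : |(dv e : Site d) i| ≤ 1 := by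
  rw [dv_apply]
  split_ifs <;> simp

theorem sum_dv (e : Fin d × Bool) :
    ∑ i, (dv e : Site d) i = if e.2 then 1 else -1 := by
  simp only [dv_apply]
  rw [Finset.sum_ite_eq' Finset.univ e.1]
  simp

theorem sum_abs_dv (e : Fin d × Bool) : ∑ i, |(dv e : Site d) i| = 1 := by
  have h : ∀ i, |(dv e : Site d) i| = if i = e.1 then 1 else 0 := by
    intro i
    rw [dv_apply]
    split_ifs <;> simp
  simp only [h]
  rw [Finset.sum_ite_eq' Finset.univ e.1]
  simp

theorem adj_iff (x y : Site d) : (lattice d).Adj x y ↔ ∃ e, y = x + dv e := by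
  show (∑ i, |x i - y i| = 1) ↔ _
  constructor
  · intro h
    have h1 : ∃ i, x i - y i ≠ 0 := by
      by_contra hc
      push Not at hc
      simp [hc] at h
    obtain ⟨i, hi⟩ := h1
    have h2 : 1 ≤ |x i - y i| := Int.one_le_abs hi
    have h3 : |x i - y i| + ∑ j ∈ Finset.univ.erase i, |x j - y j| = 1 := by
      rw [Finset.add_sum_erase Finset.univ (fun j => |x j - y j|) (Finset.mem_univ i)]
      exact h
    have h4 : 0 ≤ ∑ j ∈ Finset.univ.erase i, |x j - y j| :=
      Finset.sum_nonneg fun j _ => abs_nonneg _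
    have h5 : ∑ j ∈ Finset.univ.erase i, |x j - y j| = 0 := by omega
    have h6 : |x i - y i| = 1 := by omega
    have h7 : ∀ j, j ≠ i → x j - y j = 0 := by
      intro j hj
      have := (Finset.sum_eq_zero_iff_of_nonneg fun j _ => abs_nonneg (x j - y j)).1 h5 j
        (Finset.mem_erase.2 ⟨hj, Finset.mem_univ j⟩)
      exact abs_eq_zero.1 this
    refine ⟨(i, decide (x i - y i = -1)), ?_⟩
    funext j
    rw [Pi.add_apply, dv_apply]
    by_cases hj : j = i
    · subst hj
      rcases (abs_eq (by norm_num : (0 : ℤ) ≤ 1)).1 h6 with h8 | h8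
      · simp [h8]
        omega
      · simp [h8]
        omega
    · have := h7 j hj
      simp [hj]
      omega
  · rintro ⟨e, rfl⟩
    rw [← sum_abs_dv e]
    refine Finset.sum_congr rfl fun i _ => ?_
    rw [Pi.add_apply, sub_add_cancel_left, abs_neg]

theorem par_add (b : Bool) (x : Site d) (e : Fin d × Bool) : par b (x + dv e) ↔ ¬ par b x := by
  unfold par
  have h : ∑ i, (x + dv e) i = ∑ i, x i + if e.2 then 1 else -1 := by
    simp only [Pi.add_apply, Finset.sum_add_distrib, sum_dv]
  rw [h]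
  have h2 : Even (∑ i, x i + if e.2 then 1 else -1) ↔ ¬ Even (∑ i, x i) := by
    rcases e with ⟨j, c⟩
    cases c
    · simp only [Bool.false_eq_true, if_false, Int.even_add]
      simp
    · simp only [if_true, Int.even_add]
      simp
  rw [h2]
  tauto

theorem mem_bx (n : ℕ) (x : Site d) : x ∈ bx d n ↔ ∀ i, |x i| ≤ n := by
  unfold bx
  simp only [Fintype.mem_piFinset, Finset.mem_Icc, abs_le]

theorem mem_reg (n : ℕ) (b : Bool) (x : Site d) :
    x ∈ reg d n b ↔ x ∈ bx d n ∧ (par b x ∨ ∀ e, x + dv e ∈ bx d n) := by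
  classical
  unfold reg
  exact Finset.mem_filter

theorem bx_mono {n n' : ℕ} (h : n ≤ n') : bx d n ⊆ bx d n' := by
  intro x hx
  rw [mem_bx] at hx ⊢
  intro i
  have := hx i
  have h2 : (n : ℤ) ≤ n' := by exact_mod_cast h
  omega

theorem step_bx {n : ℕ} {x : Site d} (hx : ∀ i, |x i| ≤ n) (e : Fin d × Bool) :
    x + dv e ∈ bx d (n + 1) := by
  rw [mem_bx]
  intro i
  rw [Pi.add_apply]
  have h1 := hx i
  have h2 := abs_dv e i
  have h3 := abs_add_le (x i) ((dv e : Site d) i)
  push_cast
  omega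

end LATB_

open LATB_ in
theorem p_LATB : T_LATB := by
  intro d
  have hp0 : par true (0 : Site d) := by
    unfold par
    simp
  refine ⟨adj_iff, ?_, ?_, ?_, ?_, hp0, mem_bx, ?_, ?_, ?_, ?_, ?_⟩
  · intro b x y h
    obtain ⟨e, rfl⟩ := (adj_iff x y).1 h
    rw [par_add, not_not]
  · intro x
    refine (Set.finite_range fun e : Fin d × Bool => x + dv e).subset ?_
    intro y hy
    obtain ⟨e, he⟩ := (adj_iff x y).1 hy
    exact ⟨e, he.symm⟩
  · intro e
    refine ⟨?_, ?_⟩
    · intro h
      have := congrFun h e.1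
      rw [dv_apply] at this
      simp at this
      split_ifs at this <;> simp_all
    · funext i
      rw [Pi.neg_apply, dv_apply, dv_apply]
      rcases e with ⟨j, c⟩
      cases c <;> by_cases h : i = j <;> simp [h]
  · intro x b
    unfold par
    cases b <;> simp
  · intro n n' b h
    refine ⟨?_, bx_mono h, fun x hx => ((mem_reg n b x).1 hx).1⟩
    intro x hx
    rw [mem_reg] at hx ⊢
    refine ⟨bx_mono h hx.1, ?_⟩
    rcases hx.2 with h1 | h1
    · exact Or.inl h1
    · exact Or.inr fun e => bx_mono h (h1 e)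
  · intro n b x hx hb e
    rw [mem_reg] at hx ⊢
    rcases hx.2 with h1 | h1
    · exact absurd h1 hb
    · exact ⟨h1 e, Or.inl ((par_add b x e).2 hb)⟩
  · intro n
    rw [mem_reg]
    exact ⟨(mem_bx n 0).2 fun i => by simp, Or.inl hp0⟩
  · intro n hn
    rw [mem_reg]
    obtain ⟨k, rfl⟩ : ∃ k, n = k + 1 := ⟨n - 1, by omega⟩
    refine ⟨(mem_bx _ 0).2 fun i => ?_, Or.inr fun e => step_bx (fun i => by simp) e⟩
    simp
    omega
  · intro n b x hx
    rw [mem_reg]
    refine ⟨?_, Or.inr fun e => step_bx hx e⟩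
    rw [mem_bx]
    intro i
    have := hx i
    push_cast
    omega

end Pool.Agent.TRH
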