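import Pool.Agent.TRH.T1

/-!
# LATT: basic facts on independent sets
-/

set_option autoImplicit false

open MeasureTheory Pool.Agent.TRP

noncomputable section

namespace Pool.Agent.TRH

namespace LATT_

section
variable {V : Type}

theorem exists_max (G : SimpleGraph V) (S : Finset V) : ∃ I, MaxInd G S I := by
  classical
  have hne : (S.powerset.filter (Ind G)).Nonempty := by
    refine ⟨∅, ?_⟩
    rw [Finset.mem_filter]
    exact ⟨Finset.empty_mem_powerset S, fun x hx => absurd hx (Finset.notMem_empty x)⟩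
  obtain ⟨I, hI, he⟩ := Finset.exists_mem_eq_sup _ hne Finset.card
  rw [Finset.mem_filter, Finset.mem_powerset] at hI
  refine ⟨I, hI.1, hI.2, ?_⟩
  unfold alpha
  rw [← he]

theorem card_le (G : SimpleGraph V) (S I : Finset V) (h : I ⊆ S) (hI : Ind G I) :
    I.card ≤ alpha G S := by
  classical
  unfold alpha
  refine Finset.le_sup (f := Finset.card) ?_
  rw [Finset.mem_filter, Finset.mem_powerset]
  exact ⟨h, hI⟩

theorem sub (G : SimpleGraph V) {I J : Finset V} (h : J ⊆ I) (hI : Ind G I) : Ind G J :=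
  fun x hx y hy => hI x (h hx) y (h hy)

theorem mono (G : SimpleGraph V) (S T : Finset V) (h : S ⊆ T) : alpha G S ≤ alpha G T := by
  obtain ⟨I, h1, h2, h3⟩ := exists_max G S
  rw [← h3]
  exact card_le G T I (h1.trans h) h2

theorem del [DecidableEq V] (G : SimpleGraph V) (S T : Finset V) :
    alpha G S ≤ alpha G T + (S \ T).card := by
  obtain ⟨I, h1, h2, h3⟩ := exists_max G S
  rw [← h3]
  have h4 : (I ∩ T).card ≤ alpha G T :=
    card_le G T _ Finset.inter_subset_right (sub G Finset.inter_subset_left h2)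
  have h5 : (I \ T).card ≤ (S \ T).card :=
    Finset.card_le_card (Finset.sdiff_subset_sdiff h1 le_rfl)
  have h6 := Finset.card_inter_add_card_sdiff I T
  omega

theorem mix [DecidableEq V] (G : SimpleGraph V) (P : V → Prop) (hP : Bip G P)
    (S I J : Finset V) (hI : MaxInd G S I) (hJ : MaxInd G S J) :
    ∃ K, MaxInd G S K ∧ (∀ x ∈ K, P x → x ∈ I ∧ x ∈ J) ∧
      (∀ x, (x ∈ I ∨ x ∈ J) → ¬ P x → x ∈ K) := by
  classical
  obtain ⟨i1, i2, i3⟩ := hI
  obtain ⟨j1, j2, j3⟩ := hJ
  -- the general construction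
  have key : ∀ Q R : V → Prop, (∀ x y, G.Adj x y → Q x → ¬ Q y) → (∀ x y, G.Adj x y → R x → ¬ R y) →
      Ind G ((I ∩ J).filter Q ∪ (I ∪ J).filter R) := by
    intro Q R hQ1 hQ2 x hx y hy hxy
    simp only [Finset.mem_union, Finset.mem_filter, Finset.mem_inter] at hx hy
    rcases hx with ⟨⟨hx1, hx2⟩, hx3⟩ | ⟨hx1, hx3⟩
    · rcases hy with ⟨_, hy3⟩ | ⟨hy1, _⟩
      · exact hQ1 x y hxy hx3 hy3
      · rcases hy1 with h | h
        · exact i2 x hx1 y h hxy
        · exact j2 x hx2 y h hxy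
    · rcases hy with ⟨⟨hy1, hy2⟩, _⟩ | ⟨_, hy3⟩
      · rcases hx1 with h | h
        · exact i2 x h y hy1 hxy
        · exact j2 x h y hy2 hxy
      · exact hQ2 x y hxy hx3 hy3
  have hb1 : ∀ x y, G.Adj x y → P x → ¬ P y := fun x y h hx => (hP x y h).1 hx
  have hb2 : ∀ x y, G.Adj x y → ¬ P x → P y := fun x y h hx => by
    by_contra hy
    exact hx ((hP x y h).2 hy)
  obtain ⟨R, hR⟩ : ∃ R : V → Prop, ∀ x, R x ↔ ¬ P x := ⟨fun x => ¬ P x, fun _ => Iff.rfl⟩
  have hb3 : ∀ x y, G.Adj x y → R x → ¬ R y := fun x y h hx hy =>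
    (hR y).1 hy (hb2 x y h ((hR x).1 hx))
  have k1 := key P R hb1 hb3
  have k2 := key R P hb3 hb1
  have hsub : ∀ Q R : V → Prop, (I ∩ J).filter Q ∪ (I ∪ J).filter R ⊆ S := by
    intro Q R x hx
    simp only [Finset.mem_union, Finset.mem_filter, Finset.mem_inter] at hx
    rcases hx with ⟨⟨h, _⟩, _⟩ | ⟨h | h, _⟩
    · exact i1 h
    · exact i1 h
    · exact j1 h
  have c1 := card_le G S _ (hsub P R) k1
  have c2 := card_le G S _ (hsub R P) k2
  have hd : ∀ (Q R : V → Prop) (A B : Finset V), (∀ x, Q x → ¬ R x) →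
      (A.filter Q ∪ B.filter R).card = (A.filter Q).card + (B.filter R).card := by
    intro Q R A B hQR
    refine Finset.card_union_of_disjoint ?_
    rw [Finset.disjoint_left]
    intro x hx hy
    exact hQR x (Finset.mem_filter.1 hx).2 (Finset.mem_filter.1 hy).2
  have hPR : ∀ x, P x → ¬ R x := fun x h1 h2 => (hR x).1 h2 h1
  have e1 := hd P R (I ∩ J) (I ∪ J) hPR
  have e2 := hd R P (I ∩ J) (I ∪ J) (fun x h1 h2 => hPR x h2 h1)
  have hw : ∀ A : Finset V, (A.filter P).card + (A.filter R).card = A.card := by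
    intro A
    rw [← hd P R A A hPR]
    congr 1
    ext x
    simp only [Finset.mem_union, Finset.mem_filter, hR]
    tauto
  have e4 := hw (I ∩ J)
  have e5 := hw (I ∪ J)
  have e6 := Finset.card_union_add_card_inter I J
  rw [e1] at c1
  rw [e2] at c2
  refine ⟨(I ∩ J).filter P ∪ (I ∪ J).filter R, ⟨hsub P R, k1, ?_⟩, ?_, ?_⟩
  · rw [e1]
    omega
  · intro x hx hPx
    simp only [Finset.mem_union, Finset.mem_filter, Finset.mem_inter] at hx
    rcases hx with ⟨h, _⟩ | ⟨_, h⟩
    · exact h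
    · exact absurd hPx ((hR x).1 h)
  · intro x hx hPx
    simp only [Finset.mem_union, Finset.mem_filter, Finset.mem_inter]
    exact Or.inr ⟨hx, (hR x).2 hPx⟩

end

end LATT_

theorem p_LATT : T_LATT := fun _ _ G =>
  ⟨LATT_.exists_max G, LATT_.card_le G, LATT_.mono G, LATT_.del G, LATT_.mix G⟩

end Pool.Agent.TRH
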