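import Pool.Agent.TRH.T4

/-!
# TRH-LAW: finite probabilities and the infinite product law
-/

set_option autoImplicit false

open MeasureTheory Pool.Agent.TRP

noncomputable section

namespace Pool.Agent.TRH

namespace LAW_

lemma bern_prob {p : ℝ} (h0 : 0 ≤ p) (h1 : p ≤ 1) : IsProbabilityMeasure (bern p) := by
  constructor
  unfold bern
  rw [Measure.add_apply, Measure.smul_apply, Measure.smul_apply]
  simp only [measure_univ, smul_eq_mul, mul_one]
  rw [← ENNReal.ofReal_add h0 (by linarith)]
  simp

lemma bern_true {p : ℝ} (h0 : 0 ≤ p) : (bern p {true}).toReal = p := by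
  unfold bern
  rw [Measure.add_apply, Measure.smul_apply, Measure.smul_apply]
  simp [Measure.dirac_apply' _ (measurableSet_singleton true), h0]

lemma bern_false {p : ℝ} (h1 : p ≤ 1) : (bern p {false}).toReal = 1 - p := by
  unfold bern
  rw [Measure.add_apply, Measure.smul_apply, Measure.smul_apply]
  simp [Measure.dirac_apply' _ (measurableSet_singleton false), h1]

variable {V : Type} [DecidableEq V]

/-- The configurations whose set of closed sites in `F` is `A`. -/
def cyl (F A : Finset V) : Set (V → Bool) :=
  Set.pi (F : Set V) fun x => if x ∈ A then {true} else {false}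

lemma mem_cyl {F A : Finset V} (hA : A ⊆ F) {ω : V → Bool} :
    ω ∈ cyl F A ↔ (F.filter fun x => ω x = true) = A := by
  unfold cyl
  rw [Set.mem_pi]
  constructor
  · intro h
    ext x
    rw [Finset.mem_filter]
    constructor
    · rintro ⟨h1, h2⟩
      have h3 := h x h1
      by_contra h4
      rw [if_neg h4] at h3
      rw [Set.mem_singleton_iff, h2] at h3
      exact absurd h3 (by decide)
    · intro h1
      have h3 := h x (hA h1)
      rw [if_pos h1] at h3
      exact ⟨hA h1, h3⟩
  · intro h x hx
    by_cases h1 : x ∈ A
    · rw [if_pos h1]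
      rw [← h, Finset.mem_filter] at h1
      exact h1.2
    · rw [if_neg h1]
      rw [← h, Finset.mem_filter] at h1
      have h2 : ¬ ω x = true := fun h3 => h1 ⟨hx, h3⟩
      rw [Set.mem_singleton_iff]
      exact Bool.eq_false_iff.2 h2

lemma meas_fib (A : Finset V) (x : V) :
    MeasurableSet (if x ∈ A then {true} else {false} : Set Bool) := by
  split_ifs <;> exact measurableSet_singleton _

lemma meas_cyl (F A : Finset V) : MeasurableSet (cyl F A) :=
  MeasurableSet.pi F.countable_toSet fun x _ => meas_fib A x

lemma real_cyl {F A : Finset V} (hA : A ⊆ F) {p : ℝ} (h0 : 0 ≤ p) (h1 : p ≤ 1) :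
    (law fun _ : V => p).real (cyl F A) = wt F p A := by
  have := bern_prob h0 h1
  unfold law cyl wt
  rw [Measure.real, Measure.infinitePi_pi _ fun i _ => meas_fib A i, ENNReal.toReal_prod]
  have h2 : ∀ x ∈ F, (bern p (if x ∈ A then {true} else {false})).toReal =
      if x ∈ A then p else 1 - p := by
    intro x _
    split_ifs
    · exact bern_true h0
    · exact bern_false h1
  rw [Finset.prod_congr rfl h2, Finset.prod_ite, Finset.prod_const, Finset.prod_const]
  have h3 : F.filter (fun x => x ∈ A) = A := by
    ext x
    rw [Finset.mem_filter]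
    exact ⟨fun h => h.2, fun h => ⟨hA h, h⟩⟩
  have h4 : F.filter (fun x => x ∉ A) = F \ A := by
    ext x
    rw [Finset.mem_filter, Finset.mem_sdiff]
  rw [h3, h4, Finset.card_sdiff_of_subset hA]

end LAW_

open LAW_

theorem p_LAW : T_LAW := by
  intro V _ F E p h0 h1
  classical
  have := bern_prob h0 h1
  have hprob : IsProbabilityMeasure (law fun _ : V => p) := by
    unfold law
    infer_instance
  have hev : {ω : V → Bool | E (F.filter fun x => ω x = true)} =
      ⋃ A ∈ F.powerset.filter E, cyl F A := by
    ext ω
    simp only [Set.mem_setOf_eq, Set.mem_iUnion, exists_prop]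
    constructor
    · intro h
      refine ⟨F.filter fun x => ω x = true, ?_, ?_⟩
      · rw [Finset.mem_filter, Finset.mem_powerset]
        exact ⟨Finset.filter_subset _ _, h⟩
      · rw [mem_cyl (Finset.filter_subset _ _)]
    · rintro ⟨A, hA, h⟩
      rw [Finset.mem_filter, Finset.mem_powerset] at hA
      rw [mem_cyl hA.1] at h
      rw [h]
      exact hA.2
  rw [hev]
  refine ⟨Finset.measurableSet_biUnion _ fun A _ => meas_cyl F A, ?_⟩
  rw [measureReal_biUnion_finset]
  · unfold pr
    refine Finset.sum_congr rfl fun A hA => ?_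
    rw [Finset.mem_filter, Finset.mem_powerset] at hA
    exact real_cyl hA.1 h0 h1
  · intro A hA B hB hAB
    rw [Function.onFun, Set.disjoint_left]
    intro ω h2 h3
    rw [Finset.mem_coe, Finset.mem_filter, Finset.mem_powerset] at hA hB
    rw [mem_cyl hA.1] at h2
    rw [mem_cyl hB.1] at h3
    exact hAB (h2.symm.trans h3)
  · intro A _
    exact meas_cyl F A

end Pool.Agent.TRH
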