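import Pool.Agent.TRH.T4

/-!
# TRH: target LIPD

Derivative of the probability of a finite event.
-/

set_option autoImplicit false

open MeasureTheory Pool.Agent.TRP

noncomputable section

namespace Pool.Agent.TRH

namespace LIPD_

/-- The derivative of one weight. -/
lemma wtDeriv (a b : ℕ) (t : ℝ) :
    HasDerivAt (fun s : ℝ => s ^ a * (1 - s) ^ b)
      (a * t ^ (a - 1) * (1 - t) ^ b + t ^ a * (-(b * (1 - t) ^ (b - 1)))) t := by
  have h1 : HasDerivAt (fun s : ℝ => s ^ a) (a * t ^ (a - 1)) t := hasDerivAt_pow a t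
  have h2 : HasDerivAt (fun s : ℝ => 1 - s) (-1) t := by
    simpa using (hasDerivAt_id t).const_sub 1
  have h3 : HasDerivAt (fun s : ℝ => (1 - s) ^ b) (-(b * (1 - t) ^ (b - 1))) t := by
    have h4 := h2.fun_pow b
    refine h4.congr_deriv ?_
    ring
  exact h1.mul h3

/-- The bound for the derivative of one weight. -/
lemma bound (a b : ℕ) (t : ℝ) (h0 : 0 < t) (h1 : t ≤ 1 / 2) :
    |a * t ^ (a - 1) * (1 - t) ^ b + t ^ a * (-(b * (1 - t) ^ (b - 1)))| * t ≤
      (a + b) * (t ^ a * (1 - t) ^ b) := by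
  have h2 : 0 ≤ 1 - t := by linarith
  have h3 : a * t ^ (a - 1) * t = a * t ^ a := by
    rcases Nat.eq_zero_or_pos a with h | h
    · subst h
      simp
    · rw [mul_assoc, ← pow_succ, Nat.sub_add_cancel h]
  have h4 : b * (1 - t) ^ (b - 1) * t ≤ b * (1 - t) ^ b := by
    rcases Nat.eq_zero_or_pos b with h | h
    · subst h
      simp
    · have h5 : (1 - t) ^ (b - 1) * t ≤ (1 - t) ^ b := by
        calc (1 - t) ^ (b - 1) * t ≤ (1 - t) ^ (b - 1) * (1 - t) :=
              mul_le_mul_of_nonneg_left (by linarith) (pow_nonneg h2 _)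
          _ = (1 - t) ^ b := by rw [← pow_succ, Nat.sub_add_cancel h]
      have h6 := mul_le_mul_of_nonneg_left h5 (Nat.cast_nonneg (α := ℝ) b)
      linarith
  have h5 : |a * t ^ (a - 1) * (1 - t) ^ b + t ^ a * (-(b * (1 - t) ^ (b - 1)))| ≤
      a * t ^ (a - 1) * (1 - t) ^ b + t ^ a * (b * (1 - t) ^ (b - 1)) := by
    refine (abs_add_le _ _).trans (add_le_add (le_of_eq (abs_of_nonneg ?_)) (le_of_eq ?_))
    · exact mul_nonneg (mul_nonneg (Nat.cast_nonneg _) (pow_nonneg h0.le _)) (pow_nonneg h2 _)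
    · rw [mul_neg, abs_neg]
      exact abs_of_nonneg (mul_nonneg (pow_nonneg h0.le _)
        (mul_nonneg (Nat.cast_nonneg _) (pow_nonneg h2 _)))
  calc _ ≤ (a * t ^ (a - 1) * (1 - t) ^ b + t ^ a * (b * (1 - t) ^ (b - 1))) * t :=
        mul_le_mul_of_nonneg_right h5 h0.le
    _ = (a * t ^ (a - 1) * t) * (1 - t) ^ b + t ^ a * (b * (1 - t) ^ (b - 1) * t) := by ring
    _ ≤ (a * t ^ a) * (1 - t) ^ b + t ^ a * (b * (1 - t) ^ b) := by
        rw [h3]
        exact add_le_add le_rfl (mul_le_mul_of_nonneg_left h4 (pow_nonneg h0.le _))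
    _ = (a + b) * (t ^ a * (1 - t) ^ b) := by ring

end LIPD_

/-- Target LIPD. -/
theorem p_LIPD : T_LIPD := by
  classical
  intro V _ F E p q B hp hpq hq hB h
  rcases hpq.eq_or_lt with heq | hlt
  · subst heq
    simp
  set f : ℝ → ℝ := fun t => pr F t E with hf
  set g : ℝ → ℝ := fun t => ∑ A ∈ F.powerset.filter E,
    ((A.card : ℝ) * t ^ (A.card - 1) * (1 - t) ^ (F.card - A.card) +
      t ^ A.card * (-(((F.card - A.card : ℕ) : ℝ) * (1 - t) ^ (F.card - A.card - 1)))) with hg
  have hd : ∀ t, HasDerivAt f (g t) t := by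
    intro t
    have h1 := HasDerivAt.fun_sum (u := F.powerset.filter E)
      (A := fun A s => s ^ A.card * (1 - s) ^ (F.card - A.card))
      (A' := fun A => ((A.card : ℝ) * t ^ (A.card - 1) * (1 - t) ^ (F.card - A.card) +
      t ^ A.card * (-(((F.card - A.card : ℕ) : ℝ) * (1 - t) ^ (F.card - A.card - 1)))))
      (fun A _ => LIPD_.wtDeriv A.card (F.card - A.card) t)
    exact h1
  obtain ⟨c, hc, hc2⟩ := exists_hasDerivAt_eq_slope f g hlt
    (fun x _ => (hd x).continuousAt.continuousWithinAt) (fun x _ => hd x)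
  have hc0 : 0 < c := lt_of_le_of_lt hp hc.1
  have hc1 : c ≤ 1 / 2 := hc.2.le.trans hq
  have h1 : |g c| * c ≤ F.card * (B * c) := by
    have h2 : |g c| * c ≤ ∑ A ∈ F.powerset.filter E, (F.card : ℝ) * wt F c A := by
      calc |g c| * c ≤ (∑ A ∈ F.powerset.filter E,
            |(A.card : ℝ) * c ^ (A.card - 1) * (1 - c) ^ (F.card - A.card) +
            c ^ A.card * (-(((F.card - A.card : ℕ) : ℝ) *
              (1 - c) ^ (F.card - A.card - 1)))|) * c :=
            mul_le_mul_of_nonneg_right (Finset.abs_sum_le_sum_abs _ _) hc0.le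
        _ = ∑ A ∈ F.powerset.filter E,
            |(A.card : ℝ) * c ^ (A.card - 1) * (1 - c) ^ (F.card - A.card) +
            c ^ A.card * (-(((F.card - A.card : ℕ) : ℝ) *
              (1 - c) ^ (F.card - A.card - 1)))| * c := Finset.sum_mul _ _ _
        _ ≤ _ := by
            refine Finset.sum_le_sum fun A hA => ?_
            have h3 := LIPD_.bound A.card (F.card - A.card) c hc0 hc1
            have h4 : A.card ≤ F.card :=
              Finset.card_le_card (Finset.mem_powerset.1 (Finset.mem_filter.1 hA).1)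
            have h5 : (A.card : ℝ) + ((F.card - A.card : ℕ) : ℝ) = F.card := by
              rw [← Nat.cast_add, Nat.add_sub_cancel' h4]
            rw [h5] at h3
            exact h3
    rw [← Finset.mul_sum] at h2
    refine h2.trans (mul_le_mul_of_nonneg_left ?_ (Nat.cast_nonneg _))
    exact h c hc.1 hc.2
  have h2 : |g c| ≤ F.card * B := by
    have h3 : |g c| * c ≤ (F.card * B) * c := by
      calc _ ≤ _ := h1
        _ = _ := by ring
    exact le_of_mul_le_mul_right h3 hc0
  have hqp : 0 < q - p := by linarith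
  have h3 : f q - f p = g c * (q - p) := by
    rw [hc2]
    field_simp
  have h4 : |pr F p E - pr F q E| = |g c| * (q - p) := by
    calc |pr F p E - pr F q E| = |f q - f p| := by
          rw [hf]
          exact abs_sub_comm _ _
      _ = |g c| * (q - p) := by rw [h3, abs_mul, abs_of_pos hqp]
  rw [h4]
  have h5 : 0 ≤ (F.card : ℝ) * B := mul_nonneg (Nat.cast_nonneg _) hB
  calc |g c| * (q - p) ≤ (F.card * B) * (q - p) := mul_le_mul_of_nonneg_right h2 hqp.le
    _ ≤ (2 * (F.card * B)) * (q - p) := mul_le_mul_of_nonneg_right (by linarith) hqp.le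
    _ = 2 * F.card * B * (q - p) := by ring

end Pool.Agent.TRH
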