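import Pool.Agent.TRH.T4

/-!
# LOC2: an event which needs two closed sites
-/

set_option autoImplicit false

open MeasureTheory Pool.Agent.TRP

noncomputable section

namespace Pool.Agent.TRH

namespace LOC2_

lemma wt_le {V : Type} (F A : Finset V) (t : ℝ) (h0 : 0 ≤ t) (h1 : t ≤ 1) (hA : 2 ≤ A.card) :
    wt F t A ≤ t ^ 2 := by
  unfold wt
  have h2 : t ^ A.card ≤ t ^ 2 := pow_le_pow_of_le_one h0 h1 hA
  have h3 : (1 - t) ^ (F.card - A.card) ≤ 1 := pow_le_one₀ (by linarith) (by linarith)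
  have h4 : (0 : ℝ) ≤ (1 - t) ^ (F.card - A.card) := pow_nonneg (by linarith) _
  calc t ^ A.card * (1 - t) ^ (F.card - A.card) ≤ t ^ 2 * 1 :=
        mul_le_mul h2 h3 h4 (by positivity)
    _ = t ^ 2 := mul_one _

lemma pr_le {V : Type} (F : Finset V) (E : Finset V → Prop)
    (hE : ∀ A, A ⊆ F → E A → 2 ≤ A.card) (t : ℝ) (h0 : 0 ≤ t) (h1 : t ≤ 1) :
    pr F t E ≤ 2 ^ F.card * t ^ 2 := by
  classical
  unfold pr
  have h2 : ∀ A ∈ F.powerset.filter E, wt F t A ≤ t ^ 2 := by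
    intro A hA
    rw [Finset.mem_filter, Finset.mem_powerset] at hA
    exact wt_le F A t h0 h1 (hE A hA.1 hA.2)
  have h3 : ∑ A ∈ F.powerset.filter E, wt F t A ≤ ((F.powerset.filter E).card : ℝ) * t ^ 2 := by
    have := Finset.sum_le_card_nsmul _ _ _ h2
    rwa [nsmul_eq_mul] at this
  have h4 : ((F.powerset.filter E).card : ℝ) ≤ 2 ^ F.card := by
    have h5 : (F.powerset.filter E).card ≤ F.powerset.card := Finset.card_filter_le _ _
    rw [Finset.card_powerset] at h5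
    exact_mod_cast h5
  have h6 : ((F.powerset.filter E).card : ℝ) * t ^ 2 ≤ 2 ^ F.card * t ^ 2 :=
    mul_le_mul_of_nonneg_right h4 (by positivity)
  convert h3.trans h6

end LOC2_

open LOC2_ in
/-- LOC2 -/
theorem p_LOC2 : T_LIPD → T_LOC2 := by
  intro hL V _ F E hE
  refine ⟨2 * F.card * 2 ^ F.card, by positivity, ?_⟩
  intro p q hp hpq hq
  have hB : (0 : ℝ) ≤ 2 ^ F.card * q := mul_nonneg (by positivity) (hp.trans hpq)
  have h := hL V F E p q (2 ^ F.card * q) hp hpq hq hB (by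
    intro t ht1 ht2
    have ht0 : 0 ≤ t := hp.trans ht1.le
    have h1 := pr_le F E hE t ht0 (by linarith)
    have h2 : t ^ 2 ≤ q * t := by nlinarith
    calc pr F t E ≤ 2 ^ F.card * t ^ 2 := h1
      _ ≤ 2 ^ F.card * (q * t) := mul_le_mul_of_nonneg_left h2 (by positivity)
      _ = 2 ^ F.card * q * t := by ring)
  calc |pr F p E - pr F q E| ≤ 2 * F.card * (2 ^ F.card * q) * (q - p) := h
    _ = 2 * F.card * 2 ^ F.card * q * (q - p) := by ring

end Pool.Agent.TRH
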