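import Pool.Agent.TRH.T3

/-!
# Trap in dimension at least three: MDIFF (two consecutive levels)
-/

set_option autoImplicit false

open MeasureTheory Pool.Agent.TRP

noncomputable section

namespace Pool.Agent.TRH

namespace MDIFF_

/-- the elements of the boundary of `R` inside the cube `b` of side `2 ^ (j + 1)` -/
def N {d : ℕ} (R : Finset (Site d)) (j : ℕ) (b : Site d) : Finset (Site d × (Fin d × Bool)) :=
  (bdry R).filter fun q => q.1 ∈ cube (j + 1) b ∧ q.1 + dv q.2 ∈ cube (j + 1) b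

theorem cube_eq {d : ℕ} (j : ℕ) (b : Site d) :
    cube j b = Fintype.piFinset (fun i => Finset.Ico ((fun i => 2 ^ j * b i) i : ℤ)
      ((fun i => 2 ^ j * b i) i + ((fun _ : Fin d => 2 ^ j) i : ℕ))) := by
  unfold cube
  congr 1
  funext i
  push_cast
  rw [mul_add, mul_one]

theorem iso {d : ℕ} (hC : T_CUBF) (hI : T_ISO) (R : Finset (Site d)) (j : ℕ) (b : Site d) :
    (cube (j + 1) b ∩ R).card * (cube (j + 1) b \ R).card ≤
      2 ^ (j + 1) * 2 ^ ((j + 1) * d) * (N R j b).card := by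
  have h1 := hI d (2 ^ (j + 1)) (fun i => 2 ^ (j + 1) * b i) (fun _ => 2 ^ (j + 1))
    (fun _ => le_refl _) (cube (j + 1) b) R (cube_eq (j + 1) b)
  have h2 := (hC d).2.1 (j + 1) b
  rw [h2] at h1
  exact h1

theorem arith {P Q u w M n : ℕ} (hQ : 0 < Q) (h1 : P * Q ≤ (2 * u) * (2 * w))
    (h2 : u * w ≤ M * Q * n) : P ≤ 4 * M * n := by
  have h3 : P * Q ≤ (4 * M * n) * Q := by
    calc P * Q ≤ (2 * u) * (2 * w) := h1
      _ = 4 * (u * w) := by ring
      _ ≤ 4 * (M * Q * n) := Nat.mul_le_mul_left _ h2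
      _ = (4 * M * n) * Q := by ring
  exact Nat.le_of_mul_le_mul_right h3 hQ

theorem core {d : ℕ} (hC : T_CUBF) (hI : T_ISO) (R : Finset (Site d)) (j : ℕ) (b : Site d)
    (h : 2 ^ (j * d) * 2 ^ ((j + 1) * d) ≤
      (2 * (cube (j + 1) b ∩ R).card) * (2 * (cube (j + 1) b \ R).card)) :
    2 ^ (j * d) ≤ 8 * 2 ^ j * (N R j b).card := by
  have h1 := arith (by positivity) h (iso hC hI R j b)
  calc 2 ^ (j * d) ≤ 4 * 2 ^ (j + 1) * (N R j b).card := h1
    _ = 8 * 2 ^ j * (N R j b).card := by rw [pow_succ]; ring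

/-- the small cube is in the big one -/
theorem sub {d : ℕ} (hC : T_CUBF) (j : ℕ) (x : Site d) :
    cube j (cub j x) ⊆ cube (j + 1) (cub (j + 1) x) := by
  intro y hy
  rw [(hC d).1] at hy ⊢
  rw [(hC d).2.2.2.2.1 j 1 y, (hC d).2.2.2.2.1 j 1 x, hy]

theorem split {d : ℕ} (X R : Finset (Site d)) : X.card = (X ∩ R).card + (X \ R).card :=
  (Finset.card_inter_add_card_sdiff X R).symm

/-- the bound for a cube which contains a site in which the two sets differ -/
theorem one {d : ℕ} (hC : T_CUBF) (hI : T_ISO) (R : Finset (Site d)) (j : ℕ) (x : Site d)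
    (hx : x ∈ symmDiff (fat j (maj j R)) (fat (j + 1) (maj (j + 1) R))) :
    2 ^ (j * d) ≤ 8 * 2 ^ j * (N R j (cub (j + 1) x)).card := by
  apply core hC hI
  set a := cub j x with ha
  set b := cub (j + 1) x with hb
  have hsub : cube j a ⊆ cube (j + 1) b := sub hC j x
  have ca : (cube j a).card = 2 ^ (j * d) := (hC d).2.1 j a
  have cb : (cube (j + 1) b).card = 2 ^ ((j + 1) * d) := (hC d).2.1 (j + 1) b
  have sa := split (cube j a) R
  have sb := split (cube (j + 1) b) R
  have m1 : (cube j a ∩ R).card ≤ (cube (j + 1) b ∩ R).card :=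
    Finset.card_le_card (Finset.inter_subset_inter_right hsub)
  have m2 : (cube j a \ R).card ≤ (cube (j + 1) b \ R).card :=
    Finset.card_le_card (Finset.sdiff_subset_sdiff hsub (Finset.Subset.refl R))
  rw [ca] at sa
  rw [cb] at sb
  have ea : R ∩ cube j a = cube j a ∩ R := Finset.inter_comm _ _
  have eb : R ∩ cube (j + 1) b = cube (j + 1) b ∩ R := Finset.inter_comm _ _
  rw [Finset.mem_symmDiff, (hC d).2.2.1, (hC d).2.2.1, (hC d).2.2.2.2.2.1,
    (hC d).2.2.2.2.2.1, ← ha, ← hb, ea, eb] at hx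
  rcases hx with ⟨h1, h2⟩ | ⟨h1, h2⟩
  · exact Nat.mul_le_mul (by omega) (by omega)
  · rw [mul_comm (2 ^ (j * d))]
    exact Nat.mul_le_mul h1 (by omega)

end MDIFF_

open MDIFF_ in
/-- MDIFF. -/
theorem p_MDIFF (hC : T_CUBF) (hI : T_ISO) : T_MDIFF := by
  classical
  intro d R j
  set S := symmDiff (fat j (maj j R)) (fat (j + 1) (maj (j + 1) R)) with hS
  set B := S.image (cub (j + 1)) with hB
  have h1 : S.card ≤ B.card * 2 ^ ((j + 1) * d) := by
    have hsub : S ⊆ B.biUnion (cube (j + 1)) := by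
      intro x hx
      rw [Finset.mem_biUnion]
      exact ⟨cub (j + 1) x, Finset.mem_image_of_mem _ hx, ((hC d).1 _ _ _).2 rfl⟩
    refine (Finset.card_le_card hsub).trans ?_
    refine Finset.card_biUnion_le.trans ?_
    rw [Finset.sum_congr rfl fun b _ => (hC d).2.1 (j + 1) b, Finset.sum_const, smul_eq_mul]
  have h2 : B.card * 2 ^ (j * d) ≤ 8 * 2 ^ j * ∑ b ∈ B, (N R j b).card := by
    rw [Finset.mul_sum, ← smul_eq_mul, ← Finset.sum_const]
    apply Finset.sum_le_sum
    intro b hb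
    obtain ⟨x, hx, rfl⟩ := Finset.mem_image.1 hb
    exact one hC hI R j x hx
  have h3 : ∑ b ∈ B, (N R j b).card ≤ (bdry R).card := by
    rw [← Finset.card_biUnion]
    · apply Finset.card_le_card
      intro q hq
      obtain ⟨b, _, hq⟩ := Finset.mem_biUnion.1 hq
      exact (Finset.mem_filter.1 hq).1
    · intro b _ b' _ hne
      rw [Function.onFun, Finset.disjoint_left]
      intro q hq hq'
      apply hne
      have e1 := ((hC d).1 _ _ _).1 (Finset.mem_filter.1 hq).2.1
      have e2 := ((hC d).1 _ _ _).1 (Finset.mem_filter.1 hq').2.1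
      rw [← e1, ← e2]
  calc S.card ≤ B.card * 2 ^ ((j + 1) * d) := h1
    _ = (B.card * 2 ^ (j * d)) * 2 ^ d := by
        rw [add_mul, one_mul, pow_add]; ring
    _ ≤ (8 * 2 ^ j * (bdry R).card) * 2 ^ d :=
        Nat.mul_le_mul_right _ (h2.trans (Nat.mul_le_mul_left _ h3))
    _ = 8 * 2 ^ d * 2 ^ j * (bdry R).card := by ring

end Pool.Agent.TRH
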