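import Pool.Agent.TRH.T1

/-!
# MONW: a forced win in a region stays one in a larger region (helper83)
-/

set_option autoImplicit false

open MeasureTheory Pool.Agent.TRP

noncomputable section

namespace Pool.Agent.TRH

theorem p_MONW : T_WINE → T_AGREE → T_LATB → T_MONW := by
  intro hW hA hL d n n' hn A h0
  obtain ⟨hadj, hbip, -, -, hpar, hpt, -, hmono, hnb, h0t, -, -⟩ := hL d
  have key : ∀ b : Bool, (0 : Site d) ∈ reg d n b → ∀ N : ℕ, (reg d n b \ A).card ≤ N →
      (par b (0 : Site d) → Ess (lattice d) (reg d n b \ A) 0 →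
        Win (brd (lattice d) (↑(reg d n' b \ A) : Set (Site d))) N {0} 0) ∧
      (¬ par b (0 : Site d) → ¬ Ess (lattice d) (reg d n b \ A) 0 →
        Lose (brd (lattice d) (↑(reg d n' b \ A) : Set (Site d))) N {0} 0) := by
    intro b hb N hN
    refine hW (Site d) (lattice d) (par b) (hbip b) (reg d n b) (reg d n b \ A)
      (↑(reg d n' b \ A) : Set (Site d)) 0 ?_ ?_ ?_ N hN
    · intro y hy hyP z hz
      obtain ⟨e, rfl⟩ := (hadj y z).1 hz
      exact hnb n b y hy hyP e
    · intro y
      rw [Finset.mem_coe, Finset.mem_sdiff, Finset.mem_sdiff]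
      constructor
      · rintro ⟨h1, h2⟩
        exact ⟨h1, (hmono n n' b hn).1 h1, h2⟩
      · rintro ⟨h1, _, h2⟩
        exact ⟨h1, h2⟩
    · exact Finset.mem_sdiff.2 ⟨hb, h0⟩
  have agr : ∀ b : Bool, ∀ z : Site d, z ≠ 0 →
      (z ∈ reg d n' b \ A ↔
        z ∈ (↑(reg d n' b \ A) : Set (Site d)) ∧ z ∉ ({0} : Finset (Site d))) := by
    intro b z hz
    rw [Finset.mem_coe, Finset.mem_singleton]
    exact ⟨fun h => ⟨h, hz⟩, fun h => h.1⟩
  constructor
  · intro hE
    have h1 := (key true (h0t n) _ le_rfl).1 hpt hE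
    have h2 : (0 : Site d) ∈ reg d n' true \ A := Finset.mem_sdiff.2 ⟨h0t n', h0⟩
    exact (hA d _ (reg d n' true \ A) {0} _ 0 h2 (Finset.mem_singleton_self 0)
      (Finset.mem_coe.2 h2)).1 (fun z _ hz => agr true z hz) h1
  · intro hE
    have hm : (0 : Site d) ∈ reg d n false \ A := by
      by_contra hm
      apply hE
      unfold Ess
      rw [Finset.erase_eq_of_notMem hm]
    have hb : (0 : Site d) ∈ reg d n false := (Finset.mem_sdiff.1 hm).1
    have hpf : ¬ par false (0 : Site d) := by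
      intro h
      exact (hpar 0 false).1 h hpt
    have h1 := (key false hb _ le_rfl).2 hpf hE
    have h2 : (0 : Site d) ∈ reg d n' false \ A :=
      Finset.mem_sdiff.2 ⟨(hmono n n' false hn).1 hb, h0⟩
    exact (hA d _ (reg d n' false \ A) {0} _ 0 h2 (Finset.mem_singleton_self 0)
      (Finset.mem_coe.2 h2)).2 (fun z _ hz => agr false z hz) h1

end Pool.Agent.TRH
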