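import Pool.Agent.TRH.T4

/-!
# TRH, block NUM: the numbers
-/

set_option autoImplicit false

namespace Pool.Agent.TRH

namespace NUM_

/-- Powers against exponentials. -/
lemma pow_le (k : ℕ) : ∃ K : ℝ, 1 ≤ K ∧ ∀ j : ℕ, ((j : ℝ) + 1) ^ k ≤ K * 2 ^ j := by
  have h := (tendsto_pow_const_div_const_pow_of_one_lt k (show (1 : ℝ) < 2 by norm_num))
  obtain ⟨C, hC⟩ := h.bddAbove_range
  refine ⟨max 1 (2 * C), le_max_left _ _, fun j => ?_⟩
  have h1 : (((j + 1 : ℕ) : ℝ)) ^ k / 2 ^ (j + 1) ≤ C := hC (Set.mem_range_self (j + 1))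
  rw [div_le_iff₀ (by positivity)] at h1
  push_cast at h1
  calc ((j : ℝ) + 1) ^ k ≤ C * 2 ^ (j + 1) := h1
    _ = (2 * C) * 2 ^ j := by ring
    _ ≤ max 1 (2 * C) * 2 ^ j := by
        apply mul_le_mul_of_nonneg_right (le_max_right _ _) (by positivity)

lemma le_two_pow : ∀ n : ℕ, n + 1 ≤ 2 ^ n
  | 0 => by norm_num
  | n + 1 => by
      have := le_two_pow n
      rw [pow_succ]
      omega

/-- The exponent of one term. -/
lemma expo (d : ℕ) (E D B K L m : ℝ) (j : ℕ) (hd : 3 ≤ d) (hE : 1 ≤ E) (hD : 1 ≤ D) (hB : 1 ≤ B)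
    (_hK : 1 ≤ K) (hm : 1 ≤ m) (hKj : ((j : ℝ) + 1) ^ 5 ≤ K * 2 ^ j)
    (h4 : (4 : ℝ) ^ j ≤ B * m) (hL1 : 1 ≤ L) (hL2 : 192 * D * d ≤ L)
    (hL3 : 384 * E * (1 + B) * K * d ≤ L) :
    3 * E * (j + 1) * (m / 4 ^ j + 1) +
      (-(L / 4 / (2 ^ j * (j + 1) ^ 2)) * (m / (8 * d * (j + 1) ^ 2)) +
        6 * Real.exp (-L) * (L / 4 / (2 ^ j * (j + 1) ^ 2)) ^ 2 *
            Real.exp (2 * (L / 4 / (2 ^ j * (j + 1) ^ 2))) * (D * 2 ^ j * m)) ≤
      - (L / (128 * d)) * (m / (2 ^ j * (j + 1) ^ 4)) := by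
  have hd0 : (0 : ℝ) < d := by
    have : 0 < d := by omega
    exact_mod_cast this
  have hj0 : (0 : ℝ) < (j : ℝ) + 1 := by positivity
  have hj1 : (1 : ℝ) ≤ (j : ℝ) + 1 := by
    have : (0 : ℝ) ≤ j := Nat.cast_nonneg j
    linarith
  have h2 : (1 : ℝ) ≤ 2 ^ j := one_le_pow₀ (by norm_num)
  have h44 : (4 : ℝ) ^ j = 2 ^ j * 2 ^ j := by
    rw [← mul_pow]; norm_num
  set t : ℝ := 2 ^ j with ht
  set s : ℝ := (j : ℝ) + 1 with hs
  have ht0 : 0 < t := by positivity
  set h : ℝ := m / (t * s ^ 4) with hh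
  have hh0 : 0 < h := by positivity
  -- first part
  have e1 : 3 * E * s * (m / 4 ^ j + 1) ≤ 3 * E * (1 + B) * K * h := by
    have a1 : m / 4 ^ j + 1 ≤ (1 + B) * (m / 4 ^ j) := by
      have : 1 ≤ B * (m / 4 ^ j) := by
        rw [mul_div_assoc', le_div_iff₀ (by positivity)]
        linarith
      linarith
    have a2 : s * (m / 4 ^ j) ≤ K * h := by
      rw [h44, hh, mul_div_assoc', mul_div_assoc', div_le_div_iff₀ (by positivity) (by positivity)]
      have : s ^ 5 * (m * t) ≤ (K * t) * (m * t) :=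
        mul_le_mul_of_nonneg_right hKj (by positivity)
      nlinarith [this]
    calc 3 * E * s * (m / 4 ^ j + 1) ≤ 3 * E * s * ((1 + B) * (m / 4 ^ j)) :=
          mul_le_mul_of_nonneg_left a1 (by positivity)
      _ = 3 * E * (1 + B) * (s * (m / 4 ^ j)) := by ring
      _ ≤ 3 * E * (1 + B) * (K * h) := mul_le_mul_of_nonneg_left a2 (by positivity)
      _ = 3 * E * (1 + B) * K * h := by ring
  have e2 : -(L / 4 / (t * s ^ 2)) * (m / (8 * d * s ^ 2)) = - (L / (32 * d)) * h := by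
    rw [hh]
    field_simp
    ring
  have hz : L / 4 / (t * s ^ 2) ≤ L / 4 := by
    apply div_le_self (by linarith)
    have : 1 ≤ s ^ 2 := one_le_pow₀ hj1
    nlinarith
  have e3 : 6 * Real.exp (-L) * (L / 4 / (t * s ^ 2)) ^ 2 *
            Real.exp (2 * (L / 4 / (t * s ^ 2))) * (D * t * m) ≤ 3 * D * h := by
    have b1 : Real.exp (-L) * Real.exp (2 * (L / 4 / (t * s ^ 2))) ≤ 8 / L ^ 2 := by
      rw [← Real.exp_add]
      have c1 : -L + 2 * (L / 4 / (t * s ^ 2)) ≤ -(L / 2) := by linarith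
      have c2 : Real.exp (-L + 2 * (L / 4 / (t * s ^ 2))) ≤ Real.exp (-(L / 2)) :=
        Real.exp_le_exp.mpr c1
      have c3 : (L / 2) ^ 2 / 2 ≤ Real.exp (L / 2) := by
        have := Real.quadratic_le_exp_of_nonneg (show 0 ≤ L / 2 by linarith)
        linarith
      have c4 : Real.exp (-(L / 2)) ≤ 8 / L ^ 2 := by
        rw [Real.exp_neg, inv_eq_one_div, div_le_div_iff₀ (Real.exp_pos _) (by positivity)]
        nlinarith
      linarith
    have b2 : (L / 4 / (t * s ^ 2)) ^ 2 * (D * t * m) = L ^ 2 / 16 * D * h := by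
      rw [hh]
      field_simp
      ring
    have b3 : 0 ≤ L ^ 2 / 16 * D * h := by positivity
    calc 6 * Real.exp (-L) * (L / 4 / (t * s ^ 2)) ^ 2 *
            Real.exp (2 * (L / 4 / (t * s ^ 2))) * (D * t * m)
        = 6 * (Real.exp (-L) * Real.exp (2 * (L / 4 / (t * s ^ 2)))) *
            ((L / 4 / (t * s ^ 2)) ^ 2 * (D * t * m)) := by ring
      _ ≤ 6 * (8 / L ^ 2) * ((L / 4 / (t * s ^ 2)) ^ 2 * (D * t * m)) := by
          apply mul_le_mul_of_nonneg_right _ (by positivity)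
          linarith
      _ = 6 * (8 / L ^ 2) * (L ^ 2 / 16 * D * h) := by rw [b2]
      _ = 3 * D * h := by
          have : L ≠ 0 := by linarith
          field_simp
          ring
  have f1 : 3 * D * h ≤ L / (64 * d) * h := by
    apply mul_le_mul_of_nonneg_right _ hh0.le
    rw [le_div_iff₀ (by positivity)]
    linarith
  have f2 : 3 * E * (1 + B) * K * h ≤ L / (128 * d) * h := by
    apply mul_le_mul_of_nonneg_right _ hh0.le
    rw [le_div_iff₀ (by positivity)]
    linarith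
  have f3 : L / (32 * d) * h = L / (128 * d) * h + L / (128 * d) * h + L / (64 * d) * h := by
    field_simp
    ring
  rw [e2]
  linarith

/-- Powers as exponentials. -/
lemma main (d : ℕ) (m p L x : ℝ) (hd : (0 : ℝ) < d) (hm : 0 < m) (hp : p = Real.exp (-L))
    (h : Real.log (4 * d) + ((d : ℝ) + 6) * Real.log m + x ≤ -(2 * L)) :
    4 * d * m ^ (d + 6) * Real.exp x ≤ p ^ 2 := by
  have c1 : 4 * d * m ^ (d + 6) =
      Real.exp (Real.log (4 * d) + ((d : ℝ) + 6) * Real.log m) := by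
    have e : ((d : ℝ) + 6) * Real.log m = Real.log (m ^ (d + 6)) := by
      rw [Real.log_pow]
      push_cast
      ring
    rw [e, Real.exp_add, Real.exp_log (by linarith), Real.exp_log (pow_pos hm _)]
  have c2 : p ^ 2 = Real.exp (-(2 * L)) := by
    rw [hp, sq, ← Real.exp_add]
    congr 1
    ring
  rw [c1, c2, ← Real.exp_add]
  exact Real.exp_le_exp.mpr h

end NUM_

theorem p_NUM : T_NUM := by
  intro d E D B hd hE hD hB
  obtain ⟨K, hK, hKj⟩ := NUM_.pow_le 5
  obtain ⟨K', hK', hKj'⟩ := NUM_.pow_le 8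
  set G : ℝ := K' ^ 2 * B ^ 3 with hG
  have hG1 : 1 ≤ G := by
    have h1 : 1 ≤ K' ^ 2 := one_le_pow₀ hK'
    have h2 : 1 ≤ B ^ 3 := one_le_pow₀ hB
    nlinarith
  have hd0 : (0 : ℝ) < d := by
    have : 0 < d := by omega
    exact_mod_cast this
  set M1 : ℝ := ((d : ℝ) + 6) * (Real.log G + 4) + Real.log (4 * d) with hM1
  set Lm : ℝ := 1 + 192 * D * d + 384 * E * (1 + B) * K * d + 256 * d * |M1| with hLm
  refine ⟨Real.exp (-Lm), ⌈G * (512 * d) ^ 4⌉₊ + ⌈B⌉₊ + 1, Real.exp_pos _, ?_, by omega, ?_⟩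
  · have h1 : (1 : ℝ) ≤ Lm := by
      have a1 : 0 ≤ 192 * D * d := by positivity
      have a2 : 0 ≤ 384 * E * (1 + B) * K * d := by positivity
      have a3 : 0 ≤ 256 * d * |M1| := by positivity
      linarith
    have h2 : Real.exp (-Lm) ≤ Real.exp (-1) := Real.exp_le_exp.mpr (by linarith)
    have h3 : Real.exp (-1) ≤ 1 / 2 := by
      rw [Real.exp_neg, inv_eq_one_div]
      apply one_div_le_one_div_of_le (by norm_num)
      have := Real.add_one_le_exp (1 : ℝ)
      linarith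
    linarith
  · intro p m J hp hpp hm hJ
    set L : ℝ := Real.log (1 / p) with hL
    have hpL : p = Real.exp (-L) := by
      rw [hL, one_div, Real.log_inv, neg_neg, Real.exp_log hp]
    have hLL : Lm ≤ L := by
      have : Real.exp (-L) ≤ Real.exp (-Lm) := by rw [← hpL]; exact hpp
      have := Real.exp_le_exp.mp this
      linarith
    have a1 : 0 ≤ 192 * D * d := by positivity
    have a2 : 0 ≤ 384 * E * (1 + B) * K * d := by positivity
    have a3 : 0 ≤ 256 * d * |M1| := by positivity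
    have hL1 : 1 ≤ L := by linarith
    have hL2 : 192 * D * d ≤ L := by linarith
    have hL3 : 384 * E * (1 + B) * K * d ≤ L := by linarith
    have hL4 : 256 * d * M1 ≤ L := by
      have : 256 * d * M1 ≤ 256 * d * |M1| :=
        mul_le_mul_of_nonneg_left (le_abs_self _) (by positivity)
      linarith
    have hmG : G * (512 * d) ^ 4 ≤ m := by
      have h1 := Nat.le_ceil (G * (512 * (d : ℝ)) ^ 4)
      have h2 : (⌈G * (512 * (d : ℝ)) ^ 4⌉₊ : ℝ) ≤ m := by
        have : ⌈G * (512 * (d : ℝ)) ^ 4⌉₊ ≤ m := by omega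
        exact_mod_cast this
      linarith
    have hmB : B ≤ m := by
      have h1 := Nat.le_ceil B
      have h2 : (⌈B⌉₊ : ℝ) ≤ m := by
        have : ⌈B⌉₊ ≤ m := by omega
        exact_mod_cast this
      linarith
    have hm1 : (1 : ℝ) ≤ m := by linarith
    have hm0 : (0 : ℝ) < m := by linarith
    have h4j : ∀ j < J, (4 : ℝ) ^ j ≤ B * m := by
      intro j hj
      refine le_trans ?_ (hJ j hj)
      have : (4 : ℝ) ^ j = 2 ^ (j * 2) := by
        rw [mul_comm, pow_mul]; norm_num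
      rw [this]
      apply pow_le_pow_right₀ (by norm_num)
      apply Nat.mul_le_mul_left
      omega
    have hJm : J ≤ m := by
      rcases Nat.eq_zero_or_pos J with h0 | h0
      · omega
      · obtain ⟨k, rfl⟩ : ∃ k, J = k + 1 := ⟨J - 1, by omega⟩
        have h1 := h4j k (by omega)
        have h2 : (2 : ℝ) ^ k * 2 ^ k ≤ (m : ℝ) * m := by
          have : (4 : ℝ) ^ k = 2 ^ k * 2 ^ k := by rw [← mul_pow]; norm_num
          rw [← this]
          refine le_trans h1 ?_
          exact mul_le_mul_of_nonneg_right hmB hm0.le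
        have h3 : (2 : ℝ) ^ k ≤ m := by
          have h5 : (0 : ℝ) < 2 ^ k := by positivity
          nlinarith
        have h4 : 2 ^ k ≤ m := by exact_mod_cast h3
        exact le_trans (NUM_.le_two_pow k) h4
    -- one term
    have key : ∀ j ∈ Finset.range J, 2 * d * ((m : ℝ) ^ 2 *
          Real.exp (3 * E * (j + 1) * ((m : ℝ) / 4 ^ j + 1))) *
        Real.exp (-(L / 4 / (2 ^ j * (j + 1) ^ 2)) * (m / (8 * d * (j + 1) ^ 2)) +
          6 * p * (L / 4 / (2 ^ j * (j + 1) ^ 2)) ^ 2 *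
            Real.exp (2 * (L / 4 / (2 ^ j * (j + 1) ^ 2))) * (D * 2 ^ j * m)) ≤
        p ^ 2 / (2 * (m : ℝ) ^ (d + 4)) := by
      intro j hj
      rw [Finset.mem_range] at hj
      have hexp := NUM_.expo d E D B K L m j hd hE hD hB hK hm1 (hKj j) (h4j j hj) hL1 hL2 hL3
      rw [← hpL] at hexp
      set h : ℝ := (m : ℝ) / (2 ^ j * (j + 1) ^ 4) with hh
      have hh0 : 0 < h := by positivity
      -- `m ≤ G h ^ 4`
      have hmG4 : (m : ℝ) ≤ G * h ^ 4 := by
        have b1 : (4 : ℝ) ^ j * 4 ^ j * 4 ^ j ≤ (B * m) ^ 3 := by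
          have c := h4j j hj
          have c0 : (0 : ℝ) < 4 ^ j := by positivity
          calc (4 : ℝ) ^ j * 4 ^ j * 4 ^ j = (4 ^ j) ^ 3 := by ring
            _ ≤ (B * m) ^ 3 := pow_le_pow_left₀ c0.le c 3
        have b2 : (((j : ℝ) + 1) ^ 8) ^ 2 ≤ (K' * 2 ^ j) ^ 2 :=
          pow_le_pow_left₀ (by positivity) (hKj' j) 2
        have b3 : ((2 : ℝ) ^ j * (j + 1) ^ 4) ^ 4 ≤ K' ^ 2 * B ^ 3 * m ^ 3 := by
          have e4 : (4 : ℝ) ^ j = 2 ^ j * 2 ^ j := by rw [← mul_pow]; norm_num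
          calc ((2 : ℝ) ^ j * (j + 1) ^ 4) ^ 4 = (2 ^ j) ^ 4 * (((j : ℝ) + 1) ^ 8) ^ 2 := by ring
            _ ≤ (2 ^ j) ^ 4 * (K' * 2 ^ j) ^ 2 := mul_le_mul_of_nonneg_left b2 (by positivity)
            _ = K' ^ 2 * (4 ^ j * 4 ^ j * 4 ^ j) := by rw [e4]; ring
            _ ≤ K' ^ 2 * (B * m) ^ 3 := mul_le_mul_of_nonneg_left b1 (by positivity)
            _ = K' ^ 2 * B ^ 3 * m ^ 3 := by ring
        rw [hh, div_pow, mul_div_assoc', le_div_iff₀ (by positivity)]
        calc (m : ℝ) * (2 ^ j * (j + 1) ^ 4) ^ 4 ≤ m * (K' ^ 2 * B ^ 3 * m ^ 3) :=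
              mul_le_mul_of_nonneg_left b3 hm0.le
          _ = G * m ^ 4 := by rw [hG]; ring
      have hh512 : 512 * (d : ℝ) ≤ h := by
        have c1 : (512 * (d : ℝ)) ^ 4 ≤ h ^ 4 := by
          have : G * (512 * (d : ℝ)) ^ 4 ≤ G * h ^ 4 := le_trans hmG hmG4
          exact le_of_mul_le_mul_left this (by linarith)
        exact le_of_pow_le_pow_left₀ (by norm_num) hh0.le c1
      have hd3 : (3 : ℝ) ≤ d := by exact_mod_cast hd
      have hh1 : 1 ≤ h := by linarith
      have hlog : Real.log m ≤ (Real.log G + 4) * h := by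
        have c1 : Real.log m ≤ Real.log (G * h ^ 4) := Real.log_le_log hm0 hmG4
        have c2 : Real.log (G * h ^ 4) = Real.log G + 4 * Real.log h := by
          rw [Real.log_mul (by linarith) (by positivity), Real.log_pow]
          norm_num
        have c3 : Real.log h ≤ h := by
          have := Real.log_le_sub_one_of_pos hh0
          linarith
        have c4 : 0 ≤ Real.log G := Real.log_nonneg hG1
        nlinarith
      -- the inequality of exponents
      have fin : Real.log (4 * d) + ((d : ℝ) + 6) * Real.log m + 2 * L ≤ L / (128 * d) * h := by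
        have c1 : 0 ≤ Real.log (4 * d) := Real.log_nonneg (by linarith)
        have c2 : Real.log (4 * d) + ((d : ℝ) + 6) * Real.log m ≤ M1 * h := by
          rw [hM1]
          have c3 : Real.log (4 * d) ≤ Real.log (4 * d) * h := by nlinarith
          have c4 : ((d : ℝ) + 6) * Real.log m ≤ ((d : ℝ) + 6) * ((Real.log G + 4) * h) :=
            mul_le_mul_of_nonneg_left hlog (by linarith)
          linarith
        have c5 : M1 * h ≤ L / (256 * d) * h := by
          apply mul_le_mul_of_nonneg_right _ hh0.le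
          rw [le_div_iff₀ (by positivity)]
          linarith
        have c6 : 2 * L ≤ L / (256 * d) * h := by
          have : L / (256 * d) * (512 * d) ≤ L / (256 * d) * h :=
            mul_le_mul_of_nonneg_left hh512 (by positivity)
          have e : L / (256 * d) * (512 * d) = 2 * L := by
            field_simp
            ring
          linarith
        have c7 : L / (128 * d) * h = L / (256 * d) * h + L / (256 * d) * h := by
          field_simp
          ring
        linarith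
      have hmain : 4 * d * (m : ℝ) ^ (d + 6) * Real.exp (-(L / (128 * d)) * h) ≤ p ^ 2 :=
        NUM_.main d m p L _ (by positivity) hm0 hpL (by
          have e : -(L / (128 * d)) * h = -(L / (128 * d) * h) := by ring
          rw [e]
          linarith)
      rw [le_div_iff₀ (by positivity)]
      calc 2 * d * ((m : ℝ) ^ 2 * Real.exp (3 * E * (j + 1) * ((m : ℝ) / 4 ^ j + 1))) *
            Real.exp (-(L / 4 / (2 ^ j * (j + 1) ^ 2)) * (m / (8 * d * (j + 1) ^ 2)) +
              6 * p * (L / 4 / (2 ^ j * (j + 1) ^ 2)) ^ 2 *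
              Real.exp (2 * (L / 4 / (2 ^ j * (j + 1) ^ 2))) * (D * 2 ^ j * m)) *
              (2 * (m : ℝ) ^ (d + 4))
          = 4 * d * (m : ℝ) ^ (d + 6) *
            Real.exp (3 * E * (j + 1) * ((m : ℝ) / 4 ^ j + 1) +
              (-(L / 4 / (2 ^ j * (j + 1) ^ 2)) * (m / (8 * d * (j + 1) ^ 2)) +
              6 * p * (L / 4 / (2 ^ j * (j + 1) ^ 2)) ^ 2 *
              Real.exp (2 * (L / 4 / (2 ^ j * (j + 1) ^ 2))) * (D * 2 ^ j * m))) := by
            rw [Real.exp_add (3 * E * (j + 1) * ((m : ℝ) / 4 ^ j + 1))]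
            ring
        _ ≤ 4 * d * (m : ℝ) ^ (d + 6) * Real.exp (-(L / (128 * d)) * h) := by
            apply mul_le_mul_of_nonneg_left _ (by positivity)
            exact Real.exp_le_exp.mpr hexp
        _ ≤ p ^ 2 := hmain
    calc _ ≤ ∑ j ∈ Finset.range J, p ^ 2 / (2 * (m : ℝ) ^ (d + 4)) := Finset.sum_le_sum key
      _ = J * (p ^ 2 / (2 * (m : ℝ) ^ (d + 4))) := by
          rw [Finset.sum_const, Finset.card_range, nsmul_eq_mul]
      _ ≤ m * (p ^ 2 / (2 * (m : ℝ) ^ (d + 4))) := by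
          apply mul_le_mul_of_nonneg_right _ (by positivity)
          exact_mod_cast hJm
      _ = p ^ 2 / (2 * (m : ℝ) ^ (d + 3)) := by
          rw [pow_succ (m : ℝ) (d + 3)]
          field_simp

end Pool.Agent.TRH
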