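import Pool.Agent.TRH.T1
import Pool.Agent.TRH.T2

/-!
# Trap in dimension at least three: at most one closed site gives no gain
-/

set_option autoImplicit false

open MeasureTheory Pool.Agent.TRP

noncomputable section

namespace Pool.Agent.TRH

namespace ONE_

/-- On each line of direction `(i, true)` through a site of `R` there is a last site. -/
lemma exists_last {d : ℕ} (R : Finset (Site d)) (i : Fin d) (p : Site d) (hp : p ∈ R) :
    ∃ x ∈ R, x + dv (i, true) ∉ R ∧ ∀ k, k ≠ i → x k = p k := by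
  classical
  obtain ⟨x, hx, hmax⟩ := Finset.exists_max_image (R.filter fun x => ∀ k, k ≠ i → x k = p k)
    (fun x => x i) ⟨p, Finset.mem_filter.2 ⟨hp, fun _ _ => rfl⟩⟩
  obtain ⟨hxR, hxk⟩ := Finset.mem_filter.1 hx
  refine ⟨x, hxR, fun h => ?_, hxk⟩
  have h1 := hmax (x + dv (i, true)) (Finset.mem_filter.2 ⟨h, fun k hk => by
    simp [dv, Pi.single_eq_of_ne hk, hxk k hk]⟩)
  simp [dv] at h1

/-- All neighbours of a site of `R` which is not on the inner side of the boundary are in `R`. -/
lemma nb_mem {d : ℕ} (b : Bool) (R : Finset (Site d)) (z : Site d) (hz : z ∈ R)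
    (hpz : ¬ par b z) (hb : ∀ q ∈ bdry R, par b q.1) (e : Fin d × Bool) : z + dv e ∈ R := by
  by_contra h
  refine hpz (hb (z, e) ?_)
  unfold bdry
  rw [Finset.mem_filter, Finset.mem_product]
  exact ⟨⟨hz, Finset.mem_univ _⟩, h⟩

/-- There are at least three last sites. -/
lemma three_last {d : ℕ} (hd : 2 ≤ d) (b : Bool) (R : Finset (Site d))
    (hR : ∃ z ∈ R, ¬ par b z) (hb : ∀ q ∈ bdry R, par b q.1) :
    3 ≤ (R.filter fun x => x + dv ((⟨0, by omega⟩ : Fin d), true) ∉ R).card := by
  classical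
  obtain ⟨z, hz, hpz⟩ := hR
  set i : Fin d := ⟨0, by omega⟩ with hi
  set k : Fin d := ⟨1, by omega⟩ with hk
  have hki : k ≠ i := by
    intro h
    have := congrArg Fin.val h
    simp [hi, hk] at this
  obtain ⟨x₀, h0, h0', h0k⟩ := exists_last R i z hz
  obtain ⟨x₁, h1, h1', h1k⟩ := exists_last R i _ (nb_mem b R z hz hpz hb (k, true))
  obtain ⟨x₂, h2, h2', h2k⟩ := exists_last R i _ (nb_mem b R z hz hpz hb (k, false))
  have e0 := h0k k hki
  have e1 := h1k k hki
  have e2 := h2k k hki
  simp only [dv, Pi.add_apply, Pi.neg_apply, Pi.single_eq_same, if_true, if_false,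
    Bool.false_eq_true] at e1 e2
  have n01 : x₀ ≠ x₁ := by
    rintro rfl
    omega
  have n02 : x₀ ≠ x₂ := by
    rintro rfl
    omega
  have n12 : x₁ ≠ x₂ := by
    rintro rfl
    omega
  have hc : ({x₀, x₁, x₂} : Finset (Site d)).card = 3 := by
    rw [Finset.card_insert_of_notMem, Finset.card_insert_of_notMem, Finset.card_singleton]
    · simpa using n12
    · simp [n01, n02]
  rw [← hc]
  refine Finset.card_le_card fun x hx => ?_
  rw [Finset.mem_insert, Finset.mem_insert, Finset.mem_singleton] at hx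
  rw [Finset.mem_filter]
  rcases hx with rfl | rfl | rfl
  · exact ⟨h0, h0'⟩
  · exact ⟨h1, h1'⟩
  · exact ⟨h2, h2'⟩

end ONE_

open ONE_ in
theorem p_ONE : T_LATT → T_ONE := by
  intro hL d b L A R hd hRL hz hb hG
  obtain ⟨_, _, hmono, hdel, _⟩ := hL (Site d) (lattice d)
  have h3 := three_last hd b R hz hb
  have hg := hG ((⟨0, by omega⟩ : Fin d), true)
  have h4 : alpha (lattice d) (L \ A.image (rot R ((⟨0, by omega⟩ : Fin d), true))) ≤
      alpha (lattice d) L := hmono _ _ Finset.sdiff_subset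
  have h5 := hdel L (L \ A)
  have h6 : (L \ (L \ A)).card = (A ∩ L).card := by
    congr 1
    ext x
    simp only [Finset.mem_sdiff, Finset.mem_inter]
    tauto
  have h7 : (R.filter fun x => x + dv ((⟨0, by omega⟩ : Fin d), true) ∉ R).card ≤
      (lastO R A ((⟨0, by omega⟩ : Fin d), true)).card + (A ∩ L).card := by
    refine le_trans (Finset.card_le_card (t := lastO R A ((⟨0, by omega⟩ : Fin d), true) ∪
      (A ∩ L)) fun x hx => ?_) (Finset.card_union_le _ _)
    obtain ⟨hx1, hx2⟩ := Finset.mem_filter.1 hx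
    rw [Finset.mem_union]
    by_cases hA : x ∈ A
    · exact Or.inr (Finset.mem_inter.2 ⟨hA, hRL hx1⟩)
    · refine Or.inl ?_
      unfold lastO
      exact Finset.mem_filter.2 ⟨hx1, hx2, hA⟩
  omega

end Pool.Agent.TRH
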