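import Pool.Agent.TRH.T2

/-!
# Trap: the complement of the regions is connected

The complement of `reg d n b` is connected for `d ≥ 2`.
-/

set_option autoImplicit false

noncomputable section

namespace Pool.Agent.TRH

namespace OUT_

/-- the opposite unit vector -/
theorem dv_neg {d : ℕ} (e : Fin d × Bool) : dv (e.1, !e.2) = -dv e := by
  rcases e with ⟨i, b⟩
  cases b <;> simp [dv]

/-- the steps are reversible -/
theorem joins_symm {d : ℕ} {X : Set (Site d)} {x y : Site d} (hx : x ∈ X) (h : Joins X x y) :
    y ∈ X ∧ Joins X y x := by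
  induction h with
  | refl => exact ⟨hx, Relation.ReflTransGen.refl⟩
  | @tail u v _ hs ih =>
    obtain ⟨⟨e, he⟩, hv⟩ := hs
    refine ⟨hv, Relation.ReflTransGen.head ⟨⟨(e.1, !e.2), ?_⟩, ih.1⟩ ih.2⟩
    rw [dv_neg, he]
    simp

/-- one step in direction `(k, true)` -/
theorem upd_succ {d : ℕ} (x : Site d) (k : Fin d) (t : ℤ) :
    Function.update x k (t + 1) = Function.update x k t + dv (k, true) := by
  funext j
  by_cases h : j = k
  · subst h
    simp [dv]
  · simp [dv, Function.update_of_ne h, Pi.single_eq_of_ne h]

/-- one step in direction `(k, false)` -/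
theorem upd_pred {d : ℕ} (x : Site d) (k : Fin d) (t : ℤ) :
    Function.update x k (t - 1) = Function.update x k t + dv (k, false) := by
  funext j
  by_cases h : j = k
  · subst h
    simp [dv, sub_eq_add_neg]
  · simp [dv, Function.update_of_ne h, Pi.single_eq_of_ne h]

/-- changing one coordinate -/
theorem joins_update {d : ℕ} {X : Set (Site d)} (x : Site d) (k : Fin d)
    (hX : ∀ t, Function.update x k t ∈ X) (t : ℤ) : Joins X x (Function.update x k t) := by
  refine Int.inductionOn' t (x k) ?_ ?_ ?_
  · rw [Function.update_eq_self]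
    exact Relation.ReflTransGen.refl
  · intro m _ ih
    exact Relation.ReflTransGen.tail ih ⟨⟨(k, true), upd_succ x k m⟩, hX _⟩
  · intro m _ ih
    exact Relation.ReflTransGen.tail ih ⟨⟨(k, false), upd_pred x k m⟩, hX _⟩

/-- a site with a large coordinate is outside the region -/
theorem mem_out {d n : ℕ} {b : Bool} {x : Site d} {i : Fin d}
    (h : x i ∉ Finset.Icc (-(n : ℤ)) n) : x ∈ ((reg d n b : Set (Site d))ᶜ) := by
  intro hx
  have h0 := Finset.mem_coe.1 hx
  simp only [reg, Finset.mem_filter] at h0
  have h1 : x ∈ bx d n := h0.1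
  exact h (Fintype.mem_piFinset.1 h1 i)

/-- from outside the box to the corner -/
theorem joins_corner {d n : ℕ} {b : Bool} (hd : 2 ≤ d) {x : Site d} {i : Fin d}
    (h : x i ∉ Finset.Icc (-(n : ℤ)) n) :
    Joins ((reg d n b : Set (Site d))ᶜ) x (fun _ => (n : ℤ) + 1) := by
  have key : ∀ s : Finset (Fin d), i ∉ s →
      Joins ((reg d n b : Set (Site d))ᶜ) x (fun j => if j ∈ s then (n : ℤ) + 1 else x j) := by
    intro s
    induction s using Finset.induction_on with
    | empty =>
      intro _
      simp only [Finset.notMem_empty, if_false]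
      exact Relation.ReflTransGen.refl
    | insert k s hk ih =>
      intro hi
      rw [Finset.mem_insert, not_or] at hi
      refine Relation.ReflTransGen.trans (ih hi.2) ?_
      have h2 := joins_update (X := ((reg d n b : Set (Site d))ᶜ))
        (fun j => if j ∈ s then (n : ℤ) + 1 else x j) k (fun t => by
          refine mem_out (i := i) ?_
          rw [Function.update_of_ne hi.1]
          simpa [hi.2] using h) ((n : ℤ) + 1)
      have h3 : Function.update (fun j => if j ∈ s then (n : ℤ) + 1 else x j) k ((n : ℤ) + 1) =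
          fun j => if j ∈ insert k s then (n : ℤ) + 1 else x j := by
        funext j
        by_cases hj : j = k
        · subst hj
          simp
        · rw [Function.update_of_ne hj]
          simp [Finset.mem_insert, hj]
      rw [h3] at h2
      exact h2
  obtain ⟨k, hk⟩ : ∃ k : Fin d, k ≠ i := by
    have : Nontrivial (Fin d) := Fin.nontrivial_iff_two_le.2 hd
    exact exists_ne i
  have h1 := key (Finset.univ.erase i) (Finset.notMem_erase i _)
  refine Relation.ReflTransGen.trans h1 ?_
  have h2 := joins_update (X := ((reg d n b : Set (Site d))ᶜ))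
    (fun j => if j ∈ Finset.univ.erase i then (n : ℤ) + 1 else x j) i (fun t => by
      refine mem_out (i := k) ?_
      rw [Function.update_of_ne hk]
      simp [hk]) ((n : ℤ) + 1)
  have h3 : Function.update (fun j => if j ∈ Finset.univ.erase i then (n : ℤ) + 1 else x j) i
      ((n : ℤ) + 1) = fun _ => (n : ℤ) + 1 := by
    funext j
    by_cases hj : j = i
    · subst hj
      simp
    · rw [Function.update_of_ne hj]
      simp [hj]
  rw [h3] at h2
  exact h2

/-- from the complement to the corner -/
theorem joins_all {d n : ℕ} {b : Bool} (hd : 2 ≤ d) {x : Site d}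
    (hx : x ∈ ((reg d n b : Set (Site d))ᶜ)) :
    Joins ((reg d n b : Set (Site d))ᶜ) x (fun _ => (n : ℤ) + 1) := by
  have hout : ∀ y : Site d, y ∉ bx d n → ∃ i, y i ∉ Finset.Icc (-(n : ℤ)) n := by
    intro y hy
    by_contra hcon
    push Not at hcon
    exact hy (Fintype.mem_piFinset.2 hcon)
  by_cases hb : x ∈ bx d n
  · have h1 : ¬ (par b x ∨ ∀ e, x + dv e ∈ bx d n) := by
      intro h
      refine hx (Finset.mem_coe.2 ?_)
      simp only [reg, Finset.mem_filter]
      exact ⟨hb, h⟩
    rw [not_or] at h1
    obtain ⟨e, he⟩ := not_forall.1 h1.2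
    obtain ⟨i, hi⟩ := hout _ he
    exact Relation.ReflTransGen.head ⟨⟨e, rfl⟩, mem_out hi⟩ (joins_corner hd hi)
  · obtain ⟨i, hi⟩ := hout _ hb
    exact joins_corner hd hi

end OUT_

open OUT_ in
/-- OUT -/
theorem p_OUT : T_OUT := by
  intro d n b hd x hx y hy
  exact Relation.ReflTransGen.trans (joins_all hd hx) (joins_symm hy (joins_all hd hy)).2

end Pool.Agent.TRH
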