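import Pool.Agent.TRH.T2

/-!
# TRH: a connected set of large radius has many boundary edges
-/

set_option autoImplicit false

open Pool.Agent.TRP

namespace Pool.Agent.TRH

namespace RADIUS_

variable {d : ℕ}

theorem dv_le (e : Fin d × Bool) (i : Fin d) : ((dv e : Site d) i).natAbs ≤ 1 := by
  unfold dv
  by_cases h : i = e.1
  · subst h
    split_ifs <;> simp
  · split_ifs <;> simp [Pi.single_eq_of_ne h]

theorem ivt (R : Finset (Site d)) (i : Fin d) (h0 : (0 : Site d) ∈ R) {y : Site d}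
    (h : Joins (R : Set (Site d)) 0 y) : ∀ t : ℕ, t ≤ (y i).natAbs →
      ∃ z ∈ R, (z i).natAbs = t := by
  induction h with
  | refl =>
    intro t ht
    refine ⟨0, h0, ?_⟩
    have h1 : ((0 : Site d) i).natAbs = 0 := rfl
    omega
  | tail _ h2 ih =>
    intro t ht
    obtain ⟨⟨e, he⟩, hc⟩ := h2
    rename_i b c _
    by_cases h3 : t ≤ (b i).natAbs
    · exact ih t h3
    · refine ⟨c, hc, ?_⟩
      have h4 : c i = b i + (dv e : Site d) i := by
        rw [he]
        rfl
      have h5 := dv_le e i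
      omega

theorem slice (R : Finset (Site d)) (i k : Fin d) (hk : k ≠ i) (t : ℕ)
    (h : ∃ z ∈ R, (z i).natAbs = t) :
    ∃ y, (y i).natAbs = t ∧ (y, ((k, true) : Fin d × Bool)) ∈ bdry R := by
  obtain ⟨z, hz, hzt⟩ := h
  obtain ⟨y, hy, hmax⟩ := Finset.exists_max_image (R.filter fun y => (y i).natAbs = t)
    (fun y => y k) ⟨z, Finset.mem_filter.2 ⟨hz, hzt⟩⟩
  obtain ⟨hyR, hyt⟩ := Finset.mem_filter.1 hy
  refine ⟨y, hyt, ?_⟩
  unfold bdry
  rw [Finset.mem_filter]
  refine ⟨Finset.mem_product.2 ⟨hyR, Finset.mem_univ _⟩, fun hin => ?_⟩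
  have h1 : (y + dv ((k, true) : Fin d × Bool)) i = y i := by
    simp [dv, Pi.single_eq_of_ne (Ne.symm hk)]
  have h2 : (y + dv ((k, true) : Fin d × Bool)) k = y k + 1 := by
    simp [dv]
  have h3 := hmax (y + dv ((k, true) : Fin d × Bool))
    (Finset.mem_filter.2 ⟨hin, by rw [h1]; exact hyt⟩)
  simp only [h2] at h3
  omega

end RADIUS_

open RADIUS_ in
theorem p_RADIUS : T_RADIUS := by
  intro d R i r hd h0 hC hx
  obtain ⟨x, hxR, hxr⟩ := hx
  have hnt : Nontrivial (Fin d) := Fin.nontrivial_iff_two_le.2 hd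
  obtain ⟨k, hk⟩ := exists_ne i
  have h1 : ∀ t : ℕ, ∃ y : Site d, t ≤ r →
      ((y i).natAbs = t ∧ (y, ((k, true) : Fin d × Bool)) ∈ bdry R) := by
    intro t
    by_cases ht : t ≤ r
    · have h2 : t ≤ (x i).natAbs := by
        have h3 : (((x i).natAbs : ℕ) : ℤ) = |x i| := Int.natCast_natAbs _
        omega
      obtain ⟨y, hy⟩ := slice R i k hk t (ivt R i h0 (hC 0 h0 x hxR) t h2)
      exact ⟨y, fun _ => hy⟩
    · exact ⟨0, fun h => absurd h ht⟩
  choose g hg using h1
  have h4 : (Finset.range (r + 1)).card ≤ (bdry R).card := by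
    refine Finset.card_le_card_of_injOn (fun t => (g t, ((k, true) : Fin d × Bool))) ?_ ?_
    · intro t ht
      have ht' := Finset.mem_range.1 (Finset.mem_coe.1 ht)
      exact (hg t (by omega)).2
    · intro t ht t' ht' h
      have ht1 := Finset.mem_range.1 (Finset.mem_coe.1 ht)
      have ht2 := Finset.mem_range.1 (Finset.mem_coe.1 ht')
      have h5 : g t = g t' := (Prod.ext_iff.1 h).1
      rw [← (hg t (by omega)).1, ← (hg t' (by omega)).1, h5]
  rwa [Finset.card_range] at h4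

end Pool.Agent.TRH
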