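import Pool.Agent.TRH.T1

/-!
# Trap in dimension at least three: the recursion for `Ess`
-/

set_option autoImplicit false

open MeasureTheory Pool.Agent.TRP

noncomputable section

namespace Pool.Agent.TRH

namespace REC_

variable {V : Type} [DecidableEq V]

/-- a maximum independent set which avoids an essential vertex -/
lemma avoid (hL : T_LATT) (G : SimpleGraph V) {S : Finset V} {y : V} (h : Ess G S y) :
    ∃ J, MaxInd G S J ∧ y ∉ J := by
  obtain ⟨h1, -, -, -, -⟩ := hL V G
  obtain ⟨J, hJ1, hJ2, hJ3⟩ := h1 (S.erase y)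
  exact ⟨J, ⟨hJ1.trans (Finset.erase_subset _ _), hJ2, hJ3.trans h⟩,
    fun hy => Finset.notMem_erase y S (hJ1 hy)⟩

/-- one maximum independent set avoids a set of neighbours -/
lemma avoidAll (hL : T_LATT) (G : SimpleGraph V) {P' : V → Prop} (hP : Bip G P')
    {S : Finset V} (N : Finset V) (hN : ∀ y ∈ N, P' y ∧ Ess G S y) :
    ∃ K, MaxInd G S K ∧ ∀ y ∈ N, y ∉ K := by
  obtain ⟨h1, -, -, -, h5⟩ := hL V G
  induction N using Finset.induction_on with
  | empty =>
    obtain ⟨K, hK⟩ := h1 S
    exact ⟨K, hK, fun y hy => absurd hy (Finset.notMem_empty y)⟩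
  | insert a N ha ih =>
    obtain ⟨K, hK, hK'⟩ := ih fun y hy => hN y (Finset.mem_insert_of_mem hy)
    obtain ⟨J, hJ, hJ'⟩ := avoid hL G (hN a (Finset.mem_insert_self a N)).2
    obtain ⟨M, hM, hM1, -⟩ := h5 P' hP S K J hK hJ
    refine ⟨M, hM, fun y hy hyM => ?_⟩
    obtain ⟨q1, q2⟩ := hM1 y hyM (hN y hy).1
    rcases Finset.mem_insert.1 hy with rfl | hy'
    · exact hJ' q2
    · exact hK' y hy' q1

end REC_

open REC_ in
theorem p_REC (hL : T_LATT) : T_REC := by
  intro V _ G P hP S x hx
  classical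
  obtain ⟨h1, h2, h3, -, -⟩ := hL V G
  constructor
  · intro hE
    by_contra hne
    push Not at hne
    have hP' : Bip G (fun z => P z ↔ ¬ P x) := by
      intro a b hab
      have := hP a b hab
      by_cases ha : P a <;> by_cases hb : P b <;> by_cases hc : P x <;> simp_all
    obtain ⟨K, hK, hK'⟩ := avoidAll hL G hP' ((S.erase x).filter fun y => G.Adj x y) (by
      intro y hy
      obtain ⟨q1, q2⟩ := Finset.mem_filter.1 hy
      refine ⟨?_, hne y q1 q2⟩
      have := hP x y q2
      by_cases ha : P x <;> by_cases hb : P y <;> simp_all)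
    obtain ⟨k1, k2, k3⟩ := hK
    have hxK : x ∉ K := fun h => Finset.notMem_erase x S (k1 h)
    have hnot : ∀ y ∈ K, ¬ G.Adj x y := fun y hy hadj =>
      hK' y (Finset.mem_filter.2 ⟨k1 hy, hadj⟩) hy
    have h4 := h2 S (insert x K) (Finset.insert_subset hx (k1.trans (Finset.erase_subset _ _)))
      (by
        intro a ha b hb hab
        rcases Finset.mem_insert.1 ha with rfl | ha'
        · rcases Finset.mem_insert.1 hb with rfl | hb'
          · exact G.irrefl hab
          · exact hnot b hb' hab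
        · rcases Finset.mem_insert.1 hb with rfl | hb'
          · exact hnot a ha' hab.symm
          · exact k2 a ha' b hb' hab)
    rw [Finset.card_insert_of_notMem hxK, k3] at h4
    unfold Ess at hE
    omega
  · rintro ⟨y, hy, hadj, hE⟩
    unfold Ess at hE ⊢
    by_contra hne
    have a1 := h3 (S.erase x) S (Finset.erase_subset _ _)
    have a2 := h3 ((S.erase x).erase y) (S.erase x) (Finset.erase_subset _ _)
    obtain ⟨J, j1, j2, j3⟩ := h1 S
    have hxJ : x ∈ J := by
      by_contra hxJ
      have := h2 (S.erase x) J (fun z hz => Finset.mem_erase.2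
        ⟨fun h => hxJ (h ▸ hz), j1 hz⟩) j2
      omega
    have hyJ : y ∉ J := fun h => j2 x hxJ y h hadj
    have h4 := h2 ((S.erase x).erase y) (J.erase x) (by
      intro z hz
      obtain ⟨z1, z2⟩ := Finset.mem_erase.1 hz
      exact Finset.mem_erase.2 ⟨fun h => hyJ (h ▸ z2), Finset.mem_erase.2 ⟨z1, j1 z2⟩⟩)
      (fun a ha b hb => j2 a (Finset.mem_of_mem_erase ha) b (Finset.mem_of_mem_erase hb))
    rw [Finset.card_erase_of_mem hxJ, j3] at h4
    omega

end Pool.Agent.TRH
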