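import Pool.Agent.TRH.T1
import Pool.Agent.TRH.T2

/-!
# Trap in dimension at least three: the region of the other phase around the origin
-/

set_option autoImplicit false

open MeasureTheory Pool.Agent.TRP

noncomputable section

namespace Pool.Agent.TRH

namespace REGION_

/-- one step from `u` to `v` -/
def St {d : ℕ} (u v : Site d) : Prop := ∃ e, v = u + dv e

theorem dv_flip {d : ℕ} (e : Fin d × Bool) : dv (e.1, !e.2) = -(dv e : Site d) := by
  rcases e with ⟨i, b⟩
  cases b <;> simp [dv]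

theorem st_symm {d : ℕ} {u v : Site d} (h : St u v) : St v u := by
  obtain ⟨e, rfl⟩ := h
  exact ⟨(e.1, !e.2), by rw [dv_flip]; abel⟩

theorem mono {d : ℕ} {X Y : Set (Site d)} (h : X ⊆ Y) {x y : Site d} (hj : Joins X x y) :
    Joins Y x y := by
  induction hj with
  | refl => exact Relation.ReflTransGen.refl
  | tail _ h2 ih => exact ih.tail ⟨h2.1, h h2.2⟩

theorem mem {d : ℕ} {X : Set (Site d)} {x y : Site d} (hx : x ∈ X) (hj : Joins X x y) :
    y ∈ X := by
  induction hj with
  | refl => exact hx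
  | tail _ h2 _ => exact h2.2

theorem symm {d : ℕ} {X : Set (Site d)} {x y : Site d} (hx : x ∈ X) (hj : Joins X x y) :
    Joins X y x := by
  induction hj with
  | refl => exact Relation.ReflTransGen.refl
  | tail h1 h2 ih => exact Relation.ReflTransGen.head ⟨st_symm h2.1, mem hx h1⟩ ih

theorem comp {d : ℕ} {X : Set (Site d)} {x y : Site d} (hj : Joins X x y) :
    Joins {w | Joins X x w} x y := by
  induction hj with
  | refl => exact Relation.ReflTransGen.refl
  | tail h1 h2 ih => exact ih.tail ⟨h2.1, h1.tail h2⟩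

theorem step {d : ℕ} {X : Set (Site d)} {x u v : Site d} (hj : Joins X x u) (hs : St u v)
    (hv : v ∈ X) : Joins X x v := hj.tail ⟨hs, hv⟩

theorem conn_univ (hO : T_OUT) (hL : T_LATB) (d : ℕ) (hd : 2 ≤ d) :
    Conn (Set.univ : Set (Site d)) := by
  have h := hO d 0 false hd
  have he : ((reg d 0 false : Finset (Site d)) : Set (Site d))ᶜ = Set.univ := by
    rw [Set.compl_univ_iff]
    ext x
    simp only [Finset.mem_coe, Set.mem_empty_iff_false, iff_false]
    intro hx
    obtain ⟨-, -, -, -, hpar, hp0, hbx, -⟩ := hL d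
    classical
    unfold reg at hx
    obtain ⟨hx1, hx2⟩ := Finset.mem_filter.1 hx
    have hx0 : x = 0 := by
      funext i
      have h1 := (hbx 0 x).1 hx1 i
      simpa using h1
    subst hx0
    rcases hx2 with hx2 | hx2
    · exact (hpar 0 false).1 hx2 hp0
    · have h1 := (hbx 0 _).1 (hx2 (⟨0, by omega⟩, true)) ⟨0, by omega⟩
      simp [dv] at h1
  rw [he] at h
  exact h

end REGION_

open REGION_ in
theorem p_REGION : T_OUT → T_LATB → T_REGION := by
  intro hO hL d n b hd I hI hInd h0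
  obtain ⟨hadj, hbip, -, hdv, hpar, hp0, hbx, -, hnb, -, -, -⟩ := hL d
  have hadj' : ∀ x y : Site d, (lattice d).Adj x y ↔ St x y := fun x y => hadj x y
  have hopp : ∀ x y : Site d, St x y → (par b x ↔ ¬ par b y) := fun x y h =>
    hbip b x y ((hadj' x y).2 h)
  set K : Set (Site d) := {y | y ∈ I ∧ ¬ par b y} with hK
  set X0 : Set (Site d) := {y | y ∈ K ∨ ∃ u ∈ K, St u y} with hX0
  have hKX : K ⊆ X0 := fun y hy => Or.inl hy
  have h0X : (0 : Site d) ∈ X0 ∧ ∃ y ∈ K, Joins X0 0 y := by
    rcases h0 with ⟨h1, h2⟩ | ⟨h1, y, hy, hay⟩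
    · have : (0 : Site d) ∈ K := ⟨h1, h2⟩
      exact ⟨hKX this, 0, this, Relation.ReflTransGen.refl⟩
    · have hs : St (0 : Site d) y := (hadj' _ _).1 hay
      have hyK : y ∈ K := ⟨hy, (hopp _ _ hs).1 h1⟩
      refine ⟨Or.inr ⟨y, hyK, st_symm hs⟩, y, hyK, ?_⟩
      exact step Relation.ReflTransGen.refl hs (hKX hyK)
  obtain ⟨h0X, y0, hy0K, hy0J⟩ := h0X
  have hXreg : X0 ⊆ (reg d n b : Set (Site d)) := by
    rintro y (hy | ⟨u, hu, e, rfl⟩)
    · exact hI hy.1
    · exact hnb n b u (hI hu.1) hu.2 e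
  set C : Set (Site d) := {x | Joins X0 0 x} with hC
  have h0C : (0 : Site d) ∈ C := Relation.ReflTransGen.refl
  have hCX : C ⊆ X0 := fun x hx => mem h0X hx
  have hCreg : C ⊆ (reg d n b : Set (Site d)) := hCX.trans hXreg
  obtain ⟨z, hz⟩ : ∃ z : Site d, z ∉ (reg d n b : Set (Site d)) := by
    by_contra hcon
    push Not at hcon
    have hfin : Set.Finite (Set.univ : Set (Site d)) :=
      (Finset.finite_toSet (reg d n b)).subset fun x _ => hcon x
    have hne : Nonempty (Fin d) := ⟨⟨0, by omega⟩⟩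
    exact Set.infinite_univ hfin
  have hzC : z ∉ C := fun h => hz (hCreg h)
  set D : Set (Site d) := {x | Joins Cᶜ z x} with hD
  have hDC : ∀ x ∈ D, x ∉ C := fun x hx => mem (X := Cᶜ) hzC hx
  have hregD : ∀ x, x ∉ (reg d n b : Set (Site d)) → x ∈ D := by
    intro x hx
    exact mono (Set.compl_subset_compl.2 hCreg) (hO d n b hd z hz x hx)
  classical
  set R : Finset (Site d) := (reg d n b).filter fun x => x ∉ D with hR
  have hRD : ∀ x, x ∉ R ↔ x ∈ D := by
    intro x
    rw [hR, Finset.mem_filter, not_and_or, not_not]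
    constructor
    · rintro (h | h)
      · exact hregD x (by simpa using h)
      · exact h
    · exact Or.inr
  have hRc : ((R : Set (Site d)))ᶜ = D := by
    ext x
    rw [Set.mem_compl_iff, Finset.mem_coe, hRD]
  have hCR : ∀ x ∈ C, x ∈ R := by
    intro x hx
    by_contra hcon
    exact hDC x ((hRD x).1 hcon) hx
  have hback : ∀ x y, St x y → y ∈ D → x ∉ C → x ∈ D := fun x y hs hy hx =>
    step (X := Cᶜ) hy (st_symm hs) hx
  have hzD : z ∈ D := Relation.ReflTransGen.refl
  -- every site of `R` is joined to `0`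
  have hJR0 : ∀ x ∈ R, Joins (R : Set (Site d)) x 0 := by
    have hkey : ∀ x, Joins Set.univ x z → x ∈ R → ∃ c ∈ C, Joins (R : Set (Site d)) x c := by
      intro x hx
      refine Relation.ReflTransGen.head_induction_on
        (motive := fun x _ => x ∈ R → ∃ c ∈ C, Joins (R : Set (Site d)) x c) hx ?_ ?_
      · intro hzR
        exact absurd hzR ((hRD z).2 hzD)
      · intro x y hxy _ ih hxR
        by_cases hxC : x ∈ C
        · exact ⟨x, hxC, Relation.ReflTransGen.refl⟩
        · have hyR : y ∈ R := by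
            by_contra hcon
            exact (hRD x).2 (hback x y hxy.1 ((hRD y).1 hcon) hxC) hxR
          obtain ⟨c, hc, hj⟩ := ih hyR
          exact ⟨c, hc, Relation.ReflTransGen.head ⟨hxy.1, hyR⟩ hj⟩
    intro x hx
    obtain ⟨c, hc, hj⟩ := hkey x (conn_univ hO hL d hd x (Set.mem_univ _) z (Set.mem_univ _)) hx
    have h1 : Joins (R : Set (Site d)) 0 c := mono (fun y hy => hCR y hy) (comp hc)
    exact hj.trans (symm (by exact hCR 0 h0C) h1)
  have hconnR : Conn (R : Set (Site d)) := by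
    intro x hx y hy
    exact (hJR0 x hx).trans (symm hy (hJR0 y hy))
  have hconnD : Conn D := by
    intro x hx y hy
    have h1 : Joins D z x := comp hx
    have h2 : Joins D z y := comp hy
    exact (symm hzD h1).trans h2
  refine ⟨R, Finset.filter_subset _ _, ⟨hCR 0 h0C, hconnR, ?_⟩, ?_, ?_⟩
  · rw [hRc]
    exact hconnD
  · exact ⟨y0, hCR y0 hy0J, hy0K.2⟩
  · rintro ⟨y, e⟩ hq
    rw [bdry, Finset.mem_filter] at hq
    obtain ⟨hq1, hq2⟩ := hq
    have hyR : y ∈ R := (Finset.mem_product.1 hq1).1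
    have hvD : y + dv e ∈ D := (hRD _).1 hq2
    have hst : St y (y + dv e) := ⟨e, rfl⟩
    have hyC : y ∈ C := by
      by_contra hcon
      exact (hRD y).2 (hback y _ hst hvD hcon) hyR
    have hvC : y + dv e ∉ C := hDC _ hvD
    have hvX : y + dv e ∉ X0 := fun h => hvC (step (X := X0) hyC hst h)
    rcases hCX hyC with hyK | ⟨u, huK, hus⟩
    · exact absurd (Or.inr ⟨y, hyK, hst⟩) hvX
    · have hpy : par b y := by
        by_contra hcon
        exact huK.2 ((hopp _ _ hus).2 hcon)
      refine ⟨hpy, ?_, ?_⟩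
      · intro hyI
        exact hInd u huK.1 y hyI ((hadj' _ _).2 hus)
      · intro hvI
        exact hvX (hKX ⟨hvI, (hopp _ _ hst).1 hpy⟩)

end Pool.Agent.TRH
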