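import Pool.Agent.TRH.T2

/-!
# Trap in dimension at least three: the rotation is a permutation (ROT)
-/

set_option autoImplicit false

open MeasureTheory Pool.Agent.TRP

noncomputable section

namespace Pool.Agent.TRH

namespace ROT_

theorem dv_self {d : ℕ} (e : Fin d × Bool) : dv e e.1 = 1 ∨ dv e e.1 = -1 := by
  unfold dv
  split_ifs with h
  · left
    simp
  · right
    simp

theorem coord {d : ℕ} (e : Fin d × Bool) (x : Site d) (k : ℕ) :
    (x + k • dv e) e.1 = x e.1 + k * dv e e.1 := by
  simp

theorem inj_add {d : ℕ} (e : Fin d × Bool) (x : Site d) {j k : ℕ}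
    (h : x + j • dv e = x + k • dv e) : j = k := by
  have h1 := congrFun h e.1
  rw [coord, coord] at h1
  rcases dv_self e with h2 | h2 <;> rw [h2] at h1 <;> omega

theorem inj_sub {d : ℕ} (e : Fin d × Bool) (x : Site d) {j k : ℕ}
    (h : x - j • dv e = x - k • dv e) : j = k := by
  have h1 : j • dv e = k • dv e := by
    have := congrArg (fun y => x - y) h
    simpa using this
  exact inj_add e x (by rw [h1])

theorem exists_sub {d : ℕ} (R : Finset (Site d)) (e : Fin d × Bool) (x : Site d) :
    ∃ k : ℕ, x - (k + 1) • dv e ∉ R := by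
  by_contra hc
  push Not at hc
  refine not_injective_infinite_finite
    (fun k : ℕ => (⟨x - (k + 1) • dv e, hc k⟩ : {y // y ∈ R})) fun j k h => ?_
  have h1 := inj_sub e x (Subtype.ext_iff.1 h)
  omega

theorem exists_add {d : ℕ} (R : Finset (Site d)) (e : Fin d × Bool) (x : Site d) :
    ∃ k : ℕ, x + (k + 1) • dv e ∉ R := by
  by_contra hc
  push Not at hc
  refine not_injective_infinite_finite
    (fun k : ℕ => (⟨x + (k + 1) • dv e, hc k⟩ : {y // y ∈ R})) fun j k h => ?_
  have h1 := inj_add e x (Subtype.ext_iff.1 h)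
  omega

theorem back_out {d : ℕ} (R : Finset (Site d)) (e : Fin d × Bool) (x : Site d) :
    x - (back R e x + 1) • dv e ∉ R :=
  Nat.sInf_mem (s := {k : ℕ | x - (k + 1) • dv e ∉ R}) (exists_sub R e x)

theorem back_in {d : ℕ} {R : Finset (Site d)} {e : Fin d × Bool} {x : Site d} (hx : x ∈ R)
    {j : ℕ} (hj : j ≤ back R e x) : x - j • dv e ∈ R := by
  rcases Nat.eq_zero_or_pos j with rfl | h0
  · simpa using hx
  · have h1 : j - 1 < sInf {k : ℕ | x - (k + 1) • dv e ∉ R} := by
      have : j ≤ sInf {k : ℕ | x - (k + 1) • dv e ∉ R} := hj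
      omega
    have h2 := Nat.notMem_of_lt_sInf h1
    rw [Set.mem_ofPred_eq, not_not] at h2
    rwa [Nat.sub_add_cancel h0] at h2

theorem back_eq {d : ℕ} {R : Finset (Site d)} {e : Fin d × Bool} {x : Site d} {k : ℕ}
    (h : x - (k + 1) • dv e ∉ R) (h' : ∀ j < k, x - (j + 1) • dv e ∈ R) : back R e x = k := by
  apply le_antisymm
  · exact Nat.sInf_le h
  · by_contra hc
    push Not at hc
    exact back_out R e x (h' _ hc)

theorem rot_out {d : ℕ} {R : Finset (Site d)} {e : Fin d × Bool} {x : Site d} (hx : x ∉ R) :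
    rot R e x = x := by
  rw [rot, if_neg hx]

theorem rot_in {d : ℕ} {R : Finset (Site d)} {e : Fin d × Bool} {x : Site d} (hx : x ∈ R)
    (h : x + dv e ∈ R) : rot R e x = x + dv e := by
  rw [rot, if_pos hx, if_pos h]

theorem rot_last {d : ℕ} {R : Finset (Site d)} {e : Fin d × Bool} {x : Site d} (hx : x ∈ R)
    (h : x + dv e ∉ R) : rot R e x = x - back R e x • dv e := by
  rw [rot, if_pos hx, if_neg h]

theorem rot_mem {d : ℕ} (R : Finset (Site d)) (e : Fin d × Bool) (x : Site d) :
    rot R e x ∈ R ↔ x ∈ R := by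
  by_cases hx : x ∈ R
  · refine ⟨fun _ => hx, fun _ => ?_⟩
    by_cases h : x + dv e ∈ R
    · rwa [rot_in hx h]
    · rw [rot_last hx h]
      exact back_in hx le_rfl
  · rw [rot_out hx]

theorem last_sub {d : ℕ} {R : Finset (Site d)} {e : Fin d × Bool} {x : Site d} (hx : x ∈ R)
    (h : x + dv e ∉ R) : rot R e x - dv e ∉ R := by
  rw [rot_last hx h]
  have h1 := back_out R e x
  rwa [add_smul, one_smul, ← sub_sub] at h1

theorem aux {d : ℕ} {R : Finset (Site d)} {e : Fin d × Bool} {x x' : Site d} (hx : x ∈ R)
    (hx' : x' ∈ R) (h : x + dv e ∉ R) (h' : x' + dv e ∉ R)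
    (heq : rot R e x = rot R e x') : ¬ back R e x < back R e x' := by
  intro hlt
  rw [rot_last hx h, rot_last hx' h'] at heq
  obtain ⟨m, hm⟩ := Nat.exists_eq_add_of_lt hlt
  have h1 : x' - m • dv e = x + dv e := by
    have h2 : x' = x - back R e x • dv e + back R e x' • dv e := by
      rw [heq]
      simp
    rw [h2, hm, add_smul, add_smul, one_smul]
    abel
  have h3 := back_in (e := e) hx' (j := m) (by omega)
  rw [h1] at h3
  exact h h3

theorem rot_inj {d : ℕ} (R : Finset (Site d)) (e : Fin d × Bool) :
    Function.Injective (rot R e) := by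
  intro x x' heq
  by_cases hx : x ∈ R
  · have hx' : x' ∈ R := by
      rw [← rot_mem R e, ← heq, rot_mem]
      exact hx
    by_cases h : x + dv e ∈ R
    · by_cases h' : x' + dv e ∈ R
      · rw [rot_in hx h, rot_in hx' h'] at heq
        exact add_right_cancel heq
      · exfalso
        have h1 := last_sub hx' h'
        rw [← heq, rot_in hx h, add_sub_cancel_right] at h1
        exact h1 hx
    · by_cases h' : x' + dv e ∈ R
      · exfalso
        have h1 := last_sub hx h
        rw [heq, rot_in hx' h', add_sub_cancel_right] at h1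
        exact h1 hx'
      · have h1 := aux hx hx' h h' heq
        have h2 := aux hx' hx h' h heq.symm
        have h3 : back R e x = back R e x' := by omega
        rw [rot_last hx h, rot_last hx' h', h3] at heq
        exact sub_left_injective heq
  · have hx' : x' ∉ R := by
      rw [← rot_mem R e, ← heq, rot_mem]
      exact hx
    rwa [rot_out hx, rot_out hx'] at heq

theorem rot_surj {d : ℕ} (R : Finset (Site d)) (e : Fin d × Bool) :
    Function.Surjective (rot R e) := by
  intro y
  by_cases hy : y ∈ R
  · by_cases h : y - dv e ∈ R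
    · exact ⟨y - dv e, by rw [rot_in h (by simpa using hy), sub_add_cancel]⟩
    · classical
      have hex := exists_add R e y
      set k := Nat.find hex with hk
      have h1 : y + (k + 1) • dv e ∉ R := Nat.find_spec hex
      have h2 : ∀ j ≤ k, y + j • dv e ∈ R := by
        intro j hj
        rcases Nat.eq_zero_or_pos j with rfl | h0
        · simpa using hy
        · have h3 := Nat.find_min hex (m := j - 1) (by omega)
          rw [not_not, Nat.sub_add_cancel h0] at h3
          exact h3
      refine ⟨y + k • dv e, ?_⟩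
      have h4 : back R e (y + k • dv e) = k := by
        apply back_eq
        · rw [add_smul, one_smul]
          have : y + k • dv e - (k • dv e + dv e) = y - dv e := by abel
          rwa [this]
        · intro j hj
          obtain ⟨m, hm⟩ := Nat.exists_eq_add_of_lt hj
          have : y + k • dv e - (j + 1) • dv e = y + m • dv e := by
            rw [hm, add_smul, add_smul, add_smul, one_smul]
            abel
          rw [this]
          exact h2 m (by omega)
      rw [rot_last (h2 k le_rfl) (by
        rw [add_assoc, ← succ_nsmul]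
        exact h1), h4, add_sub_cancel_right]
  · exact ⟨y, rot_out hy⟩

end ROT_

theorem p_ROT : T_ROT := by
  intro d R e
  refine ⟨⟨Equiv.ofBijective _ ⟨ROT_.rot_inj R e, ROT_.rot_surj R e⟩, fun x => rfl⟩,
    ROT_.rot_mem R e, fun x hx => ROT_.rot_out hx, fun x hx h => ROT_.rot_in hx h,
    fun x hx h => ⟨ROT_.last_sub hx h, back R e x, ROT_.rot_last hx h, fun j hj =>
      ROT_.back_in hx hj⟩, fun F A hR hA => ⟨?_, ?_⟩⟩
  · intro y hy
    obtain ⟨x, hx, rfl⟩ := Finset.mem_image.1 hy
    by_cases h : x ∈ R
    · exact hR ((ROT_.rot_mem R e x).2 h)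
    · rw [ROT_.rot_out h]
      exact hA hx
  · exact Finset.card_image_of_injective _ (ROT_.rot_inj R e)

end Pool.Agent.TRH
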