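import Pool.Agent.TRH.T1
import Pool.Agent.TRH.T2
import Pool.Agent.TRH.T4

/-!
# TRH ROTP: two rotated environments
-/

set_option autoImplicit false

open Pool.Agent.TRP

noncomputable section

namespace Pool.Agent.TRH

namespace ROTP_

theorem ev_mul {V : Type} (F : Finset V) (p c : ℝ) (f : Finset V → ℝ) :
    (ev F p fun A => c * f A) = c * ev F p f := by
  unfold ev
  rw [Finset.mul_sum]
  exact Finset.sum_congr rfl fun A _ => by ring

theorem ev_sub {V : Type} (F : Finset V) (p : ℝ) (f g : Finset V → ℝ) :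
    (ev F p fun A => f A - g A) = ev F p f - ev F p g := by
  unfold ev
  rw [← Finset.sum_sub_distrib]
  exact Finset.sum_congr rfl fun A _ => by ring

theorem ins (hLATT : T_LATT) {V : Type} [DecidableEq V] (G : SimpleGraph V) (L X : Finset V)
    (y : V) : (alpha G (L \ insert y X) : ℝ) ≤ alpha G (L \ X) ∧
      (alpha G (L \ X) : ℝ) ≤ alpha G (L \ insert y X) + 1 := by
  obtain ⟨-, -, h3, h4, -⟩ := hLATT V G
  have h1 : alpha G (L \ insert y X) ≤ alpha G (L \ X) :=
    h3 _ _ (Finset.sdiff_subset_sdiff (Finset.Subset.refl L) (Finset.subset_insert y X))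
  have h2 := h4 (L \ X) (L \ insert y X)
  have h5 : ((L \ X) \ (L \ insert y X)).card ≤ 1 := by
    have h6 : (L \ X) \ (L \ insert y X) ⊆ {y} := by
      intro w hw
      rw [Finset.mem_sdiff, Finset.mem_sdiff, Finset.mem_sdiff, Finset.mem_insert] at hw
      rw [Finset.mem_singleton]
      by_contra hc
      exact hw.2 ⟨hw.1.1, fun h => h.elim hc hw.1.2⟩
    have h7 := Finset.card_le_card h6
    rwa [Finset.card_singleton] at h7
  refine ⟨by exact_mod_cast h1, ?_⟩
  have h8 : alpha G (L \ X) ≤ alpha G (L \ insert y X) + 1 := by omega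
  exact_mod_cast h8

end ROTP_

theorem p_ROTP : T_LATT → T_ROT → T_SUPP → T_PRB → T_EXPM → T_ROTP := by
  classical
  intro hLATT hROT hSUPP hPRB hEXPM d L F U U' e p z t hU hU' hp0 hp1 hz
  obtain ⟨⟨σ, hσ⟩, hσ1, hσ2, -⟩ := hROT d U e
  obtain ⟨⟨σ', hσ'⟩, hσ1', hσ2', -⟩ := hROT d U' e
  have hF : ∀ x, σ x ∈ F ↔ x ∈ F := by
    intro x
    rw [hσ]
    by_cases hx : x ∈ U
    · exact ⟨fun _ => hU hx, fun _ => hU ((hσ1 x).2 hx)⟩
    · rw [hσ2 x hx]
  have hF' : ∀ x, σ' x ∈ F ↔ x ∈ F := by
    intro x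
    rw [hσ']
    by_cases hx : x ∈ U'
    · exact ⟨fun _ => hU' hx, fun _ => hU' ((hσ1' x).2 hx)⟩
    · rw [hσ2' x hx]
  obtain ⟨τ, hτ⟩ : ∃ τ : Equiv.Perm (Site d), ∀ x, τ x = σ (σ'.symm x) :=
    ⟨σ'.symm.trans σ, fun x => rfl⟩
  have hτF : ∀ x, τ x ∈ F ↔ x ∈ F := by
    intro x
    rw [hτ, hF, ← hF' (σ'.symm x), Equiv.apply_symm_apply]
  set α : Finset (Site d) → ℝ := fun X => (alpha (lattice d) (L \ X) : ℝ) with hα
  set g : Finset (Site d) → ℝ := fun B => Real.exp (z * (α (B.image τ) - α B - t)) with hg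
  set S : Finset (Site d) := F.filter fun x => τ x ≠ x with hS
  have hτS : ∀ x, τ x ∈ S ↔ x ∈ S := by
    intro x
    rw [hS, Finset.mem_filter, Finset.mem_filter, hτF]
    refine and_congr_right fun _ => not_congr ⟨fun h => τ.injective h, fun h => by rw [h, h]⟩
  have step1 : pr F p (fun A => t ≤ (alpha (lattice d) (L \ A.image (rot U e)) : ℝ) -
      alpha (lattice d) (L \ A.image (rot U' e))) ≤ ev F p fun A => g (A.image σ') := by
    rw [(hPRB (Site d) F p).2.1]
    refine (hPRB (Site d) F p).2.2.1 hp0 hp1 _ _ fun A _ => ?_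
    have h1 : (A.image σ').image τ = A.image (rot U e) := by
      rw [Finset.image_image]
      refine Finset.image_congr fun x _ => ?_
      simp only [Function.comp_apply]
      rw [hτ, Equiv.symm_apply_apply, hσ]
    have h2 : A.image σ' = A.image (rot U' e) := Finset.image_congr fun x _ => hσ' x
    simp only [hg, h1]
    rw [h2]
    split_ifs with h
    · refine Real.one_le_exp (mul_nonneg hz ?_)
      simp only [hα]
      linarith
    · exact (Real.exp_pos _).le
  have step2 : (ev F p fun A => g (A.image σ')) = ev F p g :=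
    (hPRB (Site d) F p).2.2.2.2.2.2.1 σ' g hF'
  have hFS : S ∪ (F \ S) = F := by
    rw [Finset.union_sdiff_of_subset]
    exact Finset.filter_subset _ _
  have step3 : ev F p g = ev (F \ S) p fun B => ev S p fun C => g (B ∪ C) := by
    have h1 := (hPRB (Site d) F p).2.2.2.2.1 S (F \ S) g Finset.disjoint_sdiff
    rwa [hFS] at h1
  have hcard : (S.card : ℝ) ≤ 3 * (symmDiff U U').card := by
    have h1 : S.card ≤ (F.filter fun x => rot U e x ≠ rot U' e x).card := by
      refine Finset.card_le_card_of_injOn (fun x => σ'.symm x) ?_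
        (fun a _ b _ h => σ'.symm.injective h)
      intro x hx
      rw [Finset.mem_coe, hS, Finset.mem_filter] at hx
      rw [Finset.mem_coe, Finset.mem_filter]
      refine ⟨(hF' _).1 (by rw [Equiv.apply_symm_apply]; exact hx.1), fun hc => hx.2 ?_⟩
      rw [hτ, hσ, hc, ← hσ', Equiv.apply_symm_apply]
    have h2 := hSUPP d U U' F e
    exact_mod_cast h1.trans h2
  have step4 : ∀ B, B ⊆ F \ S → (ev S p fun C => g (B ∪ C)) ≤
      Real.exp (-z * t + 6 * p * z ^ 2 * Real.exp (2 * z) * (symmDiff U U').card) := by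
    intro B hB
    have hBτ : B.image τ = B := by
      have h1 : B.image τ = B.image id := by
        refine Finset.image_congr fun x hx => ?_
        have h2 := Finset.mem_sdiff.1 (hB (Finset.mem_coe.1 hx))
        rw [hS, Finset.mem_filter] at h2
        by_contra hc
        exact h2.2 ⟨h2.1, hc⟩
      rw [h1, Finset.image_id]
    set h : Finset (Site d) → ℝ := fun C => α (B ∪ C.image τ) - α (B ∪ C) with hh
    have hmean : ev S p h = 0 := by
      have h1 := (hPRB (Site d) S p).2.2.2.2.2.2.1 τ (fun C => α (B ∪ C)) hτS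
      simp only [hh]
      rw [ROTP_.ev_sub S p (fun C => α (B ∪ C.image τ)) (fun C => α (B ∪ C)), h1, sub_self]
    have hlip : ∀ A, A ⊆ S → ∀ x ∈ S, x ∉ A → |h (insert x A) - h A| ≤ 2 := by
      intro A _ x _ _
      have h1 := ROTP_.ins hLATT (lattice d) L (B ∪ A.image τ) (τ x)
      have h2 := ROTP_.ins hLATT (lattice d) L (B ∪ A) x
      simp only [hh, hα]
      rw [Finset.image_insert, Finset.union_insert, Finset.union_insert, abs_le]
      constructor <;> linarith [h1.1, h1.2, h2.1, h2.2]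
    have hex := hEXPM (Site d) S h hlip p z hp0 hp1
    rw [hmean] at hex
    have heq : (ev S p fun C => g (B ∪ C)) =
        Real.exp (-z * t) * ev S p fun C => Real.exp (z * (h C - 0)) := by
      rw [← ROTP_.ev_mul]
      congr 1
      funext C
      simp only [hg, hh]
      rw [Finset.image_union, hBτ, ← Real.exp_add]
      congr 1
      ring
    rw [heq, Real.exp_add]
    refine mul_le_mul_of_nonneg_left (hex.trans ?_) (Real.exp_pos _).le
    rw [Real.exp_le_exp, abs_of_nonneg hz]
    have h3 : 0 ≤ 2 * p * z ^ 2 * Real.exp (2 * z) := by positivity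
    calc 2 * p * z ^ 2 * Real.exp (2 * z) * S.card
        ≤ 2 * p * z ^ 2 * Real.exp (2 * z) * (3 * (symmDiff U U').card) :=
          mul_le_mul_of_nonneg_left hcard h3
      _ = 6 * p * z ^ 2 * Real.exp (2 * z) * (symmDiff U U').card := by ring
  refine step1.trans (le_of_eq_of_le (step2.trans step3) ?_)
  refine ((hPRB (Site d) (F \ S) p).2.2.1 hp0 hp1 _
    (fun _ => Real.exp (-z * t + 6 * p * z ^ 2 * Real.exp (2 * z) * (symmDiff U U').card) * 1)
    fun B hB => ?_).trans (le_of_eq ?_)
  · simp only [mul_one]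
    exact step4 B hB
  · rw [ROTP_.ev_mul (F \ S) p _ fun _ => 1, (hPRB (Site d) (F \ S) p).1, mul_one]

end Pool.Agent.TRH
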