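import Pool.Agent.TRH.T1
import Pool.Agent.TRH.T2

/-!
# STEP0: the origin decided for the scarce side gives a region with a gain
-/

set_option autoImplicit false

open MeasureTheory Pool.Agent.TRP

noncomputable section

namespace Pool.Agent.TRH

theorem STEP0_true (hL : T_LATT) (hB : T_LATB) (d n : ℕ) (A : Finset (Site d))
    (h0 : (0 : Site d) ∉ A) (h : Ess (lattice d) (reg d n true \ A) 0) :
    ∃ I, MaxInd (lattice d) (reg d n true \ A) I ∧ ∃ y ∈ I, (lattice d).Adj 0 y := by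
  obtain ⟨hex, hle, -, -, -⟩ := hL (Site d) (lattice d)
  obtain ⟨-, -, -, -, -, -, -, -, -, hz, -, -⟩ := hB d
  set S := reg d n true \ A with hS
  obtain ⟨I, hI1, hI2, hI3⟩ := hex (S.erase 0)
  have h0S : (0 : Site d) ∈ S := by
    rw [hS]; exact Finset.mem_sdiff.2 ⟨hz n, h0⟩
  have h0I : (0 : Site d) ∉ I := fun h' => absurd (hI1 h') (Finset.notMem_erase _ _)
  have hIS : I ⊆ S := hI1.trans (Finset.erase_subset _ _)
  have hcard : I.card = alpha (lattice d) S := by
    rw [hI3]; exact h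
  refine ⟨I, ⟨hIS, hI2, hcard⟩, ?_⟩
  by_contra hno
  push Not at hno
  have hind : Ind (lattice d) (insert 0 I) := by
    intro x hx y hy hadj
    rcases Finset.mem_insert.1 hx with rfl | hx
    · rcases Finset.mem_insert.1 hy with rfl | hy
      · exact (lattice d).irrefl hadj
      · exact hno y hy hadj
    · rcases Finset.mem_insert.1 hy with rfl | hy
      · exact hno x hx hadj.symm
      · exact hI2 x hx y hy hadj
  have := hle S (insert 0 I) (Finset.insert_subset h0S hIS) hind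
  rw [Finset.card_insert_of_notMem h0I] at this
  omega

theorem STEP0_false (hL : T_LATT) (d n : ℕ) (A : Finset (Site d))
    (h : ¬ Ess (lattice d) (reg d n false \ A) 0) :
    ∃ I, MaxInd (lattice d) (reg d n false \ A) I ∧ (0 : Site d) ∈ I := by
  obtain ⟨hex, hle, hmono, -, -⟩ := hL (Site d) (lattice d)
  obtain ⟨I, hI1, hI2, hI3⟩ := hex (reg d n false \ A)
  refine ⟨I, ⟨hI1, hI2, hI3⟩, ?_⟩
  by_contra h0
  apply h
  have h1 : I ⊆ (reg d n false \ A).erase 0 := fun x hx =>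
    Finset.mem_erase.2 ⟨fun hx0 => h0 (hx0 ▸ hx), hI1 hx⟩
  have h2 := hle _ I h1 hI2
  have h3 := hmono ((reg d n false \ A).erase 0) (reg d n false \ A) (Finset.erase_subset _ _)
  unfold Ess
  omega

theorem p_STEP0 : T_LATT → T_LATB → T_REGION → T_GAIN → T_STEP0 := by
  intro hL hB hR hG d n b A hd h0 h
  have key : ∃ I, MaxInd (lattice d) (reg d n b \ A) I ∧
      ((0 ∈ I ∧ ¬ par b (0 : Site d)) ∨
        (par b (0 : Site d) ∧ ∃ y ∈ I, (lattice d).Adj 0 y)) := by
    obtain ⟨-, -, -, -, hp, hp0, -⟩ := hB d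
    rcases h with ⟨rfl, h⟩ | ⟨rfl, h⟩
    · obtain ⟨I, hI, hy⟩ := STEP0_true hL hB d n A h0 h
      exact ⟨I, hI, Or.inr ⟨hp0, hy⟩⟩
    · obtain ⟨I, hI, hy⟩ := STEP0_false hL d n A h
      refine ⟨I, hI, Or.inl ⟨hy, ?_⟩⟩
      have := (hp 0 true).1 hp0
      simpa using this
  obtain ⟨I, hI, hI'⟩ := key
  obtain ⟨R, hR1, hR2, hR3, hR4⟩ := hR d n b hd I (hI.1.trans Finset.sdiff_subset) hI.2.1 hI'
  exact ⟨R, hR1, hR2, hR3, fun q hq => (hR4 q hq).1, hG d b _ A R I hI hR1 hR4⟩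

end Pool.Agent.TRH
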