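import Pool.Agent.TRH.T1
import Pool.Agent.TRH.T2

/-!
# Trap in dimension at least three: the region is large (STEP1)
-/

set_option autoImplicit false

open MeasureTheory Pool.Agent.TRP

noncomputable section

namespace Pool.Agent.TRH

namespace STEP1_

theorem maxInd_erase {V : Type} [DecidableEq V] {G : SimpleGraph V} {S I : Finset V} {x : V}
    (h : Ess G S x) (hI : MaxInd G (S.erase x) I) : MaxInd G S I ∧ x ∉ I := by
  obtain ⟨h1, h2, h3⟩ := hI
  refine ⟨⟨fun y hy => Finset.mem_of_mem_erase (h1 hy), h2, ?_⟩, ?_⟩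
  · rw [h3]
    exact h
  · intro hx
    exact (Finset.mem_erase.1 (h1 hx)).1 rfl

theorem ess_of_maxInd (h1 : T_LATT) {V : Type} [DecidableEq V] {G : SimpleGraph V}
    {S I : Finset V} {x : V} (hI : MaxInd G S I) (hx : x ∉ I) : Ess G S x := by
  obtain ⟨_, h2, h3, _⟩ := h1 V G
  obtain ⟨a1, a2, a3⟩ := hI
  refine le_antisymm (h3 _ _ (Finset.erase_subset _ _)) ?_
  rw [← a3]
  refine h2 _ _ ?_ a2
  intro y hy
  refine Finset.mem_erase.2 ⟨?_, a1 hy⟩
  rintro rfl
  exact hx hy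

theorem exists_adj (h1 : T_LATT) {V : Type} [DecidableEq V] {G : SimpleGraph V}
    {S I : Finset V} {x : V} (hI : MaxInd G S I) (hx : x ∉ I) (hxS : x ∈ S) :
    ∃ y ∈ I, G.Adj x y := by
  by_contra hcon
  push Not at hcon
  obtain ⟨_, h2, _, _⟩ := h1 V G
  obtain ⟨a1, a2, a3⟩ := hI
  have h4 : (insert x I).card ≤ alpha G S := by
    refine h2 _ _ ?_ ?_
    · intro y hy
      rcases Finset.mem_insert.1 hy with rfl | hy
      · exact hxS
      · exact a1 hy
    · intro y hy z hz hyz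
      rcases Finset.mem_insert.1 hy with hy' | hy'
      · rw [hy'] at hyz
        rcases Finset.mem_insert.1 hz with hz' | hz'
        · rw [hz'] at hyz
          exact G.loopless.irrefl _ hyz
        · exact hcon z hz' hyz
      · rcases Finset.mem_insert.1 hz with hz' | hz'
        · rw [hz'] at hyz
          exact hcon y hy' hyz.symm
        · exact a2 y hy' z hz' hyz
  rw [Finset.card_insert_of_notMem hx, a3] at h4
  omega

theorem far (hB : T_LATB) (d n : ℕ) (b : Bool) (R : Finset (Site d))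
    (hb : ∀ q ∈ bdry R, par b q.1) (hR : ¬ R ⊆ reg d n b) :
    ∃ y ∈ R, ∃ i, ((n + 1 : ℕ) : ℤ) ≤ |y i| := by
  obtain ⟨_, _, _, _, _, _, hbx, _, _, _, _, _⟩ := hB d
  obtain ⟨x, hxR, hx⟩ := Finset.not_subset.1 hR
  have key : ∀ y ∈ R, y ∉ bx d n → ∃ y ∈ R, ∃ i, ((n + 1 : ℕ) : ℤ) ≤ |y i| := by
    intro y hy hyb
    rw [hbx n y] at hyb
    push Not at hyb
    obtain ⟨i, hi⟩ := hyb
    refine ⟨y, hy, i, ?_⟩
    push_cast
    omega
  by_cases hxb : x ∈ bx d n
  · have h1 : ¬ (par b x ∨ ∀ e, x + dv e ∈ bx d n) := by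
      intro h
      apply hx
      simp only [reg, Finset.mem_filter]
      exact ⟨hxb, h⟩
    push Not at h1
    obtain ⟨h2, e, he⟩ := h1
    refine key (x + dv e) ?_ he
    by_contra hcon
    apply h2
    exact hb (x, e) (Finset.mem_filter.2 ⟨Finset.mem_product.2 ⟨hxR, Finset.mem_univ _⟩, hcon⟩)
  · exact key x hxR hxb

end STEP1_

open STEP1_ in
theorem p_STEP1 : T_LATT → T_LATB → T_REGION → T_GAIN → T_EXCH → T_RADIUS → T_STEP1 := by
  intro hL hB hReg hG hE hRad d n n' b A hd hnn hA hcase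
  obtain ⟨hadj, _, _, _, hpar, hpar0, _, hmono, _, h0t, h0f, _⟩ := hB d
  -- the maximum independent set of the large region
  have hSS : reg d n b \ A ⊆ reg d n' b \ A :=
    Finset.sdiff_subset_sdiff (hmono n n' b hnn).1 (le_refl _)
  have main : ∀ I : Finset (Site d), MaxInd (lattice d) (reg d n' b \ A) I →
      ((0 ∈ I ∧ ¬ par b (0 : Site d)) ∨
        (par b (0 : Site d) ∧ ∃ y ∈ I, (lattice d).Adj 0 y)) →
      (∀ R : Finset (Site d), (0 : Site d) ∈ R → R ⊆ reg d n b →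
        (∀ u ∈ R, ∀ v, v ∉ R → (lattice d).Adj u v → u ∉ I ∧ v ∉ I) → False) →
      ∃ R, R ⊆ reg d n' b ∧ Good R ∧ n + 1 ≤ (bdry R).card ∧ Gain (reg d n' b) A R := by
    intro I hI h0 hno
    have hIr : I ⊆ reg d n' b := fun x hx => (Finset.mem_sdiff.1 (hI.1 hx)).1
    obtain ⟨R, r1, r2, r3, r4⟩ := hReg d n' b hd I hIr hI.2.1 h0
    refine ⟨R, r1, r2, ?_, hG d b _ A R I hI r1 r4⟩
    have hnot : ¬ R ⊆ reg d n b := by
      intro hsub
      refine hno R r2.1 hsub ?_
      intro u hu v hv huv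
      obtain ⟨e, rfl⟩ := (hadj u v).1 huv
      have := r4 (u, e) (Finset.mem_filter.2 ⟨Finset.mem_product.2 ⟨hu, Finset.mem_univ _⟩, hv⟩)
      exact this.2
    obtain ⟨y, hy, i, hi⟩ := far hB d n b R (fun q hq => (r4 q hq).1) hnot
    have := hRad d R i (n + 1) hd r2.1 r2.2.1 ⟨y, hy, hi⟩
    omega
  rcases hcase with ⟨rfl, he, hne⟩ | ⟨rfl, hne, he⟩
  · obtain ⟨I, hI⟩ := (hL (Site d) (lattice d)).1 ((reg d n' true \ A).erase 0)
    obtain ⟨hI1, hI0⟩ := maxInd_erase he hI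
    have h0S : (0 : Site d) ∈ reg d n' true \ A := Finset.mem_sdiff.2 ⟨h0t n', hA⟩
    refine main I hI1 (Or.inr ⟨hpar0, exists_adj hL hI1 hI0 h0S⟩) ?_
    intro R h0R hR hbd
    obtain ⟨J, hJ⟩ := (hL (Site d) (lattice d)).1 (reg d n true \ A)
    have hSR : (reg d n' true \ A) ∩ R ⊆ reg d n true \ A := by
      intro x hx
      obtain ⟨hx1, hx2⟩ := Finset.mem_inter.1 hx
      exact Finset.mem_sdiff.2 ⟨hR hx2, (Finset.mem_sdiff.1 hx1).2⟩
    have h2 := (hE (Site d) (lattice d) (reg d n true \ A) (reg d n' true \ A) R I J hSS hSR hI1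
      hJ hbd).2
    apply hne
    refine ess_of_maxInd hL h2 ?_
    intro h0
    rcases Finset.mem_union.1 h0 with h0 | h0
    · exact (Finset.mem_sdiff.1 h0).2 h0R
    · exact hI0 (Finset.mem_inter.1 h0).1
  · obtain ⟨I, hI⟩ := (hL (Site d) (lattice d)).1 (reg d n' false \ A)
    have h0I : (0 : Site d) ∈ I := by
      by_contra h
      exact hne (ess_of_maxInd hL hI h)
    have hnp : ¬ par false (0 : Site d) := by
      have := (hpar 0 true).1 hpar0
      exact this
    refine main I hI (Or.inl ⟨h0I, hnp⟩) ?_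
    intro R h0R hR hbd
    obtain ⟨J, hJ⟩ := (hL (Site d) (lattice d)).1 ((reg d n false \ A).erase 0)
    obtain ⟨hJ1, hJ0⟩ := maxInd_erase he hJ
    have hSR : (reg d n' false \ A) ∩ R ⊆ reg d n false \ A := by
      intro x hx
      obtain ⟨hx1, hx2⟩ := Finset.mem_inter.1 hx
      exact Finset.mem_sdiff.2 ⟨hR hx2, (Finset.mem_sdiff.1 hx1).2⟩
    have h2 := (hE (Site d) (lattice d) (reg d n false \ A) (reg d n' false \ A) R I J hSS hSR hI
      hJ1 hbd).1
    apply hne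
    refine ess_of_maxInd hL h2 ?_
    intro h0
    rcases Finset.mem_union.1 h0 with h0 | h0
    · exact (Finset.mem_sdiff.1 h0).2 h0R
    · exact hJ0 (Finset.mem_inter.1 h0).1

end Pool.Agent.TRH
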