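import Pool.Agent.TRH.T2

/-!
# Trap in dimension at least three: SUPP (two rotations differ in few sites)
-/

set_option autoImplicit false

open MeasureTheory Pool.Agent.TRP

noncomputable section

namespace Pool.Agent.TRH

namespace SUPP_

theorem dv_ne {d : ℕ} (e : Fin d × Bool) : (dv e : Site d) e.1 ≠ 0 := by
  unfold dv
  split_ifs <;> simp

theorem smul_inj {d : ℕ} (e : Fin d × Bool) {k k' : ℕ}
    (h : k • (dv e : Site d) = k' • dv e) : k = k' := by
  have h1 := congrFun h e.1
  simp only [Pi.smul_apply, nsmul_eq_mul] at h1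
  exact_mod_cast mul_right_cancel₀ (dv_ne e) h1

theorem exists_out {d : ℕ} (R : Finset (Site d)) (e : Fin d × Bool) (x : Site d) :
    {k : ℕ | x - (k + 1) • dv e ∉ R}.Nonempty := by
  by_contra h
  have hall : ∀ k : ℕ, x - (k + 1) • dv e ∈ R := by
    intro k
    by_contra hk
    exact h ⟨k, hk⟩
  have hinj : Function.Injective (fun k : ℕ => x - (k + 1) • (dv e : Site d)) := by
    intro k k' hk
    have h1 : (k + 1) • (dv e : Site d) = (k' + 1) • dv e := sub_right_injective hk
    have h2 := smul_inj e h1
    omega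
  exact (Set.infinite_of_injective_forall_mem hinj hall) R.finite_toSet

theorem back_out {d : ℕ} (R : Finset (Site d)) (e : Fin d × Bool) (x : Site d) :
    x - (back R e x + 1) • dv e ∉ R := Nat.sInf_mem (exists_out R e x)

theorem back_in {d : ℕ} (R : Finset (Site d)) (e : Fin d × Bool) (x : Site d) {j : ℕ}
    (h : j < back R e x) : x - (j + 1) • dv e ∈ R := by
  by_contra hj
  exact Nat.notMem_of_lt_sInf h hj

theorem line_in {d : ℕ} {R : Finset (Site d)} {e : Fin d × Bool} {x : Site d} (hx : x ∈ R)
    {j : ℕ} (h : j ≤ back R e x) : x - j • dv e ∈ R := by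
  rcases Nat.eq_zero_or_pos j with rfl | hj
  · simpa using hx
  · obtain ⟨i, rfl⟩ : ∃ i, j = i + 1 := ⟨j - 1, by omega⟩
    exact back_in R e x (by omega)

/-- the first site behind `x` in which the two sets differ -/
def phi {d : ℕ} (R R' : Finset (Site d)) (e : Fin d × Bool) (x : Site d) : Site d :=
  x - (min (back R e x) (back R' e x) + 1) • dv e

/-- the sites of type (c) -/
def C {d : ℕ} (R R' : Finset (Site d)) (e : Fin d × Bool) (x : Site d) : Prop :=
  x ∈ R ∧ x ∈ R' ∧ x + dv e ∉ R ∧ x + dv e ∉ R' ∧ back R e x ≠ back R' e x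

theorem phi_mem {d : ℕ} {R R' : Finset (Site d)} {e : Fin d × Bool} {x : Site d}
    (h : C R R' e x) : phi R R' e x ∈ symmDiff R R' := by
  rw [Finset.mem_symmDiff, phi]
  rcases lt_or_gt_of_ne h.2.2.2.2 with h1 | h1
  · rw [min_eq_left h1.le]
    exact Or.inr ⟨back_in R' e x h1, back_out R e x⟩
  · rw [min_eq_right h1.le]
    exact Or.inl ⟨back_in R e x h1, back_out R' e x⟩

theorem phi_lt {d : ℕ} {R R' : Finset (Site d)} {e : Fin d × Bool} {x y : Site d}
    (hx : C R R' e x) (hy : C R R' e y) (h : phi R R' e x = phi R R' e y)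
    (hlt : min (back R e x) (back R' e x) < min (back R e y) (back R' e y)) : False := by
  set k := min (back R e x) (back R' e x) with hk
  set k' := min (back R e y) (back R' e y) with hk'
  rw [phi, phi, ← hk, ← hk'] at h
  have h1 : x + dv e = y - (k' - k - 1) • dv e := by
    have h2 : (k' + 1) • (dv e : Site d) = (k' - k - 1) • dv e + (k + 1) • dv e + dv e := by
      rw [← add_smul, ← succ_nsmul]
      congr 1
      omega
    have h3 : y = x - (k + 1) • dv e + (k' + 1) • dv e := by
      rw [h]; simp
    rw [h3, h2]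
    abel
  apply hx.2.2.1
  rw [h1]
  exact line_in hy.1 (by omega)

theorem phi_inj {d : ℕ} {R R' : Finset (Site d)} {e : Fin d × Bool} {x y : Site d}
    (hx : C R R' e x) (hy : C R R' e y) (h : phi R R' e x = phi R R' e y) : x = y := by
  rcases lt_trichotomy (min (back R e x) (back R' e x)) (min (back R e y) (back R' e y))
    with h1 | h1 | h1
  · exact (phi_lt hx hy h h1).elim
  · rw [phi, phi, h1] at h
    exact sub_left_injective h
  · exact (phi_lt hy hx h.symm h1).elim

theorem cases_ne {d : ℕ} {R R' : Finset (Site d)} {e : Fin d × Bool} {x : Site d}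
    (h : rot R e x ≠ rot R' e x) :
    x ∈ symmDiff R R' ∨ x + dv e ∈ symmDiff R R' ∨ C R R' e x := by
  by_contra hc
  push Not at hc
  obtain ⟨h1, h2, h3⟩ := hc
  rw [Finset.mem_symmDiff] at h1 h2
  apply h
  unfold rot
  by_cases a : x ∈ R
  · have a' : x ∈ R' := by
      by_contra a'
      exact h1 (Or.inl ⟨a, a'⟩)
    by_cases b : x + dv e ∈ R
    · have b' : x + dv e ∈ R' := by
        by_contra b'
        exact h2 (Or.inl ⟨b, b'⟩)
      simp [a, a', b, b']
    · have b' : x + dv e ∉ R' := by
        intro b'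
        exact h2 (Or.inr ⟨b', b⟩)
      have c : back R e x = back R' e x := by
        by_contra c
        exact h3 ⟨a, a', b, b', c⟩
      simp [a, a', b, b', c]
  · have a' : x ∉ R' := by
      intro a'
      exact h1 (Or.inr ⟨a', a⟩)
    simp [a, a']

end SUPP_

open SUPP_ in
/-- SUPP. -/
theorem p_SUPP : T_SUPP := by
  classical
  intro d R R' F e
  set Dd := symmDiff R R' with hD
  set W := F.filter fun x => C R R' e x with hW
  have hsub : (F.filter fun x => rot R e x ≠ rot R' e x) ⊆
      Dd ∪ (Dd.image fun z => z - dv e) ∪ W := by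
    intro x hx
    rw [Finset.mem_filter] at hx
    simp only [Finset.mem_union, Finset.mem_image]
    rcases cases_ne hx.2 with h1 | h1 | h1
    · exact Or.inl (Or.inl h1)
    · exact Or.inl (Or.inr ⟨x + dv e, h1, by simp⟩)
    · exact Or.inr (Finset.mem_filter.2 ⟨hx.1, h1⟩)
  have hWc : W.card ≤ Dd.card := by
    apply Finset.card_le_card_of_injOn (phi R R' e)
    · intro x hx
      exact phi_mem (Finset.mem_filter.1 hx).2
    · intro x hx y hy hxy
      exact phi_inj (Finset.mem_filter.1 hx).2 (Finset.mem_filter.1 hy).2 hxy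
  have h1 := Finset.card_le_card hsub
  have h2 := Finset.card_union_le (Dd ∪ (Dd.image fun z => z - dv e)) W
  have h3 := Finset.card_union_le Dd (Dd.image fun z => z - dv e)
  have h4 : (Dd.image fun z => z - dv e).card ≤ Dd.card := Finset.card_image_le
  omega

end Pool.Agent.TRH
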