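import Pool.Agent.TRH.T1
import Pool.Agent.TRH.T4

/-!
# Trap in dimension at least three: block THETA
-/

set_option autoImplicit false

open MeasureTheory Pool.Agent.TRP

noncomputable section

namespace Pool.Agent.TRH

namespace THETA_

/-- the closed sites in the box -/
def An {d : ℕ} (ω : Site d → Bool) (n : ℕ) : Finset (Site d) :=
  (bx d n).filter fun x => ω x = true

lemma mem_An {d : ℕ} (ω : Site d → Bool) (n : ℕ) (x : Site d) :
    x ∈ An ω n ↔ x ∈ bx d n ∧ ω x = true := by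
  unfold An
  rw [Finset.mem_filter]

lemma zero_mem {d n : ℕ} : (0 : Site d) ∈ bx d n := by
  unfold bx
  rw [Fintype.mem_piFinset]
  intro i
  rw [Finset.mem_Icc]
  constructor <;> simp

lemma zero_notMem {d : ℕ} (ω : Site d → Bool) (n : ℕ) :
    (0 : Site d) ∉ An ω n ↔ ω 0 = false := by
  rw [mem_An]
  constructor
  · intro h
    by_contra h1
    exact h ⟨zero_mem, by simpa using h1⟩
  · rintro h ⟨-, h1⟩
    rw [h] at h1
    exact Bool.noConfusion h1

lemma bx_mono {d n n' : ℕ} (h : n ≤ n') : bx d n ⊆ bx d n' := by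
  unfold bx
  intro x hx
  rw [Fintype.mem_piFinset] at hx ⊢
  intro i
  have h1 := hx i
  rw [Finset.mem_Icc] at h1 ⊢
  have h2 : (n : ℤ) ≤ n' := by exact_mod_cast h
  omega

open Classical in
lemma reg_sub {d n : ℕ} {b : Bool} : reg d n b ⊆ bx d n := by
  intro x hx
  unfold reg at hx
  rw [Finset.mem_filter] at hx
  exact hx.1

lemma sdiff_eq {d n n' : ℕ} (h : n ≤ n') (b : Bool) (ω : Site d → Bool) :
    reg d n b \ An ω n' = reg d n b \ An ω n := by
  ext x
  simp only [Finset.mem_sdiff, mem_An]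
  constructor
  · rintro ⟨h1, h2⟩
    exact ⟨h1, fun h3 => h2 ⟨bx_mono h h3.1, h3.2⟩⟩
  · rintro ⟨h1, h2⟩
    exact ⟨h1, fun h3 => h2 ⟨reg_sub h1, h3.2⟩⟩

/-- win of the first player -/
def W (d n : ℕ) : Set (Site d → Bool) :=
  {ω | (0 : Site d) ∉ An ω n ∧ Ess (lattice d) (reg d n true \ An ω n) 0}

/-- win of the second player -/
def L (d n : ℕ) : Set (Site d → Bool) :=
  {ω | (0 : Site d) ∉ An ω n ∧ ¬ Ess (lattice d) (reg d n false \ An ω n) 0}

lemma mono (hM : T_MONW) (d : ℕ) : Monotone fun n => W d n ∪ L d n := by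
  intro n n' h ω hω
  rcases hω with ⟨h0, h1⟩ | ⟨h0, h1⟩
  · have h0' : (0 : Site d) ∉ An ω n' := (zero_notMem ω n').2 ((zero_notMem ω n).1 h0)
    refine Or.inl ⟨h0', (hM d n n' h (An ω n') h0').1 ?_⟩
    rw [sdiff_eq h]
    exact h1
  · have h0' : (0 : Site d) ∉ An ω n' := (zero_notMem ω n').2 ((zero_notMem ω n).1 h0)
    refine Or.inr ⟨h0', (hM d n n' h (An ω n') h0').2 ?_⟩
    rw [sdiff_eq h]
    exact h1

lemma disj (hD : T_DISJ) (d n : ℕ) : Disjoint (W d n) (L d n) := by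
  rw [Set.disjoint_left]
  rintro ω ⟨h0, h1⟩ ⟨-, h2⟩
  exact hD d n (An ω n) h0 ⟨h1, h2⟩

lemma draw (hQ : T_DRAWEQ) (d : ℕ) :
    drawEvent d = {ω : Site d → Bool | ω 0 = false} \ ⋃ n, (W d n ∪ L d n) := by
  ext ω
  simp only [drawEvent, Set.mem_ofPred_eq, Set.mem_sdiff, Set.mem_iUnion, Set.mem_union, W, L]
  constructor
  · rintro ⟨h0, h1⟩
    refine ⟨h0, ?_⟩
    rintro ⟨n, ⟨-, h2⟩ | ⟨-, h2⟩⟩
    · exact (((hQ d ω h0 (An ω) (mem_An ω)).1 h1) n).1 h2
    · exact h2 (((hQ d ω h0 (An ω) (mem_An ω)).1 h1) n).2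
  · rintro ⟨h0, h1⟩
    refine ⟨h0, (hQ d ω h0 (An ω) (mem_An ω)).2 fun n => ⟨fun h2 => ?_, ?_⟩⟩
    · exact h1 ⟨n, Or.inl ⟨(zero_notMem ω n).2 h0, h2⟩⟩
    · by_contra h2
      exact h1 ⟨n, Or.inr ⟨(zero_notMem ω n).2 h0, h2⟩⟩

end THETA_

open THETA_ in
theorem p_THETA : T_MONW → T_DISJ → T_DRAWEQ → T_LAW → T_THETA := by
  intro hM hD hQ hL d p hp0 hp1
  set μ : Measure (Site d → Bool) := law fun _ : Site d => p with hμ
  have huniv : μ.real Set.univ = 1 := by
    have h := (hL (Site d) ∅ (fun _ => True) p hp0 hp1).2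
    simp only [Set.ofPred_true] at h
    rw [h]
    simp [pr, wt]
  have : IsProbabilityMeasure μ := by
    constructor
    rw [Measure.real, ENNReal.toReal_eq_one_iff] at huniv
    exact huniv
  have h0 : μ.real {ω : Site d → Bool | ω 0 = false} = 1 - p := by
    have h := (hL (Site d) {0} (fun A => (0 : Site d) ∉ A) p hp0 hp1).2
    have h1 : {ω : Site d → Bool | (0 : Site d) ∉ ({0} : Finset (Site d)).filter
        fun x => ω x = true} = {ω : Site d → Bool | ω 0 = false} := by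
      ext ω
      simp
    rw [h1] at h
    rw [h]
    have h2 : ({0} : Finset (Site d)).powerset.filter (fun A => (0 : Site d) ∉ A) = {∅} := by
      ext A
      simp only [Finset.mem_filter, Finset.mem_powerset, Finset.subset_singleton_iff,
        Finset.mem_singleton]
      constructor
      · rintro ⟨rfl | rfl, h3⟩
        · rfl
        · simp at h3
      · rintro rfl
        simp
    have h3 : pr ({0} : Finset (Site d)) p (fun A => (0 : Site d) ∉ A) =
        ∑ A ∈ ({0} : Finset (Site d)).powerset.filter (fun A => (0 : Site d) ∉ A),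
          wt {0} p A := by
      unfold pr
      refine Finset.sum_congr ?_ fun _ _ => rfl
      ext A
      simp only [Finset.mem_filter]
    rw [h3, h2]
    simp [wt]
  have hWm : ∀ n, MeasurableSet (W d n) := fun n =>
    (hL (Site d) (bx d n) (fun A => (0 : Site d) ∉ A ∧
      Ess (lattice d) (reg d n true \ A) 0) p hp0 hp1).1
  have hLm : ∀ n, MeasurableSet (L d n) := fun n =>
    (hL (Site d) (bx d n) (fun A => (0 : Site d) ∉ A ∧
      ¬ Ess (lattice d) (reg d n false \ A) 0) p hp0 hp1).1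
  have hWr : ∀ n, μ.real (W d n) = wF d n p := fun n =>
    (hL (Site d) (bx d n) (fun A => (0 : Site d) ∉ A ∧
      Ess (lattice d) (reg d n true \ A) 0) p hp0 hp1).2
  have hLr : ∀ n, μ.real (L d n) = lF d n p := fun n =>
    (hL (Site d) (bx d n) (fun A => (0 : Site d) ∉ A ∧
      ¬ Ess (lattice d) (reg d n false \ A) 0) p hp0 hp1).2
  have hU : ∀ n, μ.real (W d n ∪ L d n) = wF d n p + lF d n p := by
    intro n
    rw [measureReal_union (disj hD d n) (hLm n), hWr, hLr]
  have hmeas : MeasurableSet (⋃ n, (W d n ∪ L d n)) :=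
    MeasurableSet.iUnion fun n => (hWm n).union (hLm n)
  have hsub : (⋃ n, (W d n ∪ L d n)) ⊆ {ω : Site d → Bool | ω 0 = false} := by
    intro ω hω
    rw [Set.mem_iUnion] at hω
    obtain ⟨n, ⟨h1, -⟩ | ⟨h1, -⟩⟩ := hω
    · exact (zero_notMem ω n).1 h1
    · exact (zero_notMem ω n).1 h1
  have hth : theta d p = (1 - p) - μ.real (⋃ n, (W d n ∪ L d n)) := by
    unfold theta
    rw [← hμ, draw hQ d, measureReal_sdiff hsub hmeas, h0]
  have hlim : Filter.Tendsto (fun n => μ.real (W d n ∪ L d n)) Filter.atTop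
      (nhds (μ.real (⋃ n, (W d n ∪ L d n)))) := by
    have h1 := tendsto_measure_iUnion_atTop (μ := μ) (mono hM d)
    exact (ENNReal.tendsto_toReal (measure_ne_top μ _)).comp h1
  rw [hth]
  have h2 := hlim.const_sub (1 - p)
  refine h2.congr fun n => ?_
  rw [hU]
  ring

end Pool.Agent.TRH

end
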