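import Pool.Agent.TRH.T1
import Pool.Agent.TRP.P_GAME
import Pool.Agent.TRP.P_MONO
import Pool.Agent.TRP.P_NU1
import Pool.Agent.TRP.P_NU2

set_option autoImplicit false

/-!
# TRH, block WINE
-/

open Pool.Agent.TRP

namespace Pool.Agent.TRH

theorem p_WINE (h : T_ESSNU) : T_WINE := by
  intro V _ G P hP L S O x hL hS hx N hN
  have hQ : Bip G (fun z => ¬ P z) := by
    intro a b hab
    have := hP a b hab
    simp only [this]
  have hxS := (hS x).1 hx
  have hg := p_GAME p_NU1 p_NU2 p_MONO V G P (fun z => ¬ P z) O hP hQ N S {x} x hN hx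
    (Finset.mem_singleton_self x) hxS.2
    (fun y hy hyx _ => ⟨((hS y).1 hy).2, by simpa using hyx⟩)
    (fun y hy hPy z hz hzO _ => (hS z).2 ⟨hL y ((hS y).1 hy).1 hPy z hz, hzO⟩)
  have he := h V G P hP S x hx
  exact ⟨fun hp hess => hg.1 (not_not_intro hp) (he.1 hess),
    fun hp hess => hg.2 hp (fun hlt => hess (he.2 hlt))⟩

end Pool.Agent.TRH
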