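import Pool.Agent.TRH.LIPC
import Pool.Agent.TRH.P_AGREE
import Pool.Agent.TRH.P_ANIM
import Pool.Agent.TRH.P_BCONN
import Pool.Agent.TRH.P_BINOM
import Pool.Agent.TRH.P_CBD
import Pool.Agent.TRH.P_CHN
import Pool.Agent.TRH.P_CONVG
import Pool.Agent.TRH.P_COUNT
import Pool.Agent.TRH.P_CUBES
import Pool.Agent.TRH.P_CUBF
import Pool.Agent.TRH.P_DET
import Pool.Agent.TRH.P_DISJ
import Pool.Agent.TRH.P_DRAWEQ
import Pool.Agent.TRH.P_ESSNU
import Pool.Agent.TRH.P_EXCH
import Pool.Agent.TRH.P_EXIT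
import Pool.Agent.TRH.P_EXPM
import Pool.Agent.TRH.P_FINAL
import Pool.Agent.TRH.P_GAIN
import Pool.Agent.TRH.P_HALF
import Pool.Agent.TRH.P_ISO
import Pool.Agent.TRH.P_KEY
import Pool.Agent.TRH.P_LATB
import Pool.Agent.TRH.P_LATT
import Pool.Agent.TRH.P_LAW
import Pool.Agent.TRH.P_LIPD
import Pool.Agent.TRH.P_LOC2
import Pool.Agent.TRH.P_MDIFF
import Pool.Agent.TRH.P_MONW
import Pool.Agent.TRH.P_NUM
import Pool.Agent.TRH.P_ONE
import Pool.Agent.TRH.P_OUT
import Pool.Agent.TRH.P_PRB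
import Pool.Agent.TRH.P_RADIUS
import Pool.Agent.TRH.P_REC
import Pool.Agent.TRH.P_REGION
import Pool.Agent.TRH.P_ROT
import Pool.Agent.TRH.P_ROTP
import Pool.Agent.TRH.P_STEP0
import Pool.Agent.TRH.P_STEP1
import Pool.Agent.TRH.P_SUPP
import Pool.Agent.TRH.P_THETA
import Pool.Agent.TRH.P_WINE

/-!
# Trap on site percolation of `ℤ^d`, `d ≥ 3`: the theorems without hypotheses
-/

set_option autoImplicit false

open MeasureTheory Pool.Agent.TRP

noncomputable section

namespace Pool.Agent.TRH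

theorem all_LATT : T_LATT := p_LATT

theorem all_REC : T_REC := p_REC all_LATT

theorem all_ESSNU : T_ESSNU := p_ESSNU all_LATT all_REC

theorem all_WINE : T_WINE := p_WINE all_ESSNU

theorem all_AGREE : T_AGREE := p_AGREE all_REC p_LATB

theorem all_DRAWEQ : T_DRAWEQ := p_DRAWEQ all_WINE all_AGREE p_CONVG p_LATB

theorem all_MONW : T_MONW := p_MONW all_WINE all_AGREE p_LATB

theorem all_REGION : T_REGION := p_REGION p_OUT p_LATB

theorem all_GAIN : T_GAIN := p_GAIN all_LATT p_LATB p_ROT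

theorem all_EXCH : T_EXCH := p_EXCH all_LATT

theorem all_STEP0 : T_STEP0 := p_STEP0 all_LATT p_LATB all_REGION all_GAIN

theorem all_STEP1 : T_STEP1 :=
  p_STEP1 all_LATT p_LATB all_REGION all_GAIN all_EXCH p_RADIUS

theorem all_ONE : T_ONE := p_ONE all_LATT

theorem all_CUBES : T_CUBES := p_CUBES p_BCONN p_CUBF

theorem all_CBD : T_CBD := p_CBD p_CUBF p_ISO

theorem all_MDIFF : T_MDIFF := p_MDIFF p_CUBF p_ISO

theorem all_COUNT : T_COUNT := p_COUNT p_EXIT p_CUBF all_CUBES p_ANIM all_CBD p_DET p_BINOM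

theorem all_ROTP : T_ROTP := p_ROTP all_LATT p_ROT p_SUPP p_PRB p_EXPM

theorem all_CHN : T_CHN := p_CHN p_CUBF p_PRB all_ROTP

theorem all_HALF : T_HALF := p_HALF p_CUBF all_COUNT p_PRB

theorem all_KEY : T_KEY :=
  p_KEY p_ROT p_CUBF all_CBD all_MDIFF all_COUNT p_PRB all_CHN p_NUM all_HALF

theorem all_LOC2 : T_LOC2 := p_LOC2 p_LIPD

theorem all_LIPW : T_LIPW :=
  p_LIPW all_MONW all_STEP0 all_STEP1 all_ONE p_PRB all_KEY p_LIPD all_LOC2

theorem all_DISJ : T_DISJ := p_DISJ all_WINE p_LATB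

theorem all_THETA : T_THETA := p_THETA all_MONW all_DISJ all_DRAWEQ p_LAW

theorem all_FINAL : T_FINAL := p_FINAL all_LIPW all_THETA

/-- The draw probability near `p = 0` in dimension at least three. -/
theorem theta_near_zero (d : ℕ) (hd : 3 ≤ d) :
    ∃ e C : ℝ, 0 < e ∧ e ≤ 1 / 2 ∧ 0 < C ∧ (∀ p, 0 ≤ p → p ≤ e → 0 < theta d p) ∧
      StrictAntiOn (theta d) (Set.Icc 0 e) ∧
      ∀ p q, 0 ≤ p → p ≤ q → q ≤ e →
        |(theta d p - theta d q) - (q - p)| ≤ C * q * (q - p) := by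
  obtain ⟨a, ha, ha', h1, h2⟩ := all_FINAL d hd
  obtain ⟨e0, C, r0, he0, he0', hC, hr0, h3, h4⟩ := lipc all_MONW all_STEP0 all_STEP1 all_ONE
    p_PRB all_KEY p_LIPD all_LOC2 d hd
  have hs := FINAL_.seq hr0
  refine ⟨min a e0, 2 * C, lt_min ha he0, (min_le_left _ _).trans ha', by linarith,
    fun p hp hpe => h1 p hp (hpe.trans (min_le_left _ _)), ?_, ?_⟩
  · intro p hp q hq hpq
    exact h2 p q hp.1 hpq (hq.2.trans (min_le_left _ _))
  · intro p q hp hpq hq
    have hq0 : q ≤ e0 := hq.trans (min_le_right _ _)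
    have tp := (all_THETA d p hp (by linarith)).comp hs
    have tq := (all_THETA d q (by linarith) (by linarith)).comp hs
    have ts := tp.sub tq
    have hb : ∀ J : ℕ, |wF d (r0 * 2 ^ J) p - wF d (r0 * 2 ^ J) q| ≤ C * q * (q - p) ∧
        |lF d (r0 * 2 ^ J) p - lF d (r0 * 2 ^ J) q| ≤ C * q * (q - p) :=
      fun J => h3 J p q hp hpq hq0
    rw [abs_le]
    constructor
    · have : q - p - 2 * C * q * (q - p) ≤ theta d p - theta d q := by
        refine ge_of_tendsto' ts fun J => ?_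
        obtain ⟨x, y⟩ := hb J
        rw [abs_le] at x y
        simp only [Function.comp_apply]
        linarith [x.1, x.2, y.1, y.2]
      linarith
    · have : theta d p - theta d q ≤ q - p + 2 * C * q * (q - p) := by
        refine le_of_tendsto' ts fun J => ?_
        obtain ⟨x, y⟩ := hb J
        rw [abs_le] at x y
        simp only [Function.comp_apply]
        linarith [x.1, x.2, y.1, y.2]
      linarith

end Pool.Agent.TRH
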