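import Pool.Agent.TRP.T1

/-!
# Trap on site percolation in dimension at least three: definitions

The game, the board and `theta` are those of `Pool.Agent.TRP.Defs`.
-/

set_option autoImplicit false

open MeasureTheory Pool.Agent.TRP

noncomputable section

namespace Pool.Agent.TRH

/-! ## Independent sets -/

/-- `I` is an independent set. -/
def Ind {V : Type} (G : SimpleGraph V) (I : Finset V) : Prop := ∀ x ∈ I, ∀ y ∈ I, ¬ G.Adj x y

open Classical in
/-- The largest size of an independent subset of `S`. -/
def alpha {V : Type} (G : SimpleGraph V) (S : Finset V) : ℕ :=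
  (S.powerset.filter (Ind G)).sup Finset.card

/-- `I` is a maximum independent subset of `S`. -/
def MaxInd {V : Type} (G : SimpleGraph V) (S I : Finset V) : Prop :=
  I ⊆ S ∧ Ind G I ∧ I.card = alpha G S

/-- `x` is avoided by some maximum independent subset of `S`. -/
def Ess {V : Type} [DecidableEq V] (G : SimpleGraph V) (S : Finset V) (x : V) : Prop :=
  alpha G (S.erase x) = alpha G S

/-! ## The lattice -/

/-- the sites -/
abbrev Site (d : ℕ) : Type := Fin d → ℤ

/-- the `2 d` unit vectors -/
def dv {d : ℕ} (e : Fin d × Bool) : Site d := if e.2 then Pi.single e.1 1 else -Pi.single e.1 1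

/-- The oriented boundary edges of `R`: the pairs `(y, e)` with `y ∈ R` and `y + e ∉ R`. -/
def bdry {d : ℕ} (R : Finset (Site d)) : Finset (Site d × (Fin d × Bool)) :=
  (R ×ˢ Finset.univ).filter fun q => q.1 + dv q.2 ∉ R

/-- `par true` are the even sites, `par false` the odd ones. -/
def par {d : ℕ} (b : Bool) (x : Site d) : Prop := Even (∑ i, x i) ↔ b = true

/-- the box -/
def bx (d n : ℕ) : Finset (Site d) := Fintype.piFinset fun _ => Finset.Icc (-(n : ℤ)) n

open Classical in
/-- The box without the sites of the other parity which have a neighbour outside. -/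
def reg (d n : ℕ) (b : Bool) : Finset (Site d) :=
  (bx d n).filter fun x => par b x ∨ ∀ e, x + dv e ∈ bx d n

/-- `y` can be reached from `x` by steps to neighbours in `X`. -/
def Joins {d : ℕ} (X : Set (Site d)) : Site d → Site d → Prop :=
  Relation.ReflTransGen fun u v => (∃ e, v = u + dv e) ∧ v ∈ X

/-- connected -/
def Conn {d : ℕ} (X : Set (Site d)) : Prop := ∀ x ∈ X, ∀ y ∈ X, Joins X x y

/-- `R` is connected, contains the origin, and its complement is connected. -/
def Good {d : ℕ} (R : Finset (Site d)) : Prop :=
  (0 : Site d) ∈ R ∧ Conn (R : Set (Site d)) ∧ Conn ((R : Set (Site d))ᶜ)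

/-- The number of steps in direction `-e` which one can make from `x` inside `R`. -/
def back {d : ℕ} (R : Finset (Site d)) (e : Fin d × Bool) (x : Site d) : ℕ :=
  sInf {k : ℕ | x - (k + 1) • dv e ∉ R}

/-- The rotation of `R` by one step along its maximal lines of direction `e`. -/
def rot {d : ℕ} (R : Finset (Site d)) (e : Fin d × Bool) (x : Site d) : Site d :=
  if x ∈ R then (if x + dv e ∈ R then x + dv e else x - back R e x • dv e) else x

/-- The last sites of the lines of direction `e` which are not in `A`. -/
def lastO {d : ℕ} (R A : Finset (Site d)) (e : Fin d × Bool) : Finset (Site d) :=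
  R.filter fun x => x + dv e ∉ R ∧ x ∉ A

/-- Rotating the environment in `R` increases the independence number, in every direction `e`, by
the number of open last sites. `A` is the set of closed sites, `L` the finite region. -/
def Gain {d : ℕ} (L A R : Finset (Site d)) : Prop :=
  ∀ e, alpha (lattice d) (L \ A) + (lastO R A e).card ≤
    alpha (lattice d) (L \ A.image (rot R e))

/-! ## Finite probability: the set `A` of closed sites of a finite set `F` -/

/-- weight of the set `A ⊆ F` of closed sites -/
def wt {V : Type} (F : Finset V) (p : ℝ) (A : Finset V) : ℝ :=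
  p ^ A.card * (1 - p) ^ (F.card - A.card)

/-- expectation -/
def ev {V : Type} (F : Finset V) (p : ℝ) (f : Finset V → ℝ) : ℝ :=
  ∑ A ∈ F.powerset, wt F p A * f A

open Classical in
/-- probability -/
def pr {V : Type} (F : Finset V) (p : ℝ) (E : Finset V → Prop) : ℝ :=
  ∑ A ∈ F.powerset.filter E, wt F p A

/-! ## Coarse graining -/

/-- The index of the cube of side `2 ^ j` which contains `x`. -/
def cub {d : ℕ} (j : ℕ) (x : Site d) : Site d := fun i => x i / 2 ^ j

/-- The cube of side `2 ^ j` with index `a`. -/
def cube {d : ℕ} (j : ℕ) (a : Site d) : Finset (Site d) :=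
  Fintype.piFinset fun i => Finset.Ico (2 ^ j * a i) (2 ^ j * (a i + 1))

/-- The indices of the cubes of side `2 ^ j` in which `R` has at least half of the sites. -/
def maj {d : ℕ} (j : ℕ) (R : Finset (Site d)) : Finset (Site d) :=
  (R.image (cub j)).filter fun a => 2 ^ (j * d) ≤ 2 * (R ∩ cube j a).card

/-- The union of the cubes of side `2 ^ j` with index in `M`. -/
def fat {d : ℕ} (j : ℕ) (M : Finset (Site d)) : Finset (Site d) := M.biUnion (cube j)

/-- king-connected -/
def KConn {d : ℕ} (W : Finset (Site d)) : Prop :=
  ∀ a ∈ W, ∀ b ∈ W, Relation.ReflTransGen (fun u v => v ∈ W ∧ ∀ i, |u i - v i| ≤ 1) a b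

end Pool.Agent.TRH
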