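import Pool.Agent.TRH.P_LIPW

/-!
# Trap in dimension at least three: the two probabilities, quadratic form of the estimate
-/

set_option autoImplicit false

open MeasureTheory Pool.Agent.TRP

noncomputable section

namespace Pool.Agent.TRH

open LIPW_ in
/-- The probabilities `wF` and `lF` change by at most `C q (q - p)` between `p` and `q`. -/
theorem lipc (hM : T_MONW) (h0 : T_STEP0) (hS : T_STEP1) (h1 : T_ONE) (hP : T_PRB) (hK : T_KEY)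
    (hL : T_LIPD) (hLoc : T_LOC2) (d : ℕ) (hd : 3 ≤ d) :
    ∃ (e0 C : ℝ) (r0 : ℕ), 0 < e0 ∧ e0 ≤ 1 / 2 ∧ 0 < C ∧ 1 ≤ r0 ∧
    (∀ (J : ℕ) (p q : ℝ), 0 ≤ p → p ≤ q → q ≤ e0 →
      |wF d (r0 * 2 ^ J) p - wF d (r0 * 2 ^ J) q| ≤ C * q * (q - p) ∧
      |lF d (r0 * 2 ^ J) p - lF d (r0 * 2 ^ J) q| ≤ C * q * (q - p)) ∧
    (∀ n, wF d n 0 = 0 ∧ lF d n 0 = 0) := by
  obtain ⟨p0, m0, hp0, hp0', hm0, hK'⟩ := hK d hd
  have hd2 : 2 ≤ d := by omega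
  obtain ⟨C, hC, hC'⟩ := hLoc (Site d) (bx d m0) (Ev d m0 true)
    (fun A _ hA => two_le h0 h1 d m0 hd2 true A hA)
  obtain ⟨C₂, hC₂, hC₂'⟩ := hLoc (Site d) (bx d m0) (Ev d m0 false)
    (fun A _ hA => two_le h0 h1 d m0 hd2 false A hA)
  set Q : ℝ := C + C₂ + 4 * 5 ^ d with hQ
  have hQ0 : 0 < Q := by positivity
  have hmain : ∀ (b : Bool) (C' : ℝ), 0 ≤ C' → C' + 4 * 5 ^ d ≤ Q →
      (∀ p q : ℝ, 0 ≤ p → p ≤ q → q ≤ 1 / 2 →
        |pr (bx d m0) p (Ev d m0 b) - pr (bx d m0) q (Ev d m0 b)| ≤ C' * q * (q - p)) →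
      ∀ (J : ℕ) (p q : ℝ), 0 ≤ p → p ≤ q → q ≤ p0 →
        |pr (bx d (m0 * 2 ^ J)) p (Ev d (m0 * 2 ^ J) b) -
          pr (bx d (m0 * 2 ^ J)) q (Ev d (m0 * 2 ^ J) b)| ≤ Q * q * (q - p) := by
    intro b C' hC0 hCQ hloc J p q hp hpq hq1
    have hq0 : 0 ≤ q := hp.trans hpq
    have h2 := steps_le hM hS hP hL d hd p0 m0 hm0 hp0' hK' b p q hp hpq hq1 J
    have h3 := hloc p q hp hpq (by linarith)
    have h4 : 2 * 5 ^ d * q * (q - p) * (2 - 2 / 4 ^ J) ≤ 4 * 5 ^ d * q * (q - p) := by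
      have h5 : (0 : ℝ) ≤ 2 / 4 ^ J := by positivity
      have h6 : 0 ≤ 2 * 5 ^ d * q * (q - p) := by
        have : 0 ≤ q - p := by linarith
        positivity
      nlinarith
    have h9 : 0 ≤ q * (q - p) := mul_nonneg hq0 (by linarith)
    calc _ ≤ _ := h2
      _ ≤ C' * q * (q - p) + 4 * 5 ^ d * q * (q - p) := add_le_add h3 h4
      _ = (C' + 4 * 5 ^ d) * (q * (q - p)) := by ring
      _ ≤ Q * (q * (q - p)) := mul_le_mul_of_nonneg_right hCQ h9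
      _ = Q * q * (q - p) := by ring
  refine ⟨p0, Q, m0, hp0, hp0', hQ0, hm0, ?_, ?_⟩
  · intro J p q hp hpq hq
    rw [wF_eq, wF_eq, lF_eq, lF_eq]
    exact ⟨hmain true C hC (by rw [hQ]; linarith) hC' J p q hp hpq hq,
      hmain false C₂ hC₂ (by rw [hQ]; linarith) hC₂' J p q hp hpq hq⟩
  · intro n
    rw [wF_eq, lF_eq]
    exact ⟨pr_zero h0 h1 d n hd2 true, pr_zero h0 h1 d n hd2 false⟩

end Pool.Agent.TRH
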