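import Pool.Agent.TRH.T2

/-!
# TRH EXIT: a boundary edge on the first axis
-/

set_option autoImplicit false

open Pool.Agent.TRP

noncomputable section

namespace Pool.Agent.TRH

namespace EXIT_

/-- every nonempty slice has a boundary edge in another direction -/
theorem slice {d : ℕ} (R : Finset (Site d)) (i k : Fin d) (hik : i ≠ k) (s : ℤ)
    (h : ∃ y ∈ R, y i = s) : ∃ y ∈ R, y i = s ∧ y + dv (k, true) ∉ R := by
  classical
  obtain ⟨y0, hy0, hs0⟩ := h
  have hne : (R.filter fun y => y i = s).Nonempty := ⟨y0, Finset.mem_filter.2 ⟨hy0, hs0⟩⟩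
  obtain ⟨y, hy, hmax⟩ := Finset.exists_max_image (R.filter fun y => y i = s)
    (fun y => y k) hne
  rw [Finset.mem_filter] at hy
  refine ⟨y, hy.1, hy.2, fun hc => ?_⟩
  have h1 := hmax (y + dv (k, true)) (by
    rw [Finset.mem_filter]
    refine ⟨hc, ?_⟩
    simp [dv, hik, hy.2])
  simp [dv] at h1

theorem coord {d : ℕ} (i : Fin d) (s : ℕ) : (s • dv (i, true) : Site d) i = (s : ℤ) := by
  simp [dv]

end EXIT_

theorem p_EXIT : T_EXIT := by
  classical
  intro d h R hd h0
  have hex : ∃ n : ℕ, ((n + 1) • dv (⟨0, h⟩, true) : Site d) ∉ R := by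
    by_contra hc
    push Not at hc
    have hinf : Set.Infinite (R : Set (Site d)) := by
      refine Set.infinite_of_injective_forall_mem
        (f := fun n : ℕ => ((n + 1) • dv (⟨0, h⟩, true) : Site d)) ?_ hc
      intro a b hab
      have h1 := congrFun hab ⟨0, h⟩
      simp only [EXIT_.coord] at h1
      have h2 : a + 1 = b + 1 := by exact_mod_cast h1
      omega
    exact hinf R.finite_toSet
  have hmin : ∀ s ≤ Nat.find hex, (s • dv (⟨0, h⟩, true) : Site d) ∈ R := by
    intro s hs
    rcases Nat.eq_zero_or_pos s with h1 | h1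
    · rw [h1, zero_smul]
      exact h0
    · have h2 := Nat.find_min hex (m := s - 1) (by omega)
      rw [not_not] at h2
      have h3 : s - 1 + 1 = s := by omega
      rwa [h3] at h2
  have hspec := Nat.find_spec hex
  set t := Nat.find hex with ht
  refine ⟨t, ?_, ?_⟩
  · have hne : (⟨0, h⟩ : Fin d) ≠ ⟨1, by omega⟩ := by
      intro hc
      have := congrArg Fin.val hc
      simp at this
    have hch : ∀ s : ℕ, s ≤ t → ∃ y ∈ R, y ⟨0, h⟩ = (s : ℤ) ∧
        y + dv (⟨1, by omega⟩, true) ∉ R := by
      intro s hs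
      exact EXIT_.slice R ⟨0, h⟩ ⟨1, by omega⟩ hne s
        ⟨_, hmin s hs, EXIT_.coord _ _⟩
    choose! f hf1 hf2 hf3 using hch
    have hcard : (Finset.range (t + 1)).card ≤ (bdry R).card := by
      refine Finset.card_le_card_of_injOn
        (fun s => ((f s, (⟨1, by omega⟩, true)) : Site d × (Fin d × Bool))) ?_ ?_
      · intro s hs
        have hs' : s ≤ t := by
          have := Finset.mem_range.1 (Finset.mem_coe.1 hs)
          omega
        rw [Finset.mem_coe]
        unfold bdry
        rw [Finset.mem_filter, Finset.mem_product]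
        exact ⟨⟨hf1 s hs', Finset.mem_univ _⟩, hf3 s hs'⟩
      · intro a ha b hb hab
        have ha' : a ≤ t := by
          have := Finset.mem_range.1 (Finset.mem_coe.1 ha)
          omega
        have hb' : b ≤ t := by
          have := Finset.mem_range.1 (Finset.mem_coe.1 hb)
          omega
        have h1 : f a = f b := congrArg Prod.fst hab
        have h2 := hf2 a ha'
        rw [h1, hf2 b hb'] at h2
        exact_mod_cast h2.symm
    rwa [Finset.card_range] at hcard
  · unfold bdry
    rw [Finset.mem_filter, Finset.mem_product]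
    refine ⟨⟨hmin t le_rfl, Finset.mem_univ _⟩, ?_⟩
    have h1 : (t • dv (⟨0, h⟩, true) + dv (⟨0, h⟩, true) : Site d) =
        (t + 1) • dv (⟨0, h⟩, true) := by
      rw [add_smul, one_smul]
    simp only
    rw [h1]
    exact hspec

end Pool.Agent.TRH
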