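import Pool.Agent.TRH.T1
import Pool.Agent.TRH.T2
import Pool.Agent.TRH.T3
import Pool.Agent.TRH.T4

/-!
# Trap in dimension at least three: the win probabilities are Lipschitz with small constant
-/

set_option autoImplicit false

open MeasureTheory Pool.Agent.TRP

noncomputable section

namespace Pool.Agent.TRH

namespace LIPW_

/-- The origin is open and decided in the region `reg d n b`. -/
def Ev (d n : ℕ) (b : Bool) (A : Finset (Site d)) : Prop :=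
  (0 : Site d) ∉ A ∧ ((b = true ∧ Ess (lattice d) (reg d n true \ A) 0) ∨
    (b = false ∧ ¬ Ess (lattice d) (reg d n false \ A) 0))

/-- The same for `n'` but not for `n`. -/
def Dl (d n n' : ℕ) (b : Bool) (A : Finset (Site d)) : Prop := Ev d n' b A ∧ ¬ Ev d n b A

lemma wF_eq (d n : ℕ) (p : ℝ) : wF d n p = pr (bx d n) p (Ev d n true) := by
  unfold wF
  congr 1
  funext A
  simp [Ev]

lemma lF_eq (d n : ℕ) (p : ℝ) : lF d n p = pr (bx d n) p (Ev d n false) := by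
  unfold lF
  congr 1
  funext A
  simp [Ev]

lemma zero_mem_bx (d n : ℕ) : (0 : Site d) ∈ bx d n := by
  unfold bx
  rw [Fintype.mem_piFinset]
  intro i
  simp

lemma reg_sub_bx (d n : ℕ) (b : Bool) : reg d n b ⊆ bx d n := by
  classical
  unfold reg
  exact Finset.filter_subset _ _

lemma bx_mono (d : ℕ) {n n' : ℕ} (h : n ≤ n') : bx d n ⊆ bx d n' := by
  intro x hx
  unfold bx at hx ⊢
  rw [Fintype.mem_piFinset] at hx ⊢
  intro i
  have h1 := Finset.mem_Icc.1 (hx i)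
  have h2 : (n : ℤ) ≤ n' := by exact_mod_cast h
  rw [Finset.mem_Icc]
  constructor <;> linarith [h1.1, h1.2]

lemma bx_card (d n : ℕ) : (bx d n).card = (2 * n + 1) ^ d := by
  unfold bx
  rw [Fintype.card_piFinset]
  simp only [Int.card_Icc, Finset.prod_const, Finset.card_univ, Fintype.card_fin]
  congr 1
  omega

lemma sdiff_inter_bx (d n : ℕ) (b : Bool) (A : Finset (Site d)) :
    reg d n b \ (A ∩ bx d n) = reg d n b \ A := by
  ext x
  simp only [Finset.mem_sdiff, Finset.mem_inter, not_and]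
  constructor
  · rintro ⟨h1, h2⟩
    exact ⟨h1, fun h => h2 h (reg_sub_bx d n b h1)⟩
  · rintro ⟨h1, h2⟩
    exact ⟨h1, fun h => absurd h h2⟩

lemma Ev_inter (d n : ℕ) (b : Bool) (A : Finset (Site d)) :
    Ev d n b A ↔ Ev d n b (A ∩ bx d n) := by
  unfold Ev
  rw [sdiff_inter_bx, sdiff_inter_bx, Finset.mem_inter]
  simp [zero_mem_bx]

lemma pr_add {V : Type} (F : Finset V) (p : ℝ) (E E' : Finset V → Prop)
    (h : ∀ A, E A → E' A) : pr F p E' = pr F p E + pr F p (fun A => E' A ∧ ¬ E A) := by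
  classical
  unfold pr
  rw [Finset.sum_filter, Finset.sum_filter, Finset.sum_filter, ← Finset.sum_add_distrib]
  refine Finset.sum_congr rfl fun A _ => ?_
  by_cases h1 : E A
  · have h2 := h A h1
    simp [h1, h2]
  · by_cases h2 : E' A
    · simp [h1, h2]
    · simp [h1, h2]

lemma Ev_mono (hM : T_MONW) (d : ℕ) {n n' : ℕ} (hn : n ≤ n') (b : Bool) (A : Finset (Site d))
    (h : Ev d n b A) : Ev d n' b A := by
  obtain ⟨h0, h1⟩ := h
  have h2 := hM d n n' hn A h0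
  refine ⟨h0, ?_⟩
  rcases h1 with ⟨hb, h1⟩ | ⟨hb, h1⟩
  · exact Or.inl ⟨hb, h2.1 h1⟩
  · exact Or.inr ⟨hb, h2.2 h1⟩

lemma step_eq (hM : T_MONW) (hP : T_PRB) (d : ℕ) {n n' : ℕ} (hn : n ≤ n') (b : Bool) (p : ℝ) :
    pr (bx d n') p (Ev d n' b) = pr (bx d n) p (Ev d n b) + pr (bx d n') p (Dl d n n' b) := by
  rw [pr_add (bx d n') p (Ev d n b) (Ev d n' b) (Ev_mono hM d hn b)]
  congr 1
  exact (hP (Site d) (bx d n) p).2.2.2.2.2.1 (bx d n') (Ev d n b) (Ev d n b) (bx_mono d hn)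
    fun A _ => Ev_inter d n b A

lemma two_le (h0 : T_STEP0) (h1 : T_ONE) (d n : ℕ) (hd : 2 ≤ d) (b : Bool)
    (A : Finset (Site d)) (h : Ev d n b A) : 2 ≤ A.card := by
  obtain ⟨R, hR, -, hz, hb, hG⟩ := h0 d n b A hd h.1 h.2
  exact (h1 d b _ A R hd hR hz hb hG).trans (Finset.card_le_card Finset.inter_subset_left)

lemma pr_zero (h0 : T_STEP0) (h1 : T_ONE) (d n : ℕ) (hd : 2 ≤ d) (b : Bool) :
    pr (bx d n) 0 (Ev d n b) = 0 := by
  classical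
  unfold pr
  refine Finset.sum_eq_zero fun A hA => ?_
  have h2 := two_le h0 h1 d n hd b A (Finset.mem_filter.1 hA).2
  unfold wt
  rw [zero_pow (by omega), zero_mul]

lemma tail (d n M : ℕ) (hn : 1 ≤ n) (hM : n ≤ M) :
    ∑ m ∈ Finset.Ioc n M, 1 / (m : ℝ) ^ (d + 3) ≤ 1 / (n : ℝ) ^ (d + 2) := by
  have hn0 : (0 : ℝ) < n := by exact_mod_cast hn
  have h1 : ∑ m ∈ Finset.Ioc n M, 1 / (m : ℝ) ^ (d + 3) ≤
      ∑ m ∈ Finset.Ioc n M, 1 / (n : ℝ) ^ (d + 1) * ((m : ℝ) ^ 2)⁻¹ := by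
    refine Finset.sum_le_sum fun m hm => ?_
    have hm1 : (n : ℝ) ≤ m := by exact_mod_cast (Finset.mem_Ioc.1 hm).1.le
    have hm0 : (0 : ℝ) < m := lt_of_lt_of_le hn0 hm1
    have h2 : (m : ℝ) ^ (d + 3) = (m : ℝ) ^ (d + 1) * (m : ℝ) ^ 2 := by ring
    rw [h2, one_div, one_div, mul_inv]
    refine mul_le_mul_of_nonneg_right ?_ (by positivity)
    exact inv_anti₀ (by positivity) (pow_le_pow_left₀ hn0.le hm1 _)
  refine h1.trans ?_
  rw [← Finset.mul_sum]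
  have h3 := sum_Ioc_inv_sq_le_sub (α := ℝ) (by omega : n ≠ 0) hM
  have h4 : ∑ m ∈ Finset.Ioc n M, ((m : ℝ) ^ 2)⁻¹ ≤ (n : ℝ)⁻¹ := by
    have h5 : (0 : ℝ) ≤ (M : ℝ)⁻¹ := by positivity
    linarith
  calc 1 / (n : ℝ) ^ (d + 1) * ∑ m ∈ Finset.Ioc n M, ((m : ℝ) ^ 2)⁻¹
      ≤ 1 / (n : ℝ) ^ (d + 1) * (n : ℝ)⁻¹ := mul_le_mul_of_nonneg_left h4 (by positivity)
    _ = 1 / (n : ℝ) ^ (d + 2) := by
      rw [one_div, one_div, ← mul_inv, ← pow_succ]

lemma bdry_le {d : ℕ} (R X : Finset (Site d)) (h : R ⊆ X) :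
    (bdry R).card ≤ (X ×ˢ (Finset.univ : Finset (Fin d × Bool))).card := by
  refine Finset.card_le_card fun q hq => ?_
  unfold bdry at hq
  have h1 := (Finset.mem_filter.1 hq).1
  rw [Finset.mem_product] at h1 ⊢
  exact ⟨h h1.1, h1.2⟩

/-- The probability of the difference. -/
lemma Dl_le (hS : T_STEP1) (hP : T_PRB) (d : ℕ) (hd : 3 ≤ d) (p0 : ℝ) (m0 : ℕ)
    (hp0 : p0 ≤ 1 / 2)
    (hK : ∀ (p : ℝ) (m n : ℕ) (b : Bool), 0 < p → p ≤ p0 → m0 ≤ m →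
      pr (bx d n) p (fun A => ∃ R, R ⊆ reg d n b ∧ Good R ∧ (bdry R).card = m ∧
        Gain (reg d n b) A R) ≤ p ^ 2 / (m : ℝ) ^ (d + 3))
    (n n' : ℕ) (b : Bool) (hn : n ≤ n') (h1 : 1 ≤ n) (hm : m0 ≤ n) (t : ℝ) (ht : 0 < t)
    (ht' : t ≤ p0) : pr (bx d n') t (Dl d n n' b) ≤ t ^ 2 / (n : ℝ) ^ (d + 2) := by
  set M := n + (bx d n' ×ˢ (Finset.univ : Finset (Fin d × Bool))).card with hMdef
  have hU := (hP (Site d) (bx d n') t).2.2.2.2.2.2.2.1 ht.le (by linarith) ℕ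
    (Finset.Ioc n M) (Dl d n n' b)
    (fun m A => ∃ R, R ⊆ reg d n' b ∧ Good R ∧ (bdry R).card = m ∧ Gain (reg d n' b) A R)
    (by
      intro A _ hA
      obtain ⟨⟨h0, hE⟩, hN⟩ := hA
      have hyp : (b = true ∧ Ess (lattice d) (reg d n' true \ A) 0 ∧
            ¬ Ess (lattice d) (reg d n true \ A) 0) ∨
          (b = false ∧ ¬ Ess (lattice d) (reg d n' false \ A) 0 ∧
            Ess (lattice d) (reg d n false \ A) 0) := by
        rcases hE with ⟨hb, hE⟩ | ⟨hb, hE⟩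
        · refine Or.inl ⟨hb, hE, fun h => hN ⟨h0, Or.inl ⟨hb, h⟩⟩⟩
        · refine Or.inr ⟨hb, hE, ?_⟩
          by_contra h
          exact hN ⟨h0, Or.inr ⟨hb, h⟩⟩
      obtain ⟨R, hR, hGd, hc, hG⟩ := hS d n n' b A (by omega) hn h0 hyp
      refine ⟨(bdry R).card, Finset.mem_Ioc.2 ⟨by omega, ?_⟩, R, hR, hGd, rfl, hG⟩
      have := bdry_le R (bx d n') (hR.trans (reg_sub_bx d n' b))
      omega)
  refine hU.trans ?_
  calc ∑ m ∈ Finset.Ioc n M, pr (bx d n') t (fun A => ∃ R, R ⊆ reg d n' b ∧ Good R ∧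
        (bdry R).card = m ∧ Gain (reg d n' b) A R)
      ≤ ∑ m ∈ Finset.Ioc n M, t ^ 2 * (1 / (m : ℝ) ^ (d + 3)) := by
        refine Finset.sum_le_sum fun m hm' => ?_
        have := hK t m n' b ht ht' (by have := (Finset.mem_Ioc.1 hm').1; omega)
        rw [mul_one_div]
        exact this
    _ = t ^ 2 * ∑ m ∈ Finset.Ioc n M, 1 / (m : ℝ) ^ (d + 3) := by rw [Finset.mul_sum]
    _ ≤ t ^ 2 * (1 / (n : ℝ) ^ (d + 2)) :=
        mul_le_mul_of_nonneg_left (tail d n M h1 (by omega)) (by positivity)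
    _ = t ^ 2 / (n : ℝ) ^ (d + 2) := by rw [mul_one_div]

/-- One doubling step. -/
lemma step_le (hM : T_MONW) (hS : T_STEP1) (hP : T_PRB) (hL : T_LIPD) (d : ℕ) (hd : 3 ≤ d)
    (p0 : ℝ) (m0 : ℕ) (hp0 : p0 ≤ 1 / 2)
    (hK : ∀ (p : ℝ) (m n : ℕ) (b : Bool), 0 < p → p ≤ p0 → m0 ≤ m →
      pr (bx d n) p (fun A => ∃ R, R ⊆ reg d n b ∧ Good R ∧ (bdry R).card = m ∧
        Gain (reg d n b) A R) ≤ p ^ 2 / (m : ℝ) ^ (d + 3))
    (n : ℕ) (b : Bool) (h1 : 1 ≤ n) (hm : m0 ≤ n) (p q : ℝ) (hp : 0 ≤ p) (hpq : p ≤ q)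
    (hq : q ≤ p0) :
    |pr (bx d (2 * n)) p (Ev d (2 * n) b) - pr (bx d (2 * n)) q (Ev d (2 * n) b)| ≤
      |pr (bx d n) p (Ev d n b) - pr (bx d n) q (Ev d n b)| +
        2 * 5 ^ d * q * (q - p) / (n : ℝ) ^ 2 := by
  have hn0 : (1 : ℝ) ≤ n := by exact_mod_cast h1
  have hn : n ≤ 2 * n := by omega
  rw [step_eq hM hP d hn b p, step_eq hM hP d hn b q]
  have hq0 : 0 ≤ q := hp.trans hpq
  have hB : 0 ≤ q / (n : ℝ) ^ (d + 2) := by positivity
  have h2 := hL (Site d) (bx d (2 * n)) (Dl d n (2 * n) b) p q (q / (n : ℝ) ^ (d + 2)) hp hpq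
    (by linarith) hB (by
      intro t ht ht'
      have ht0 : 0 < t := lt_of_le_of_lt hp ht
      refine (Dl_le hS hP d hd p0 m0 hp0 hK n (2 * n) b hn h1 hm t ht0 (by linarith)).trans ?_
      rw [div_mul_eq_mul_div]
      refine div_le_div_of_nonneg_right ?_ (by positivity)
      nlinarith)
  have h3 : 2 * ((bx d (2 * n)).card : ℝ) * (q / (n : ℝ) ^ (d + 2)) * (q - p) ≤
      2 * 5 ^ d * q * (q - p) / (n : ℝ) ^ 2 := by
    have h4 : ((bx d (2 * n)).card : ℝ) ≤ 5 ^ d * (n : ℝ) ^ d := by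
      rw [bx_card]
      push_cast
      rw [← mul_pow]
      exact pow_le_pow_left₀ (by positivity) (by linarith) _
    have h5 : 2 * 5 ^ d * q * (q - p) / (n : ℝ) ^ 2 =
        2 * (5 ^ d * (n : ℝ) ^ d) * (q / (n : ℝ) ^ (d + 2)) * (q - p) := by
      have : (n : ℝ) ^ (d + 2) = (n : ℝ) ^ d * (n : ℝ) ^ 2 := by ring
      rw [this]
      field_simp
    rw [h5]
    have h6 : 0 ≤ (q / (n : ℝ) ^ (d + 2)) * (q - p) := mul_nonneg hB (by linarith)
    nlinarith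
  calc _ = |(pr (bx d n) p (Ev d n b) - pr (bx d n) q (Ev d n b)) +
        (pr (bx d (2 * n)) p (Dl d n (2 * n) b) - pr (bx d (2 * n)) q (Dl d n (2 * n) b))| := by
        congr 1
        ring
    _ ≤ _ := (abs_add_le _ _).trans (add_le_add le_rfl (h2.trans h3))

/-- All steps. -/
lemma steps_le (hM : T_MONW) (hS : T_STEP1) (hP : T_PRB) (hL : T_LIPD) (d : ℕ) (hd : 3 ≤ d)
    (p0 : ℝ) (m0 : ℕ) (hm0 : 1 ≤ m0) (hp0 : p0 ≤ 1 / 2)
    (hK : ∀ (p : ℝ) (m n : ℕ) (b : Bool), 0 < p → p ≤ p0 → m0 ≤ m →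
      pr (bx d n) p (fun A => ∃ R, R ⊆ reg d n b ∧ Good R ∧ (bdry R).card = m ∧
        Gain (reg d n b) A R) ≤ p ^ 2 / (m : ℝ) ^ (d + 3))
    (b : Bool) (p q : ℝ) (hp : 0 ≤ p) (hpq : p ≤ q) (hq : q ≤ p0) (J : ℕ) :
    |pr (bx d (m0 * 2 ^ J)) p (Ev d (m0 * 2 ^ J) b) -
        pr (bx d (m0 * 2 ^ J)) q (Ev d (m0 * 2 ^ J) b)| ≤
      |pr (bx d m0) p (Ev d m0 b) - pr (bx d m0) q (Ev d m0 b)| +
        2 * 5 ^ d * q * (q - p) * (2 - 2 / 4 ^ J) := by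
  induction J with
  | zero => simp
  | succ J ih =>
    have e : m0 * 2 ^ (J + 1) = 2 * (m0 * 2 ^ J) := by ring
    rw [e]
    have hq0 : 0 ≤ q := hp.trans hpq
    have h2J : 1 ≤ 2 ^ J := Nat.one_le_two_pow
    have h1 : 1 ≤ m0 * 2 ^ J := Nat.mul_pos hm0 h2J
    have h2 : m0 ≤ m0 * 2 ^ J := Nat.le_mul_of_pos_right _ h2J
    have h3 := step_le hM hS hP hL d hd p0 m0 hp0 hK (m0 * 2 ^ J) b h1 h2 p q hp hpq hq
    have h4 : 2 * 5 ^ d * q * (q - p) / ((m0 * 2 ^ J : ℕ) : ℝ) ^ 2 ≤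
        2 * 5 ^ d * q * (q - p) * (1 / 4 ^ J) := by
      rw [mul_one_div]
      refine div_le_div_of_nonneg_left ?_ (by positivity) ?_
      · have : 0 ≤ q - p := by linarith
        positivity
      · push_cast
        rw [mul_pow, ← pow_mul, mul_comm J 2, pow_mul]
        have h5 : (1 : ℝ) ≤ (m0 : ℝ) ^ 2 := one_le_pow₀ (by exact_mod_cast hm0)
        have h6 : ((2 : ℝ) ^ 2) ^ J = 4 ^ J := by norm_num
        rw [h6]
        have h7 : (0 : ℝ) < 4 ^ J := by positivity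
        nlinarith
    have h8 : 2 * 5 ^ d * q * (q - p) * (1 / 4 ^ J) +
        2 * 5 ^ d * q * (q - p) * (2 - 2 / 4 ^ J) ≤
        2 * 5 ^ d * q * (q - p) * (2 - 2 / 4 ^ (J + 1)) := by
      rw [← mul_add]
      refine mul_le_mul_of_nonneg_left ?_ ?_
      · have h9 : (0 : ℝ) < 4 ^ J := by positivity
        have h10 : (2 : ℝ) / 4 ^ (J + 1) = (1 / 2) * (1 / 4 ^ J) := by
          rw [pow_succ]
          field_simp
          norm_num
        have h11 : (2 : ℝ) / 4 ^ J = 2 * (1 / 4 ^ J) := by rw [mul_one_div]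
        have h12 : (0 : ℝ) < 1 / 4 ^ J := by positivity
        rw [h10, h11]
        linarith
      · have : 0 ≤ q - p := by linarith
        positivity
    linarith

end LIPW_

open LIPW_ in
theorem p_LIPW : T_MONW → T_STEP0 → T_STEP1 → T_ONE → T_PRB → T_KEY → T_LIPD → T_LOC2 →
    T_LIPW := by
  intro hM h0 hS h1 hP hK hL hLoc d hd
  obtain ⟨p0, m0, hp0, hp0', hm0, hK'⟩ := hK d hd
  have hd2 : 2 ≤ d := by omega
  obtain ⟨C, hC, hC'⟩ := hLoc (Site d) (bx d m0) (Ev d m0 true)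
    (fun A _ hA => two_le h0 h1 d m0 hd2 true A hA)
  obtain ⟨C₂, hC₂, hC₂'⟩ := hLoc (Site d) (bx d m0) (Ev d m0 false)
    (fun A _ hA => two_le h0 h1 d m0 hd2 false A hA)
  set Q : ℝ := C + C₂ + 4 * 5 ^ d with hQ
  have hQ0 : 0 < Q := by positivity
  have hmain : ∀ (b : Bool) (C' : ℝ), 0 ≤ C' → C' + 4 * 5 ^ d ≤ Q →
      (∀ p q : ℝ, 0 ≤ p → p ≤ q → q ≤ 1 / 2 →
        |pr (bx d m0) p (Ev d m0 b) - pr (bx d m0) q (Ev d m0 b)| ≤ C' * q * (q - p)) →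
      ∀ (J : ℕ) (p q : ℝ), 0 ≤ p → p ≤ q → q ≤ min p0 (1 / (4 * Q)) →
        |pr (bx d (m0 * 2 ^ J)) p (Ev d (m0 * 2 ^ J) b) -
          pr (bx d (m0 * 2 ^ J)) q (Ev d (m0 * 2 ^ J) b)| ≤ (q - p) / 4 := by
    intro b C' hC0 hCQ hloc J p q hp hpq hq
    have hq1 : q ≤ p0 := hq.trans (min_le_left _ _)
    have hq2 : q ≤ 1 / (4 * Q) := hq.trans (min_le_right _ _)
    have hq0 : 0 ≤ q := hp.trans hpq
    have h2 := steps_le hM hS hP hL d hd p0 m0 hm0 hp0' hK' b p q hp hpq hq1 J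
    have h3 := hloc p q hp hpq (by linarith)
    have h4 : 2 * 5 ^ d * q * (q - p) * (2 - 2 / 4 ^ J) ≤ 4 * 5 ^ d * q * (q - p) := by
      have h5 : (0 : ℝ) ≤ 2 / 4 ^ J := by positivity
      have h6 : 0 ≤ 2 * 5 ^ d * q * (q - p) := by
        have : 0 ≤ q - p := by linarith
        positivity
      nlinarith
    have h7 : Q * q ≤ 1 / 4 := by
      rw [le_div_iff₀ (by positivity)] at hq2
      linarith
    have h8 : (C' + 4 * 5 ^ d) * q ≤ 1 / 4 :=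
      (mul_le_mul_of_nonneg_right hCQ hq0).trans h7
    have h9 : 0 ≤ q - p := by linarith
    have h10 := mul_le_mul_of_nonneg_right h8 h9
    calc _ ≤ _ := h2
      _ ≤ C' * q * (q - p) + 4 * 5 ^ d * q * (q - p) := add_le_add h3 h4
      _ = (C' + 4 * 5 ^ d) * q * (q - p) := by ring
      _ ≤ 1 / 4 * (q - p) := h10
      _ = (q - p) / 4 := by ring
  refine ⟨min p0 (1 / (4 * Q)), m0, lt_min hp0 (by positivity), (min_le_left _ _).trans hp0',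
    hm0, ?_, ?_⟩
  · intro J p q hp hpq hq
    rw [wF_eq, wF_eq, lF_eq, lF_eq]
    exact ⟨hmain true C hC (by rw [hQ]; linarith) hC' J p q hp hpq hq,
      hmain false C₂ hC₂ (by rw [hQ]; linarith) hC₂' J p q hp hpq hq⟩
  · intro n
    rw [wF_eq, lF_eq]
    exact ⟨pr_zero h0 h1 d n hd2 true, pr_zero h0 h1 d n hd2 false⟩

end Pool.Agent.TRH
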