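import Pool.Agent.TRH.T4

/-!
# Trap in dimension at least three: PRB, basic facts on finite product weights
-/

set_option autoImplicit false

open MeasureTheory Pool.Agent.TRP

noncomputable section

namespace Pool.Agent.TRH

namespace PRB_

variable {V : Type}

lemma wt_nn (F : Finset V) {p : ℝ} (h0 : 0 ≤ p) (h1 : p ≤ 1) (A : Finset V) : 0 ≤ wt F p A :=
  mul_nonneg (pow_nonneg h0 _) (pow_nonneg (by linarith) _)

lemma ev_congr (F : Finset V) (p : ℝ) {f g : Finset V → ℝ} (h : ∀ A, A ⊆ F → f A = g A) :
    ev F p f = ev F p g :=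
  Finset.sum_congr rfl fun A hA => by rw [h A (Finset.mem_powerset.1 hA)]

lemma ev_one (F : Finset V) (p : ℝ) : (ev F p fun _ => 1) = 1 := by
  unfold ev wt
  simp only [mul_one]
  rw [Finset.sum_pow_mul_eq_add_pow]
  have h : p + (1 - p) = 1 := by ring
  rw [h, one_pow]

lemma ev_const (F : Finset V) (p c : ℝ) : (ev F p fun _ => c) = c := by
  have h1 := ev_one F p
  unfold ev at h1 ⊢
  rw [← Finset.sum_mul]
  simp only [mul_one] at h1
  rw [h1, one_mul]

lemma ev_mono (F : Finset V) {p : ℝ} (h0 : 0 ≤ p) (h1 : p ≤ 1) {f g : Finset V → ℝ}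
    (h : ∀ A, A ⊆ F → f A ≤ g A) : ev F p f ≤ ev F p g :=
  Finset.sum_le_sum fun A hA =>
    mul_le_mul_of_nonneg_left (h A (Finset.mem_powerset.1 hA)) (wt_nn F h0 h1 A)

lemma pr_eq (F : Finset V) (p : ℝ) (E : Finset V → Prop) [DecidablePred E] :
    pr F p E = ev F p fun A => if E A then 1 else 0 := by
  unfold pr ev
  rw [Finset.sum_filter]
  refine Finset.sum_congr rfl fun A _ => ?_
  by_cases h : E A
  · simp [h]
  · simp [h]

lemma ev_insert [DecidableEq V] (S : Finset V) (x : V) (hx : x ∉ S) (p : ℝ) (f : Finset V → ℝ) :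
    ev (insert x S) p f = (1 - p) * ev S p f + p * ev S p fun A => f (insert x A) := by
  unfold ev
  rw [Finset.sum_powerset_insert hx, Finset.mul_sum, Finset.mul_sum]
  congr 1
  · refine Finset.sum_congr rfl fun A hA => ?_
    have h1 := Finset.card_le_card (Finset.mem_powerset.1 hA)
    unfold wt
    rw [Finset.card_insert_of_notMem hx]
    have h2 : S.card + 1 - A.card = (S.card - A.card) + 1 := by omega
    rw [h2, pow_succ]
    ring
  · refine Finset.sum_congr rfl fun A hA => ?_
    have h1 : x ∉ A := fun h => hx (Finset.mem_powerset.1 hA h)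
    unfold wt
    rw [Finset.card_insert_of_notMem hx, Finset.card_insert_of_notMem h1, pow_succ,
      Nat.add_sub_add_right]
    ring

lemma ev_union [DecidableEq V] (S T : Finset V) (p : ℝ) (f : Finset V → ℝ) (h : Disjoint S T) :
    ev (S ∪ T) p f = ev T p fun B => ev S p fun C => f (B ∪ C) := by
  induction T using Finset.induction_on generalizing f with
  | empty =>
    have h1 : ∀ g : Finset V → ℝ, ev (∅ : Finset V) p g = g ∅ := by
      intro g
      unfold ev wt
      simp
    rw [h1, Finset.union_empty]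
    simp only [Finset.empty_union]
  | insert x T hx ih =>
    rw [Finset.disjoint_insert_right] at h
    rw [Finset.union_insert, ev_insert (S ∪ T) x (by
      rw [Finset.mem_union]
      exact fun hh => hh.elim h.1 hx), ih f h.2, ih _ h.2, ev_insert T x hx]
    simp only [Finset.insert_union]

lemma pr_bUnion (F : Finset V) {p : ℝ} (h0 : 0 ≤ p) (h1 : p ≤ 1) (T : Type) (I : Finset T)
    (E : Finset V → Prop) (E' : T → Finset V → Prop)
    (h : ∀ A, A ⊆ F → E A → ∃ t ∈ I, E' t A) : pr F p E ≤ ∑ t ∈ I, pr F p (E' t) := by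
  classical
  have h2 : ∑ t ∈ I, pr F p (E' t) = ev F p fun A => ∑ t ∈ I, if E' t A then 1 else 0 := by
    unfold ev
    simp_rw [Finset.mul_sum]
    rw [Finset.sum_comm]
    refine Finset.sum_congr rfl fun t _ => ?_
    rw [pr_eq]
    rfl
  rw [h2, pr_eq]
  refine ev_mono F h0 h1 fun A hA => ?_
  split_ifs with hE
  · obtain ⟨t, ht, htA⟩ := h A hA hE
    calc (1 : ℝ) = if E' t A then 1 else 0 := (if_pos htA).symm
      _ ≤ ∑ t ∈ I, if E' t A then 1 else 0 :=
        Finset.single_le_sum (f := fun t => if E' t A then (1 : ℝ) else 0)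
          (fun t _ => by split_ifs <;> norm_num) ht
  · exact Finset.sum_nonneg fun t _ => by split_ifs <;> norm_num

end PRB_

open PRB_ in
/-- PRB. -/
theorem p_PRB : T_PRB := by
  classical
  intro V _ F p
  refine ⟨ev_one F p, fun E _ => pr_eq F p E, fun h0 h1 f g h => ev_mono F h0 h1 h,
    fun h0 h1 E E' E'' h => ?_, fun S T f h => ev_union S T p f h, fun F' E E' hF h => ?_,
    fun σ f hσ => ?_, fun h0 h1 T I E E' h => pr_bUnion F h0 h1 T I E E' h,
    fun h0 h1 E => ⟨?_, ?_⟩⟩
  · have h2 := pr_bUnion F h0 h1 Bool Finset.univ E (fun b => if b then E' else E'')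
      (fun A hA hE => by
        rcases h A hA hE with h3 | h3
        · exact ⟨true, Finset.mem_univ _, by simpa using h3⟩
        · exact ⟨false, Finset.mem_univ _, by simpa using h3⟩)
    rw [Fintype.sum_bool] at h2
    simpa using h2
  · have e : F' = (F' \ F) ∪ F := (Finset.sdiff_union_of_subset hF).symm
    rw [pr_eq F' p E', pr_eq F p E, e, ev_union _ _ _ _ Finset.sdiff_disjoint]
    refine ev_congr F p fun B hB => ?_
    rw [← ev_const (F' \ F) p (if E B then 1 else 0)]
    refine ev_congr _ p fun C hC => ?_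
    have h3 : (B ∪ C) ∩ F = B := by
      ext x
      rw [Finset.mem_inter, Finset.mem_union]
      constructor
      · rintro ⟨h4 | h4, h5⟩
        · exact h4
        · exact absurd h5 (Finset.mem_sdiff.1 (hC h4)).2
      · intro h4
        exact ⟨Or.inl h4, hB h4⟩
    have h6 := h (B ∪ C) (Finset.union_subset (hB.trans hF)
      (hC.trans Finset.sdiff_subset))
    rw [h3] at h6
    by_cases h7 : E B
    · rw [if_pos h7, if_pos (h6.2 h7)]
    · rw [if_neg h7, if_neg (fun hh => h7 (h6.1 hh))]
  · have hσ' : ∀ x, σ.symm x ∈ F ↔ x ∈ F := by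
      intro x
      rw [← hσ (σ.symm x), Equiv.apply_symm_apply]
    unfold ev
    refine Finset.sum_nbij' (fun A => A.image σ) (fun A => A.image σ.symm) ?_ ?_ ?_ ?_ ?_
    · intro A hA
      rw [Finset.mem_powerset] at hA ⊢
      intro y hy
      obtain ⟨x, hx, rfl⟩ := Finset.mem_image.1 hy
      exact (hσ x).2 (hA hx)
    · intro A hA
      rw [Finset.mem_powerset] at hA ⊢
      intro y hy
      obtain ⟨x, hx, rfl⟩ := Finset.mem_image.1 hy
      exact (hσ' x).2 (hA hx)
    · intro A _
      rw [Finset.image_image]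
      simp
    · intro A _
      rw [Finset.image_image]
      simp
    · intro A _
      unfold wt
      rw [Finset.card_image_of_injective _ σ.injective]
  · rw [pr_eq]
    have h2 := ev_mono F h0 h1 (f := fun _ => 0) (g := fun A => if E A then 1 else 0)
      (fun A _ => by split_ifs <;> norm_num)
    rw [ev_const] at h2
    exact h2
  · rw [pr_eq]
    have h2 := ev_mono F h0 h1 (f := fun A => if E A then 1 else 0) (g := fun _ => 1)
      (fun A _ => by split_ifs <;> norm_num)
    rw [ev_const] at h2
    exact h2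

end Pool.Agent.TRH
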