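import Pool.Agent.TRH.Defs

/-!
# Trap in dimension at least three: targets, part 1 (independent sets and the game)

Every target is a `Prop` with a complete proof in its docstring. Any other target may be taken as
a hypothesis.
-/

set_option autoImplicit false

open MeasureTheory Pool.Agent.TRP

noncomputable section

namespace Pool.Agent.TRH

/-- LATT. Basic facts. `alpha` is a maximum over a nonempty finite set (`∅` is independent).
Fourth part: delete the elements of `S \ T` from a maximum independent set of `S`.
Fifth part (`P` is one side of a bipartition): let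
`K = {x ∈ I ∩ J : P x} ∪ {x ∈ I ∪ J : ¬ P x}`, `K' = {x ∈ I ∪ J : P x} ∪ {x ∈ I ∩ J : ¬ P x}`.
Both are independent (an edge has one end in `P` and one outside; in `K` the end in `P` is in both
sets, and the other one is in one of them), `|K| + |K'| = |I| + |J| = 2 alpha`, and both have at
most `alpha` elements, so both have exactly `alpha`. -/
def T_LATT : Prop :=
  ∀ (V : Type) [DecidableEq V] (G : SimpleGraph V),
    (∀ S : Finset V, ∃ I, MaxInd G S I) ∧
    (∀ S I : Finset V, I ⊆ S → Ind G I → I.card ≤ alpha G S) ∧
    (∀ S T : Finset V, S ⊆ T → alpha G S ≤ alpha G T) ∧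
    (∀ S T : Finset V, alpha G S ≤ alpha G T + (S \ T).card) ∧
    (∀ P : V → Prop, Bip G P → ∀ S I J : Finset V, MaxInd G S I → MaxInd G S J →
      ∃ K, MaxInd G S K ∧ (∀ x ∈ K, P x → x ∈ I ∧ x ∈ J) ∧
        (∀ x, (x ∈ I ∨ x ∈ J) → ¬ P x → x ∈ K))

/-- REC. The recursion (from `T_LATT`). (←) If every maximum independent set of `S.erase x`
contains `y` (this is `¬ Ess (S.erase x) y`, because one which avoids `y` is an independent subset
of `(S.erase x).erase y`) and `alpha S ≠ alpha (S.erase x)`, then
`alpha S = alpha (S.erase x) + 1`, a maximum independent set `J` of `S` contains `x`, and `J \ {x}`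
is a maximum independent set of `S.erase x` without `y` (`y` is adjacent to `x`). (→) Suppose that
`Ess (S.erase x) y` for all neighbours `y` of `x` in `S.erase x`: each of them is avoided by a
maximum independent set of `S.erase x`. All neighbours of `x` satisfy `P'` where `P' z` is
`P z ↔ ¬ P x` (`Bip G P'`). By induction on a set of neighbours and the fifth part of `T_LATT` for
`P'`, one maximum independent set of `S.erase x` avoids all of them; add `x` to it:
`alpha S ≥ alpha (S.erase x) + 1`. -/
def T_REC : Prop :=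
  ∀ (V : Type) [DecidableEq V] (G : SimpleGraph V) (P : V → Prop), Bip G P →
    ∀ (S : Finset V) (x : V), x ∈ S →
      (Ess G S x ↔ ∃ y ∈ S.erase x, G.Adj x y ∧ ¬ Ess G (S.erase x) y)

/-- ESSNU. `Ess` is the same as 'essential for matchings', by induction on the size of `S`:
`T_REC` here and `TRP.T_NU2` (with monotonicity of `nu`, `TRP.T_NU1`, so that
`nu ((S.erase x).erase y) = nu (S.erase x)` iff not `<`) are the same recursion. -/
def T_ESSNU : Prop :=
  ∀ (V : Type) [DecidableEq V] (G : SimpleGraph V) (P : V → Prop), Bip G P →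
    ∀ (S : Finset V) (x : V), x ∈ S → (Ess G S x ↔ nu G P (S.erase x) < nu G P S)

/-- WINE. `L` is a finite region, all neighbours of its sites outside `P` lie in `L`; `O` is the
set of open sites, `x ∈ L ∩ O`. The player who moves from the sites in `P` stays in `L`. This is
`TRP.T_GAME` (proved: `TRP.p_GAME` with its hypotheses `p_NU1`, `p_NU2`, `p_MONO`) for
`Q := fun z => ¬ P z`, `S = L.filter (· ∈ O)`, `R = {x}`, together with `T_ESSNU` and
monotonicity of `Win`, `Lose` in `n`. -/
def T_WINE : Prop :=
  ∀ (V : Type) [DecidableEq V] (G : SimpleGraph V) (P : V → Prop), Bip G P →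
    ∀ (L S : Finset V) (O : Set V) (x : V), (∀ y ∈ L, ¬ P y → ∀ z, G.Adj y z → z ∈ L) →
      (∀ y, y ∈ S ↔ y ∈ L ∧ y ∈ O) → x ∈ S → ∀ N : ℕ, S.card ≤ N →
        (P x → Ess G S x → Win (brd G O) N {x} x) ∧
        (¬ P x → ¬ Ess G S x → Lose (brd G O) N {x} x)

/-- AGREE. If the finite set `S` agrees near `u` with the open unvisited sites, then a forced win
within `n` moves decides `Ess`. Radius `2 n` (sup norm) for `Win n`, `2 n + 1` for `Lose n`.
Induction on `n` by `T_REC`. `Win 0` is false. `Win (n+1) R u` gives a legal `y` with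
`Lose n (insert y R) y` (definition of `Win`), `y ∈ S.erase u`; the induction hypothesis for
`S.erase u`, `insert y R`, `y` (agreement within `2 n + 1` of `y`: for `z = u` both sides are
false since `u ∈ R`; otherwise `z` is within `2 n + 2` of `u`) gives `¬ Ess (S.erase u) y`, hence
`Ess S u`. `Lose n R u`: for every neighbour `y ∈ S.erase u`, `y` is legal, `Win n (insert y R) y`,
and `Ess (S.erase u) y` by the part for `Win n`; hence `¬ Ess S u`. -/
def T_AGREE : Prop :=
  ∀ (d : ℕ) (n : ℕ) (S R : Finset (Site d)) (O : Set (Site d)) (u : Site d),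
    u ∈ S → u ∈ R → u ∈ O →
    ((∀ z, (∀ i, |z i - u i| ≤ 2 * n) → z ≠ u → (z ∈ S ↔ z ∈ O ∧ z ∉ R)) →
      Win (brd (lattice d) O) n R u → Ess (lattice d) S u) ∧
    ((∀ z, (∀ i, |z i - u i| ≤ 2 * n + 1) → z ≠ u → (z ∈ S ↔ z ∈ O ∧ z ∉ R)) →
      Lose (brd (lattice d) O) n R u → ¬ Ess (lattice d) S u)

/-- CONVG. Converse of `TRP.T_STRAT` for locally finite graphs. Call `(S, x)` hopeless if
`¬ Win G n S x` for all `n`. If `(S, x)` is hopeless and `y` is legal, then there is a legal `z`
after `y` with `(insert z (insert y S), z)` hopeless: otherwise every legal `z` (finitely many)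
has some `n_z` with `Win n_z`, and with `n` the maximum `Win (n+1) S x` (monotonicity
`TRP.T_MONO`). First part: if `({v}, v)` is hopeless, then against every strategy of the first
player the second one moves at `(S, y)` to such a `z` (a legal one whenever there is one,
otherwise any legal move, otherwise anything). At every even time, as long as the play is not
stuck, the position is hopeless, and after a move of the first player there is a legal move; so
the play never ends at an odd time. Second part: if `Lose G n {v} v` fails for all `n`, some legal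
`y` has `¬ Win G n (insert y {v}) y` for all `n` (finitely many `y`, monotonicity); the first
player moves there (his strategy depends only on the position; the position `({v}, v)` occurs only
at time `0`) and then plays as above with the roles exchanged: the play never ends at an even
time. -/
def T_CONVG : Prop :=
  ∀ (V : Type) [DecidableEq V] (G : SimpleGraph V), (∀ x, {y | G.Adj x y}.Finite) → ∀ v : V,
    (FirstWins G v → ∃ n, Win G n {v} v) ∧ (SecondWins G v → ∃ n, Lose G n {v} v)

/-- LATB. The lattice. `Adj x y` means that `y - x` is one of the `2 d` vectors `dv e`. -/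
def T_LATB : Prop :=
  ∀ d : ℕ, (∀ x y : Site d, (lattice d).Adj x y ↔ ∃ e, y = x + dv e) ∧
    (∀ b, Bip (lattice d) (par b)) ∧ (∀ x : Site d, {y | (lattice d).Adj x y}.Finite) ∧
    (∀ e : Fin d × Bool, dv e ≠ (0 : Site d) ∧ dv (e.1, !e.2) = -(dv e : Site d)) ∧
    (∀ (x : Site d) (b : Bool), par b x ↔ ¬ par (!b) x) ∧ par true (0 : Site d) ∧
    (∀ (n : ℕ) (x : Site d), x ∈ bx d n ↔ ∀ i, |x i| ≤ n) ∧
    (∀ (n n' : ℕ) (b : Bool), n ≤ n' → reg d n b ⊆ reg d n' b ∧ bx d n ⊆ bx d n' ∧
      reg d n b ⊆ bx d n) ∧
    (∀ (n : ℕ) (b : Bool), ∀ x ∈ reg d n b, ¬ par b x → ∀ e, x + dv e ∈ reg d n b) ∧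
    (∀ n, (0 : Site d) ∈ reg d n true) ∧ (∀ n, 1 ≤ n → (0 : Site d) ∈ reg d n false) ∧
    (∀ (n : ℕ) (b : Bool) (x : Site d), (∀ i, |x i| ≤ n) → x ∈ reg d (n + 1) b)

/-- DRAWEQ. `A n` is the set of closed sites of the box. (→) `Ess (reg d n true \ A n) 0` gives
`Win` by `T_WINE` (`P = par true`, `L = reg d n true`, `O` the open sites) and `FirstWins` by
`TRP.T_STRAT` (`TRP.p_STRAT`); `¬ Ess (reg d n false \ A n) 0` implies
`0 ∈ reg d n false \ A n` (otherwise `erase` changes nothing) and gives `Lose` and `SecondWins`.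
(←) If the first player wins, `Win N {0} 0` for some `N` by `T_CONVG`, and `T_AGREE` with
`S = reg d (2 N + 1) true \ A _`, `R = {0}` gives `Ess` (`T_LATB`, last part); the same for the
second player with `S = reg d (2 N + 2) false \ A _` and `¬ Ess`. -/
def T_DRAWEQ : Prop :=
  ∀ (d : ℕ) (ω : Site d → Bool), ω 0 = false → ∀ A : ℕ → Finset (Site d),
    (∀ n x, x ∈ A n ↔ x ∈ bx d n ∧ ω x = true) →
    (IsDraw (brd (lattice d) {x | ω x = false}) 0 ↔
      ∀ n, ¬ Ess (lattice d) (reg d n true \ A n) 0 ∧ Ess (lattice d) (reg d n false \ A n) 0)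

/-- MONW. A forced win in a region stays one in a larger region. Board
`O = ↑(reg d n' b \ A)`, `L = reg d n b`: `T_WINE` gives `Win (brd _ O) N {0} 0`
(`Lose` for `b = false`), then `T_AGREE` with `S = reg d n' b \ A`, `R = {0}` (agreement
everywhere). -/
def T_MONW : Prop :=
  ∀ (d n n' : ℕ), n ≤ n' → ∀ A : Finset (Site d), (0 : Site d) ∉ A →
    (Ess (lattice d) (reg d n true \ A) 0 → Ess (lattice d) (reg d n' true \ A) 0) ∧
    (¬ Ess (lattice d) (reg d n false \ A) 0 → ¬ Ess (lattice d) (reg d n' false \ A) 0)

end Pool.Agent.TRH
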